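import Pool.Agent.RI.Stmts

/-!
# LAY: the layers are Galois over `ℚ` and totally real
-/

open NumberField

namespace Pool.Agent.RI

namespace LAY

/-- A subfield of the field generated by the roots of unity of order dividing `N` is abelian. -/
lemma isAbelian_of_le {F E : Type} [Field F] [Field E] [Algebra F E] (N : ℕ) (hN : N ≠ 0)
    (hr : ∃ r : E, IsPrimitiveRoot r N) (B : IntermediateField F E)
    (hB : B ≤ IntermediateField.adjoin F {z : E | z ^ N = 1}) : IsAbelianGalois F B := by
  have h := IntermediateField.isCyclotomicExtension_adjoin_of_exists_isPrimitiveRoot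
    ({N} : Set ℕ) F E (fun n hn _ => by
      rw [Set.mem_singleton_iff] at hn
      rw [hn]
      exact hr)
  have hset : {x : E | ∃ n ∈ ({N} : Set ℕ), n ≠ 0 ∧ x ^ n = 1} = {z : E | z ^ N = 1} := by
    ext x
    simp [hN]
  rw [hset] at h
  have h2 : IsAbelianGalois F (IntermediateField.adjoin F {z : E | z ^ N = 1}) :=
    IsCyclotomicExtension.isAbelianGalois {N} F _
  exact IsAbelianGalois.of_algHom (IntermediateField.inclusion hB)

lemma mem_of_normal {F E : Type} [Field F] [Field E] [Algebra F E] (B : IntermediateField F E)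
    [Normal F B] (φ : B →ₐ[F] E) (x : B) : φ x ∈ B := by
  have h : φ x ∈ φ.fieldRange := ⟨x, rfl⟩
  have h1 : φ.fieldRange ≤ B := le_of_eq (AlgHom.fieldRange_of_normal φ)
  exact h1 h

end LAY

theorem LAY_thm : LAY := by
  intro p n hp B hB
  obtain ⟨hdeg, hreal, m, hle⟩ := hB
  have hN : p ^ m ≠ 0 := pow_ne_zero m hp.out.ne_zero
  have hB := LAY.isAbelian_of_le (p ^ m) hN ⟨_, Complex.isPrimitiveRoot_exp _ hN⟩ B hle
  have hG := hB.toIsGalois
  have hn := hG.to_normal
  refine ⟨Module.finite_of_finrank_pos (by rw [hdeg]; exact pow_pos hp.out.pos n), ?_, ?_⟩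
  · have key : ∀ a b : Algebra ℚ B, @IsGalois ℚ _ B _ a → @IsGalois ℚ _ B _ b := by
      intro a b h
      rw [Subsingleton.elim b a]
      exact h
    exact key _ _ hG
  · intro φ x
    exact hreal _ (@LAY.mem_of_normal ℚ ℂ _ _ _ B hn (@RingHom.toRatAlgHom _ _ _ _ _ _ φ) x)

end Pool.Agent.RI
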