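import Pool.Agent.RI.Stmts

/-!
# Relative Iwasawa theorem: translation between `extendScalars` and `algC`
-/

open NumberField

namespace Pool.Agent.RI

/-- `extendScalars h` and `K` are the same extension of `F`. -/
noncomputable def extEquiv {F K : IntermediateField ℚ ℂ} (h : F ≤ K) :
    letI := algC h
    (IntermediateField.extendScalars h) ≃ₐ[F] K :=
  letI := algC h
  { toFun := fun x => ⟨x.1, x.2⟩
    invFun := fun x => ⟨x.1, x.2⟩
    left_inv := fun _ => rfl
    right_inv := fun _ => rfl
    map_mul' := fun _ _ => rfl
    map_add' := fun _ _ => rfl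
    commutes' := fun _ => rfl }

@[simp] lemma extEquiv_coe {F K : IntermediateField ℚ ℂ} (h : F ≤ K)
    (x : IntermediateField.extendScalars h) : ((extEquiv h x : K) : ℂ) = (x : ℂ) := rfl

lemma isGalois_algC {F K : IntermediateField ℚ ℂ} (h : F ≤ K) :
    (letI := algC h; IsGalois F K) ↔ IsGalois F (IntermediateField.extendScalars h) := by
  letI := algC h
  constructor
  · intro hg
    exact IsGalois.of_algEquiv (extEquiv h).symm
  · intro hg
    exact IsGalois.of_algEquiv (extEquiv h)

lemma finrank_algC {F K : IntermediateField ℚ ℂ} (h : F ≤ K) :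
    (letI := algC h; Module.finrank F K) =
      Module.finrank F (IntermediateField.extendScalars h) := by
  letI := algC h
  exact (extEquiv h).symm.toLinearEquiv.finrank_eq

/-- Towers of inclusions. -/
lemma towerC {E F K : IntermediateField ℚ ℂ} (h : E ≤ F) (h' : F ≤ K) :
    @IsScalarTower E F K (algC h).toSMul (algC h').toSMul (algC (h.trans h')).toSMul := by
  letI := algC h
  letI := algC h'
  letI := algC (h.trans h')
  exact IsScalarTower.of_algebraMap_eq (fun _ => rfl)

end Pool.Agent.RI
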