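import Pool.Agent.RI.Defs

/-!
# Relative Iwasawa theorem: statements of the modules

Every `def X : Prop` is the statement of a module; the module proves `theorem X_thm : X`
(possibly from other modules as hypotheses).
-/

open NumberField Finset IsDedekindDomain
open scoped nonZeroDivisors Pointwise

namespace Pool.Agent.RI

/-! ### Algebra -/

/-- HERB: a finitely generated abelian group `E` with an automorphism of order `p`, trivial `H¹`
and rank `p` times the rank of the invariants: invariants are norms (Herbrand quotient one). -/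
def HERB : Prop := ∀ (p : ℕ) [Fact p.Prime] (A G : Type) [CommGroup A] [Group G]
    [MulDistribMulAction G A] (g : G) (E E' : Subgroup A), g ^ p = 1 → E.FG →
    (∀ u ∈ E, g • u ∈ E) → (∀ u, u ∈ E' ↔ u ∈ E ∧ g • u = u) →
    (∀ u ∈ E, ∏ i ∈ range p, g ^ i • u = 1 → ∃ v ∈ E, u = v / g • v) →
    Module.finrank ℤ (Additive E) = p * Module.finrank ℤ (Additive E') →
    ∀ e ∈ E', ∃ η ∈ E, e = ∏ i ∈ range p, g ^ i • η

/-- ABSH: the relative units have trivial `H¹` at `p`. -/
def ABSH : Prop := ∀ (p : ℕ) [Fact p.Prime] (A I G D : Type) [CommGroup A] [CommGroup I]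
    [Group G] [Group D] [Fintype D] [MulDistribMulAction G A] [MulDistribMulAction G I]
    (ρ : D →* G) (g : G) (dv : A →* I), (Fintype.card D).Coprime p → g ^ p = 1 →
    (∀ δ : D, ρ δ * g = g * ρ δ) → (∀ (σ : G) (x : A), dv (σ • x) = σ • dv x) →
    (∀ x : A, ∏ i ∈ range p, g ^ i • x = 1 → ∃ y : A, x = y / g • y) →
    (∀ b : I, g • b = b → ∏ δ : D, ρ δ • b = 1 →
      ∃ m : ℕ, m.Coprime p ∧ ∃ γ : A, g • γ = γ ∧ b ^ m = dv γ) →
    ∀ u : A, dv u = 1 → ∏ δ : D, ρ δ • u = 1 → ∏ i ∈ range p, g ^ i • u = 1 →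
      ∃ m : ℕ, m.Coprime p ∧ ∃ v : A, dv v = 1 ∧ ∏ δ : D, ρ δ • v = 1 ∧ u ^ m = v / g • v

/-- ABS: the step for class groups, in abstract form. -/
def ABS : Prop := ∀ (p : ℕ) [Fact p.Prime] (A I G D : Type) [CommGroup A] [CommGroup I]
    [Group G] [Group D] [Fintype D] [MulDistribMulAction G A] [MulDistribMulAction G I]
    (ρ : D →* G) (g : G) (dv : A →* I), (Fintype.card D).Coprime p → g ^ p = 1 →
    (∀ δ : D, ρ δ * g = g * ρ δ) → (∀ (σ : G) (x : A), dv (σ • x) = σ • dv x) →
    (∀ x : A, ∏ i ∈ range p, g ^ i • x = 1 → ∃ y : A, x = y / g • y) →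
    (∀ b : I, g • b = b → ∏ δ : D, ρ δ • b = 1 →
      ∃ m : ℕ, m.Coprime p ∧ ∃ γ : A, g • γ = γ ∧ b ^ m = dv γ) →
    (∀ e : A, dv e = 1 → g • e = e → ∏ δ : D, ρ δ • e = 1 →
      ∃ m : ℕ, m.Coprime p ∧ ∃ η : A, dv η = 1 ∧ e ^ m = ∏ i ∈ range p, g ^ i • η) →
    Finite (I ⧸ dv.range) →
    ∀ c : I, ∏ δ : D, ρ δ • c = 1 → ∃ m : ℕ, m.Coprime p ∧ ∃ x : A, c ^ m = dv x

/-! ### Ideals -/

/-- COUNTACT: exponents of the conjugate ideal. -/
def COUNTACT : Prop := ∀ (F K : Type) [Field F] [Field K] [NumberField K] [Algebra F K]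
    (σ : K ≃ₐ[F] K) (v w : HeightOneSpectrum (𝓞 K)), w.asIdeal = σ • v.asIdeal → ∀ c : J K,
    FractionalIdeal.count K w ((σ • c : J K) : FractionalIdeal (𝓞 K)⁰ K) =
      FractionalIdeal.count K v (c : FractionalIdeal (𝓞 K)⁰ K)

/-- COUNTEXT: exponents of the extended ideal. -/
def COUNTEXT : Prop := ∀ (K L : Type) [Field K] [NumberField K] [Field L] [NumberField L]
    [Algebra K L] (v : HeightOneSpectrum (𝓞 K)) (w : HeightOneSpectrum (𝓞 L)),
    w.asIdeal.under (𝓞 K) = v.asIdeal → ∀ c : J K,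
    FractionalIdeal.count L w ((ext K L c : J L) : FractionalIdeal (𝓞 L)⁰ L) =
      (w.asIdeal.ramificationIdx (𝓞 K) : ℤ) *
        FractionalIdeal.count K v (c : FractionalIdeal (𝓞 K)⁰ K)

/-- INVI: an ideal of `L` invariant under `Gal(L / K)` without ramified primes comes from `K`. -/
def INVI : Prop := ∀ (K L : Type) [Field K] [NumberField K] [Field L] [NumberField L]
    [Algebra K L] [IsGalois K L] (b : J L), (∀ τ : L ≃ₐ[K] L, τ • b = b) →
    (∀ w : HeightOneSpectrum (𝓞 L), w.asIdeal.ramificationIdx (𝓞 K) ≠ 1 →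
      FractionalIdeal.count L w (b : FractionalIdeal (𝓞 L)⁰ L) = 0) →
    ∃ c : J K, ext K L c = b

/-- EXTACT: extension of ideals commutes with the Galois action. -/
def EXTACT : Prop := ∀ (F K M L : Type) [Field F] [Field K] [NumberField K] [Field M] [Field L]
    [NumberField L] [Algebra F K] [Algebra K L] [Algebra M L] (σ : L ≃ₐ[M] L) (σ' : K ≃ₐ[F] K),
    (∀ x : K, algebraMap K L (σ' x) = σ (algebraMap K L x)) → ∀ c : J K,
    ext K L (σ' • c) = σ • ext K L c

/-- CL: for `K / F` Galois of degree prime to `p`, the class numbers of `K` and `F` are divisible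
by the same power of `p` iff the relative class group has trivial `p`-part. -/
def CL : Prop := ∀ (p : ℕ) [Fact p.Prime] (F K : Type) [Field F] [NumberField F] [Field K]
    [NumberField K] [Algebra F K] [IsGalois F K], (Module.finrank F K).Coprime p →
    (padicValNat p (NumberField.classNumber K) = padicValNat p (NumberField.classNumber F) ↔
      RelTriv F K p)

/-! ### The square `F ⊆ K, M ⊆ L` -/

/-- `L = K M`, `K / F` Galois of degree prime to `p`, `M / F` Galois of degree `p`. -/
structure Square (p : ℕ) (F K M L : Type) [Field F] [NumberField F] [Field K] [NumberField K]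
    [Field M] [NumberField M] [Field L] [NumberField L] [Algebra F K] [Algebra F M] [Algebra F L]
    [Algebra K L] [Algebra M L] [IsScalarTower F K L] [IsScalarTower F M L] : Prop where
  galK : IsGalois F K
  galM : IsGalois F M
  galL : IsGalois F L
  cop : (Module.finrank F K).Coprime p
  degM : Module.finrank F M = p
  degL : Module.finrank K L = p

/-- SQ: Galois theory of the square. -/
def SQ : Prop := ∀ (p : ℕ) [Fact p.Prime] (F K M L : Type) [Field F] [NumberField F] [Field K]
    [NumberField K] [Field M] [NumberField M] [Field L] [NumberField L] [Algebra F K]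
    [Algebra F M] [Algebra F L] [Algebra K L] [Algebra M L] [IsScalarTower F K L]
    [IsScalarTower F M L], Square p F K M L →
    IsGalois K L ∧ IsGalois M L ∧ Module.finrank M L = Module.finrank F K ∧
    (∀ (σ : L ≃ₐ[M] L) (τ : L ≃ₐ[K] L) (x : L), σ (τ x) = τ (σ x)) ∧
    ∃ ρ : (L ≃ₐ[M] L) ≃* (K ≃ₐ[F] K), ∀ (σ : L ≃ₐ[M] L) (x : K),
      algebraMap K L (ρ σ x) = σ (algebraMap K L x)

/-- INV: the ideal input of the step. -/
def INV : Prop := ∀ (p : ℕ) [Fact p.Prime] (F K M L : Type) [Field F] [NumberField F] [Field K]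
    [NumberField K] [Field M] [NumberField M] [Field L] [NumberField L] [Algebra F K]
    [Algebra F M] [Algebra F L] [Algebra K L] [Algebra M L] [IsScalarTower F K L]
    [IsScalarTower F M L], Square p F K M L → RelTriv F K p →
    (∀ w : HeightOneSpectrum (𝓞 L), w.asIdeal.ramificationIdx (𝓞 K) ≠ 1 →
      ∀ σ : L ≃ₐ[M] L, σ • w.asIdeal = w.asIdeal) →
    ∀ b : J L, (∀ τ : L ≃ₐ[K] L, τ • b = b) → ∏ σ : L ≃ₐ[M] L, σ • b = 1 →
    ∃ m : ℕ, m.Coprime p ∧ ∃ γ : Kˣ, b ^ m = prin (Units.map (algebraMap K L : K →* L) γ)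

/-! ### Units -/

/-- H90: Hilbert 90 for an extension of prime degree. -/
def H90 : Prop := ∀ (p : ℕ) [Fact p.Prime] (K L : Type) [Field K] [Field L] [Algebra K L]
    [FiniteDimensional K L] [IsGalois K L] (g : L ≃ₐ[K] L), Module.finrank K L = p → g ≠ 1 →
    ∀ x : Lˣ, ∏ i ∈ range p, g ^ i • x = 1 → ∃ y : Lˣ, x = y / g • y

/-- RKU: the relative units of `L / M` are finitely generated of rank
`rank E(L) - rank E(M)`. -/
def RKU : Prop := ∀ (M L : Type) [Field M] [NumberField M] [Field L] [NumberField L]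
    [Algebra M L] [IsGalois M L], (relU M L).FG ∧
    Module.finrank ℤ (Additive (relU M L)) + NumberField.Units.rank M = NumberField.Units.rank L

/-- RKF: ranks in the square. -/
def RKF : Prop := ∀ (p : ℕ) [Fact p.Prime] (F K M L : Type) [Field F] [NumberField F] [Field K]
    [NumberField K] [Field M] [NumberField M] [Field L] [NumberField L] [Algebra F K]
    [Algebra F M] [Algebra F L] [Algebra K L] [Algebra M L] [IsScalarTower F K L]
    [IsScalarTower F M L], Square p F K M L →
    Fintype.card (InfinitePlace L) = p * Fintype.card (InfinitePlace K) →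
    Fintype.card (InfinitePlace M) = p * Fintype.card (InfinitePlace F) →
    Module.finrank ℤ (Additive (relU M L)) = p * Module.finrank ℤ (Additive (relUfix K M L))

/-- UNIT: relative units of `L` fixed by `Gal(L / K)` are norms of relative units. -/
def UNIT : Prop := ∀ (p : ℕ) [Fact p.Prime] (F K M L : Type) [Field F] [NumberField F] [Field K]
    [NumberField K] [Field M] [NumberField M] [Field L] [NumberField L] [Algebra F K]
    [Algebra F M] [Algebra F L] [Algebra K L] [Algebra M L] [IsScalarTower F K L]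
    [IsScalarTower F M L], Square p F K M L →
    Fintype.card (InfinitePlace L) = p * Fintype.card (InfinitePlace K) →
    Fintype.card (InfinitePlace M) = p * Fintype.card (InfinitePlace F) →
    (∀ w : HeightOneSpectrum (𝓞 L), w.asIdeal.ramificationIdx (𝓞 K) ≠ 1 →
      ∀ σ : L ≃ₐ[M] L, σ • w.asIdeal = w.asIdeal) →
    RelTriv F K p →
    ∀ e ∈ relUfix K M L, ∃ η ∈ relU M L, e = ∏ τ : L ≃ₐ[K] L, τ • η

/-! ### The step -/

/-- STEP: triviality of the relative `p`-class group goes up. -/
def STEP : Prop := ∀ (p : ℕ) [Fact p.Prime] (F K M L : Type) [Field F] [NumberField F] [Field K]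
    [NumberField K] [Field M] [NumberField M] [Field L] [NumberField L] [Algebra F K]
    [Algebra F M] [Algebra F L] [Algebra K L] [Algebra M L] [IsScalarTower F K L]
    [IsScalarTower F M L], Square p F K M L →
    Fintype.card (InfinitePlace L) = p * Fintype.card (InfinitePlace K) →
    Fintype.card (InfinitePlace M) = p * Fintype.card (InfinitePlace F) →
    (∀ w : HeightOneSpectrum (𝓞 L), w.asIdeal.ramificationIdx (𝓞 K) ≠ 1 →
      ∀ σ : L ≃ₐ[M] L, σ • w.asIdeal = w.asIdeal) →
    RelTriv F K p → RelTriv M L p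

/-! ### Ramification -/

/-- RAM: in `K ⊆ L ⊆ K(ζ)`, `ζ` a root of unity of `p`-power order, primes not above `p` are
unramified. -/
def RAM : Prop := ∀ (p m : ℕ) [Fact p.Prime] (K L N : Type) [Field K] [NumberField K]
    [Field L] [NumberField L] [Field N] [NumberField N] [Algebra K L] [Algebra L N] [Algebra K N]
    [IsScalarTower K L N] (ζ : N), ζ ^ (p ^ m) = 1 → IntermediateField.adjoin K {ζ} = ⊤ →
    ∀ w : HeightOneSpectrum (𝓞 L), (p : 𝓞 L) ∉ w.asIdeal → w.asIdeal.ramificationIdx (𝓞 K) = 1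

/-- RAMB: ramification in `L = K M` over `K` comes from ramification in `M` over `F`. -/
def RAMB : Prop := ∀ (F K M L : Type) [Field F] [NumberField F] [Field K]
    [NumberField K] [Field M] [NumberField M] [Field L] [NumberField L] [Algebra F K]
    [Algebra F M] [Algebra F L] [Algebra K L] [Algebra M L] [IsScalarTower F K L]
    [IsScalarTower F M L] [IsGalois F M] [IsGalois K L],
    IntermediateField.adjoin K (Set.range (algebraMap M L)) = ⊤ →
    ∀ w : HeightOneSpectrum (𝓞 L), w.asIdeal.ramificationIdx (𝓞 K) ≠ 1 →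
      (w.asIdeal.under (𝓞 M)).ramificationIdx (𝓞 F) ≠ 1

/-- INF: criterion for `L / K` to be unramified at the infinite places. -/
def INF : Prop := ∀ (K L : Type) [Field K] [NumberField K] [Field L] [NumberField L]
    [Algebra K L] [IsGalois K L] (S : Set L), IntermediateField.adjoin K S = ⊤ →
    (∀ (φ : L →+* ℂ), (∀ x : K, (starRingEnd ℂ) (φ (algebraMap K L x)) = φ (algebraMap K L x)) →
      ∀ s ∈ S, (starRingEnd ℂ) (φ s) = φ s) →
    Fintype.card (InfinitePlace L) = Module.finrank K L * Fintype.card (InfinitePlace K)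

/-- NSN: a prime of `L` whose restriction to `K` is undecomposed over `F` is undecomposed over
`M`, when `[L : K]` is a power of `p` and `[L : M]` is prime to `p`. -/
def NSN : Prop := ∀ (p : ℕ) [Fact p.Prime] (F K M L : Type) [Field F] [NumberField F] [Field K]
    [NumberField K] [Field M] [NumberField M] [Field L] [NumberField L] [Algebra F K]
    [Algebra F M] [Algebra F L] [Algebra K L] [Algebra M L] [IsScalarTower F K L]
    [IsScalarTower F M L] [IsGalois F K] [IsGalois F M] [IsGalois F L],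
    (∃ a : ℕ, Module.finrank K L = p ^ a) → (Module.finrank M L).Coprime p →
    ∀ w : Ideal (𝓞 L), w.IsPrime → (∀ σ : K ≃ₐ[F] K, σ • w.under (𝓞 K) = w.under (𝓞 K)) →
      ∀ σ : L ≃ₐ[M] L, σ • w = w

/-- LAY: the layers are Galois over `ℚ` and totally real. -/
def LAY : Prop := ∀ (p n : ℕ) [Fact p.Prime] (B : IntermediateField ℚ ℂ), IsLayer p n B →
    FiniteDimensional ℚ B ∧ IsGalois ℚ B ∧
    (∀ φ : B →+* ℂ, ∀ x : B, (starRingEnd ℂ) (φ x) = φ x)

/-! ### Primes with a given decomposition group -/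

/-- The number of ideals of norm `n`. -/
noncomputable def idealCount (M : Type) [Field M] [NumberField M] (n : ℕ) : ℕ :=
  Nat.card {I : Ideal (𝓞 M) // Ideal.absNorm I = n}

/-- MULT: the number of ideals of given norm is multiplicative. -/
def MULT : Prop := ∀ (M : Type) [Field M] [NumberField M] (m n : ℕ), m.Coprime n →
    idealCount M (m * n) = idealCount M m * idealCount M n

/-- BND: the number of ideals of norm `p ^ e`. -/
def BND : Prop := ∀ (M : Type) [Field M] [NumberField M] (p e : ℕ), p.Prime →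
    idealCount M (p ^ e) ≤ (e + 1) ^ Module.finrank ℚ M

/-- ZLOG: the sum over the primes of degree one behaves like `log (1 / (s - 1))`. -/
def ZLOG : Prop := ∀ (M : Type) [Field M] [NumberField M], ∃ C : ℝ, ∀ s : ℝ, 1 < s → s ≤ 2 →
    |∑' q : Nat.Primes, (idealCount M q : ℝ) * (q : ℝ) ^ (-s) - Real.log (1 / (s - 1))| ≤ C

/-- FIXN: degree one primes of a fixed field and the Frobenius. -/
def FIXN : Prop := ∀ (L : Type) [Field L] [NumberField L] [IsGalois ℚ L]
    (H : Subgroup (L ≃ₐ[ℚ] L)) (q : ℕ) (P : Ideal (𝓞 L)) (φ : L ≃ₐ[ℚ] L), q.Prime → P.IsPrime →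
    (q : 𝓞 L) ∈ P → P.ramificationIdx ℤ = 1 → IsArithFrobAt ℤ φ P →
    idealCount (IntermediateField.fixedField H) q * Nat.card H =
      Nat.card {x : L ≃ₐ[ℚ] L // x⁻¹ * φ * x ∈ H}

/-- GRP: the group theoretic identity behind the theorem of Frobenius. -/
def GRP : Prop := ∀ (G : Type) [Group G] [Finite G] (σ φ : G),
    ∑ d ∈ (orderOf σ).divisors, (ArithmeticFunction.moebius d : ℝ) / d *
      ((Nat.card {x : G // x⁻¹ * φ * x ∈ Subgroup.zpowers (σ ^ d)} : ℝ) /
        Nat.card (Subgroup.zpowers (σ ^ d))) =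
    (Nat.card {x : G // Subgroup.zpowers (x⁻¹ * φ * x) = Subgroup.zpowers σ} : ℝ) / orderOf σ

/-- FROB: the theorem of Frobenius (lower bound): the primes `q` such that some prime of `L` above
`q` has decomposition group generated by `σ` have positive lower density. -/
def FROB : Prop := ∀ (L : Type) [Field L] [NumberField L] [IsGalois ℚ L] (σ : L ≃ₐ[ℚ] L),
    PosDensity {q : ℕ | ∃ P : Ideal (𝓞 L), P.IsPrime ∧ (q : 𝓞 L) ∈ P ∧
      MulAction.stabilizer (L ≃ₐ[ℚ] L) P = Subgroup.zpowers σ}

/-- GEN2: simultaneous generators. -/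
def GEN2 : Prop := ∀ (N C₁ C₂ : Type) [CommGroup N] [Finite N] [Group C₁] [Group C₂]
    [IsCyclic C₁] [IsCyclic C₂] (f₁ : N →* C₁) (f₂ : N →* C₂), Function.Surjective f₁ →
    Function.Surjective f₂ →
    ∃ x : N, Subgroup.zpowers (f₁ x) = ⊤ ∧ Subgroup.zpowers (f₂ x) = ⊤

/-- NSF: a decomposition group that surjects onto `Gal(K / F)` makes all primes of `F` above `q`
nonsplit in `K`; fields inside a Galois extension `L / ℚ`. -/
def NSF : Prop := ∀ (L : Type) [Field L] [NumberField L] [IsGalois ℚ L]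
    (F K : IntermediateField ℚ L) (σ : L ≃ₐ[ℚ] L) (q : ℕ) (P : Ideal (𝓞 L)), q.Prime →
    P.IsPrime → (q : 𝓞 L) ∈ P → MulAction.stabilizer (L ≃ₐ[ℚ] L) P = Subgroup.zpowers σ →
    (∀ τ ρ : L ≃ₐ[ℚ] L, ρ ∈ F.fixingSubgroup →
      ∃ j : ℤ, ρ * (τ * σ ^ j * τ⁻¹)⁻¹ ∈ K.fixingSubgroup) →
    ∀ Q₁ Q₂ : Ideal (𝓞 L), Q₁.IsPrime → Q₂.IsPrime → (q : 𝓞 L) ∈ Q₁ → (q : 𝓞 L) ∈ Q₂ →
      (∀ x : 𝓞 L, (x : L) ∈ F → (x ∈ Q₁ ↔ x ∈ Q₂)) →
      ∀ x : 𝓞 L, (x : L) ∈ K → (x ∈ Q₁ ↔ x ∈ Q₂)

/-- SPL: if the decomposition group lies in `Gal(L / F)`, `F / ℚ` Galois, then the residue fields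
of `F` at the primes above `q` have `q` elements. -/
def SPL : Prop := ∀ (L : Type) [Field L] [NumberField L] [IsGalois ℚ L]
    (F : IntermediateField ℚ L) [IsGalois ℚ F] (q : ℕ) (P : Ideal (𝓞 L)), q.Prime →
    P.IsPrime → (q : 𝓞 L) ∈ P → MulAction.stabilizer (L ≃ₐ[ℚ] L) P ≤ F.fixingSubgroup →
    ∀ Q : Ideal (𝓞 F), Q.IsPrime → (q : 𝓞 F) ∈ Q → Nat.card (𝓞 F ⧸ Q) = q

/-- PD: positive density is monotone and insensitive to finitely many primes. -/
def PD : Prop := ∀ (S T : Set ℕ) (A : Finset ℕ), PosDensity S →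
    (∀ q ∈ S, q.Prime → q ∉ A → q ∈ T) → PosDensity T

/-! ### Subfields of `ℂ` -/

/-- A subfield of `ℂ` of finite degree over `ℚ` is a number field. -/
instance numC (K : IntermediateField ℚ ℂ) [FiniteDimensional ℚ K] : NumberField K where

/-- The algebra structure of an inclusion of subfields of `ℂ`. -/
noncomputable abbrev algC {F K : IntermediateField ℚ ℂ} (h : F ≤ K) : Algebra F K :=
  (IntermediateField.inclusion h).toRingHom.toAlgebra

/-- `K / F` is a Galois extension of number fields of degree prime to `p` with trivial relative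
`p`-class group. -/
def RelTrivC (p : ℕ) (F K : IntermediateField ℚ ℂ) : Prop :=
  ∃ (h : F ≤ K) (_ : FiniteDimensional ℚ F) (_ : FiniteDimensional ℚ K),
    letI := algC h
    IsGalois F K ∧ (Module.finrank F K).Coprime p ∧ RelTriv F K p

/-- BASE: translation between class numbers and `RelTrivC`. -/
def BASE : Prop := ∀ (p : ℕ) [Fact p.Prime] (F K : IntermediateField ℚ ℂ)
    [FiniteDimensional ℚ K] (h : F ≤ K), IsGalois F (IntermediateField.extendScalars h) →
    ¬ p ∣ Module.finrank F (IntermediateField.extendScalars h) →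
    (padicValNat p (classNo K) = padicValNat p (classNo F) ↔ RelTrivC p F K)

/-- BCH: base change of Galois extensions of subfields of `ℂ`. -/
def BCH : Prop :=
  (∀ (A C E A' C' : IntermediateField ℚ ℂ) [FiniteDimensional ℚ C] [FiniteDimensional ℚ E]
    (h : A ≤ C) (h' : A' ≤ C'), A' = A ⊔ E → C' = C ⊔ E →
    IsGalois A (IntermediateField.extendScalars h) →
    IsGalois A' (IntermediateField.extendScalars h') ∧
    Module.finrank A' (IntermediateField.extendScalars h') ∣
      Module.finrank A (IntermediateField.extendScalars h)) ∧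
  (∀ (A C E : IntermediateField ℚ ℂ) [FiniteDimensional ℚ C] [FiniteDimensional ℚ E]
    (h : A ≤ C) (h' : A ≤ E) (h'' : A ≤ C ⊔ E), IsGalois A (IntermediateField.extendScalars h) →
    IsGalois A (IntermediateField.extendScalars h') →
    IsGalois A (IntermediateField.extendScalars h''))

/-- CHIEF: a Galois `p`-extension `M / F` of degree `p ^ (a + 1)` has a Galois subextension
`M' / F` of degree `p ^ a`. -/
def CHIEF : Prop := ∀ (p a : ℕ) [Fact p.Prime] (F M : IntermediateField ℚ ℂ)
    [FiniteDimensional ℚ M] (h : F ≤ M), IsGalois F (IntermediateField.extendScalars h) →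
    Module.finrank F (IntermediateField.extendScalars h) = p ^ (a + 1) →
    ∃ (M' : IntermediateField ℚ ℂ) (h₁ : F ≤ M') (h₂ : M' ≤ M),
      IsGalois F (IntermediateField.extendScalars h₁) ∧
      Module.finrank F (IntermediateField.extendScalars h₁) = p ^ a ∧
      Module.finrank M' (IntermediateField.extendScalars h₂) = p

/-- TSTEP: one step of the induction, for subfields of `ℂ`. -/
def TSTEP : Prop := ∀ (p : ℕ) [Fact p.Prime] (F K M' M : IntermediateField ℚ ℂ)
    [FiniteDimensional ℚ K] [FiniteDimensional ℚ M] (hK : F ≤ K) (h₁ : F ≤ M') (h₂ : M' ≤ M),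
    IsGalois F (IntermediateField.extendScalars hK) →
    ¬ p ∣ Module.finrank F (IntermediateField.extendScalars hK) →
    IsGalois F (IntermediateField.extendScalars h₁) →
    IsGalois F (IntermediateField.extendScalars (h₁.trans h₂)) →
    (∃ a : ℕ, Module.finrank F (IntermediateField.extendScalars (h₁.trans h₂)) = p ^ a) →
    Module.finrank M' (IntermediateField.extendScalars h₂) = p →
    UnramInf (h₁.trans h₂) → NonsplitRam hK (h₁.trans h₂) →
    RelTrivC p M' (K ⊔ M') → RelTrivC p M (K ⊔ M)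

/-- GALB: for `K / k` abelian, `k` imaginary quadratic, `F / ℚ` abelian, `K / F` cyclic there is
`σ` in the Galois group over `F` of the normal closure that generates `Gal(K' / F)` for all
conjugates `K'` of `K`. -/
def GALB : Prop := ∀ (k F K : IntermediateField ℚ ℂ) [FiniteDimensional ℚ K] (hkF : k ≤ F)
    (hFK : F ≤ K), Module.finrank ℚ k = 2 → (∃ z ∈ k, (starRingEnd ℂ) z ≠ z) →
    IsGalois k (IntermediateField.extendScalars (hkF.trans hFK)) →
    (∀ a b : (IntermediateField.extendScalars (hkF.trans hFK)) ≃ₐ[k]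
      (IntermediateField.extendScalars (hkF.trans hFK)), a * b = b * a) →
    IsGalois ℚ F → (∀ a b : F ≃ₐ[ℚ] F, a * b = b * a) →
    IsCyclic ((IntermediateField.extendScalars hFK) ≃ₐ[F]
      (IntermediateField.extendScalars hFK)) →
    ∃ L : IntermediateField ℚ ℂ, K ≤ L ∧ FiniteDimensional ℚ L ∧ IsGalois ℚ L ∧
      ∃ σ : L ≃ₐ[ℚ] L, (∀ x : L, (x : ℂ) ∈ F → σ x = x) ∧
        ∀ τ ρ : L ≃ₐ[ℚ] L, (∀ x : L, (x : ℂ) ∈ F → ρ x = x) →
          ∃ j : ℤ, ∀ x : L, (x : ℂ) ∈ K → (ρ * (τ * σ ^ j * τ⁻¹)⁻¹) x = x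

/-! ### The results -/

/-- MAINA: the relative Iwasawa theorem. -/
def MAINA : Prop := ∀ (p a : ℕ) [Fact p.Prime] (F K M : IntermediateField ℚ ℂ)
    [FiniteDimensional ℚ K] [FiniteDimensional ℚ M] (hK : F ≤ K) (hM : F ≤ M),
    IsGalois F (IntermediateField.extendScalars hK) →
    ¬ p ∣ Module.finrank F (IntermediateField.extendScalars hK) →
    IsGalois F (IntermediateField.extendScalars hM) →
    Module.finrank F (IntermediateField.extendScalars hM) = p ^ a →
    UnramInf hM → NonsplitRam hK hM →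
    padicValNat p (classNo K) = padicValNat p (classNo F) →
    padicValNat p (classNo (K ⊔ M)) = padicValNat p (classNo M)

/-- MAINC: the layers of the cyclotomic `ℤ_p`-extensions. -/
def MAINC : Prop := ∀ (p : ℕ) [Fact p.Prime] (F K : IntermediateField ℚ ℂ)
    [FiniteDimensional ℚ K] (h : F ≤ K), IsGalois F (IntermediateField.extendScalars h) →
    ¬ p ∣ Module.finrank F (IntermediateField.extendScalars h) → Nonsplit p h →
    padicValNat p (classNo K) = padicValNat p (classNo F) →
    ∀ (n : ℕ) (B : IntermediateField ℚ ℂ), IsLayer p n B →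
      padicValNat p (classNo (K ⊔ B)) = padicValNat p (classNo (F ⊔ B))

/-- MAINB: positive density of primes. -/
def MAINB : Prop := ∀ (k F K : IntermediateField ℚ ℂ) [FiniteDimensional ℚ K] (hkF : k ≤ F)
    (hFK : F ≤ K), Module.finrank ℚ k = 2 → (∃ z ∈ k, (starRingEnd ℂ) z ≠ z) →
    IsGalois k (IntermediateField.extendScalars (hkF.trans hFK)) →
    (∀ a b : (IntermediateField.extendScalars (hkF.trans hFK)) ≃ₐ[k]
      (IntermediateField.extendScalars (hkF.trans hFK)), a * b = b * a) →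
    IsGalois ℚ F → (∀ a b : F ≃ₐ[ℚ] F, a * b = b * a) →
    IsCyclic ((IntermediateField.extendScalars hFK) ≃ₐ[F]
      (IntermediateField.extendScalars hFK)) →
    PosDensity {p : ℕ | (∀ P : Ideal (𝓞 F), P.IsPrime → (p : 𝓞 F) ∈ P → Nat.card (𝓞 F ⧸ P) = p) ∧
      ∀ (n : ℕ) (B : IntermediateField ℚ ℂ), IsLayer p n B →
        padicValNat p (classNo (K ⊔ B)) = padicValNat p (classNo (F ⊔ B))}

end Pool.Agent.RI
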