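import Pool.Agent.RI.Basic

/-!
# Module BCH: base change of Galois extensions of subfields of `ℂ`
-/

open NumberField

namespace Pool.Agent.RI

namespace BCH

open Polynomial IntermediateField

/-- Base change of a finite Galois extension, with the divisibility of degrees. -/
theorem bc (A C A' C' : Type) [Field A] [Field C] [Field A'] [Field C'] [Algebra A C]
    [Algebra A A'] [Algebra A C'] [Algebra C C'] [Algebra A' C'] [IsScalarTower A C C']
    [IsScalarTower A A' C'] [FiniteDimensional A C] [IsGalois A C]
    (h : IntermediateField.adjoin A' (Set.range (algebraMap C C')) = ⊤) :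
    IsGalois A' C' ∧ Module.finrank A' C' ∣ Module.finrank A C := by
  obtain ⟨T, hT₁, hT₂⟩ := IsGalois.is_separable_splitting_field A C
  have hs : (T.map (algebraMap A A')).IsSplittingField A' C' := by
    rw [isSplittingField_iff_intermediateField] at hT₂ ⊢
    constructor
    · rw [Polynomial.map_map, ← IsScalarTower.algebraMap_eq]
      exact Polynomial.Splits.of_algHom hT₂.1 (IsScalarTower.toAlgHom A C C')
    · have h' : (T.map (algebraMap A A')).rootSet C' = T.rootSet C' := by
        simp [Set.ext_iff, Polynomial.mem_rootSet']
      have h2 : (IsScalarTower.toAlgHom A C C') '' T.rootSet C = T.rootSet C' :=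
        hT₂.1.image_rootSet (IsScalarTower.toAlgHom A C C')
      rw [h', eq_top_iff, ← h, adjoin_le_iff]
      rintro _ ⟨c, rfl⟩
      -- the elements of `C` whose image is in the field form an intermediate field
      have h3 : c ∈ adjoin A (T.rootSet C) := by rw [hT₂.2]; exact mem_top
      have h4 : adjoin A (T.rootSet C) ≤
          ((adjoin A' (T.rootSet C')).restrictScalars A).comap (IsScalarTower.toAlgHom A C C') := by
        rw [adjoin_le_iff]
        intro x hx
        show IsScalarTower.toAlgHom A C C' x ∈ adjoin A' (T.rootSet C')
        apply subset_adjoin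
        rw [← h2]
        exact ⟨x, hx, rfl⟩
      exact h4 h3
  have hg : IsGalois A' C' := IsGalois.of_separable_splitting_field
    (p := T.map (algebraMap A A')) hT₁.map
  have hf : FiniteDimensional A' C' :=
    Polynomial.IsSplittingField.finiteDimensional C' (T.map (algebraMap A A'))
  refine ⟨hg, ?_⟩
  let φ : (C' ≃ₐ[A'] C') →* (C ≃ₐ[A] C) :=
    (AlgEquiv.restrictNormalHom C : (C' ≃ₐ[A] C') →* (C ≃ₐ[A] C)).comp
      (AlgEquiv.restrictScalarsHom A)
  have hφ : Function.Injective φ := by
    rw [injective_iff_map_eq_one]
    intro σ hσ
    have h1 : ∀ c : C, σ (algebraMap C C' c) = algebraMap C C' c := by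
      intro c
      have h2 := AlgEquiv.restrictNormal_commutes (σ.restrictScalars A) C c
      have h3 : (σ.restrictScalars A).restrictNormal C = 1 := hσ
      rw [h3] at h2
      exact h2.symm
    have h2 : adjoin A' (Set.range (algebraMap C C')) ≤ fixedField (Subgroup.zpowers σ) := by
      rw [adjoin_le_iff]
      rintro _ ⟨c, rfl⟩
      intro τ
      obtain ⟨τ, j, rfl⟩ := τ
      have h5 : σ ∈ MulAction.stabilizer (C' ≃ₐ[A'] C') (algebraMap C C' c) := h1 c
      exact zpow_mem h5 j
    rw [h] at h2
    ext x
    exact h2 (mem_top : x ∈ (⊤ : IntermediateField A' C')) ⟨σ, Subgroup.mem_zpowers σ⟩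
  rw [← IsGalois.card_aut_eq_finrank A' C', ← IsGalois.card_aut_eq_finrank A C]
  exact Subgroup.card_dvd_of_injective φ hφ

theorem fin_ext {A C : IntermediateField ℚ ℂ} [FiniteDimensional ℚ C] (h : A ≤ C) :
    FiniteDimensional A (IntermediateField.extendScalars h) := by
  have h1 : FiniteDimensional ℚ (IntermediateField.extendScalars h) := by
    let f : C →+ IntermediateField.extendScalars h :=
      { toFun := fun x => ⟨x.1, x.2⟩
        map_zero' := rfl
        map_add' := fun _ _ => rfl }
    exact Module.Finite.of_surjective f.toRatLinearMap (fun x => ⟨⟨x.1, x.2⟩, rfl⟩)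
  exact Module.Finite.of_restrictScalars_finite ℚ A _

end BCH

open IntermediateField in
theorem BCH_thm : BCH := by
  constructor
  · intro A C E A' C' _ _ h h' hA hC hg
    have hAA' : A ≤ A' := by rw [hA]; exact le_sup_left
    have hCC' : C ≤ C' := by rw [hC]; exact le_sup_left
    have hEA' : E ≤ A' := by rw [hA]; exact le_sup_right
    let : Algebra A A' := (IntermediateField.inclusion hAA').toRingHom.toAlgebra
    let i1 : extendScalars h →+* extendScalars h' :=
      { toFun := fun x => ⟨x.1, hCC' x.2⟩
        map_zero' := rfl
        map_one' := rfl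
        map_add' := fun _ _ => rfl
        map_mul' := fun _ _ => rfl }
    let : Algebra (extendScalars h) (extendScalars h') := i1.toAlgebra
    let : Algebra A (extendScalars h') := (i1.comp (algebraMap A (extendScalars h))).toAlgebra
    have : IsScalarTower A (extendScalars h) (extendScalars h') :=
      IsScalarTower.of_algebraMap_eq (fun _ => rfl)
    have : IsScalarTower A A' (extendScalars h') :=
      IsScalarTower.of_algebraMap_eq (fun _ => rfl)
    have := BCH.fin_ext h
    apply BCH.bc A (extendScalars h) A' (extendScalars h')
    -- generation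
    have key : C' ≤ ((adjoin A' (Set.range (algebraMap (extendScalars h)
        (extendScalars h')))).map (extendScalars h').val).restrictScalars ℚ := by
      refine hC.le.trans ?_
      rw [sup_le_iff]
      constructor
      · intro c hc
        refine ⟨⟨c, hCC' hc⟩, subset_adjoin _ _ ⟨⟨c, hc⟩, rfl⟩, rfl⟩
      · intro c hc
        refine ⟨algebraMap A' (extendScalars h') ⟨c, hEA' hc⟩,
          IntermediateField.algebraMap_mem _ _, rfl⟩
    rw [eq_top_iff]
    intro x _
    obtain ⟨y, hy, hyx⟩ := key x.2
    have : y = x := Subtype.ext hyx
    rwa [← this]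
  · intro A C E _ _ h h' h'' hC hE
    have := hC.to_normal
    have := hE.to_normal
    have h1 : extendScalars h'' = extendScalars h ⊔ extendScalars h' :=
      (extendScalars_sup h h').symm
    rw [h1]
    have := BCH.fin_ext h
    have := BCH.fin_ext h'
    refine { to_isSeparable := inferInstance, to_normal := inferInstance }

end Pool.Agent.RI
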