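import Pool.Agent.RI.Basic

/-!
# The relative Iwasawa theorem for the layers of the cyclotomic `ℤ_p`-extension
-/

open NumberField IsDedekindDomain

namespace Pool.Agent.RI

namespace MAINC

/-- The subfield of the elements of `M` that a property preserving the field operations holds for,
as a subfield of `ℂ`. -/
def realSub {M : IntermediateField ℚ ℂ} (φ : M →+* ℂ) : IntermediateField ℚ ℂ where
  carrier := {z | ∃ h : z ∈ M, (starRingEnd ℂ) (φ ⟨z, h⟩) = φ ⟨z, h⟩}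
  mul_mem' := by
    rintro a b ⟨ha, ha'⟩ ⟨hb, hb'⟩
    refine ⟨mul_mem ha hb, ?_⟩
    have : (⟨a * b, mul_mem ha hb⟩ : M) = ⟨a, ha⟩ * ⟨b, hb⟩ := rfl
    rw [this, map_mul, map_mul, ha', hb']
  add_mem' := by
    rintro a b ⟨ha, ha'⟩ ⟨hb, hb'⟩
    refine ⟨add_mem ha hb, ?_⟩
    have : (⟨a + b, add_mem ha hb⟩ : M) = ⟨a, ha⟩ + ⟨b, hb⟩ := rfl
    rw [this, map_add, map_add, ha', hb']
  algebraMap_mem' := by
    intro r
    refine ⟨M.algebraMap_mem r, ?_⟩
    have : (⟨algebraMap ℚ ℂ r, M.algebraMap_mem r⟩ : M) = (r : M) := by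
      apply Subtype.ext; simp
    rw [this, map_ratCast, map_ratCast]
  inv_mem' := by
    rintro a ⟨ha, ha'⟩
    refine ⟨inv_mem ha, ?_⟩
    have : (⟨a⁻¹, inv_mem ha⟩ : M) = (⟨a, ha⟩ : M)⁻¹ := rfl
    rw [this, map_inv₀, map_inv₀, ha']

lemma unramInf_layer {F B : IntermediateField ℚ ℂ}
    (hB : ∀ φ : B →+* ℂ, ∀ x : B, (starRingEnd ℂ) (φ x) = φ x) :
    UnramInf (le_sup_left : F ≤ F ⊔ B) := by
  intro φ hφ x
  have h1 : F ≤ realSub φ := fun z hz =>
    ⟨(le_sup_left : F ≤ F ⊔ B) hz, hφ ⟨z, (le_sup_left : F ≤ F ⊔ B) hz⟩ hz⟩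
  have h2 : B ≤ realSub φ := fun z hz =>
    ⟨(le_sup_right : B ≤ F ⊔ B) hz,
      hB (φ.comp (IntermediateField.inclusion (le_sup_right : B ≤ F ⊔ B)).toRingHom) ⟨z, hz⟩⟩
  obtain ⟨_, h⟩ := (sup_le h1 h2) x.2
  exact h

lemma ram_aux (hRAM : RAM) (p m : ℕ) [Fact p.Prime] (F B : IntermediateField ℚ ℂ)
    [FiniteDimensional ℚ F] [FiniteDimensional ℚ ↥(F ⊔ B)]
    (hB : B ≤ IntermediateField.adjoin ℚ {z : ℂ | z ^ (p ^ m) = 1}) :
    letI := algC (le_sup_left : F ≤ F ⊔ B)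
    ∀ w : HeightOneSpectrum (𝓞 ↥(F ⊔ B)), (p : 𝓞 ↥(F ⊔ B)) ∉ w.asIdeal →
      w.asIdeal.ramificationIdx (𝓞 F) = 1 := by
  intro w hw
  have hpm : p ^ m ≠ 0 := pow_ne_zero _ (Fact.out : p.Prime).ne_zero
  have : NeZero (p ^ m) := ⟨hpm⟩
  set ζ : ℂ := Complex.exp (2 * Real.pi * Complex.I / (p ^ m : ℕ)) with hζ
  have hζp : IsPrimitiveRoot ζ (p ^ m) := Complex.isPrimitiveRoot_exp _ hpm
  have hζ1 : ζ ^ (p ^ m) = 1 := hζp.pow_eq_one
  set C : IntermediateField ℚ ℂ := IntermediateField.adjoin ℚ {ζ} with hC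
  have hζC : ζ ∈ C := IntermediateField.mem_adjoin_simple_self ℚ ζ
  have hBC : B ≤ C := by
    refine hB.trans ?_
    rw [IntermediateField.adjoin_le_iff]
    intro z hz
    obtain ⟨i, -, rfl⟩ := hζp.eq_pow_of_pow_eq_one hz
    exact pow_mem hζC i
  have hfC : FiniteDimensional ℚ C := by
    apply IntermediateField.adjoin.finiteDimensional
    exact IsIntegral.of_pow (Nat.pos_of_ne_zero hpm) (by rw [hζ1]; exact isIntegral_one)
  have hMN : F ⊔ B ≤ F ⊔ C := sup_le_sup_left hBC F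
  have hfN : FiniteDimensional ℚ ↥(F ⊔ C) := IntermediateField.finiteDimensional_sup F C
  let : Algebra F ↥(F ⊔ B) := algC le_sup_left
  let : Algebra ↥(F ⊔ B) ↥(F ⊔ C) := algC hMN
  let : Algebra F ↥(F ⊔ C) := algC (le_sup_left.trans hMN)
  have : IsScalarTower F ↥(F ⊔ B) ↥(F ⊔ C) := towerC le_sup_left hMN
  let ζ' : ↥(F ⊔ C) := ⟨ζ, (le_sup_right : C ≤ F ⊔ C) hζC⟩
  refine hRAM p m F ↥(F ⊔ B) ↥(F ⊔ C) ζ' (Subtype.ext hζ1) ?_ w hw
  rw [eq_top_iff]
  intro x _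
  -- the elements of `ℂ` that lie in `F(ζ)`
  let S := IntermediateField.adjoin F {ζ'}
  let T : IntermediateField ℚ ℂ :=
    { carrier := {z | ∃ h : z ∈ F ⊔ C, (⟨z, h⟩ : ↥(F ⊔ C)) ∈ S}
      mul_mem' := by
        rintro a b ⟨ha, ha'⟩ ⟨hb, hb'⟩
        exact ⟨mul_mem ha hb, mul_mem ha' hb'⟩
      add_mem' := by
        rintro a b ⟨ha, ha'⟩ ⟨hb, hb'⟩
        exact ⟨add_mem ha hb, add_mem ha' hb'⟩
      algebraMap_mem' := by
        intro r
        refine ⟨(F ⊔ C).algebraMap_mem r, ?_⟩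
        exact S.algebraMap_mem (algebraMap ℚ F r)
      inv_mem' := by
        rintro a ⟨ha, ha'⟩
        exact ⟨inv_mem ha, inv_mem ha'⟩ }
  have h1 : F ≤ T := fun z hz => ⟨(le_sup_left : F ≤ F ⊔ C) hz, S.algebraMap_mem ⟨z, hz⟩⟩
  have h2 : C ≤ T := by
    rw [hC, IntermediateField.adjoin_simple_le_iff]
    exact ⟨(le_sup_right : C ≤ F ⊔ C) hζC, IntermediateField.mem_adjoin_simple_self F ζ'⟩
  obtain ⟨_, h⟩ := (sup_le h1 h2) x.2
  exact h

end MAINC

theorem MAINC_thm (hA : MAINA) (hLAY : LAY) (hBCH : BCH) (hRAM : RAM) : MAINC := by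
  intro p _ F K _ h hGK hp hns hcl n B hB
  obtain ⟨hfB, hGB, hreal⟩ := hLAY p n B hB
  obtain ⟨hdeg, -, m, hBm⟩ := hB
  have hfF : FiniteDimensional ℚ F := FiniteDimensional.of_injective
    (IntermediateField.inclusion h).toLinearMap (IntermediateField.inclusion h).toRingHom.injective
  have hfM : FiniteDimensional ℚ ↥(F ⊔ B) := IntermediateField.finiteDimensional_sup F B
  -- Galois and degree
  have hbot : IsGalois ↥(⊥ : IntermediateField ℚ ℂ)
      (IntermediateField.extendScalars (bot_le : (⊥ : IntermediateField ℚ ℂ) ≤ B)) := by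
    let e : B ≃ₐ[ℚ] (IntermediateField.extendScalars
        (bot_le : (⊥ : IntermediateField ℚ ℂ) ≤ B)) :=
      { toFun := fun x => ⟨x.1, x.2⟩
        invFun := fun x => ⟨x.1, x.2⟩
        left_inv := fun _ => rfl
        right_inv := fun _ => rfl
        map_mul' := fun _ _ => rfl
        map_add' := fun _ _ => rfl
        commutes' := fun _ => rfl }
    have : IsGalois ℚ (IntermediateField.extendScalars
        (bot_le : (⊥ : IntermediateField ℚ ℂ) ≤ B)) := IsGalois.of_algEquiv e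
    exact IsGalois.tower_top_of_isGalois ℚ _ _
  have hbd : Module.finrank ↥(⊥ : IntermediateField ℚ ℂ)
      (IntermediateField.extendScalars (bot_le : (⊥ : IntermediateField ℚ ℂ) ≤ B)) = p ^ n := by
    rw [← hdeg]
    let e : B ≃ₗ[ℚ] (IntermediateField.extendScalars
        (bot_le : (⊥ : IntermediateField ℚ ℂ) ≤ B)) :=
      { toFun := fun x => ⟨x.1, x.2⟩
        invFun := fun x => ⟨x.1, x.2⟩
        left_inv := fun _ => rfl
        right_inv := fun _ => rfl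
        map_add' := fun _ _ => rfl
        map_smul' := fun _ _ => rfl }
    rw [e.finrank_eq, ← Module.finrank_mul_finrank ℚ ↥(⊥ : IntermediateField ℚ ℂ)
      (IntermediateField.extendScalars (bot_le : (⊥ : IntermediateField ℚ ℂ) ≤ B)),
      IntermediateField.finrank_bot, one_mul]
  have h1 := hBCH.1 ⊥ B F F (F ⊔ B) bot_le le_sup_left (bot_sup_eq F).symm (sup_comm F B) hbot
  rw [hbd] at h1
  obtain ⟨a, -, ha⟩ := (Nat.dvd_prime_pow (Fact.out : p.Prime)).1 h1.2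
  have hres := hA p a F K (F ⊔ B) h le_sup_left hGK hp h1.1 ha
    (MAINC.unramInf_layer hreal) ?_ hcl
  · rwa [← sup_assoc, sup_eq_left.2 h] at hres
  intro P Q hP hQ hPQ hR
  let : Algebra F K := algC h
  have hcomap : ∀ P : Ideal (𝓞 K), P.comap (RingOfIntegers.mapRingHom
      (IntermediateField.inclusion h : F →+* K)) = P.under (𝓞 F) := fun _ => rfl
  by_cases hP0 : P = ⊥
  · subst hP0
    rw [hcomap, hcomap] at hPQ
    have h0 : (⊥ : Ideal (𝓞 K)).under (𝓞 F) = ⊥ := Ideal.under_bot _ _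
    rw [h0] at hPQ
    exact (Ideal.eq_bot_of_comap_eq_bot hPQ.symm).symm
  obtain ⟨R, hRp, hRP, he⟩ := hR
  have hPF : P.under (𝓞 F) ≠ ⊥ := fun h0 => hP0 (Ideal.eq_bot_of_comap_eq_bot h0)
  let : Algebra F ↥(F ⊔ B) := algC le_sup_left
  have hR0 : R ≠ ⊥ := by
    rintro rfl
    apply hPF
    rw [← hcomap, ← hRP]
    exact Ideal.under_bot _ _
  have hpR : (p : 𝓞 ↥(F ⊔ B)) ∈ R := by
    by_contra hpR
    apply he
    exact MAINC.ram_aux hRAM p m F B hBm ⟨R, hRp, hR0⟩ hpR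
  have hpP : ∀ P' : Ideal (𝓞 K), P'.comap (RingOfIntegers.mapRingHom
      (IntermediateField.inclusion h : F →+* K)) = R.under (𝓞 F) → (p : 𝓞 K) ∈ P' := by
    intro P' h'
    have h2 : (p : 𝓞 F) ∈ R.under (𝓞 F) := by
      rw [Ideal.mem_comap, map_natCast]
      exact hpR
    rw [← h', Ideal.mem_comap, map_natCast] at h2
    exact h2
  exact hns P Q hP hQ (hpP P hRP.symm) (hpP Q (by rw [← hPQ]; exact hRP.symm)) hPQ

end Pool.Agent.RI
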