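import Pool.Agent.RI.Stmts

/-!
# RAM: primes not above `p` are unramified in `K(ζ) / K`
-/

open NumberField Finset IsDedekindDomain
open scoped nonZeroDivisors Pointwise

namespace Pool.Agent.RI

namespace RAM

/-- A root of unity of order a power of `p` congruent to `1` modulo a prime not above `p` is `1`. -/
theorem eq_one_of_mem {R : Type*} [CommRing R] [IsDomain R] (P : Ideal R) [P.IsPrime] (p m : ℕ)
    [hp : Fact p.Prime] (hpP : (p : R) ∉ P) (z : R) (hz : z ^ (p ^ m) = 1) (h : z - 1 ∈ P) :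
    z = 1 := by
  by_contra hne
  have h1 : ∑ i ∈ range (p ^ m), z ^ i = 0 := by
    have h2 := geom_sum_mul z (p ^ m)
    rw [hz, sub_self] at h2
    exact (mul_eq_zero.mp h2).resolve_right (sub_ne_zero.mpr hne)
  have h3 : ((p ^ m : ℕ) : R) ∈ P := by
    have h4 : ∑ i ∈ range (p ^ m), (z ^ i - 1) ∈ P := by
      refine sum_mem fun i _ => ?_
      have h5 : z - 1 ∣ z ^ i - 1 := by
        have := sub_dvd_pow_sub_pow z 1 i
        rwa [one_pow] at this
      exact P.mem_of_dvd h5 h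
    rw [Finset.sum_sub_distrib, h1, Finset.sum_const, card_range, zero_sub, neg_mem_iff,
      nsmul_one] at h4
    exact h4
  rw [Nat.cast_pow] at h3
  exact hpP (Ideal.IsPrime.mem_of_pow_mem inferInstance _ h3)

end RAM

theorem RAM_thm : RAM := by
  intro p m hp K L N _ _ _ _ _ _ _ _ _ _ ζ hζ hadj w hw
  have hmpos : 0 < p ^ m := pow_pos hp.out.pos m
  -- `N / K` is Galois
  have hgal : IsGalois K N := by
    have hk : 0 < orderOf ζ := orderOf_pos_iff.mpr (isOfFinOrder_iff_pow_eq_one.mpr ⟨_, hmpos, hζ⟩)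
    have : NeZero (orderOf ζ) := ⟨hk.ne'⟩
    have h1 : IsCyclotomicExtension {orderOf ζ} K (IntermediateField.adjoin K {ζ}) :=
      (IsPrimitiveRoot.orderOf ζ).intermediateField_adjoin_isCyclotomicExtension K
    rw [hadj] at h1
    have h2 : IsGalois K (⊤ : IntermediateField K N) :=
      IsCyclotomicExtension.isGalois {orderOf ζ} K (⊤ : IntermediateField K N)
    exact IsGalois.of_algEquiv IntermediateField.topEquiv
  obtain ⟨r, hr, hrw⟩ : ∃ r : Ideal (𝓞 N), r.IsPrime ∧ r.LiesOver w.asIdeal := by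
    obtain ⟨r⟩ := (inferInstance : Nonempty (w.asIdeal.primesOver (𝓞 N)))
    exact ⟨r.1, r.2.1, r.2.2⟩
  have hpr : (p : 𝓞 N) ∉ r := by
    intro h
    apply hw
    rw [hrw.over, Ideal.under, Ideal.mem_comap, map_natCast]
    exact h
  have hin : r.inertia (N ≃ₐ[K] N) = ⊥ := by
    rw [eq_bot_iff]
    intro σ hσ
    have hint : IsIntegral ℤ ζ := ⟨Polynomial.X ^ (p ^ m) - 1,
      Polynomial.monic_X_pow_sub_C 1 hmpos.ne', by simp [hζ]⟩
    obtain ⟨z, hz⟩ : ∃ z : 𝓞 N, (z : N) = ζ := ⟨⟨ζ, hint⟩, rfl⟩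
    have hzp : z ^ (p ^ m) = 1 := by
      apply RingOfIntegers.ext
      have h3 : ((z ^ (p ^ m) : 𝓞 N) : N) = (z : N) ^ (p ^ m) := map_pow (algebraMap (𝓞 N) N) z _
      rw [h3, hz, hζ]
      exact (map_one (algebraMap (𝓞 N) N)).symm
    have h4 : z ^ (p ^ m - 1) * z = 1 := by
      rw [← pow_succ, Nat.sub_add_cancel hmpos, hzp]
    have h5 : σ • z - z ∈ r := hσ z
    have h6 : σ • z * z ^ (p ^ m - 1) = 1 := by
      refine RAM.eq_one_of_mem r p m hpr _ ?_ ?_
      · rw [mul_pow, ← smul_pow', hzp, smul_one, one_mul, ← pow_mul, mul_comm, pow_mul, hzp,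
          one_pow]
      · have h7 : σ • z * z ^ (p ^ m - 1) - 1 = z ^ (p ^ m - 1) * (σ • z - z) := by
          rw [mul_sub, h4, mul_comm]
        rw [h7]
        exact r.mul_mem_left _ h5
    have h7 : σ • z = z := by
      calc σ • z = σ • z * (z ^ (p ^ m - 1) * z) := by rw [h4, mul_one]
        _ = (σ • z * z ^ (p ^ m - 1)) * z := by ring
        _ = z := by rw [h6, one_mul]
    have h8 : σ ζ = ζ := by
      have h9 := congrArg (fun y : 𝓞 N => (y : N)) h7
      have h10 : ((σ • z : 𝓞 N) : N) = σ (z : N) := rfl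
      simp only [h10, hz] at h9
      exact h9
    rw [Subgroup.mem_bot]
    have h9 : (IntermediateField.adjoin K {ζ}) ≤
        IntermediateField.fixedField (Subgroup.zpowers σ) := by
      rw [IntermediateField.adjoin_le_iff, Set.singleton_subset_iff]
      rintro ⟨τ, j, rfl⟩
      change (σ ^ j) ζ = ζ
      have h10 : σ ∈ MulAction.stabilizer (N ≃ₐ[K] N) ζ := h8
      exact zpow_mem h10 j
    apply AlgEquiv.ext
    intro x
    have h10 : x ∈ IntermediateField.fixedField (Subgroup.zpowers σ) := by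
      apply h9
      rw [hadj]
      exact IntermediateField.mem_top
    exact h10 ⟨σ, Subgroup.mem_zpowers σ⟩
  have h1 : Nat.card (r.inertia (N ≃ₐ[K] N)) = (r.under (𝓞 K)).ramificationIdxIn (𝓞 N) :=
    Ideal.card_inertia_eq_ramificationIdxIn (r.under (𝓞 K)) r
  have h2 : (r.under (𝓞 K)).ramificationIdxIn (𝓞 N) = r.ramificationIdx (𝓞 K) :=
    Ideal.ramificationIdxIn_eq_ramificationIdx (r.under (𝓞 K)) r (N ≃ₐ[K] N)
  have h3 : w.asIdeal.ramificationIdx (𝓞 K) ∣ r.ramificationIdx (𝓞 K) :=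
    Ideal.ramificationIdx_below_dvd w.asIdeal r
  rw [← h2, ← h1, hin, Subgroup.card_bot, Nat.dvd_one] at h3
  exact h3

end Pool.Agent.RI
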