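import Pool.Agent.RI.Basic

/-!
# Relative Iwasawa theorem, module CL

For `K / F` Galois of degree prime to `p`, the class numbers of `K` and `F` are divisible by the
same power of `p` iff the relative class group has trivial `p`-part.
-/

open NumberField Finset IsDedekindDomain
open scoped nonZeroDivisors Pointwise

namespace Pool.Agent.RI

namespace CL

/-! ### The product of the conjugates of an ideal comes from `F` -/

section Norm

set_option linter.unusedSectionVars false

variable {F K : Type} [Field F] [NumberField F] [Field K] [NumberField K] [Algebra F K]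

/-- A product over the group of the conjugates of a prime. -/
theorem prod_smul_prime [IsGalois F K] (P : Ideal (𝓞 K)) [P.IsPrime] (hP : P ≠ ⊥) :
    ∃ I : Ideal (𝓞 F), I ≠ ⊥ ∧ ∏ σ : K ≃ₐ[F] K, σ • P = I.map (algebraMap (𝓞 F) (𝓞 K)) := by
  classical
  let p : Ideal (𝓞 F) := P.under (𝓞 F)
  have hPm : P.IsMaximal := Ring.DimensionLEOne.maximalOfPrime hP inferInstance
  have hp : p ≠ ⊥ := by
    intro h
    exact hP (Ideal.eq_bot_of_comap_eq_bot h)
  have hpm : p.IsMaximal := Ideal.IsMaximal.under (𝓞 F) P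
  have : Finite (𝓞 F ⧸ p) := Ring.HasFiniteQuotients.finiteQuotient hp
  have hperf : PerfectField p.ResidueField := inferInstance
  have hcard : ∀ Q ∈ (p.primesOver (𝓞 K)).toFinset,
      (univ.filter (fun σ : K ≃ₐ[F] K => σ • P = Q)).card =
        p.inertiaDegIn (𝓞 K) * Q.ramificationIdx (𝓞 F) := by
    intro Q hQ
    rw [Set.mem_toFinset] at hQ
    have : Q.IsPrime := hQ.1
    have : Q.LiesOver p := hQ.2
    obtain ⟨τ, hτ⟩ := Ideal.exists_smul_eq_of_isGaloisGroup p P Q (K ≃ₐ[F] K)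
    have h1 : (univ.filter (fun σ : K ≃ₐ[F] K => σ • P = Q)).card =
        Nat.card (MulAction.stabilizer (K ≃ₐ[F] K) P) := by
      rw [← Fintype.card_subtype, Nat.card_eq_fintype_card]
      refine Fintype.card_congr ⟨fun σ => ⟨τ⁻¹ * σ.1, ?_⟩, fun σ => ⟨τ * σ.1, ?_⟩, ?_, ?_⟩
      · rw [MulAction.mem_stabilizer_iff, mul_smul, σ.2, ← hτ, inv_smul_smul]
      · rw [mul_smul, MulAction.mem_stabilizer_iff.1 σ.2, hτ]
      · intro σ; simp
      · intro σ; simp
    rw [h1, Ideal.card_stabilizer_eq p P, Ideal.ramificationIdxIn_eq_ramificationIdx p Q (K ≃ₐ[F] K),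
      mul_comm]
  refine ⟨p ^ (p.inertiaDegIn (𝓞 K)), pow_ne_zero _ hp, ?_⟩
  rw [Ideal.map_pow, Ideal.map_algebraMap_eq_finsetProd_pow hp, ← Finset.prod_pow]
  have hmem : ∀ σ ∈ (univ : Finset (K ≃ₐ[F] K)), σ • P ∈ (p.primesOver (𝓞 K)).toFinset := by
    intro σ _
    rw [Set.mem_toFinset]
    exact ⟨inferInstance, inferInstance⟩
  rw [← Finset.prod_fiberwise_of_maps_to hmem]
  refine Finset.prod_congr rfl fun Q hQ => ?_
  rw [Finset.prod_congr rfl (g := fun _ => Q) (fun σ hσ => (Finset.mem_filter.1 hσ).2),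
    Finset.prod_const, hcard Q hQ, mul_comm, pow_mul]

/-- The product over the group of the conjugates of a nonzero ideal. -/
theorem prod_smul_ideal [IsGalois F K] (I : Ideal (𝓞 K)) :
    I ≠ ⊥ → ∃ I' : Ideal (𝓞 F), I' ≠ ⊥ ∧
      ∏ σ : K ≃ₐ[F] K, σ • I = I'.map (algebraMap (𝓞 F) (𝓞 K)) := by
  refine UniqueFactorizationMonoid.induction_on_prime I ?_ ?_ ?_
  · intro h; exact absurd rfl h
  · intro I hI _
    rw [Ideal.isUnit_iff] at hI
    refine ⟨⊤, by simp, ?_⟩
    rw [Ideal.map_top, hI, ← Ideal.one_eq_top]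
    simp only [smul_one, Finset.prod_const_one]
  · intro I P hI hP ih _
    obtain ⟨I', hI', h1⟩ := ih hI
    have hPp : P.IsPrime := Ideal.isPrime_of_prime hP
    obtain ⟨P', hP', h2⟩ := prod_smul_prime (F := F) P hP.ne_zero
    refine ⟨P' * I', mul_ne_zero hP' hI', ?_⟩
    rw [Ideal.map_mul, ← h1, ← h2, ← Finset.prod_mul_distrib]
    exact Finset.prod_congr rfl fun σ _ => smul_mul' σ P I

/-- The product of the conjugates. -/
noncomputable def nm (F K : Type) [Field F] [Field K] [NumberField K] [Algebra F K]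
    [FiniteDimensional F K] : J K →* J K where
  toFun c := ∏ σ : K ≃ₐ[F] K, σ • c
  map_one' := by simp only [smul_one, Finset.prod_const_one]
  map_mul' a b := by simp only [smul_mul', Finset.prod_mul_distrib]

theorem nm_apply (c : J K) : nm F K c = ∏ σ : K ≃ₐ[F] K, σ • c := rfl

theorem smul_mk0 (σ : K ≃ₐ[F] K) (I : (Ideal (𝓞 K))⁰) (I' : (Ideal (𝓞 K))⁰)
    (h : (I' : Ideal (𝓞 K)) = σ • (I : Ideal (𝓞 K))) :
    σ • (FractionalIdeal.mk0 K I : J K) = FractionalIdeal.mk0 K I' := by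
  apply Units.ext
  ext x
  rw [mem_smul, FractionalIdeal.coe_mk0, FractionalIdeal.coe_mk0, FractionalIdeal.mem_coeIdeal,
    FractionalIdeal.mem_coeIdeal, h]
  constructor
  · rintro ⟨y, hy, hy'⟩
    refine ⟨σ • y, Ideal.smul_mem_pointwise_smul σ y _ hy, ?_⟩
    have : algebraMap (𝓞 K) K (σ • y) = σ (algebraMap (𝓞 K) K y) := rfl
    rw [this, hy', AlgEquiv.apply_symm_apply]
  · rintro ⟨y, hy, rfl⟩
    refine ⟨σ⁻¹ • y, ?_, rfl⟩
    rwa [Ideal.mem_pointwise_smul_iff_inv_smul_mem] at hy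

theorem nm_prin [IsGalois F K] (x : Kˣ) :
    nm F K (prin x) = ext F K (prin (Units.map (Algebra.norm F : K →* F) x)) := by
  rw [ext_prin, nm_apply, Finset.prod_congr rfl (fun σ _ => smul_prin σ x), ← map_prod]
  congr 1
  apply Units.ext
  rw [Units.coe_prod]
  show _ = algebraMap F K (Algebra.norm F (x : K))
  rw [Algebra.norm_eq_prod_automorphisms]
  rfl

/-- Extended ideals are invariant. -/
theorem smul_ext (σ : K ≃ₐ[F] K) (c : J F) : σ • ext F K c = ext F K c := by
  have key : ∀ (τ : K ≃ₐ[F] K) (x : K), x ∈ (ext F K c : FractionalIdeal (𝓞 K)⁰ K) →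
      τ x ∈ (ext F K c : FractionalIdeal (𝓞 K)⁰ K) := by
    intro τ x hx
    change x ∈ FractionalIdeal.extendedHom K (𝓞 K) (c : FractionalIdeal (𝓞 F)⁰ F) at hx
    change τ x ∈ FractionalIdeal.extendedHom K (𝓞 K) (c : FractionalIdeal (𝓞 F)⁰ F)
    rw [← FractionalIdeal.mem_coe, FractionalIdeal.coe_extendedHom_eq_span] at hx ⊢
    refine Submodule.span_induction (p := fun x _ => τ x ∈ Submodule.span (𝓞 K)
      (algebraMap F K '' (c : FractionalIdeal (𝓞 F)⁰ F))) ?_ ?_ ?_ ?_ hx
    · rintro _ ⟨y, hy, rfl⟩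
      apply Submodule.subset_span
      exact ⟨y, hy, (τ.commutes y).symm⟩
    · rw [map_zero]; exact Submodule.zero_mem _
    · intro a b _ _ ha hb
      rw [map_add]; exact Submodule.add_mem _ ha hb
    · intro a b _ hb
      have : τ (a • b) = (τ • a) • τ b := by
        rw [Algebra.smul_def, Algebra.smul_def, map_mul]; rfl
      rw [this]
      exact Submodule.smul_mem _ _ hb
  apply Units.ext
  ext x
  rw [mem_smul]
  constructor
  · intro h
    have := key σ _ h
    rwa [AlgEquiv.apply_symm_apply] at this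
  · intro h
    exact key σ⁻¹ _ h

theorem nm_ext [IsGalois F K] (c : J F) :
    nm F K (ext F K c) = ext F K c ^ Module.finrank F K := by
  rw [nm_apply, Finset.prod_congr rfl (fun σ _ => smul_ext σ c), Finset.prod_const,
    Finset.card_univ, ← Nat.card_eq_fintype_card, IsGalois.card_aut_eq_finrank]

/-- The product of the conjugates of a fractional ideal comes from `F`. -/
theorem nm_mem [IsGalois F K] (c : J K) : ∃ c' : J F, ext F K c' = nm F K c := by
  have key : ∀ I : (Ideal (𝓞 K))⁰, FractionalIdeal.mk0 K I ∈ (ext F K).range.comap (nm F K) := by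
    intro I
    obtain ⟨I', hI', h⟩ := prod_smul_ideal (F := F) (I : Ideal (𝓞 K)) (nonZeroDivisors.coe_ne_zero I)
    refine ⟨FractionalIdeal.mk0 F ⟨I', mem_nonZeroDivisors_of_ne_zero hI'⟩, ?_⟩
    have hne : ∀ σ : K ≃ₐ[F] K, σ • (I : Ideal (𝓞 K)) ≠ 0 := by
      intro σ h0
      apply nonZeroDivisors.coe_ne_zero I
      rw [← inv_smul_smul σ (I : Ideal (𝓞 K)), h0]
      exact smul_zero _
    rw [nm_apply, Finset.prod_congr rfl (fun σ _ => smul_mk0 σ I
      ⟨σ • (I : Ideal (𝓞 K)), mem_nonZeroDivisors_of_ne_zero (hne σ)⟩ rfl), ← map_prod]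
    apply Units.ext
    show FractionalIdeal.extendedHom K (𝓞 K) (I' : FractionalIdeal (𝓞 F)⁰ F) = _
    rw [FractionalIdeal.extendedHom_coeIdeal_eq_map, ← h, FractionalIdeal.coe_mk0]
    congr 1
    simp
  have key2 : ∀ x : Kˣ, prin x ∈ (ext F K).range.comap (nm F K) := fun x => ⟨_, (nm_prin x).symm⟩
  show c ∈ (ext F K).range.comap (nm F K)
  obtain ⟨a, I, ha, hc⟩ := FractionalIdeal.exists_eq_spanSingleton_mul
    (c : FractionalIdeal (𝓞 K)⁰ K)
  have ha' : (algebraMap (𝓞 K) K a) ≠ 0 := by simpa using ha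
  have hI : I ≠ 0 := by
    rintro rfl
    apply c.ne_zero
    rw [hc]; simp
  have : c = (prin (Units.mk0 _ ha'))⁻¹ * FractionalIdeal.mk0 K
      ⟨I, mem_nonZeroDivisors_of_ne_zero hI⟩ := by
    rw [← map_inv]
    apply Units.ext
    rw [hc, Units.val_mul, coe_toPrincipalIdeal]
    simp
  rw [this]
  exact mul_mem (inv_mem (key2 _)) (key _)

end Norm

/-! ### Group theory -/

section Groups

theorem not_dvd_card_iff (p : ℕ) [hp : Fact p.Prime] (B : Type) [CommGroup B] [Finite B] :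
    ¬ p ∣ Nat.card B ↔ ∀ b : B, ∃ m : ℕ, m.Coprime p ∧ b ^ m = 1 := by
  constructor
  · intro h b
    exact ⟨Nat.card B, ((Nat.Prime.coprime_iff_not_dvd hp.1).2 h).symm, pow_card_eq_one'⟩
  · intro h hd
    obtain ⟨b, hb⟩ := exists_prime_orderOf_dvd_card' p hd
    obtain ⟨m, hm, hbm⟩ := h b
    have : p ∣ m := hb ▸ orderOf_dvd_of_pow_eq_one hbm
    exact (Nat.Prime.coprime_iff_not_dvd hp.1).1 hm.symm this

theorem abs (p : ℕ) [hp : Fact p.Prime] (A C : Type) [CommGroup A] [CommGroup C] [Finite A]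
    [Finite C] (N : A →* A) (e : C →* A) (d : ℕ) (hd : d.Coprime p)
    (h1 : ∀ c, N (e c) = e c ^ d) (h2 : ∀ a, N a ∈ e.range) (h3 : ∀ c, e c = 1 → c ^ d = 1) :
    padicValNat p (Nat.card A) = padicValNat p (Nat.card C) ↔
      ∀ a, N a = 1 → ∃ m : ℕ, m.Coprime p ∧ a ^ m = 1 := by
  have hle : N.range ≤ e.range := by
    rintro _ ⟨a, rfl⟩; exact h2 a
  have c1 : ¬ p ∣ Nat.card e.ker := by
    rw [not_dvd_card_iff]
    rintro ⟨b, hb⟩
    exact ⟨d, hd, Subtype.ext (h3 b hb)⟩
  have c2 : ¬ p ∣ Nat.card (e.range ⧸ (N.range.subgroupOf e.range)) := by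
    rw [not_dvd_card_iff]
    intro b
    obtain ⟨⟨_, c, rfl⟩, rfl⟩ := QuotientGroup.mk_surjective b
    refine ⟨d, hd, ?_⟩
    rw [← QuotientGroup.mk_pow, QuotientGroup.eq_one_iff, Subgroup.mem_subgroupOf]
    exact ⟨e c, h1 c⟩
  have e1 : Nat.card A = Nat.card N.ker * Nat.card N.range := by
    rw [← Subgroup.index_ker, Subgroup.card_mul_index]
  have e2 : Nat.card C = Nat.card e.ker * Nat.card e.range := by
    rw [← Subgroup.index_ker, Subgroup.card_mul_index]
  have e3 : Nat.card e.range = Nat.card N.range *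
      Nat.card (e.range ⧸ (N.range.subgroupOf e.range)) := by
    rw [← Subgroup.card_mul_index (N.range.subgroupOf e.range), Subgroup.index,
      Nat.card_congr (Subgroup.subgroupOfEquivOfLe hle).toEquiv]
  have pos : ∀ (X : Type) [Finite X] [Nonempty X], Nat.card X ≠ 0 := fun X _ _ => Nat.card_ne_zero.2
    ⟨inferInstance, inferInstance⟩
  rw [e1, e2, e3, padicValNat.mul (pos _) (pos _), padicValNat.mul (pos _) (mul_ne_zero (pos _)
    (pos _)), padicValNat.mul (pos _) (pos _), padicValNat.eq_zero_of_not_dvd c1,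
    padicValNat.eq_zero_of_not_dvd c2, zero_add, add_zero]
  have : (∀ a, N a = 1 → ∃ m : ℕ, m.Coprime p ∧ a ^ m = 1) ↔ ¬ p ∣ Nat.card N.ker := by
    rw [not_dvd_card_iff]
    constructor
    · rintro h ⟨a, ha⟩
      obtain ⟨m, hm, h'⟩ := h a ha
      exact ⟨m, hm, Subtype.ext h'⟩
    · intro h a ha
      obtain ⟨m, hm, h'⟩ := h ⟨a, ha⟩
      exact ⟨m, hm, congrArg Subtype.val h'⟩
  rw [this]
  constructor
  · intro h hdv
    have := one_le_padicValNat_of_dvd (pos N.ker) hdv
    omega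
  · intro h
    rw [padicValNat.eq_zero_of_not_dvd h, zero_add]

end Groups

theorem classNumber_eq (K : Type) [Field K] [NumberField K] :
    NumberField.classNumber K = Nat.card (J K ⧸ (prin (K := K)).range) := by
  rw [NumberField.classNumber, ← Nat.card_eq_fintype_card]
  exact Nat.card_congr (ClassGroup.equiv K).toEquiv

instance finite_quot (K : Type) [Field K] [NumberField K] :
    Finite (J K ⧸ (prin (K := K)).range) :=
  Finite.of_equiv _ (ClassGroup.equiv (R := 𝓞 K) K).toEquiv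

end CL

open CL in
/-- Module CL. -/
theorem CL_thm : CL := by
  intro p hp F K _ _ _ _ _ _ hd
  let N : (J K ⧸ (prin (K := K)).range) →* (J K ⧸ (prin (K := K)).range) :=
    QuotientGroup.map _ _ (nm F K) (by
      rintro _ ⟨x, rfl⟩
      rw [Subgroup.mem_comap, nm_prin, ext_prin]
      exact ⟨_, rfl⟩)
  let e : (J F ⧸ (prin (K := F)).range) →* (J K ⧸ (prin (K := K)).range) :=
    QuotientGroup.map _ _ (ext F K) (by
      rintro _ ⟨x, rfl⟩
      rw [Subgroup.mem_comap, ext_prin]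
      exact ⟨_, rfl⟩)
  rw [classNumber_eq, classNumber_eq, abs p _ _ N e (Module.finrank F K) hd]
  · constructor
    · intro h c hc
      obtain ⟨m, hm, h'⟩ := h (QuotientGroup.mk c) (by
        show (QuotientGroup.mk (nm F K c) : J K ⧸ (prin (K := K)).range) = 1
        rw [nm_apply, hc]; rfl)
      refine ⟨m, hm, ?_⟩
      rw [← QuotientGroup.mk_pow, QuotientGroup.eq_one_iff] at h'
      obtain ⟨x, hx⟩ := h'
      exact ⟨x, hx.symm⟩
    · intro h a ha
      obtain ⟨c, rfl⟩ := QuotientGroup.mk_surjective a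
      change (QuotientGroup.mk (nm F K c) : J K ⧸ (prin (K := K)).range) = 1 at ha
      rw [QuotientGroup.eq_one_iff] at ha
      obtain ⟨y, hy⟩ := ha
      obtain ⟨c', hc'⟩ := nm_mem (F := F) c
      obtain ⟨m, hm, x, hx⟩ := h (c ^ Module.finrank F K / nm F K c) (by
        rw [← nm_apply, map_div, map_pow, ← hc', nm_ext, div_self'])
      refine ⟨Module.finrank F K * m, Nat.Coprime.mul_left hd hm, ?_⟩
      rw [← QuotientGroup.mk_pow, QuotientGroup.eq_one_iff, pow_mul]
      refine ⟨x * y ^ m, ?_⟩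
      rw [map_mul, map_pow, hy, ← hx, div_pow, div_mul_cancel]
  · intro c
    obtain ⟨c, rfl⟩ := QuotientGroup.mk_surjective c
    show (QuotientGroup.mk (nm F K (ext F K c)) : J K ⧸ (prin (K := K)).range) =
      (QuotientGroup.mk (ext F K c)) ^ _
    rw [nm_ext]; rfl
  · intro a
    obtain ⟨c, rfl⟩ := QuotientGroup.mk_surjective a
    obtain ⟨c', hc'⟩ := nm_mem (F := F) c
    refine ⟨QuotientGroup.mk c', ?_⟩
    show (QuotientGroup.mk (ext F K c') : J K ⧸ (prin (K := K)).range) =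
      QuotientGroup.mk (nm F K c)
    rw [hc']
  · intro c hc
    obtain ⟨c, rfl⟩ := QuotientGroup.mk_surjective c
    change (QuotientGroup.mk (ext F K c) : J K ⧸ (prin (K := K)).range) = 1 at hc
    rw [QuotientGroup.eq_one_iff] at hc
    obtain ⟨x, hx⟩ := hc
    rw [← QuotientGroup.mk_pow, QuotientGroup.eq_one_iff]
    refine ⟨Units.map (Algebra.norm F : K →* F) x, ?_⟩
    apply ext_injective F K
    rw [← nm_prin, hx, nm_ext, map_pow]

end Pool.Agent.RI
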