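import Pool.Agent.RI.Stmts

/-!
# Relative Iwasawa theorem: exponents of the conjugate ideal (COUNTACT)
-/

open NumberField IsDedekindDomain
open scoped nonZeroDivisors Pointwise

namespace Pool.Agent.RI

namespace COUNTACT

variable {F K : Type} [Field F] [Field K] [NumberField K] [Algebra F K]

open Classical in
lemma count_ideal (σ : K ≃ₐ[F] K) (v w : HeightOneSpectrum (𝓞 K))
    (h : w.asIdeal = σ • v.asIdeal) (I : Ideal (𝓞 K)) (hI : I ≠ 0) :
    (Associates.mk w.asIdeal).count (Associates.mk (σ • I)).factors =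
      (Associates.mk v.asIdeal).count (Associates.mk I).factors := by
  have hI' : σ • I ≠ 0 := by
    intro h0
    apply hI
    have h1 : σ⁻¹ • (σ • I) = σ⁻¹ • (0 : Ideal (𝓞 K)) := by rw [h0]
    rwa [inv_smul_smul, smul_zero] at h1
  have key : ∀ k : ℕ, k ≤ (Associates.mk w.asIdeal).count (Associates.mk (σ • I)).factors ↔
      k ≤ (Associates.mk v.asIdeal).count (Associates.mk I).factors := by
    intro k
    rw [← Associates.prime_pow_dvd_iff_le (Associates.mk_ne_zero.2 hI') w.associates_irreducible,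
      ← Associates.prime_pow_dvd_iff_le (Associates.mk_ne_zero.2 hI) v.associates_irreducible,
      ← Associates.mk_pow, ← Associates.mk_pow, Associates.mk_le_mk_iff_dvd,
      Associates.mk_le_mk_iff_dvd, Ideal.dvd_iff_le, Ideal.dvd_iff_le, h, ← smul_pow',
      Ideal.pointwise_smul_le_pointwise_smul_iff]
  exact le_antisymm ((key _).1 le_rfl) ((key _).2 le_rfl)

lemma coe_smul_int (σ : K ≃ₐ[F] K) (a : 𝓞 K) :
    algebraMap (𝓞 K) K (σ • a) = σ (algebraMap (𝓞 K) K a) := rfl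

lemma span_smul (σ : K ≃ₐ[F] K) (a : 𝓞 K) :
    Ideal.span {σ • a} = σ • (Ideal.span {a} : Ideal (𝓞 K)) := by
  rw [Ideal.smul_closure, Set.smul_set_singleton]

lemma smul_frac (σ : K ≃ₐ[F] K) (c : J K) (a : 𝓞 K) (I : Ideal (𝓞 K))
    (hc : (c : FractionalIdeal (𝓞 K)⁰ K) =
      FractionalIdeal.spanSingleton (𝓞 K)⁰ (algebraMap (𝓞 K) K a)⁻¹ * I) :
    ((σ • c : J K) : FractionalIdeal (𝓞 K)⁰ K) =
      FractionalIdeal.spanSingleton (𝓞 K)⁰ (algebraMap (𝓞 K) K (σ • a))⁻¹ *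
        ((σ • I : Ideal (𝓞 K)) : FractionalIdeal (𝓞 K)⁰ K) := by
  ext x
  rw [mem_smul, hc, FractionalIdeal.mem_singleton_mul, FractionalIdeal.mem_singleton_mul]
  constructor
  · rintro ⟨y, hy, hxy⟩
    obtain ⟨z, hz, rfl⟩ := (FractionalIdeal.mem_coeIdeal _).1 hy
    refine ⟨algebraMap (𝓞 K) K (σ • z), (FractionalIdeal.mem_coeIdeal _).2
      ⟨σ • z, Ideal.smul_mem_pointwise_smul σ z I hz, rfl⟩, ?_⟩
    have := congrArg σ hxy
    rw [AlgEquiv.apply_symm_apply, map_mul, map_inv₀] at this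
    exact this
  · rintro ⟨y, hy, hxy⟩
    obtain ⟨z, hz, rfl⟩ := (FractionalIdeal.mem_coeIdeal _).1 hy
    refine ⟨algebraMap (𝓞 K) K (σ⁻¹ • z), (FractionalIdeal.mem_coeIdeal _).2
      ⟨σ⁻¹ • z, Ideal.mem_pointwise_smul_iff_inv_smul_mem.1 hz, rfl⟩, ?_⟩
    have := congrArg σ.symm hxy
    rw [map_mul, map_inv₀, coe_smul_int, AlgEquiv.symm_apply_apply] at this
    exact this

end COUNTACT

open COUNTACT in
theorem COUNTACT_thm : COUNTACT := by
  classical
  intro F K _ _ _ _ σ v w h c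
  obtain ⟨a, I, ha, hc⟩ := FractionalIdeal.exists_eq_spanSingleton_mul
    (c : FractionalIdeal (𝓞 K)⁰ K)
  have hc0 : (c : FractionalIdeal (𝓞 K)⁰ K) ≠ 0 := c.ne_zero
  have hc1 : ((σ • c : J K) : FractionalIdeal (𝓞 K)⁰ K) ≠ 0 := (σ • c : J K).ne_zero
  have hI : I ≠ 0 := by
    rintro rfl
    apply hc0
    rw [hc]
    simp
  have ha' : (Ideal.span {a} : Ideal (𝓞 K)) ≠ 0 := by
    simpa using ha
  rw [FractionalIdeal.count_well_defined K v hc0 hc,
    FractionalIdeal.count_well_defined K w hc1 (smul_frac σ c a I hc), span_smul,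
    count_ideal σ v w h I hI, count_ideal σ v w h _ ha']

end Pool.Agent.RI
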