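import Pool.Agent.RI.Stmts

/-!
# Relative Iwasawa theorem: COUNTEXT, exponents of the extended ideal
-/

open NumberField IsDedekindDomain
open scoped nonZeroDivisors

namespace Pool.Agent.RI

namespace COUNTEXT

/-- The exponent of a nonzero integral ideal is a multiplicity. -/
lemma count_coe_eq (K : Type) [Field K] [NumberField K] (v : HeightOneSpectrum (𝓞 K))
    {J : Ideal (𝓞 K)} (hJ : J ≠ ⊥) :
    FractionalIdeal.count K v (J : FractionalIdeal (𝓞 K)⁰ K) =
      ((multiplicity v.asIdeal J : ℕ) : ℤ) := by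
  classical
  rw [FractionalIdeal.count_coe K v hJ, Ideal.count_associates_factors_eq hJ v.isPrime v.ne_bot,
    HeightOneSpectrum.count_normalizedFactors_eq_multiplicity hJ]

/-- Exponents of the extension of a nonzero integral ideal. -/
lemma count_map (K L : Type) [Field K] [NumberField K] [Field L] [NumberField L]
    [Algebra K L] (v : HeightOneSpectrum (𝓞 K)) (w : HeightOneSpectrum (𝓞 L))
    (h : w.asIdeal.under (𝓞 K) = v.asIdeal) {J : Ideal (𝓞 K)} (hJ : J ≠ ⊥) :
    FractionalIdeal.count L w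
        ((J.map (algebraMap (𝓞 K) (𝓞 L)) : Ideal (𝓞 L)) : FractionalIdeal (𝓞 L)⁰ L) =
      (w.asIdeal.ramificationIdx (𝓞 K) : ℤ) *
        FractionalIdeal.count K v (J : FractionalIdeal (𝓞 K)⁰ K) := by
  have hlies : w.asIdeal.LiesOver v.asIdeal := ⟨h.symm⟩
  have hJ' : J.map (algebraMap (𝓞 K) (𝓞 L)) ≠ ⊥ := Ideal.map_ne_bot_of_ne_bot hJ
  have hw : w.asIdeal.IsPrime := w.isPrime
  rw [count_coe_eq L w hJ', count_coe_eq K v hJ]
  have h1 := Ideal.IsDedekindDomain.emultiplicity_map_eq_ramificationIdx'_mul (v := v.asIdeal)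
    (w := w.asIdeal) (I := J) hJ v.irreducible w.irreducible w.ne_bot
  rw [Ideal.ramificationIdx'_eq_ramificationIdx v.asIdeal w.asIdeal v.ne_bot] at h1
  have fv : FiniteMultiplicity v.asIdeal J :=
    FiniteMultiplicity.of_prime_left v.prime hJ
  have fw : FiniteMultiplicity w.asIdeal (J.map (algebraMap (𝓞 K) (𝓞 L))) :=
    FiniteMultiplicity.of_prime_left w.prime hJ'
  rw [fv.emultiplicity_eq_multiplicity, fw.emultiplicity_eq_multiplicity] at h1
  have h2 : multiplicity w.asIdeal (J.map (algebraMap (𝓞 K) (𝓞 L))) =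
      w.asIdeal.ramificationIdx (𝓞 K) * multiplicity v.asIdeal J := by exact_mod_cast h1
  rw [h2]
  push_cast
  rfl

end COUNTEXT

open COUNTEXT in
/-- COUNTEXT: exponents of the extended ideal. -/
theorem COUNTEXT_thm : COUNTEXT := by
  intro K L _ _ _ _ _ v w h c
  obtain ⟨a, I, ha, haI⟩ := FractionalIdeal.exists_eq_spanSingleton_mul
    (c : FractionalIdeal (𝓞 K)⁰ K)
  have hc : (c : FractionalIdeal (𝓞 K)⁰ K) ≠ 0 := c.ne_zero
  have hI : I ≠ ⊥ := FractionalIdeal.ideal_factor_ne_zero hc haI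
  have ha' : algebraMap (𝓞 K) K a ≠ 0 := by
    rw [Ne, map_eq_zero_iff _ (IsFractionRing.injective (𝓞 K) K)]
    exact ha
  have hs : Ideal.span {a} ≠ ⊥ := by
    rw [Ne, Ideal.span_singleton_eq_bot]
    exact ha
  -- `(a) c = I`
  have e1 : ((Ideal.span {a} : Ideal (𝓞 K)) : FractionalIdeal (𝓞 K)⁰ K) * c = I := by
    rw [haI, ← mul_assoc, FractionalIdeal.coeIdeal_span_singleton,
      FractionalIdeal.spanSingleton_mul_spanSingleton, mul_inv_cancel₀ ha',
      FractionalIdeal.spanSingleton_one, one_mul]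
  have e2 : (((Ideal.span {a} : Ideal (𝓞 K)).map (algebraMap (𝓞 K) (𝓞 L)) : Ideal (𝓞 L)) :
      FractionalIdeal (𝓞 L)⁰ L) * (ext K L c : J L) =
      ((I.map (algebraMap (𝓞 K) (𝓞 L)) : Ideal (𝓞 L)) : FractionalIdeal (𝓞 L)⁰ L) := by
    rw [← FractionalIdeal.extendedHom_coeIdeal_eq_map (K := K),
      ← FractionalIdeal.extendedHom_coeIdeal_eq_map (K := K), ← e1, map_mul]
    rfl
  have hs' : ((Ideal.span {a} : Ideal (𝓞 K)) : FractionalIdeal (𝓞 K)⁰ K) ≠ 0 :=
    FractionalIdeal.coeIdeal_ne_zero.mpr hs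
  have hs'' : (((Ideal.span {a} : Ideal (𝓞 K)).map (algebraMap (𝓞 K) (𝓞 L)) : Ideal (𝓞 L)) :
      FractionalIdeal (𝓞 L)⁰ L) ≠ 0 :=
    FractionalIdeal.coeIdeal_ne_zero.mpr (Ideal.map_ne_bot_of_ne_bot hs)
  have f1 := congrArg (FractionalIdeal.count K v) e1
  have f2 := congrArg (FractionalIdeal.count L w) e2
  rw [FractionalIdeal.count_mul K v hs' hc] at f1
  rw [FractionalIdeal.count_mul L w hs'' (Units.ne_zero _), count_map K L v w h hs,
    count_map K L v w h hI, ← f1, mul_add] at f2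
  exact add_left_cancel f2

end Pool.Agent.RI
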