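import Pool.Agent.RI.Stmts

/-!
# Relative Iwasawa theorem: invariant ideals without ramified primes come from the base field
-/

open NumberField Finset IsDedekindDomain
open scoped nonZeroDivisors Pointwise

namespace Pool.Agent.RI

namespace INVI

/-- every prime of `K` has a prime of `L` above it -/
theorem exists_above (K L : Type) [Field K] [NumberField K] [Field L] [NumberField L]
    [Algebra K L] (v : HeightOneSpectrum (𝓞 K)) :
    ∃ w : HeightOneSpectrum (𝓞 L), w.asIdeal.under (𝓞 K) = v.asIdeal := by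
  obtain ⟨P, hP, hlo⟩ := (inferInstance : Nonempty (Ideal.primesOver v.asIdeal (𝓞 L)))
  have := hP
  have := hlo
  exact ⟨⟨P, hP, Ideal.ne_bot_of_liesOver_of_ne_bot v.ne_bot P⟩, (Ideal.over_def P v.asIdeal).symm⟩

/-- the contraction of a prime -/
theorem exists_below (K L : Type) [Field K] [NumberField K] [Field L] [NumberField L]
    [Algebra K L] (w : HeightOneSpectrum (𝓞 L)) :
    ∃ v : HeightOneSpectrum (𝓞 K), w.asIdeal.under (𝓞 K) = v.asIdeal :=
  ⟨w.under (𝓞 K), rfl⟩

/-- a fractional ideal with prescribed exponents -/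
theorem exists_count (K : Type) [Field K] [NumberField K]
    (n : HeightOneSpectrum (𝓞 K) → ℤ) (hn : {v | n v ≠ 0}.Finite) :
    ∃ c : J K, ∀ v, FractionalIdeal.count K v (c : FractionalIdeal (𝓞 K)⁰ K) = n v := by
  classical
  set I : FractionalIdeal (𝓞 K)⁰ K :=
    ∏ v ∈ hn.toFinset, (v.asIdeal : FractionalIdeal (𝓞 K)⁰ K) ^ n v with hI
  have h0 : ∀ v ∈ hn.toFinset, (v.asIdeal : FractionalIdeal (𝓞 K)⁰ K) ^ n v ≠ 0 := fun v _ =>
    zpow_ne_zero _ (FractionalIdeal.coeIdeal_ne_zero.mpr v.ne_bot)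
  have hI0 : I ≠ 0 := Finset.prod_ne_zero_iff.2 h0
  refine ⟨Units.mk0 I hI0, fun v => ?_⟩
  rw [Units.val_mk0, hI, FractionalIdeal.count_prod K v _ _ h0]
  simp only [FractionalIdeal.count_zpow, FractionalIdeal.count_maximal, mul_ite, mul_one, mul_zero]
  rw [Finset.sum_ite_eq']
  by_cases h : n v = 0
  · simp [h]
  · simp [h]

/-- fractional ideals with equal exponents are equal -/
theorem eq_of_count (L : Type) [Field L] [NumberField L] (b c : J L)
    (h : ∀ w : HeightOneSpectrum (𝓞 L),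
      FractionalIdeal.count L w (b : FractionalIdeal (𝓞 L)⁰ L) =
        FractionalIdeal.count L w (c : FractionalIdeal (𝓞 L)⁰ L)) : b = c := by
  apply Units.ext
  rw [← FractionalIdeal.finprod_heightOneSpectrum_factorization' L b.ne_zero,
    ← FractionalIdeal.finprod_heightOneSpectrum_factorization' L c.ne_zero]
  exact finprod_congr fun w => by rw [h w]

end INVI

open INVI in
theorem INVI_thm (h1 : COUNTACT) (h2 : COUNTEXT) : INVI := by
  intro K L _ _ _ _ _ _ b hb hr
  choose up hup using exists_above K L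
  -- primes above the same prime are conjugate
  have hconj : ∀ w w' : HeightOneSpectrum (𝓞 L), w.asIdeal.under (𝓞 K) = w'.asIdeal.under (𝓞 K) →
      FractionalIdeal.count L w' (b : FractionalIdeal (𝓞 L)⁰ L) =
        FractionalIdeal.count L w (b : FractionalIdeal (𝓞 L)⁰ L) ∧
      w.asIdeal.ramificationIdx (𝓞 K) = w'.asIdeal.ramificationIdx (𝓞 K) := by
    intro w w' hww
    have : w.asIdeal.LiesOver (w.asIdeal.under (𝓞 K)) := ⟨rfl⟩
    have : w'.asIdeal.LiesOver (w.asIdeal.under (𝓞 K)) := ⟨hww⟩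
    have : w.asIdeal.IsPrime := w.isPrime
    have : w'.asIdeal.IsPrime := w'.isPrime
    refine ⟨?_, Ideal.ramificationIdx_eq_of_isGaloisGroup (w.asIdeal.under (𝓞 K)) w.asIdeal
      w'.asIdeal (L ≃ₐ[K] L)⟩
    obtain ⟨σ, hσ⟩ := Ideal.exists_smul_eq_of_isGaloisGroup (w.asIdeal.under (𝓞 K)) w.asIdeal
      w'.asIdeal (L ≃ₐ[K] L)
    have h3 := h1 K L σ w w' hσ.symm b
    rw [hb σ] at h3
    exact h3
  have hfin : {v : HeightOneSpectrum (𝓞 K) |
      FractionalIdeal.count L (up v) (b : FractionalIdeal (𝓞 L)⁰ L) ≠ 0}.Finite := by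
    have h3 : {w : HeightOneSpectrum (𝓞 L) |
        FractionalIdeal.count L w (b : FractionalIdeal (𝓞 L)⁰ L) ≠ 0}.Finite := by
      have := FractionalIdeal.finite_factors (b : FractionalIdeal (𝓞 L)⁰ L)
      rwa [Filter.eventually_cofinite] at this
    apply Set.Finite.of_finite_image (f := up) (h3.subset ?_)
    · intro a _ a' _ haa
      apply HeightOneSpectrum.ext
      rw [← hup a, ← hup a', haa]
    · rintro _ ⟨v, hv, rfl⟩
      exact hv
  obtain ⟨c, hc⟩ := exists_count K _ hfin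
  refine ⟨c, eq_of_count L _ _ fun w => ?_⟩
  obtain ⟨v, hv⟩ := exists_below K L w
  rw [h2 K L v w hv c, hc v]
  obtain ⟨h3, h4⟩ := hconj (up v) w ((hup v).trans hv.symm)
  by_cases he : w.asIdeal.ramificationIdx (𝓞 K) = 1
  · rw [he, h3]
    simp
  · rw [hr w he, hr (up v) (by rw [h4]; exact he), mul_zero]

end Pool.Agent.RI
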