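import Pool.Agent.RI.RKU

/-!
# RKF: ranks of the groups of relative units in the square
-/

open NumberField Finset IsDedekindDomain
open scoped nonZeroDivisors Pointwise

namespace Pool.Agent.RI

namespace RKF

/-- The principal ideal of an element of `K` is trivial iff the one of its image is. -/
theorem prin_map_eq_one_iff {K L : Type} [Field K] [NumberField K] [Field L] [NumberField L]
    [Algebra K L] (x : Kˣ) : prin (Units.map (algebraMap K L : K →* L) x) = 1 ↔ prin x = 1 := by
  have h : ext K L (prin x) = prin (Units.map (algebraMap K L : K →* L) x) := ext_prin K L x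
  rw [← h]
  constructor
  · intro h1
    apply ext_injective K L
    rw [h1, map_one]
  · intro h1
    rw [h1, map_one]

/-- Elements of `Lˣ` fixed by `Gal(L / K)` come from `Kˣ`. -/
theorem exists_of_fixed {K L : Type} [Field K] [Field L] [Algebra K L] [FiniteDimensional K L]
    [IsGalois K L] (u : Lˣ) (h : ∀ τ : L ≃ₐ[K] L, τ • u = u) :
    ∃ x : Kˣ, Units.map (algebraMap K L : K →* L) x = u := by
  have h1 : (u : L) ∈ Set.range (algebraMap K L) := by
    rw [IsGalois.mem_range_algebraMap_iff_fixed]
    intro τ
    exact congrArg Units.val (h τ)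
  obtain ⟨x, hx⟩ := h1
  have hx0 : x ≠ 0 := by
    rintro rfl
    rw [map_zero] at hx
    exact u.ne_zero hx.symm
  exact ⟨Units.mk0 x hx0, Units.ext hx⟩

/-- The norm of an element of `K`, by restriction of automorphisms. -/
theorem prod_smul_map {F K M L : Type} [Field F] [Field K] [Field M] [Field L]
    [Algebra F K] [Algebra K L] [Algebra M L] [FiniteDimensional F K] [FiniteDimensional M L]
    (ρ : (L ≃ₐ[M] L) ≃* (K ≃ₐ[F] K))
    (hρ : ∀ (σ : L ≃ₐ[M] L) (x : K), algebraMap K L (ρ σ x) = σ (algebraMap K L x)) (x : Kˣ) :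
    ∏ σ : L ≃ₐ[M] L, σ • Units.map (algebraMap K L : K →* L) x =
      Units.map (algebraMap K L : K →* L) (∏ σ : K ≃ₐ[F] K, σ • x) := by
  rw [map_prod]
  refine Fintype.prod_equiv ρ.toEquiv _ _ fun σ => ?_
  apply Units.ext
  exact (hρ σ x).symm

end RKF

theorem RKF_thm (hSQ : SQ) (hRKU : RKU) : RKF := by
  intro p hp F K M L _ _ _ _ _ _ _ _ _ _ _ _ _ _ _ hsq hL hM
  obtain ⟨galKL, galML, -, -, ρ, hρ⟩ := hSQ p F K M L hsq
  have galFK := hsq.galK
  have h1 := (hRKU M L).2
  have h2 := (hRKU F K).2
  have hinj : Function.Injective (Units.map (algebraMap K L : K →* L)) :=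
    Units.map_injective (FaithfulSMul.algebraMap_injective K L)
  have h3 : Module.finrank ℤ (Additive (relUfix K M L)) =
      Module.finrank ℤ (Additive (relU F K)) := by
    have h4 : ∀ x : relU F K, Units.map (algebraMap K L : K →* L) (x : Kˣ) ∈ relUfix K M L := by
      intro x
      refine ⟨⟨(RKF.prin_map_eq_one_iff _).mpr x.2.1, ?_⟩, ?_⟩
      · rw [RKF.prod_smul_map ρ hρ, x.2.2, map_one]
      · intro τ
        apply Units.ext
        exact τ.commutes _
    let e : relU F K →* relUfix K M L :=
      { toFun := fun x => ⟨_, h4 x⟩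
        map_one' := Subtype.ext (map_one _)
        map_mul' := fun x y => Subtype.ext (map_mul _ _ _) }
    have he : Function.Bijective e := by
      constructor
      · intro x y hxy
        apply Subtype.ext
        apply hinj
        exact congrArg (fun z : relUfix K M L => (z : Lˣ)) hxy
      · rintro ⟨u, hu, hu'⟩
        obtain ⟨x, rfl⟩ := RKF.exists_of_fixed u hu'
        refine ⟨⟨x, (RKF.prin_map_eq_one_iff _).mp hu.1, ?_⟩, rfl⟩
        apply hinj
        rw [← RKF.prod_smul_map ρ hρ, hu.2, map_one]
    exact ((MulEquiv.toAdditive (MulEquiv.ofBijective e he)).toIntLinearEquiv).finrank_eq.symm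
  rw [h3]
  have c1 : 0 < Fintype.card (InfinitePlace L) := Fintype.card_pos
  have c2 : 0 < Fintype.card (InfinitePlace K) := Fintype.card_pos
  have c3 : 0 < Fintype.card (InfinitePlace M) := Fintype.card_pos
  have c4 : 0 < Fintype.card (InfinitePlace F) := Fintype.card_pos
  rw [Units.rank, Units.rank] at h1 h2
  have h5 : Module.finrank ℤ (Additive (relU F K)) + Fintype.card (InfinitePlace F) =
      Fintype.card (InfinitePlace K) := by omega
  have h6 : Module.finrank ℤ (Additive (relU M L)) + Fintype.card (InfinitePlace M) =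
      Fintype.card (InfinitePlace L) := by omega
  rw [hL, hM, ← h5, mul_add] at h6
  exact Nat.add_right_cancel h6

end Pool.Agent.RI
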