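import Pool.Agent.RI.HERB

/-!
# RKU: the rank of the group of relative units
-/

open NumberField Finset IsDedekindDomain
open scoped nonZeroDivisors Pointwise

namespace Pool.Agent.RI

namespace RKU

/-- The principal ideal of `u` is trivial iff `u` is a unit of the ring of integers. -/
theorem prin_eq_one_iff {L : Type} [Field L] [NumberField L] (u : Lˣ) :
    prin u = 1 ↔ ∃ ε : (𝓞 L)ˣ, Units.map (algebraMap (𝓞 L) L : 𝓞 L →* L) ε = u := by
  constructor
  · intro h
    have h0 : FractionalIdeal.spanSingleton (𝓞 L)⁰ (u : L) = 1 := by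
      have h1 := congrArg Units.val h
      rw [coe_toPrincipalIdeal] at h1
      exact h1
    have h1 : (u : L) ∈ (1 : FractionalIdeal (𝓞 L)⁰ L) := by
      rw [← h0]
      exact FractionalIdeal.mem_spanSingleton_self _ _
    have h2 : (1 : L) ∈ FractionalIdeal.spanSingleton (𝓞 L)⁰ (u : L) := by
      rw [h0]
      exact FractionalIdeal.one_mem_one _
    obtain ⟨a, ha⟩ := (FractionalIdeal.mem_one_iff _).mp h1
    obtain ⟨b, hb⟩ := (FractionalIdeal.mem_spanSingleton _).mp h2
    rw [Algebra.smul_def, ← ha, ← map_mul] at hb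
    have h3 : b * a = 1 := by
      apply FaithfulSMul.algebraMap_injective (𝓞 L) L
      rw [hb, map_one]
    refine ⟨⟨a, b, by rw [mul_comm, h3], h3⟩, ?_⟩
    apply Units.ext
    exact ha
  · rintro ⟨ε, rfl⟩
    apply Units.ext
    rw [coe_toPrincipalIdeal]
    ext y
    rw [FractionalIdeal.mem_spanSingleton]
    change (∃ z : 𝓞 L, z • (algebraMap (𝓞 L) L (ε : 𝓞 L)) = y) ↔
      y ∈ (1 : FractionalIdeal (𝓞 L)⁰ L)
    rw [FractionalIdeal.mem_one_iff]
    constructor
    · rintro ⟨z, rfl⟩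
      exact ⟨z * ε, by rw [Algebra.smul_def, map_mul]⟩
    · rintro ⟨z, rfl⟩
      refine ⟨z * ((ε⁻¹ : (𝓞 L)ˣ) : 𝓞 L), ?_⟩
      rw [Algebra.smul_def, ← map_mul, mul_assoc, Units.inv_mul, mul_one]

/-- A subgroup containing all the `d`-th multiples has full rank. -/
theorem finrank_eq_of_nsmul_mem {B : Type*} [AddCommGroup B] [Module.Finite ℤ B]
    (H : AddSubgroup B) (d : ℕ) (hd : 0 < d) (h : ∀ x : B, d • x ∈ H) :
    Module.finrank ℤ H = Module.finrank ℤ B := by
  have h1 := HERB.rank_nullity (QuotientAddGroup.mk' H)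
  have hf1 : Module.Finite ℤ (QuotientAddGroup.mk' H).range :=
    Module.Finite.of_surjective (QuotientAddGroup.mk' H).rangeRestrict.toIntLinearMap
      (QuotientAddGroup.mk' H).rangeRestrict_surjective
  have h2 : Module.finrank ℤ (QuotientAddGroup.mk' H).range = 0 := by
    rw [Module.finrank_eq_zero_iff_isTorsion]
    rintro ⟨_, ⟨x, rfl⟩⟩
    refine ⟨⟨(d : ℤ), mem_nonZeroDivisors_of_ne_zero (by exact_mod_cast hd.ne')⟩, ?_⟩
    apply Subtype.ext
    change ((d : ℤ) : ℤ) • (QuotientAddGroup.mk' H x) = 0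
    rw [natCast_zsmul, ← map_nsmul]
    exact (QuotientAddGroup.eq_zero_iff _).mpr (h x)
  rw [h2, zero_add, QuotientAddGroup.ker_mk'] at h1
  exact h1

end RKU

theorem RKU_thm : RKU := by
  intro M L _ _ _ _ _ _
  have hinj : Function.Injective (Units.map (algebraMap (𝓞 L) L : 𝓞 L →* L)) :=
    Units.map_injective (FaithfulSMul.algebraMap_injective (𝓞 L) L)
  -- the norm on the units
  obtain ⟨φ, hφ⟩ : ∃ φ : (𝓞 L)ˣ →* (𝓞 M)ˣ, φ = Units.map (RingOfIntegers.norm M) := ⟨_, rfl⟩
  have hφ' : ∀ ε : (𝓞 L)ˣ, φ ε = 1 ↔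
      (∏ σ : L ≃ₐ[M] L, σ • Units.map (algebraMap (𝓞 L) L : 𝓞 L →* L) ε) = 1 := by
    intro ε
    have h1 : (((∏ σ : L ≃ₐ[M] L, σ • Units.map (algebraMap (𝓞 L) L : 𝓞 L →* L) ε) : Lˣ) : L) =
        algebraMap M L (Algebra.norm M ((ε : 𝓞 L) : L)) := by
      rw [Algebra.norm_eq_prod_automorphisms, Units.coe_prod]
      rfl
    have h2 : ((φ ε : 𝓞 M) : M) = Algebra.norm M ((ε : 𝓞 L) : L) := by
      rw [hφ]
      rfl
    constructor
    · intro h
      apply Units.ext
      rw [h1, ← h2, h]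
      simp
    · intro h
      apply Units.ext
      apply RingOfIntegers.ext
      rw [h2]
      apply FaithfulSMul.algebraMap_injective M L
      rw [← h1, h]
      simp
  obtain ⟨f, hf⟩ : ∃ f : Additive (𝓞 L)ˣ →+ Additive (𝓞 M)ˣ, f = φ.toAdditive := ⟨_, rfl⟩
  have hfk : ∀ x : Additive (𝓞 L)ˣ, x ∈ f.ker ↔ φ x.toMul = 1 := by
    intro x
    rw [AddMonoidHom.mem_ker, hf]
    rfl
  -- the kernel is the group of relative units
  obtain ⟨e⟩ : Nonempty (f.ker ≃+ Additive (relU M L)) := by
    have h1 : ∀ x : f.ker, Units.map (algebraMap (𝓞 L) L : 𝓞 L →* L)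
        ((x : Additive (𝓞 L)ˣ)).toMul ∈ relU M L := by
      intro x
      refine ⟨(RKU.prin_eq_one_iff _).mpr ⟨_, rfl⟩, ?_⟩
      rw [← hφ']
      exact (hfk _).mp x.2
    let e : f.ker →+ Additive (relU M L) :=
      { toFun := fun x => Additive.ofMul ⟨_, h1 x⟩
        map_zero' := by
          apply Additive.toMul.injective
          apply Subtype.ext
          exact map_one _
        map_add' := by
          intro x y
          apply Additive.toMul.injective
          apply Subtype.ext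
          exact map_mul _ _ _ }
    refine ⟨AddEquiv.ofBijective e ⟨?_, ?_⟩⟩
    · intro x y hxy
      apply Subtype.ext
      apply Additive.toMul.injective
      apply hinj
      exact congrArg (fun z : Additive (relU M L) => ((z.toMul : relU M L) : Lˣ)) hxy
    · intro y
      obtain ⟨hy1, hy2⟩ := y.toMul.2
      obtain ⟨ε, hε⟩ := (RKU.prin_eq_one_iff _).mp hy1
      rw [← hε, ← hφ'] at hy2
      refine ⟨⟨Additive.ofMul ε, (hfk _).mpr hy2⟩, ?_⟩
      apply Additive.toMul.injective
      apply Subtype.ext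
      exact hε
  have hfin : Module.Finite ℤ f.ker := by
    have : Module.Finite ℤ (AddSubgroup.toIntSubmodule f.ker) := inferInstance
    exact this
  have hfin' : Module.Finite ℤ (Additive (relU M L)) :=
    Module.Finite.equiv e.toIntLinearEquiv
  refine ⟨?_, ?_⟩
  · rw [← Group.fg_iff_subgroup_fg, GroupFG.iff_add_fg]
    exact Module.Finite.iff_addGroup_fg.mp hfin'
  · have h1 := HERB.rank_nullity f
    have h2 : Module.finrank ℤ f.range = Module.finrank ℤ (Additive (𝓞 M)ˣ) := by
      have hd : 0 < Module.finrank M L := Module.finrank_pos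
      refine RKU.finrank_eq_of_nsmul_mem f.range (Module.finrank M L) hd ?_
      intro x
      refine ⟨Additive.ofMul (Units.map (algebraMap (𝓞 M) (𝓞 L) : 𝓞 M →* 𝓞 L) x.toMul), ?_⟩
      rw [hf]
      apply Additive.toMul.injective
      apply Units.ext
      rw [hφ]
      change RingOfIntegers.norm M (algebraMap (𝓞 M) (𝓞 L) ((x.toMul : (𝓞 M)ˣ) : 𝓞 M)) = _
      rw [RingOfIntegers.norm_algebraMap]
      rfl
    rw [h2, NumberField.Units.finrank_eq, NumberField.Units.finrank_eq] at h1
    rw [← e.toIntLinearEquiv.finrank_eq, add_comm]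
    exact h1

end Pool.Agent.RI
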