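import Pool.Agent.RI.Stmts

/-!
# Hilbert 90 for an extension of prime degree
-/

open Finset

namespace Pool.Agent.RI

theorem H90_thm : H90 := by
  intro p _ K L _ _ _ _ _ g hp hg x hx
  classical
  have hcard : Nat.card (L ≃ₐ[K] L) = p := by
    rw [IsGalois.card_aut_eq_finrank, hp]
  have hgen : ∀ τ : L ≃ₐ[K] L, τ ∈ Subgroup.zpowers g := fun τ => mem_zpowers_of_prime_card hcard hg
  have hord : orderOf g = p := by
    rw [orderOf_eq_card_of_forall_mem_zpowers hgen, hcard]
  have hN : Algebra.norm K (x : L) = 1 := by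
    apply (algebraMap K L).injective
    rw [Algebra.norm_eq_prod_automorphisms, map_one]
    have h1 : ∏ σ : L ≃ₐ[K] L, σ • x = ∏ i ∈ range p, g ^ i • x := by
      symm
      refine Finset.prod_bij (fun i _ => g ^ i) (fun _ _ => mem_univ _) ?_ ?_ (fun _ _ => rfl)
      · intro a ha b hb hab
        rw [mem_range, ← hord] at ha hb
        exact pow_injOn_Iio_orderOf ha hb hab
      · intro τ _
        have hmem : τ ∈ Submonoid.powers g :=
          (isOfFinOrder_of_finite g).mem_powers_iff_mem_zpowers.2 (hgen τ)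
        obtain ⟨i, hi⟩ := Submonoid.mem_powers_iff τ g |>.1 hmem
        refine ⟨i % orderOf g, mem_range.2 ?_, ?_⟩
        · rw [hord]; exact Nat.mod_lt _ (Fact.out : p.Prime).pos
        · rw [pow_mod_orderOf, hi]
    rw [← h1] at hx
    have h2 := congrArg (fun u : Lˣ => (u : L)) hx
    simpa using h2
  have : IsCyclic (L ≃ₐ[K] L) := ⟨g, hgen⟩
  obtain ⟨y, hy⟩ := groupCohomology.exists_div_of_norm_eq_one hgen hN
  refine ⟨y, ?_⟩
  apply Units.ext
  rw [← hy]
  simp

end Pool.Agent.RI
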