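import Pool.Agent.RI.Stmts
import Pool.Agent.Lib_helper28.FROB.Induct

/-!
# Relative Iwasawa theorem, module FROB

The theorem of Frobenius (1896), lower bound: the primes `q` such that some prime of `L` above `q`
has decomposition group generated by `σ` have positive lower Dirichlet density.
-/

open NumberField IsDedekindDomain Ideal MulAction Filter Topology Asymptotics
open scoped Pointwise ENNReal

namespace Pool.Agent.RI

namespace FROB

open Pool.Agent.Lib_helper28.FROB

/-- The sum over the primes with decomposition group `H` is bounded by the sum over the rational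
primes below. -/
theorem sum_tt_le (L : Type) [Field L] [NumberField L] [IsGalois ℚ L] (H : Subgroup (L ≃ₐ[ℚ] L))
    (S : Set ℕ) (hS : ∀ w : HeightOneSpectrum (𝓞 L), Dec w = H → pr w ∈ S) {s : ℝ} (hs : 1 < s) :
    ∑' w, tt H s w ≤ (Module.finrank ℚ L * Nat.card H : ℝ) *
      ∑' q : {q : ℕ // q.Prime ∧ q ∈ S}, (q : ℝ) ^ (-s) := by
  classical
  let g : ℕ → ℝ≥0∞ := fun n => ENNReal.ofReal ((Nat.card H : ℝ) * (n : ℝ) ^ (-s))
  let f : ℕ → ℝ≥0∞ := fun n => if n ∈ S then g n else 0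
  have hsum : Summable fun q : {q : ℕ // q.Prime ∧ q ∈ S} => (Nat.card H : ℝ) * (q : ℝ) ^ (-s) := by
    refine Summable.mul_left _ ?_
    exact (Real.summable_nat_rpow.mpr (by linarith : -s < -1)).subtype _
  have h1 : ENNReal.ofReal (∑' w, tt H s w) ≤ ∑' w : HeightOneSpectrum (𝓞 L), f (pr w) := by
    rw [ENNReal.ofReal_tsum_of_nonneg (tt_nonneg H s) (summable_tt H hs)]
    refine ENNReal.tsum_le_tsum fun w => ?_
    unfold tt
    split_ifs with h
    · show _ ≤ (if pr w ∈ S then g (pr w) else 0)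
      rw [if_pos (hS w h.2)]
    · simp
  have h2 : ∑' p : Nat.Primes, f p = ∑' q : {q : ℕ // q.Prime ∧ q ∈ S}, g q := by
    have e1 : ∑' p : Nat.Primes, f p = ∑' n : ℕ, Set.indicator {n | n.Prime} f n :=
      tsum_subtype {n : ℕ | n.Prime} f
    have e2 : ∑' q : {q : ℕ // q.Prime ∧ q ∈ S}, g q =
        ∑' n : ℕ, Set.indicator {n | n.Prime ∧ n ∈ S} g n :=
      tsum_subtype {n : ℕ | n.Prime ∧ n ∈ S} g
    rw [e1, e2]
    refine tsum_congr fun n => ?_
    simp only [Set.indicator, Set.mem_ofPred_eq]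
    by_cases h1 : n.Prime <;> by_cases h2 : n ∈ S <;> simp [h1, h2, f]
  have h3 : ENNReal.ofReal (∑' w, tt H s w) ≤ ENNReal.ofReal ((Module.finrank ℚ L : ℝ) *
      ∑' q : {q : ℕ // q.Prime ∧ q ∈ S}, ((Nat.card H : ℝ) * (q : ℝ) ^ (-s))) := by
    refine h1.trans ((tsum_pr_le f).trans ?_)
    rw [h2, ENNReal.ofReal_mul (by positivity), ENNReal.ofReal_natCast,
      ENNReal.ofReal_tsum_of_nonneg (fun q => by positivity) hsum]
  have h4 := (ENNReal.ofReal_le_ofReal_iff (mul_nonneg (by positivity)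
    (tsum_nonneg fun q => by positivity))).mp h3
  rwa [tsum_mul_left, ← mul_assoc] at h4

end FROB

open Pool.Agent.Lib_helper28.FROB in
/-- Module FROB. -/
theorem FROB_thm : FROB := by
  intro L _ _ _ σ
  set H := Subgroup.zpowers σ with hH
  set S := {q : ℕ | ∃ P : Ideal (𝓞 L), P.IsPrime ∧ (q : 𝓞 L) ∈ P ∧
      MulAction.stabilizer (L ≃ₐ[ℚ] L) P = H} with hSdef
  have hS : ∀ w : HeightOneSpectrum (𝓞 L), Dec w = H → pr w ∈ S := by
    intro w hw
    refine ⟨w.asIdeal, w.isPrime, ?_, hw⟩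
    have h1 : (pr w : ℤ) ∈ w.asIdeal.under ℤ := by
      rw [under_eq]
      exact Ideal.mem_span_singleton_self _
    rw [Ideal.mem_comap] at h1
    simpa using h1
  have hgen : (1 : ℝ) ≤ gen H := by
    have : 0 < gen H := Nat.card_pos_iff.mpr ⟨⟨⟨σ, rfl⟩⟩, inferInstance⟩
    exact_mod_cast this
  obtain ⟨c, hc⟩ := (isBigO_tt H).bound
  have hev : ∀ᶠ s : ℝ in 𝓝[>] 1, (gen H : ℝ) * Real.log (1 / (s - 1)) - |c| ≤ ∑' w, tt H s w := by
    filter_upwards [hc] with s hs
    rw [norm_one, mul_one, Real.norm_eq_abs] at hs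
    have := (abs_le.mp hs).1
    have := le_abs_self c
    linarith
  obtain ⟨b, hb1, hb⟩ := mem_nhdsGT_iff_exists_Ioo_subset.mp hev
  have hb1' : (1 : ℝ) < b := hb1
  set A : ℝ := Module.finrank ℚ L * Nat.card H with hA
  have hApos : 0 < A := by
    have h1 : (0 : ℝ) < Module.finrank ℚ L := by exact_mod_cast Module.finrank_pos
    have h2 : (0 : ℝ) < Nat.card H := by exact_mod_cast Nat.card_pos
    positivity
  have hδ : 0 < (gen H : ℝ) / A := by positivity
  refine ⟨gen H / A, hδ, |c| / A + gen H / A * |Real.log (1 / (b - 1))|, fun s hs1 hs2 => ?_⟩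
  have hnn : 0 ≤ ∑' q : {q : ℕ // q.Prime ∧ q ∈ S}, (q : ℝ) ^ (-s) :=
    tsum_nonneg fun q => by positivity
  have hcA : 0 ≤ |c| / A := by positivity
  have habs : 0 ≤ gen H / A * |Real.log (1 / (b - 1))| := by positivity
  rcases lt_or_ge s b with hsb | hsb
  · have h1 : (gen H : ℝ) * Real.log (1 / (s - 1)) - |c| ≤ ∑' w, tt H s w := hb ⟨hs1, hsb⟩
    have h2 := FROB.sum_tt_le L H S hS hs1
    have h3 : ((gen H : ℝ) * Real.log (1 / (s - 1)) - |c|) / A ≤
        ∑' q : {q : ℕ // q.Prime ∧ q ∈ S}, (q : ℝ) ^ (-s) := by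
      rw [div_le_iff₀' hApos]
      exact h1.trans h2
    rw [sub_div, mul_div_right_comm] at h3
    linarith
  · have h1 : Real.log (1 / (s - 1)) ≤ Real.log (1 / (b - 1)) := by
      refine Real.log_le_log (by have := sub_pos.mpr hs1; positivity) ?_
      exact one_div_le_one_div_of_le (by linarith) (by linarith)
    have h2 := le_abs_self (Real.log (1 / (b - 1)))
    have h3 : (gen H : ℝ) / A * Real.log (1 / (s - 1)) ≤
        gen H / A * |Real.log (1 / (b - 1))| :=
      mul_le_mul_of_nonneg_left (h1.trans h2) hδ.le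
    linarith

end Pool.Agent.RI
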