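import Pool.Agent.RI.Stmts

/-!
# Relative Iwasawa theorem: module PD (positive density is insensitive to finitely many primes)
-/

open Finset

namespace Pool.Agent.RI

namespace PD

lemma term_nonneg (s : ℝ) (n : ℕ) : 0 ≤ (n : ℝ) ^ (-s) := Real.rpow_nonneg (Nat.cast_nonneg n) _

lemma term_le_one {s : ℝ} (hs : 1 < s) (n : ℕ) : (n : ℝ) ^ (-s) ≤ 1 := by
  rcases Nat.eq_zero_or_pos n with h | h
  · subst h
    rw [Nat.cast_zero, Real.zero_rpow (by linarith)]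
    exact zero_le_one
  · exact Real.rpow_le_one_of_one_le_of_nonpos (by exact_mod_cast h) (by linarith)

lemma summ {s : ℝ} (hs : 1 < s) : Summable (fun n : ℕ => (n : ℝ) ^ (-s)) :=
  Real.summable_nat_rpow.mpr (by linarith)

lemma sub_eq (s : ℝ) (S : Set ℕ) :
    ∑' q : {q : ℕ // q.Prime ∧ q ∈ S}, (q : ℝ) ^ (-s) =
      ∑' n : ℕ, Set.indicator {q : ℕ | q.Prime ∧ q ∈ S} (fun n : ℕ => (n : ℝ) ^ (-s)) n :=
  tsum_subtype {q : ℕ | q.Prime ∧ q ∈ S} (fun n : ℕ => (n : ℝ) ^ (-s))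

lemma fin_le {s : ℝ} (hs : 1 < s) (A : Finset ℕ) :
    ∑' n : ℕ, Set.indicator (A : Set ℕ) (fun n : ℕ => (n : ℝ) ^ (-s)) n ≤ A.card := by
  rw [← tsum_subtype (A : Set ℕ) (fun n : ℕ => (n : ℝ) ^ (-s))]
  have h1 : ∑' x : (A : Set ℕ), (((x : ℕ) : ℝ)) ^ (-s) = ∑ x ∈ A, ((x : ℕ) : ℝ) ^ (-s) :=
    Finset.tsum_subtype A (fun n : ℕ => (n : ℝ) ^ (-s))
  rw [h1]
  calc ∑ x ∈ A, ((x : ℕ) : ℝ) ^ (-s) ≤ ∑ _x ∈ A, (1 : ℝ) :=
        Finset.sum_le_sum (fun x _ => term_le_one hs x)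
    _ = A.card := by simp

end PD

open PD in
theorem PD_thm : PD := by
  rintro S T A ⟨δ, hδ, C, h⟩ hST
  refine ⟨δ, hδ, C + A.card, fun s hs hs2 => ?_⟩
  have h1 := h s hs hs2
  rw [sub_eq] at h1 ⊢
  have hsum := summ hs
  have hS := hsum.indicator {q : ℕ | q.Prime ∧ q ∈ S}
  have hT := hsum.indicator {q : ℕ | q.Prime ∧ q ∈ T}
  have hA := hsum.indicator (A : Set ℕ)
  have h2 : ∑' n : ℕ, Set.indicator {q : ℕ | q.Prime ∧ q ∈ S} (fun n : ℕ => (n : ℝ) ^ (-s)) n ≤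
      ∑' n : ℕ, (Set.indicator {q : ℕ | q.Prime ∧ q ∈ T} (fun n : ℕ => (n : ℝ) ^ (-s)) n +
        Set.indicator (A : Set ℕ) (fun n : ℕ => (n : ℝ) ^ (-s)) n) := by
    refine hS.tsum_le_tsum (fun n => ?_) (hT.add hA)
    have hT0 : 0 ≤ Set.indicator {q : ℕ | q.Prime ∧ q ∈ T} (fun n : ℕ => (n : ℝ) ^ (-s)) n :=
      Set.indicator_nonneg (fun x _ => term_nonneg s x) n
    have hA0 : 0 ≤ Set.indicator (A : Set ℕ) (fun n : ℕ => (n : ℝ) ^ (-s)) n :=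
      Set.indicator_nonneg (fun x _ => term_nonneg s x) n
    by_cases hn : n ∈ {q : ℕ | q.Prime ∧ q ∈ S}
    · rw [Set.indicator_of_mem hn]
      by_cases hnA : n ∈ (A : Set ℕ)
      · rw [Set.indicator_of_mem hnA]
        linarith
      · have hnT : n ∈ {q : ℕ | q.Prime ∧ q ∈ T} := ⟨hn.1, hST n hn.2 hn.1 (by simpa using hnA)⟩
        rw [Set.indicator_of_mem hnT]
        linarith
    · rw [Set.indicator_of_notMem hn]
      linarith
  rw [hT.tsum_add hA] at h2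
  have h3 := fin_le hs A
  linarith

end Pool.Agent.RI
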