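import Pool.Agent.RI.Stmts2
import Pool.Agent.RI.PD

/-!
# Relative Iwasawa theorem: module PDGE (the density bound with its constant is monotone and
insensitive to finitely many primes)
-/

open Finset

namespace Pool.Agent.RI

open PD in
theorem PDGE_thm : PDGE := by
  rintro S T A δ ⟨C, h⟩ hST
  refine ⟨C + A.card, fun s hs hs2 => ?_⟩
  have h1 := h s hs hs2
  rw [sub_eq] at h1 ⊢
  have hsum := summ hs
  have hS := hsum.indicator {q : ℕ | q.Prime ∧ q ∈ S}
  have hT := hsum.indicator {q : ℕ | q.Prime ∧ q ∈ T}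
  have hA := hsum.indicator (A : Set ℕ)
  have h2 : ∑' n : ℕ, Set.indicator {q : ℕ | q.Prime ∧ q ∈ S} (fun n : ℕ => (n : ℝ) ^ (-s)) n ≤
      ∑' n : ℕ, (Set.indicator {q : ℕ | q.Prime ∧ q ∈ T} (fun n : ℕ => (n : ℝ) ^ (-s)) n +
        Set.indicator (A : Set ℕ) (fun n : ℕ => (n : ℝ) ^ (-s)) n) := by
    refine hS.tsum_le_tsum (fun n => ?_) (hT.add hA)
    have hT0 : 0 ≤ Set.indicator {q : ℕ | q.Prime ∧ q ∈ T} (fun n : ℕ => (n : ℝ) ^ (-s)) n :=
      Set.indicator_nonneg (fun x _ => term_nonneg s x) n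
    have hA0 : 0 ≤ Set.indicator (A : Set ℕ) (fun n : ℕ => (n : ℝ) ^ (-s)) n :=
      Set.indicator_nonneg (fun x _ => term_nonneg s x) n
    by_cases hn : n ∈ {q : ℕ | q.Prime ∧ q ∈ S}
    · rw [Set.indicator_of_mem hn]
      by_cases hnA : n ∈ (A : Set ℕ)
      · rw [Set.indicator_of_mem hnA]
        linarith
      · have hnT : n ∈ {q : ℕ | q.Prime ∧ q ∈ T} := ⟨hn.1, hST n hn.2 hn.1 (by simpa using hnA)⟩
        rw [Set.indicator_of_mem hnT]
        linarith
    · rw [Set.indicator_of_notMem hn]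
      linarith
  rw [hT.tsum_add hA] at h2
  have h3 := fin_le hs A
  linarith

end Pool.Agent.RI
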