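import Pool.Agent.RI.Basic

/-!
# BASE: translation between class numbers and `RelTrivC`
-/

open NumberField

namespace Pool.Agent.RI

namespace BASE

lemma finDim_of_le {F K : IntermediateField ℚ ℂ} [FiniteDimensional ℚ K] (h : F ≤ K) :
    FiniteDimensional ℚ F :=
  FiniteDimensional.of_injective (IntermediateField.inclusion h).toLinearMap
    (IntermediateField.inclusion h).toRingHom.injective

lemma classNo_eq (E : IntermediateField ℚ ℂ) [FiniteDimensional ℚ E] :
    classNo E = NumberField.classNumber E := by
  unfold classNo NumberField.classNumber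
  rw [Nat.card_eq_fintype_card]

end BASE

theorem BASE_thm (hCL : CL) : BASE := by
  intro p hp F K hK h hg hd
  have hF : FiniteDimensional ℚ F := BASE.finDim_of_le h
  letI := algC h
  have hgal : IsGalois F K := (isGalois_algC h).mpr hg
  have hcop : (Module.finrank F K).Coprime p := by
    have h1 := finrank_algC h
    rw [Nat.coprime_comm, hp.out.coprime_iff_not_dvd]
    intro h2
    apply hd
    rw [← h1]
    exact h2
  have key := hCL p F K hcop
  rw [BASE.classNo_eq K, BASE.classNo_eq F, key]
  constructor
  · intro hr
    exact ⟨h, hF, hK, hgal, hcop, hr⟩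
  · rintro ⟨h', hF', hK', hr⟩
    exact hr.2.2

end Pool.Agent.RI
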