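import Pool.Agent.RI.Stmts

/-!
# Relative Iwasawa theorem: unramified at the infinite places
-/

open NumberField NumberField.InfinitePlace

namespace Pool.Agent.RI

theorem INF_thm : INF := by
  intro K L _ _ _ _ _ _ S hS h
  have hur : IsUnramifiedAtInfinitePlaces K L := by
    refine ⟨fun w => ?_⟩
    rw [← mk_embedding w]
    refine isUnramified_mk_iff_isUnmixed.mpr ?_
    intro hreal
    have hK : ∀ x : K, (starRingEnd ℂ) (w.embedding (algebraMap K L x)) =
        w.embedding (algebraMap K L x) := by
      intro x
      have h1 := RingHom.congr_fun (ComplexEmbedding.isReal_iff.mp hreal) x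
      simpa using h1
    have hsS := h w.embedding hK
    have hall : ∀ x : L, (starRingEnd ℂ) (w.embedding x) = w.embedding x := by
      intro x
      have hx : x ∈ IntermediateField.adjoin K S := by rw [hS]; trivial
      induction hx using IntermediateField.adjoin_induction with
      | mem s hs => exact hsS s hs
      | algebraMap x => exact hK x
      | add x y _ _ hx hy => rw [map_add, map_add, hx, hy]
      | inv x _ hx => rw [map_inv₀, map_inv₀, hx]
      | mul x y _ _ hx hy => rw [map_mul, map_mul, hx, hy]
    refine ComplexEmbedding.isReal_iff.mpr ?_
    ext x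
    rw [ComplexEmbedding.conjugate_coe_eq]
    exact hall x
  rw [mul_comm]
  exact IsUnramifiedAtInfinitePlaces.card_infinitePlace K L

end Pool.Agent.RI
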