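import Pool.Agent.RI.Stmts

/-!
# RAMB: ramification in `L = K M` over `K` comes from ramification in `M` over `F`
-/

open NumberField IsDedekindDomain
open scoped nonZeroDivisors Pointwise

namespace Pool.Agent.RI

namespace RAMB

/-- The order of the inertia group is the ramification index. -/
theorem card_inertia (K L : Type) [Field K] [NumberField K] [Field L] [NumberField L]
    [Algebra K L] [IsGalois K L] (P : Ideal (𝓞 L)) [P.IsPrime] :
    Nat.card (P.inertia (L ≃ₐ[K] L)) = P.ramificationIdx (𝓞 K) := by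
  have : PerfectField (P.under (𝓞 K)).ResidueField := inferInstance
  rw [Ideal.card_inertia_eq_ramificationIdxIn (P.under (𝓞 K)) P,
    Ideal.ramificationIdxIn_eq_ramificationIdx (P.under (𝓞 K)) P (L ≃ₐ[K] L)]

theorem smul_coe (K L : Type) [Field K] [NumberField K] [Field L] [NumberField L]
    [Algebra K L] (σ : L ≃ₐ[K] L) (x : 𝓞 L) : ((σ • x : 𝓞 L) : L) = σ (x : L) := rfl

theorem algebraMap_coe (K L : Type) [Field K] [NumberField K] [Field L] [NumberField L]
    [Algebra K L] (x : 𝓞 K) : ((algebraMap (𝓞 K) (𝓞 L) x : 𝓞 L) : L) = algebraMap K L (x : K) := rfl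

end RAMB

open RAMB in
theorem RAMB_thm : RAMB := by
  intro F K M L _ _ _ _ _ _ _ _ _ _ _ _ _ _ _ _ _ hadj w hw hM
  apply hw
  have hP : (w.asIdeal.under (𝓞 M)).IsPrime := inferInstance
  have h1 := card_inertia F M (w.asIdeal.under (𝓞 M))
  rw [hM] at h1
  have h1' : (w.asIdeal.under (𝓞 M)).inertia (M ≃ₐ[F] M) = ⊥ :=
    (Subgroup.card_eq_one).1 h1
  rw [← card_inertia K L w.asIdeal]
  rw [Subgroup.card_eq_one, Subgroup.eq_bot_iff_forall]
  intro σ hσ
  -- the restriction of `σ` to `M`
  let σ' : L ≃ₐ[F] L := AlgEquiv.restrictScalars F σ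
  let τ : M ≃ₐ[F] M := σ'.restrictNormal M
  have hτ : ∀ m : M, algebraMap M L (τ m) = σ (algebraMap M L m) :=
    fun m => AlgEquiv.restrictNormal_commutes σ' M m
  have hτi : τ ∈ (w.asIdeal.under (𝓞 M)).inertia (M ≃ₐ[F] M) := by
    rw [AddSubgroup.mem_inertia]
    intro x
    have h2 := (AddSubgroup.mem_inertia.1 hσ) (algebraMap (𝓞 M) (𝓞 L) x)
    have h3 : algebraMap (𝓞 M) (𝓞 L) (τ • x - x) =
        σ • (algebraMap (𝓞 M) (𝓞 L) x) - algebraMap (𝓞 M) (𝓞 L) x := by
      rw [map_sub]
      congr 1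
      apply RingOfIntegers.ext
      rw [smul_coe, algebraMap_coe, algebraMap_coe, smul_coe]
      exact hτ x
    show τ • x - x ∈ w.asIdeal.under (𝓞 M)
    rw [Ideal.under, Ideal.mem_comap, h3]
    exact h2
  rw [h1', Subgroup.mem_bot] at hτi
  have hσM : ∀ m : M, σ (algebraMap M L m) = algebraMap M L m := by
    intro m
    rw [← hτ m, hτi]
    rfl
  have hall : ∀ x : L, σ x = x := by
    intro x
    have hx : x ∈ IntermediateField.adjoin K (Set.range (algebraMap M L)) := by
      rw [hadj]; trivial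
    refine IntermediateField.adjoin_induction (F := K) (p := fun y _ => σ y = y)
      ?_ ?_ ?_ ?_ ?_ hx
    · rintro _ ⟨m, rfl⟩
      exact hσM m
    · intro y
      exact σ.commutes y
    · intro a b _ _ ha hb
      rw [map_add, ha, hb]
    · intro a _ ha
      rw [map_inv₀, ha]
    · intro a b _ _ ha hb
      rw [map_mul, ha, hb]
  exact AlgEquiv.ext hall

end Pool.Agent.RI
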