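import Pool.Agent.RI.Basic

/-!
# Relative Iwasawa theorem: one step of the induction for subfields of `ℂ`
-/

open NumberField IsDedekindDomain
open scoped nonZeroDivisors Pointwise

namespace Pool.Agent.RI

namespace TSTEP

lemma fd_of_le {E F : IntermediateField ℚ ℂ} (h : E ≤ F) [FiniteDimensional ℚ F] :
    FiniteDimensional ℚ E :=
  FiniteDimensional.of_injective (IntermediateField.inclusion h).toLinearMap
    (IntermediateField.inclusion h).injective

/-- The elements of `A` generate `A ⊔ B` over `B`. -/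
lemma adjoin_top {A B C : IntermediateField ℚ ℂ} (hC : C = A ⊔ B) (hB : B ≤ C) (hA : A ≤ C) :
    letI := algC hB
    letI := algC hA
    IntermediateField.adjoin B (Set.range (algebraMap A C)) = ⊤ := by
  subst hC
  let _ := algC hB
  let _ := algC hA
  rw [eq_top_iff]
  rintro ⟨x, hx⟩ -
  -- the image in `ℂ` of the adjoined field
  let T : IntermediateField ℚ ℂ :=
    { carrier := {z | ∃ hz : z ∈ A ⊔ B,
        (⟨z, hz⟩ : ↥(A ⊔ B)) ∈ IntermediateField.adjoin B (Set.range (algebraMap A ↥(A ⊔ B)))}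
      mul_mem' := by
        rintro a b ⟨ha, ha'⟩ ⟨hb, hb'⟩
        exact ⟨mul_mem ha hb, mul_mem ha' hb'⟩
      add_mem' := by
        rintro a b ⟨ha, ha'⟩ ⟨hb, hb'⟩
        exact ⟨add_mem ha hb, add_mem ha' hb'⟩
      algebraMap_mem' := by
        intro r
        refine ⟨algebraMap_mem _ r, ?_⟩
        have : (⟨algebraMap ℚ ℂ r, algebraMap_mem _ r⟩ : ↥(A ⊔ B)) =
            algebraMap B ↥(A ⊔ B) ⟨algebraMap ℚ ℂ r, algebraMap_mem _ r⟩ := rfl
        rw [this]
        exact algebraMap_mem _ _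
      inv_mem' := by
        rintro a ⟨ha, ha'⟩
        exact ⟨inv_mem ha, inv_mem ha'⟩ }
  have hT : A ⊔ B ≤ T := by
    apply sup_le
    · intro a ha
      refine ⟨hA ha, ?_⟩
      apply IntermediateField.subset_adjoin
      exact ⟨⟨a, ha⟩, rfl⟩
    · intro b hb
      refine ⟨hB hb, ?_⟩
      have : (⟨b, hB hb⟩ : ↥(A ⊔ B)) = algebraMap B ↥(A ⊔ B) ⟨b, hb⟩ := rfl
      rw [this]
      exact algebraMap_mem _ _
  obtain ⟨_, h⟩ := hT hx
  exact h

end TSTEP

open TSTEP in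
theorem TSTEP_thm (hSTEP : STEP) (hNSN : NSN) (hRAMB : RAMB) (hINF : INF) (hBCH : BCH) :
    TSTEP := by
  intro p _ F K M' M fdK fdM hK h₁ h₂ gK hp gM' gM hpa hdeg hur hns hrel
  obtain ⟨hBCH1, hBCH2⟩ := hBCH
  have fdM' : FiniteDimensional ℚ M' := fd_of_le h₂
  have fdF : FiniteDimensional ℚ F := fd_of_le hK
  obtain ⟨hM'K', _, fdK', hrel1, hrel2, hrel3⟩ := hrel
  have hK'L : K ⊔ M' ≤ K ⊔ M := sup_le_sup_left h₂ K
  have hML : M ≤ K ⊔ M := le_sup_right
  have hFM : F ≤ M := h₁.trans h₂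
  have hM'L : M' ≤ K ⊔ M := h₂.trans hML
  have hKL : K ≤ K ⊔ M := le_sup_left
  have hFL : F ≤ K ⊔ M := hK.trans hKL
  let aFK : Algebra F K := algC hK
  let aFM' : Algebra F M' := algC h₁
  let aFM : Algebra F M := algC hFM
  let aFL : Algebra F ↥(K ⊔ M) := algC hFL
  let aKL : Algebra K ↥(K ⊔ M) := algC hKL
  let aM'M : Algebra M' M := algC h₂
  let aM'K' : Algebra M' ↥(K ⊔ M') := algC hM'K'
  let aM'L : Algebra M' ↥(K ⊔ M) := algC hM'L
  let aK'L : Algebra ↥(K ⊔ M') ↥(K ⊔ M) := algC hK'L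
  let aML : Algebra M ↥(K ⊔ M) := algC hML
  have t1 : IsScalarTower M' ↥(K ⊔ M') ↥(K ⊔ M) := towerC hM'K' hK'L
  have t2 : IsScalarTower M' M ↥(K ⊔ M) := towerC h₂ hML
  have t3 : IsScalarTower F K ↥(K ⊔ M) := towerC hK hKL
  have t4 : IsScalarTower F M ↥(K ⊔ M) := towerC hFM hML
  have t5 : IsScalarTower F M' M := towerC h₁ h₂
  have t6 : IsScalarTower F M' ↥(K ⊔ M) := towerC h₁ hM'L
  -- Galois extensions
  have gFM : IsGalois F M := (isGalois_algC hFM).2 gM
  have gFK : IsGalois F K := (isGalois_algC hK).2 gK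
  have gM'M : IsGalois M' M := IsGalois.tower_top_of_isGalois F M' M
  have gFL : IsGalois F ↥(K ⊔ M) := (isGalois_algC hFL).2 (hBCH2 F K M hK hFM hFL gK gM)
  have gM'L : IsGalois M' ↥(K ⊔ M) := IsGalois.tower_top_of_isGalois F M' ↥(K ⊔ M)
  have gK'L : IsGalois ↥(K ⊔ M') ↥(K ⊔ M) :=
    IsGalois.tower_top_of_isGalois M' ↥(K ⊔ M') ↥(K ⊔ M)
  have gML : IsGalois M ↥(K ⊔ M) := IsGalois.tower_top_of_isGalois F M ↥(K ⊔ M)
  -- degrees
  have hpr : p.Prime := Fact.out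
  have dM'M : Module.finrank M' M = p := (finrank_algC h₂).trans hdeg
  have dK'L : Module.finrank ↥(K ⊔ M') ↥(K ⊔ M) = p := by
    have e1 := (hBCH1 M' M K (K ⊔ M') (K ⊔ M) h₂ hK'L (sup_comm _ _) (sup_comm _ _)
      ((isGalois_algC h₂).1 gM'M)).2
    rw [← finrank_algC, hdeg] at e1
    rcases (Nat.dvd_prime hpr).1 e1 with h | h
    · exfalso
      have e2 : Module.finrank M' ↥(K ⊔ M') * Module.finrank ↥(K ⊔ M') ↥(K ⊔ M) =
          Module.finrank M' M * Module.finrank M ↥(K ⊔ M) := by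
        rw [Module.finrank_mul_finrank, Module.finrank_mul_finrank]
      rw [h, mul_one, dM'M] at e2
      have e3 : p ∣ Module.finrank M' ↥(K ⊔ M') := ⟨_, e2⟩
      exact ((Nat.Prime.coprime_iff_not_dvd hpr).1 hrel2.symm) e3
    · exact h
  have dML : (Module.finrank M ↥(K ⊔ M)).Coprime p := by
    have e1 := (hBCH1 F K M M (K ⊔ M) hK hML (sup_of_le_right hFM).symm rfl gK).2
    rw [← finrank_algC] at e1
    apply Nat.Coprime.symm
    rw [Nat.Prime.coprime_iff_not_dvd hpr]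
    exact fun h => hp (h.trans e1)
  have dKL : ∃ a : ℕ, Module.finrank K ↥(K ⊔ M) = p ^ a := by
    have e1 := (hBCH1 F M K K (K ⊔ M) hFM hKL (sup_of_le_right hK).symm (sup_comm _ _) gM).2
    rw [← finrank_algC] at e1
    obtain ⟨a, ha⟩ := hpa
    rw [ha] at e1
    obtain ⟨b, _, hb⟩ := (Nat.dvd_prime_pow hpr).1 e1
    exact ⟨b, hb⟩
  have hsq : Square p M' ↥(K ⊔ M') M ↥(K ⊔ M) := by
    refine ⟨hrel1, gM'M, gM'L, hrel2, dM'M, dK'L⟩
  have hadj : IntermediateField.adjoin ↥(K ⊔ M') (Set.range (algebraMap M ↥(K ⊔ M))) = ⊤ :=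
    adjoin_top (A := M) (B := K ⊔ M') (C := K ⊔ M)
      (le_antisymm (sup_le (le_sup_left.trans le_sup_right) le_sup_left)
        (sup_le le_sup_right hK'L)) hK'L hML
  -- infinite places
  have hinf1 : Fintype.card (InfinitePlace ↥(K ⊔ M)) =
      p * Fintype.card (InfinitePlace ↥(K ⊔ M')) := by
    rw [← dK'L]
    refine hINF ↥(K ⊔ M') ↥(K ⊔ M) (Set.range (algebraMap M ↥(K ⊔ M))) ?_ ?_
    · exact hadj
    · rintro φ hφ _ ⟨s, rfl⟩
      refine hur (φ.comp (algebraMap M ↥(K ⊔ M))) ?_ s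
      intro x hx
      have := hφ ⟨(x : ℂ), (hK.trans le_sup_left) hx⟩
      exact this
  have hinf2 : Fintype.card (InfinitePlace M) =
      p * Fintype.card (InfinitePlace M') := by
    rw [← dM'M]
    refine hINF M' M Set.univ ?_ ?_
    · exact IntermediateField.adjoin_univ _ _
    · intro φ hφ s _
      refine hur φ ?_ s
      intro x hx
      exact hφ ⟨(x : ℂ), h₁ hx⟩
  -- ramified primes
  have hram : ∀ w : HeightOneSpectrum (𝓞 ↥(K ⊔ M)),
      w.asIdeal.ramificationIdx (𝓞 ↥(K ⊔ M')) ≠ 1 →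
      ∀ σ : ↥(K ⊔ M) ≃ₐ[M] ↥(K ⊔ M), σ • w.asIdeal = w.asIdeal := by
    intro w hw
    have e1 := hRAMB M' ↥(K ⊔ M') M ↥(K ⊔ M) hadj w hw
    have hwp : w.asIdeal.IsPrime := w.isPrime
    refine hNSN p F K M ↥(K ⊔ M) dKL dML w.asIdeal hwp ?_
    intro σ
    symm
    refine hns (w.asIdeal.under (𝓞 K)) (σ • w.asIdeal.under (𝓞 K)) inferInstance ?_ ?_ ?_
    · rw [Ideal.pointwise_smul_eq_comap]
      infer_instance
    · ext x
      change (RingOfIntegers.mapRingHom (IntermediateField.inclusion hK : F →+* K)) x ∈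
          w.asIdeal.under (𝓞 K) ↔
        (RingOfIntegers.mapRingHom (IntermediateField.inclusion hK : F →+* K)) x ∈
          σ • w.asIdeal.under (𝓞 K)
      rw [Ideal.mem_pointwise_smul_iff_inv_smul_mem]
      have : σ⁻¹ • (RingOfIntegers.mapRingHom (IntermediateField.inclusion hK : F →+* K)) x =
          (RingOfIntegers.mapRingHom (IntermediateField.inclusion hK : F →+* K)) x := by
        apply RingOfIntegers.ext
        exact σ⁻¹.commutes (x : F)
      rw [this]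
    · refine ⟨w.asIdeal.under (𝓞 M), inferInstance, ?_, ?_⟩
      · ext x
        rfl
      · have e2 := Ideal.ramificationIdx_tower (R := 𝓞 F)
          ((w.asIdeal.under (𝓞 M)).under (𝓞 M')) (w.asIdeal.under (𝓞 M))
        intro e3
        have e4 : (w.asIdeal.under (𝓞 M)).ramificationIdx (𝓞 F) = 1 := e3
        rw [e4] at e2
        exact e1 (Nat.eq_one_of_mul_eq_one_left e2.symm)
  exact ⟨hML, fdM, inferInstance, gML, dML,
    hSTEP p M' ↥(K ⊔ M') M ↥(K ⊔ M) hsq hinf1 hinf2 hram hrel3⟩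

end Pool.Agent.RI
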