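import Pool.Agent.RI.Stmts

/-!
# Fixed points and norms for an automorphism of prime order
-/

namespace Pool.Agent.RI

namespace HERB

open Finset

/-- `g - 1` for an endomorphism `g` of an abelian group. -/
def dif {M : Type*} [AddCommGroup M] (g : AddMonoid.End M) : M →+ M := (g - 1 : AddMonoid.End M)

theorem exists_poly (p : ℕ) [hp : Fact p.Prime] : ∃ h : Polynomial ℤ,
    (Polynomial.X - 1) ^ (p - 1) = ∑ i ∈ range p, Polynomial.X ^ i + Polynomial.C (p : ℤ) * h := by
  have h1 : Polynomial.map (Int.castRingHom (ZMod p))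
      ((Polynomial.X - 1) ^ (p - 1) - ∑ i ∈ range p, Polynomial.X ^ i : Polynomial ℤ) = 0 := by
    have h2 := Polynomial.cyclotomic_mul_prime_eq_pow_of_not_dvd (ZMod p) (n := 1) (p := p)
      (fun h => hp.out.one_lt.not_ge (Nat.le_of_dvd one_pos h))
    rw [one_mul, Polynomial.cyclotomic_one, Polynomial.cyclotomic_prime] at h2
    rw [Polynomial.map_sub, Polynomial.map_pow, Polynomial.map_sub, Polynomial.map_X,
      Polynomial.map_one, ← h2, Polynomial.map_sum, sub_eq_zero]
    refine Finset.sum_congr rfl fun i _ => ?_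
    rw [Polynomial.map_pow, Polynomial.map_X]
  have h2 : Polynomial.C (p : ℤ) ∣
      ((Polynomial.X - 1) ^ (p - 1) - ∑ i ∈ range p, Polynomial.X ^ i : Polynomial ℤ) := by
    rw [Polynomial.C_dvd_iff_dvd_coeff]
    intro i
    have h3 := congrArg (fun q => Polynomial.coeff q i) h1
    simp only [Polynomial.coeff_map, Polynomial.coeff_zero] at h3
    exact (ZMod.intCast_zmod_eq_zero_iff_dvd _ p).mp (by simpa using h3)
  obtain ⟨h, hh⟩ := h2
  exact ⟨h, by rw [← hh]; ring⟩

theorem index_pow {M : Type*} [AddCommGroup M] (f : AddMonoid.End M)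
    (hf : Function.Injective f) (k : ℕ) :
    (AddMonoidHom.range (f ^ k)).index = (AddMonoidHom.range f).index ^ k := by
  induction k with
  | zero =>
    rw [pow_zero, pow_zero, AddSubgroup.index_eq_one]
    rw [eq_top_iff]
    intro x _
    exact ⟨x, rfl⟩
  | succ k ih =>
    have h1 : AddMonoidHom.range (f ^ (k + 1)) = (AddMonoidHom.range (f ^ k)).map f := by
      ext x
      constructor
      · rintro ⟨y, rfl⟩
        exact ⟨(f ^ k) y, ⟨y, rfl⟩, by rw [pow_succ']; rfl⟩
      · rintro ⟨_, ⟨y, rfl⟩, rfl⟩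
        exact ⟨y, by rw [pow_succ']; rfl⟩
    rw [h1, AddSubgroup.index_map_of_injective _ hf, ih, pow_succ]

theorem finite_torsion (M : Type*) [AddCommGroup M] [Module.Finite ℤ M] :
    Finite (AddCommGroup.torsion M) := by
  have h1 : Module.Finite ℤ (AddSubgroup.toIntSubmodule (AddCommGroup.torsion M)) := inferInstance
  have h2 : Module.IsTorsion ℤ (AddSubgroup.toIntSubmodule (AddCommGroup.torsion M)) := by
    rintro ⟨x, hx⟩
    obtain ⟨n, hn, hx'⟩ := isOfFinAddOrder_iff_nsmul_eq_zero.mp hx
    refine ⟨⟨(n : ℤ), mem_nonZeroDivisors_of_ne_zero (by exact_mod_cast hn.ne')⟩, ?_⟩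
    apply Subtype.ext
    change ((n : ℤ) : ℤ) • x = 0
    rw [natCast_zsmul, hx']
  have h3 : Finite (AddSubgroup.toIntSubmodule (AddCommGroup.torsion M)) :=
    Module.finite_of_fg_torsion _ h2
  exact h3

/-- The index of the image of an endomorphism with finite kernel. -/
theorem index_range_eq {M : Type*} [AddCommGroup M] [Module.Finite ℤ M] (f : M →+ M)
    (hf : f.ker ≤ AddCommGroup.torsion M) :
    f.range.index = Nat.card f.ker *
      (f.range.map (QuotientAddGroup.mk' (AddCommGroup.torsion M))).index := by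
  obtain ⟨T, hT⟩ : ∃ T : AddSubgroup M, T = AddCommGroup.torsion M := ⟨_, rfl⟩
  have hfin : Finite T := by
    rw [hT]
    exact finite_torsion M
  rw [← hT]
  have hfT' : ∀ x ∈ T, f x ∈ T := by
    intro x hx
    rw [hT] at hx ⊢
    exact AddCommGroup.le_comap_torsion f hx
  have hfT : ∀ x : T, (f.comp T.subtype) x ∈ T := fun x => hfT' x x.2
  have h1 : (f.range.map (QuotientAddGroup.mk' T)).index = (f.range ⊔ T).index := by
    rw [AddSubgroup.index_map, QuotientAddGroup.ker_mk',
      AddMonoidHom.range_eq_top.mpr (QuotientAddGroup.mk'_surjective T), AddSubgroup.index_top,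
      mul_one]
  have h2 : f.range.relIndex (f.range ⊔ T) * (f.range ⊔ T).index = f.range.index :=
    AddSubgroup.relIndex_mul_index le_sup_left
  have h3 : f.range.addSubgroupOf T = ((f.comp T.subtype).codRestrict T hfT).range := by
    ext ⟨x, hx⟩
    rw [AddSubgroup.mem_addSubgroupOf]
    constructor
    · rintro ⟨y, hy⟩
      have hyT : y ∈ T := by
        have hx' := hx
        rw [hT] at hx'
        obtain ⟨n, hn, hnx⟩ := isOfFinAddOrder_iff_nsmul_eq_zero.mp hx'
        have h4 : n • y ∈ AddCommGroup.torsion M := by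
          apply hf
          rw [AddMonoidHom.mem_ker, map_nsmul, hy]
          exact hnx
        obtain ⟨m, hm, hmy⟩ := isOfFinAddOrder_iff_nsmul_eq_zero.mp h4
        rw [hT]
        refine isOfFinAddOrder_iff_nsmul_eq_zero.mpr ⟨m * n, Nat.mul_pos hm hn, ?_⟩
        rw [mul_nsmul']
        exact hmy
      exact ⟨⟨y, hyT⟩, Subtype.ext hy⟩
    · rintro ⟨y, hy⟩
      exact ⟨y, congrArg Subtype.val hy⟩
  have h4 : f.range.relIndex T = Nat.card f.ker := by
    rw [AddSubgroup.relIndex, h3, AddSubgroup.index_range]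
    refine Nat.card_congr ⟨fun y => ⟨(y : T), ?_⟩, fun y => ⟨⟨(y : M), ?_⟩, ?_⟩, ?_, ?_⟩
    · have h5 := y.2
      rw [AddMonoidHom.mem_ker] at h5 ⊢
      exact congrArg Subtype.val h5
    · rw [hT]
      exact hf y.2
    · rw [AddMonoidHom.mem_ker]
      exact Subtype.ext y.2
    · intro y
      rfl
    · intro y
      rfl
  rw [h1, ← h2, AddSubgroup.relIndex_sup_left, h4]

/-- The quotient by the torsion subgroup. -/
abbrev Fq (M : Type*) [AddCommGroup M] : Type _ := M ⧸ AddCommGroup.torsion M

instance finite_Fq (M : Type*) [AddCommGroup M] [Module.Finite ℤ M] : Module.Finite ℤ (Fq M) :=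
  Module.Finite.of_surjective (QuotientAddGroup.mk' (AddCommGroup.torsion M)).toIntLinearMap
    (QuotientAddGroup.mk'_surjective _)

instance free_Fq (M : Type*) [AddCommGroup M] [Module.Finite ℤ M] : Module.Free ℤ (Fq M) := by
  have : IsAddTorsionFree (Fq M) := inferInstance
  exact Module.free_of_finite_type_torsion_free'

theorem rank_nullity {M M' : Type*} [AddCommGroup M] [Module.Finite ℤ M] [AddCommGroup M']
    (f : M →+ M') : Module.finrank ℤ f.range + Module.finrank ℤ f.ker = Module.finrank ℤ M := by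
  have h := Submodule.finrank_quotient_add_finrank (LinearMap.ker f.toIntLinearMap)
  rw [← h, (LinearMap.quotKerEquivRange f.toIntLinearMap).finrank_eq]
  rfl

theorem finrank_Fq (M : Type*) [AddCommGroup M] [Module.Finite ℤ M] :
    Module.finrank ℤ (Fq M) = Module.finrank ℤ M := by
  have h1 : Module.finrank ℤ
      (LinearMap.range (QuotientAddGroup.mk' (AddCommGroup.torsion M)).toIntLinearMap) +
      Module.finrank ℤ
        (LinearMap.ker (QuotientAddGroup.mk' (AddCommGroup.torsion M)).toIntLinearMap) =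
      Module.finrank ℤ M := rank_nullity (QuotientAddGroup.mk' (AddCommGroup.torsion M))
  have h2 : LinearMap.range (QuotientAddGroup.mk' (AddCommGroup.torsion M)).toIntLinearMap = ⊤ :=
    LinearMap.range_eq_top.mpr (QuotientAddGroup.mk'_surjective _)
  have h3 : Module.finrank ℤ
      (LinearMap.ker (QuotientAddGroup.mk' (AddCommGroup.torsion M)).toIntLinearMap) = 0 := by
    rw [Module.finrank_eq_zero_iff_isTorsion]
    rintro ⟨x, hx⟩
    have hx' : x ∈ AddCommGroup.torsion M := by
      rw [← QuotientAddGroup.ker_mk' (AddCommGroup.torsion M)]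
      exact hx
    obtain ⟨n, hn, hx''⟩ := isOfFinAddOrder_iff_nsmul_eq_zero.mp hx'
    refine ⟨⟨(n : ℤ), mem_nonZeroDivisors_of_ne_zero (by exact_mod_cast hn.ne')⟩, ?_⟩
    apply Subtype.ext
    change ((n : ℤ) : ℤ) • x = 0
    rw [natCast_zsmul, hx'']
  rw [h2, h3, add_zero, finrank_top] at h1
  exact h1

theorem index_nsmul (M : Type*) [AddCommGroup M] [Module.Finite ℤ M] (p : ℕ) [hp : NeZero p] :
    (nsmulAddMonoidHom p : M →+ M).range.index =
      Nat.card (nsmulAddMonoidHom p : M →+ M).ker * p ^ Module.finrank ℤ M := by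
  rw [index_range_eq]
  · congr 1
    rw [← finrank_Fq M, ← ModN.natCard_eq (Fq M) p, AddSubgroup.index_eq_card]
    have h1 : (nsmulAddMonoidHom p : M →+ M).range.map
        (QuotientAddGroup.mk' (AddCommGroup.torsion M)) =
        (LinearMap.range (LinearMap.lsmul ℤ (Fq M) (p : ℤ))).toAddSubgroup := by
      ext x
      constructor
      · rintro ⟨_, ⟨y, rfl⟩, rfl⟩
        refine ⟨QuotientAddGroup.mk' (AddCommGroup.torsion M) y, ?_⟩
        rw [LinearMap.lsmul_apply, natCast_zsmul]
        exact (map_nsmul (QuotientAddGroup.mk' (AddCommGroup.torsion M)) p y).symm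
      · rintro ⟨y, rfl⟩
        obtain ⟨z, rfl⟩ := QuotientAddGroup.mk'_surjective (AddCommGroup.torsion M) y
        refine ⟨p • z, ⟨z, rfl⟩, ?_⟩
        rw [LinearMap.lsmul_apply, natCast_zsmul]
        exact map_nsmul (QuotientAddGroup.mk' (AddCommGroup.torsion M)) p z
    rw [h1]
    rfl
  · intro x hx
    exact isOfFinAddOrder_iff_nsmul_eq_zero.mpr ⟨p, Nat.pos_of_ne_zero hp.out, hx⟩

theorem sum_apply {M ι : Type*} [AddCommGroup M] (s : Finset ι) (f : ι → AddMonoid.End M)
    (x : M) : (∑ i ∈ s, f i) x = ∑ i ∈ s, f i x := by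
  classical
  induction s using Finset.induction_on with
  | empty => rfl
  | insert a s ha ih =>
    rw [Finset.sum_insert ha, Finset.sum_insert ha, ← ih]
    rfl

theorem fix_nsmul {M : Type*} [AddCommGroup M] (g : AddMonoid.End M) (p : ℕ) (x : M)
    (h1 : (∑ i ∈ range p, g ^ i) x = 0) (h2 : g x = x) : p • x = 0 := by
  rw [← h1, sum_apply]
  have h3 : ∀ i : ℕ, (g ^ i) x = x := by
    intro i
    induction i with
    | zero => rfl
    | succ i ih =>
      rw [pow_succ]
      change (g ^ i) (g x) = x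
      rw [h2, ih]
  rw [Finset.sum_congr rfl fun i _ => h3 i, Finset.sum_const, Finset.card_range]

theorem nsmul_mem_range {B : Type*} [AddCommGroup B] (g : AddMonoid.End B) (p : ℕ)
    (x : B) (hx : (∑ i ∈ range p, g ^ i) x = 0) : p • x ∈ (dif g).range := by
  have h1 : p • x = -∑ i ∈ range p, (g ^ i - 1) x := by
    have h2 : ∑ i ∈ range p, (g ^ i - 1) x = (∑ i ∈ range p, g ^ i) x - p • x := by
      rw [sum_apply]
      have h3 : ∀ i ∈ range p, (g ^ i - 1) x = (g ^ i) x - x := fun i _ => rfl
      rw [Finset.sum_congr rfl h3, Finset.sum_sub_distrib, Finset.sum_const, Finset.card_range]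
    rw [h2, hx]
    simp
  rw [h1]
  refine neg_mem (sum_mem fun i _ => ?_)
  rw [← mul_geom_sum]
  exact ⟨_, rfl⟩

theorem card_ker_ne_zero {M : Type*} [AddCommGroup M] [Module.Finite ℤ M] (f : M →+ M)
    (hf : f.ker ≤ AddCommGroup.torsion M) : Nat.card f.ker ≠ 0 := by
  have h1 := finite_torsion M
  have h2 : Finite f.ker := Finite.of_injective _ (AddSubgroup.inclusion_injective hf)
  exact Nat.card_pos.ne'

theorem nsmul_ker_le {M : Type*} [AddCommGroup M] (p : ℕ) [hp : NeZero p] :
    (nsmulAddMonoidHom p : M →+ M).ker ≤ AddCommGroup.torsion M := fun _ hx =>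
  isOfFinAddOrder_iff_nsmul_eq_zero.mpr ⟨p, Nat.pos_of_ne_zero hp.out, hx⟩

theorem key {B : Type*} [AddCommGroup B] [Module.Finite ℤ B] (g : AddMonoid.End B) (p r : ℕ)
    [hp : Fact p.Prime] (hN : ∑ i ∈ range p, g ^ i = 0)
    (hr : Module.finrank ℤ B = (p - 1) * r) :
    p ^ r * Nat.card (dif g).ker ≤ (dif g).range.index ∧ (dif g).range.index ≠ 0 := by
  have : NeZero p := ⟨hp.out.ne_zero⟩
  have hkerB : (dif g).ker ≤ AddCommGroup.torsion B := by
    intro x hx
    have h2 : g x = x := by
      rw [AddMonoidHom.mem_ker] at hx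
      exact sub_eq_zero.mp hx
    exact isOfFinAddOrder_iff_nsmul_eq_zero.mpr ⟨p, hp.out.pos, fix_nsmul g p x (by rw [hN]; rfl) h2⟩
  obtain ⟨T, hT⟩ : ∃ T : AddSubgroup B, T = AddCommGroup.torsion B := ⟨_, rfl⟩
  obtain ⟨k, hk⟩ : ∃ k : AddMonoid.End (Fq B), k = QuotientAddGroup.map
      (AddCommGroup.torsion B) (AddCommGroup.torsion B) g (AddCommGroup.le_comap_torsion g) :=
    ⟨_, rfl⟩
  obtain ⟨q, hq⟩ : ∃ q : B →+ Fq B, q = QuotientAddGroup.mk' (AddCommGroup.torsion B) := ⟨_, rfl⟩
  have hqs : Function.Surjective q := by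
    rw [hq]
    exact QuotientAddGroup.mk'_surjective _
  have hkq : ∀ x, k (q x) = q (g x) := by
    intro x
    rw [hk, hq]
    rfl
  have hkqi : ∀ (i : ℕ) x, (k ^ i) (q x) = q ((g ^ i) x) := by
    intro i
    induction i with
    | zero => exact fun x => rfl
    | succ i ih =>
      intro x
      rw [pow_succ, pow_succ]
      change (k ^ i) (k (q x)) = q ((g ^ i) (g x))
      rw [hkq, ih]
  have hNk : ∑ i ∈ range p, k ^ i = 0 := by
    apply AddMonoidHom.ext
    intro y
    obtain ⟨x, rfl⟩ := hqs y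
    change (∑ i ∈ range p, k ^ i) (q x) = 0
    rw [sum_apply, Finset.sum_congr rfl fun i _ => hkqi i x, ← map_sum, ← sum_apply, hN]
    exact map_zero q
  obtain ⟨h, hh⟩ := exists_poly p
  have hpow : (k - 1) ^ (p - 1) = (p : AddMonoid.End (Fq B)) * Polynomial.aeval k h := by
    have h1 := congrArg (Polynomial.aeval k) hh
    simp only [map_pow, map_sub, map_add, map_sum, map_mul, Polynomial.aeval_X, map_one,
      Polynomial.aeval_C] at h1
    rw [h1, hNk, zero_add]
    simp
  have hinj : Function.Injective (dif k) := by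
    rw [injective_iff_map_eq_zero]
    intro x hx
    have h1 : k x = x := sub_eq_zero.mp hx
    have h2 := fix_nsmul k p x (by rw [hNk]; rfl) h1
    exact (nsmul_eq_zero_iff.mp h2).resolve_right hp.out.ne_zero
  have hmap : (dif g).range.map q = (dif k).range := by
    ext y
    constructor
    · rintro ⟨_, ⟨x, rfl⟩, rfl⟩
      refine ⟨q x, ?_⟩
      change k (q x) - q x = q (g x - x)
      rw [hkq, map_sub]
    · rintro ⟨y, rfl⟩
      obtain ⟨x, rfl⟩ := hqs y
      refine ⟨g x - x, ⟨x, rfl⟩, ?_⟩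
      change q (g x - x) = k (q x) - q x
      rw [hkq, map_sub]
  have hidx := index_range_eq (dif g) hkerB
  rw [← hq, hmap] at hidx
  have hfin : (dif g).range.index ≠ 0 := by
    have h1 : (nsmulAddMonoidHom p : B →+ B).range ≤ (dif g).range := by
      rintro _ ⟨x, rfl⟩
      exact nsmul_mem_range g p x (by rw [hN]; rfl)
    have h2 := AddSubgroup.index_dvd_of_le h1
    intro h3
    rw [h3, zero_dvd_iff, index_nsmul] at h2
    rcases mul_eq_zero.mp h2 with h4 | h4
    · exact card_ker_ne_zero _ (nsmul_ker_le p) h4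
    · exact pow_ne_zero _ hp.out.ne_zero h4
  have hdvd : p ^ r ∣ (dif k).range.index := by
    have h1 : AddMonoidHom.range (((k - 1 : AddMonoid.End (Fq B)) ^ (p - 1) :
        AddMonoid.End (Fq B)) : Fq B →+ Fq B) ≤ (nsmulAddMonoidHom p : Fq B →+ Fq B).range := by
      rintro _ ⟨x, rfl⟩
      rw [hpow]
      refine ⟨Polynomial.aeval k h x, ?_⟩
      change p • _ = (p : AddMonoid.End (Fq B)) (Polynomial.aeval k h x)
      rw [AddMonoid.End.natCast_apply]
    have h2 := AddSubgroup.index_dvd_of_le h1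
    have h4 := index_pow (k - 1 : AddMonoid.End (Fq B)) hinj (p - 1)
    rw [index_nsmul, h4, finrank_Fq, hr, mul_comm (p - 1) r, pow_mul] at h2
    have h3 := (Dvd.intro_left _ rfl).trans h2
    exact (Nat.pow_dvd_pow_iff (Nat.sub_ne_zero_of_lt hp.out.one_lt)).mp h3
  refine ⟨?_, hfin⟩
  rw [hidx, mul_comm]
  refine Nat.mul_le_mul_left _ (Nat.le_of_dvd (Nat.pos_of_ne_zero fun h0 => hfin ?_) hdvd)
  rw [hidx, h0, mul_zero]

/-- Let `g` be an automorphism of order `p` of a finitely generated abelian group `E`, whose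
rank is `p` times the rank of the group of fixed points. If each element of norm `0` is of the form
`g y - y`, then each fixed element is a norm. -/
theorem main_add (E : Type*) [AddCommGroup E] [Module.Finite ℤ E] (g : AddMonoid.End E) (p : ℕ)
    [hp : Fact p.Prime] (hg : g ^ p = 1)
    (hrank : Module.finrank ℤ E = p * Module.finrank ℤ (dif g).ker)
    (hH : ∀ x, ∑ i ∈ range p, (g ^ i) x = 0 → ∃ y, g y - y = x) :
    ∀ x, g x = x → ∃ y, ∑ i ∈ range p, (g ^ i) y = x := by
  have : NeZero p := ⟨hp.out.ne_zero⟩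
  obtain ⟨N, hN⟩ : ∃ N : E →+ E, N = (∑ i ∈ range p, g ^ i : AddMonoid.End E) := ⟨_, rfl⟩
  have hNapp : ∀ x, N x = ∑ i ∈ range p, (g ^ i) x := by
    intro x
    rw [hN]
    exact sum_apply _ _ _
  obtain ⟨A, hA⟩ : ∃ A : AddSubgroup E, A = (dif g).ker := ⟨_, rfl⟩
  obtain ⟨B, hB⟩ : ∃ B : AddSubgroup E, B = N.ker := ⟨_, rfl⟩
  have memA : ∀ x, x ∈ A ↔ g x = x := by
    intro x
    rw [hA, AddMonoidHom.mem_ker]
    exact sub_eq_zero
  have memB : ∀ x, x ∈ B ↔ N x = 0 := by
    intro x
    rw [hB, AddMonoidHom.mem_ker]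
  have hgN : ∀ x, g (N x) = N x := by
    intro x
    have h1 : (g - 1) * ∑ i ∈ range p, g ^ i = 0 := by
      rw [mul_geom_sum, hg, sub_self]
    have h2 : ((g - 1) * ∑ i ∈ range p, g ^ i : AddMonoid.End E) x = 0 := by
      rw [h1]
      rfl
    rw [hN]
    exact sub_eq_zero.mp h2
  have hNg : ∀ x, N (g x) = N x := by
    intro x
    have h1 : (∑ i ∈ range p, g ^ i) * (g - 1) = 0 := by
      rw [geom_sum_mul, hg, sub_self]
    have h2 : ((∑ i ∈ range p, g ^ i) * (g - 1) : AddMonoid.End E) x = 0 := by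
      rw [h1]
      rfl
    have h3 : N (g x - x) = 0 := by
      rw [hN]
      exact h2
    rw [map_sub] at h3
    exact sub_eq_zero.mp h3
  have hNA : ∀ x ∈ A, N x = p • x := by
    intro x hx
    rw [memA] at hx
    have h3 : ∀ i : ℕ, (g ^ i) x = x := by
      intro i
      induction i with
      | zero => rfl
      | succ i ih =>
        rw [pow_succ]
        change (g ^ i) (g x) = x
        rw [hx, ih]
    rw [hNapp, Finset.sum_congr rfl fun i _ => h3 i, Finset.sum_const, Finset.card_range]
  -- the restricted norm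
  obtain ⟨N', hN'⟩ : ∃ N' : E →+ A, ∀ x, (N' x : E) = N x :=
    ⟨N.codRestrict A fun x => (memA _).mpr (hgN x), fun x => rfl⟩
  obtain ⟨t', ht'⟩ : ∃ t' : E →+ B, ∀ x, (t' x : E) = g x - x :=
    ⟨(dif g).codRestrict B fun x => (memB _).mpr (by
      change N (g x - x) = 0
      rw [map_sub, hNg, sub_self]), fun x => rfl⟩
  have hgB : ∀ x ∈ B, g x ∈ B := by
    intro x hx
    rw [memB] at hx ⊢
    rw [hNg, hx]
  obtain ⟨gB, hgB'⟩ : ∃ gB : AddMonoid.End B, ∀ x, (gB x : E) = g x :=
    ⟨((g : E →+ E).comp B.subtype).codRestrict B fun x => hgB x x.2, fun x => rfl⟩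
  have hgBi : ∀ (i : ℕ) (x : B), ((gB ^ i) x : E) = (g ^ i) x := by
    intro i
    induction i with
    | zero => exact fun x => rfl
    | succ i ih =>
      intro x
      rw [pow_succ, pow_succ]
      change (((gB ^ i) (gB x) : B) : E) = (g ^ i) (g x)
      rw [ih, hgB']
  have hNB : ∑ i ∈ range p, gB ^ i = 0 := by
    apply AddMonoidHom.ext
    intro x
    apply Subtype.ext
    change (((∑ i ∈ range p, gB ^ i) x : B) : E) = 0
    rw [sum_apply, AddSubgroup.val_finsetSum, Finset.sum_congr rfl fun i _ => hgBi i x,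
      ← hNapp]
    exact (memB _).mp x.2
  -- ranks
  have hrB : Module.finrank ℤ B = (p - 1) * Module.finrank ℤ A := by
    have h1 := rank_nullity (dif g)
    have h2 : (dif g).range = B := by
      ext x
      constructor
      · rintro ⟨y, rfl⟩
        have h2 : (dif g) y = t' y := (ht' y).symm
        rw [h2]
        exact (t' y).2
      · intro hx
        obtain ⟨y, hy⟩ := hH x (by rw [← hNapp]; exact (memB x).mp hx)
        exact ⟨y, hy⟩
    rw [h2, ← hA, hrank, ← hA] at h1
    obtain ⟨q, hq⟩ : ∃ q, p = q + 1 := ⟨p - 1, by have := hp.out.pos; omega⟩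
    have h3 : p * Module.finrank ℤ A = (p - 1) * Module.finrank ℤ A + Module.finrank ℤ A := by
      rw [hq]
      simp only [Nat.add_sub_cancel]
      ring
    omega
  have hfB : Module.Finite ℤ B :=
    (inferInstance : Module.Finite ℤ (AddSubgroup.toIntSubmodule B))
  have hfA : Module.Finite ℤ A :=
    (inferInstance : Module.Finite ℤ (AddSubgroup.toIntSubmodule A))
  have hkey := key gB p (Module.finrank ℤ A) hNB hrB
  have hnA := index_nsmul A p
  have hc : Nat.card (nsmulAddMonoidHom p : A →+ A).ker = Nat.card (dif gB).ker := by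
    refine Nat.card_congr ⟨fun x => ⟨⟨((x : A) : E), ?_⟩, ?_⟩, fun x => ⟨⟨((x : B) : E), ?_⟩, ?_⟩,
      ?_, ?_⟩
    · rw [memB, hNA _ x.1.2]
      exact congrArg Subtype.val x.2
    · rw [AddMonoidHom.mem_ker]
      apply Subtype.ext
      change (gB _ : E) - _ = 0
      rw [hgB', sub_eq_zero]
      exact (memA _).mp x.1.2
    · rw [memA, ← hgB']
      exact congrArg Subtype.val (sub_eq_zero.mp x.2)
    · rw [AddMonoidHom.mem_ker]
      apply Subtype.ext
      have h1 : g ((x : B) : E) = (x : B) := by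
        rw [← hgB']
        exact congrArg Subtype.val (sub_eq_zero.mp x.2)
      change p • ((x : B) : E) = 0
      rw [← hNA _ ((memA _).mpr h1)]
      exact (memB _).mp x.1.2
    · intro x
      rfl
    · intro x
      rfl
  have h1 : (A.map N').index = (A ⊔ B).index * N'.range.index := by
    rw [AddSubgroup.index_map]
    congr 3
    ext x
    rw [AddMonoidHom.mem_ker, memB, ← hN']
    exact ⟨fun h => congrArg Subtype.val h, fun h => Subtype.ext h⟩
  have h2 : (B.map t').index = (B ⊔ A).index := by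
    rw [AddSubgroup.index_map]
    have h3 : t'.range = ⊤ := by
      rw [AddMonoidHom.range_eq_top]
      intro x
      obtain ⟨y, hy⟩ := hH x (by rw [← hNapp]; exact (memB _).mp x.2)
      exact ⟨y, Subtype.ext (by rw [ht', hy])⟩
    rw [h3, AddSubgroup.index_top, mul_one]
    congr 2
    ext x
    rw [AddMonoidHom.mem_ker, memA]
    constructor
    · intro h
      have h4 := congrArg Subtype.val h
      rw [ht'] at h4
      exact sub_eq_zero.mp h4
    · intro h
      apply Subtype.ext
      rw [ht', h, sub_self]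
      rfl
  have h3 : A.map N' = (nsmulAddMonoidHom p : A →+ A).range := by
    ext x
    constructor
    · rintro ⟨y, hy, rfl⟩
      refine ⟨⟨y, hy⟩, Subtype.ext ?_⟩
      rw [hN', hNA y hy]
      rfl
    · rintro ⟨y, rfl⟩
      refine ⟨y, y.2, Subtype.ext ?_⟩
      rw [hN', hNA _ y.2]
      rfl
  have h4 : B.map t' = (dif gB).range := by
    ext x
    constructor
    · rintro ⟨y, hy, rfl⟩
      refine ⟨⟨y, hy⟩, Subtype.ext ?_⟩
      rw [ht']
      change (gB ⟨y, hy⟩ : E) - y = g y - y
      rw [hgB']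
    · rintro ⟨y, rfl⟩
      refine ⟨y, y.2, Subtype.ext ?_⟩
      rw [ht']
      change g y - y = (gB y : E) - y
      rw [hgB']
  rw [h3, hnA, hc] at h1
  rw [h4, sup_comm B A] at h2
  rw [h2] at hkey
  have h5 : N'.range.index = 1 := by
    have h6 : Nat.card (dif gB).ker * p ^ Module.finrank ℤ A ≠ 0 := by
      refine mul_ne_zero ?_ (pow_ne_zero _ hp.out.ne_zero)
      rw [← hc]
      exact card_ker_ne_zero _ (nsmul_ker_le p)
    have h7 : (A ⊔ B).index * N'.range.index ≤ (A ⊔ B).index * 1 := by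
      rw [← h1, mul_one, mul_comm]
      exact hkey.1
    have h8 := Nat.le_of_mul_le_mul_left h7 (Nat.pos_of_ne_zero hkey.2)
    have h9 : N'.range.index ≠ 0 := by
      intro h0
      rw [h0, mul_zero] at h1
      exact h6 h1
    omega
  intro x hx
  have h6 : (⟨x, (memA x).mpr hx⟩ : A) ∈ N'.range := by
    rw [AddSubgroup.index_eq_one.mp h5]
    exact AddSubgroup.mem_top _
  obtain ⟨y, hy⟩ := h6
  refine ⟨y, ?_⟩
  rw [← hNapp, ← hN', hy]

end HERB

open HERB Finset in
theorem HERB_thm : HERB := by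
  intro p hp A G _ _ _ g E E' hg hfg hst hE' hH hr
  have : Group.FG E := (Group.fg_iff_subgroup_fg E).mpr hfg
  have hfin : Module.Finite ℤ (Additive E) := Module.Finite.iff_addGroup_fg.mpr inferInstance
  obtain ⟨k, hk⟩ : ∃ k : AddMonoid.End (Additive E), ∀ x : E,
      ((k (Additive.ofMul x)).toMul : A) = g • (x : A) :=
    ⟨MonoidHom.toAdditive (((MulDistribMulAction.toMonoidHom A g).comp E.subtype).codRestrict E
      fun x => hst x x.2), fun x => rfl⟩
  have hki : ∀ (i : ℕ) (x : E), (((k ^ i) (Additive.ofMul x)).toMul : A) = g ^ i • (x : A) := by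
    intro i
    induction i with
    | zero =>
      intro x
      rw [pow_zero, pow_zero, one_smul]
      rfl
    | succ i ih =>
      intro x
      rw [pow_succ, pow_succ, mul_smul, ← hk x]
      exact ih (k (Additive.ofMul x)).toMul
  have hsum : ∀ x : E, (((∑ i ∈ range p, (k ^ i) (Additive.ofMul x) : Additive E)).toMul : A) =
      ∏ i ∈ range p, g ^ i • (x : A) := by
    intro x
    rw [toMul_sum, Subgroup.val_finsetProd]
    exact Finset.prod_congr rfl fun i _ => hki i x
  have hkp : k ^ p = 1 := by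
    apply AddMonoidHom.ext
    intro x
    apply Additive.toMul.injective
    apply Subtype.ext
    have h1 := hki p x.toMul
    rw [hg, one_smul] at h1
    exact h1
  have hrk : Module.finrank ℤ (dif k).ker = Module.finrank ℤ (Additive E') := by
    have e : (dif k).ker ≃+ Additive E' :=
      { toFun := fun x => Additive.ofMul ⟨((x : Additive E).toMul : A), (hE' _).mpr
          ⟨(x : Additive E).toMul.2, by
            have h1 : k (x : Additive E) = x := sub_eq_zero.mp x.2
            rw [← hk]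
            exact congrArg (fun z : Additive E => (z.toMul : A)) h1⟩⟩
        invFun := fun x => ⟨Additive.ofMul ⟨(x.toMul : A), ((hE' _).mp x.toMul.2).1⟩, by
          rw [AddMonoidHom.mem_ker]
          change k _ - _ = 0
          rw [sub_eq_zero]
          apply Additive.toMul.injective
          apply Subtype.ext
          rw [hk]
          exact ((hE' _).mp x.toMul.2).2⟩
        left_inv := fun x => rfl
        right_inv := fun x => rfl
        map_add' := fun x y => rfl }
    exact e.toIntLinearEquiv.finrank_eq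
  have hmain := main_add (Additive E) k p hkp (by rw [hrk]; exact hr) (by
    intro x hx
    obtain ⟨v, hv, hv'⟩ := hH (x.toMul : A) x.toMul.2 (by
      rw [← hsum]
      exact congrArg (fun z : Additive E => (z.toMul : A)) hx)
    refine ⟨Additive.ofMul (⟨v, hv⟩⁻¹ : E), ?_⟩
    apply Additive.toMul.injective
    apply Subtype.ext
    change ((k (Additive.ofMul (⟨v, hv⟩⁻¹ : E))).toMul : A) / ((⟨v, hv⟩⁻¹ : E) : A) = _
    rw [hk, hv']
    change g • v⁻¹ / v⁻¹ = v / g • v
    rw [smul_inv', div_eq_mul_inv, inv_inv, div_eq_mul_inv, mul_comm])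
  intro e he
  obtain ⟨h1, h2⟩ := (hE' e).mp he
  obtain ⟨y, hy⟩ := hmain (Additive.ofMul ⟨e, h1⟩) (by
    apply Additive.toMul.injective
    apply Subtype.ext
    rw [hk]
    exact h2)
  refine ⟨y.toMul, y.toMul.2, ?_⟩
  have h3 := hsum y.toMul
  rw [← h3]
  exact (congrArg (fun z : Additive E => (z.toMul : A)) hy).symm

end Pool.Agent.RI
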