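import Mathlib

/-!
# Relative Iwasawa theorem: definitions

Definitions used in the main statement: `classNo`, `IsLayer`, `Nonsplit`, `UnramInf`,
`NonsplitRam`, `PosDensity`.

Auxiliary definitions: `J K` is the group of nonzero fractional ideals of a number field, with the
action of the field automorphisms, `prin x` is the principal fractional ideal of `x`, `ext K L` the
extension of fractional ideals, `RelTriv F K p` says that the relative class group of `K / F` has
trivial `p`-part, `relU M L` is the group of relative units.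
-/

open NumberField
open scoped nonZeroDivisors Pointwise

namespace Pool.Agent.RI

/-! ### Definitions for the main statement -/

/-- The class number of the subfield `E` of `ℂ` (the number of elements of the class group of its
ring of integers). -/
noncomputable def classNo (E : IntermediateField ℚ ℂ) : ℕ := Nat.card (ClassGroup (𝓞 E))

/-- `B` is the `n`-th layer of the cyclotomic `ℤ_p`-extension of `ℚ`: it has degree `p ^ n` over
`ℚ`, consists of real numbers, and is contained in `ℚ(ζ)` for a root of unity `ζ` of `p`-power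
order. -/
def IsLayer (p n : ℕ) (B : IntermediateField ℚ ℂ) : Prop :=
  Module.finrank ℚ B = p ^ n ∧ (∀ z ∈ B, (starRingEnd ℂ) z = z) ∧
    ∃ m : ℕ, B ≤ IntermediateField.adjoin ℚ {z : ℂ | z ^ (p ^ m) = 1}

/-- No prime of `F` above `p` splits in `K`: a prime of `F` containing `p` has at most one prime of
`K` above it. -/
def Nonsplit (p : ℕ) {F K : IntermediateField ℚ ℂ} (h : F ≤ K) : Prop :=
  ∀ P Q : Ideal (𝓞 K), P.IsPrime → Q.IsPrime → (p : 𝓞 K) ∈ P → (p : 𝓞 K) ∈ Q →
    P.comap (RingOfIntegers.mapRingHom (IntermediateField.inclusion h : F →+* K)) =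
      Q.comap (RingOfIntegers.mapRingHom (IntermediateField.inclusion h : F →+* K)) → P = Q

/-- `M / F` is unramified at infinity: an embedding of `M` into `ℂ` that is real on `F` is real. -/
def UnramInf {F M : IntermediateField ℚ ℂ} (_h : F ≤ M) : Prop :=
  ∀ φ : M →+* ℂ, (∀ x : M, (x : ℂ) ∈ F → (starRingEnd ℂ) (φ x) = φ x) →
    ∀ x : M, (starRingEnd ℂ) (φ x) = φ x

/-- The prime `P` of `F` ramifies in `M`: some prime of `M` above `P` has ramification index
different from `1`. -/
def Ramifies {F M : IntermediateField ℚ ℂ} (h : F ≤ M) (P : Ideal (𝓞 F)) : Prop :=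
  letI : Algebra F M := (IntermediateField.inclusion h).toRingHom.toAlgebra
  ∃ R : Ideal (𝓞 M), R.IsPrime ∧ R.under (𝓞 F) = P ∧ R.ramificationIdx (𝓞 F) ≠ 1

/-- No prime of `F` that ramifies in `M` splits in `K`. -/
def NonsplitRam {F K M : IntermediateField ℚ ℂ} (hK : F ≤ K) (hM : F ≤ M) : Prop :=
  ∀ P Q : Ideal (𝓞 K), P.IsPrime → Q.IsPrime →
    P.comap (RingOfIntegers.mapRingHom (IntermediateField.inclusion hK : F →+* K)) =
      Q.comap (RingOfIntegers.mapRingHom (IntermediateField.inclusion hK : F →+* K)) →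
    Ramifies hM
      (P.comap (RingOfIntegers.mapRingHom (IntermediateField.inclusion hK : F →+* K))) → P = Q

/-- The set `S` of natural numbers contains primes with positive lower Dirichlet density. -/
def PosDensity (S : Set ℕ) : Prop :=
  ∃ δ > 0, ∃ C : ℝ, ∀ s : ℝ, 1 < s → s ≤ 2 →
    δ * Real.log (1 / (s - 1)) - C ≤ ∑' q : {q : ℕ // q.Prime ∧ q ∈ S}, (q : ℝ) ^ (-s)

/-! ### Fractional ideals -/

/-- The group of nonzero fractional ideals of the number field `K`. -/
abbrev J (K : Type) [Field K] : Type := (FractionalIdeal (𝓞 K)⁰ K)ˣ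

/-- The principal fractional ideal generated by `x`. -/
noncomputable abbrev prin {K : Type} [Field K] [NumberField K] : Kˣ →* J K :=
  toPrincipalIdeal (𝓞 K) K

lemma act_aux {K : Type} [Field K] (σ : K ≃+* K) :
    (𝓞 K)⁰ ≤ Submonoid.comap ((RingOfIntegers.mapRingEquiv σ : 𝓞 K ≃+* 𝓞 K) : 𝓞 K →+* 𝓞 K)
      (𝓞 K)⁰ :=
  nonZeroDivisors_le_comap_nonZeroDivisors_of_injective _
      (RingOfIntegers.mapRingEquiv σ).injective

/-- The image of a fractional ideal under a field automorphism. -/
noncomputable def actF {K : Type} [Field K] [NumberField K] (σ : K ≃+* K) :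
    FractionalIdeal (𝓞 K)⁰ K →+* FractionalIdeal (𝓞 K)⁰ K :=
  FractionalIdeal.extendedHom' K (act_aux σ)

lemma map_aux {K : Type} [Field K] [NumberField K] (σ : K ≃+* K) (x : K) :
    IsLocalization.map (S := K) (M := (𝓞 K)⁰) (T := (𝓞 K)⁰) K
      ((RingOfIntegers.mapRingEquiv σ : 𝓞 K ≃+* 𝓞 K) : 𝓞 K →+* 𝓞 K) (act_aux σ) x = σ x := by
  have h : (IsLocalization.map (S := K) (M := (𝓞 K)⁰) (T := (𝓞 K)⁰) K
      ((RingOfIntegers.mapRingEquiv σ : 𝓞 K ≃+* 𝓞 K) : 𝓞 K →+* 𝓞 K) (act_aux σ)) =
      (σ : K →+* K) := by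
    apply IsLocalization.ringHom_ext (𝓞 K)⁰
    ext y
    simp only [RingHom.comp_apply, IsLocalization.map_eq, RingHom.coe_coe]
    rfl
  rw [h]; rfl

/-- `x ∈ σ I ↔ σ⁻¹ x ∈ I`. -/
lemma mem_actF {K : Type} [Field K] [NumberField K] (σ : K ≃+* K)
    (I : FractionalIdeal (𝓞 K)⁰ K) (x : K) : x ∈ actF σ I ↔ σ.symm x ∈ I := by
  unfold actF
  rw [FractionalIdeal.extendedHom'_apply, FractionalIdeal.mem_extended_iff]
  constructor
  · intro h
    refine Submodule.span_induction (p := fun x _ => σ.symm x ∈ I) ?_ ?_ ?_ ?_ h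
    · rintro _ ⟨y, hy, rfl⟩
      rw [map_aux, RingEquiv.symm_apply_apply]
      exact hy
    · simp only [map_zero]; exact I.val.zero_mem
    · intro a b _ _ ha hb
      rw [map_add]
      exact I.val.add_mem ha hb
    · intro a b _ hb
      have : σ.symm (a • b) =
          ((RingOfIntegers.mapRingEquiv σ.symm : 𝓞 K ≃+* 𝓞 K) a) • σ.symm b := by
        rw [Algebra.smul_def, Algebra.smul_def, map_mul]; rfl
      rw [this]
      exact I.val.smul_mem _ hb
  · intro h
    apply Submodule.subset_span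
    exact ⟨σ.symm x, h, by rw [map_aux, RingEquiv.apply_symm_apply]⟩

/-- The automorphisms of `K / F` act on the fractional ideals of `K`. -/
noncomputable instance actJ {K : Type} [Field K] [NumberField K] {F : Type} [Field F]
    [Algebra F K] : MulDistribMulAction (K ≃ₐ[F] K) (J K) where
  smul σ I := Units.map (actF (σ : K ≃+* K)).toMonoidHom I
  one_smul I := by
    apply Units.ext
    apply FractionalIdeal.coeToSubmodule_injective
    ext x
    exact mem_actF (K := K) ((1 : K ≃ₐ[F] K) : K ≃+* K) I x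
  mul_smul σ τ I := by
    apply Units.ext
    ext x
    exact (mem_actF ((σ * τ : K ≃ₐ[F] K) : K ≃+* K) I x).trans
      ((mem_actF (σ : K ≃+* K) _ x).trans (mem_actF (τ : K ≃+* K) _ _)).symm
  smul_mul σ I J := map_mul _ _ _
  smul_one σ := map_one _

/-- `x ∈ σ • I ↔ σ⁻¹ x ∈ I`. -/
lemma mem_smul {K : Type} [Field K] [NumberField K] {F : Type} [Field F]
    [Algebra F K] (σ : K ≃ₐ[F] K) (I : J K) (x : K) :
    x ∈ ((σ • I : J K) : FractionalIdeal (𝓞 K)⁰ K) ↔
      σ.symm x ∈ (I : FractionalIdeal (𝓞 K)⁰ K) :=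
  mem_actF (σ : K ≃+* K) I x

/-- `σ (x) = (σ x)`. -/
lemma smul_prin {K : Type} [Field K] [NumberField K] {F : Type} [Field F]
    [Algebra F K] (σ : K ≃ₐ[F] K) (x : Kˣ) : σ • prin x = prin (σ • x) := by
  apply Units.ext
  ext y
  rw [mem_smul, coe_toPrincipalIdeal, coe_toPrincipalIdeal, FractionalIdeal.mem_spanSingleton,
    FractionalIdeal.mem_spanSingleton]
  constructor
  · rintro ⟨a, ha⟩
    refine ⟨(RingOfIntegers.mapRingEquiv (σ : K ≃+* K) : 𝓞 K ≃+* 𝓞 K) a, ?_⟩
    have := congrArg σ ha
    rw [AlgEquiv.apply_symm_apply, Algebra.smul_def, map_mul] at this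
    rw [Algebra.smul_def]
    exact this
  · rintro ⟨a, ha⟩
    refine ⟨(RingOfIntegers.mapRingEquiv (σ.symm : K ≃+* K) : 𝓞 K ≃+* 𝓞 K) a, ?_⟩
    rw [← ha, Algebra.smul_def, Algebra.smul_def, map_mul]
    congr 1
    exact (σ.symm_apply_apply (x : K)).symm

/-- Extension of fractional ideals from `K` to `L`. -/
noncomputable def ext (K L : Type) [Field K] [NumberField K] [Field L] [NumberField L]
    [Algebra K L] : J K →* J L :=
  Units.map (FractionalIdeal.extendedHom L (𝓞 L) : FractionalIdeal (𝓞 K)⁰ K →+* _).toMonoidHom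

lemma ext_prin (K L : Type) [Field K] [NumberField K] [Field L] [NumberField L]
    [Algebra K L] (x : Kˣ) : ext K L (prin x) = prin (Units.map (algebraMap K L) x) := by
  apply Units.ext
  show FractionalIdeal.extendedHom L (𝓞 L) (prin x : FractionalIdeal (𝓞 K)⁰ K) = _
  rw [coe_toPrincipalIdeal, coe_toPrincipalIdeal, FractionalIdeal.extendedHom_spanSingleton]
  congr 1
  have h : (IsFractionRing.map (A := 𝓞 K) (B := 𝓞 L) (K := K) (L := L)
      (FaithfulSMul.algebraMap_injective (𝓞 K) (𝓞 L))) = algebraMap K L := by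
    apply IsLocalization.ringHom_ext (𝓞 K)⁰
    ext y
    simp only [RingHom.comp_apply, IsFractionRing.map, IsLocalization.map_eq]
    rfl
  rw [h]; rfl

lemma ext_injective (K L : Type) [Field K] [NumberField K] [Field L] [NumberField L]
    [Algebra K L] : Function.Injective (ext K L) := by
  intro a b h
  apply Units.ext
  exact FractionalIdeal.extendedHom_injective (𝓞 K) K L (𝓞 L) (congrArg Units.val h)

/-! ### Relative class groups and relative units -/

/-- The relative class group of `K / F` has trivial `p`-part: every fractional ideal of `K` whose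
norm ideal (the product of its conjugates over `F`) is `1` has a power with exponent prime to `p`
that is principal. -/
def RelTriv (F K : Type) [Field F] [Field K] [NumberField K] [Algebra F K]
    [FiniteDimensional F K] (p : ℕ) : Prop :=
  ∀ c : J K, (∏ σ : K ≃ₐ[F] K, σ • c) = 1 → ∃ m : ℕ, m.Coprime p ∧ ∃ x : Kˣ, c ^ m = prin x

/-- The relative units of `L / M`: units `u` of `L` with `∏ σ u = 1` (as elements of `Lˣ`). -/
noncomputable def relU (M L : Type) [Field M] [Field L] [NumberField L] [Algebra M L]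
    [FiniteDimensional M L] : Subgroup Lˣ where
  carrier := {u | prin u = 1 ∧ (∏ σ : L ≃ₐ[M] L, σ • u) = 1}
  mul_mem' := by
    rintro a b ⟨ha, ha'⟩ ⟨hb, hb'⟩
    refine ⟨by rw [map_mul, ha, hb, one_mul], ?_⟩
    simp only [smul_mul', Finset.prod_mul_distrib, ha', hb', one_mul]
  one_mem' := ⟨map_one _, by simp⟩
  inv_mem' := by
    rintro a ⟨ha, ha'⟩
    refine ⟨by rw [map_inv, ha, inv_one], ?_⟩
    simp only [smul_inv', Finset.prod_inv_distrib, ha', inv_one]

lemma mem_relU {M L : Type} [Field M] [Field L] [NumberField L] [Algebra M L]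
    [FiniteDimensional M L] {u : Lˣ} :
    u ∈ relU M L ↔ prin u = 1 ∧ (∏ σ : L ≃ₐ[M] L, σ • u) = 1 := Iff.rfl

/-- The relative units of `L / M` fixed by `Gal(L / K)`. -/
noncomputable def relUfix (K M L : Type) [Field K] [Field M] [Field L] [NumberField L]
    [Algebra K L] [Algebra M L] [FiniteDimensional M L] : Subgroup Lˣ where
  carrier := {u | u ∈ relU M L ∧ ∀ τ : L ≃ₐ[K] L, τ • u = u}
  mul_mem' := by
    rintro a b ⟨ha, ha'⟩ ⟨hb, hb'⟩
    exact ⟨mul_mem ha hb, fun τ => by rw [smul_mul', ha', hb']⟩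
  one_mem' := ⟨one_mem _, fun τ => smul_one _⟩
  inv_mem' := by
    rintro a ⟨ha, ha'⟩
    exact ⟨inv_mem ha, fun τ => by rw [smul_inv', ha']⟩

lemma mem_relUfix {K M L : Type} [Field K] [Field M] [Field L] [NumberField L]
    [Algebra K L] [Algebra M L] [FiniteDimensional M L] {u : Lˣ} :
    u ∈ relUfix K M L ↔ u ∈ relU M L ∧ ∀ τ : L ≃ₐ[K] L, τ • u = u := Iff.rfl

end Pool.Agent.RI
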