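import Pool.Agent.RI.Stmts

/-!
# Extension of fractional ideals commutes with the Galois action
-/

open NumberField
open scoped nonZeroDivisors Pointwise

namespace Pool.Agent.RI

namespace EXTACT

/-- Membership in the extended fractional ideal. -/
lemma mem_ext {K L : Type} [Field K] [NumberField K] [Field L] [NumberField L] [Algebra K L]
    (c : J K) (x : L) : x ∈ ((ext K L c : J L) : FractionalIdeal (𝓞 L)⁰ L) ↔
      x ∈ Submodule.span (𝓞 L) (algebraMap K L '' {y | y ∈ (c : FractionalIdeal (𝓞 K)⁰ K)}) := by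
  have h : (IsFractionRing.map (A := 𝓞 K) (B := 𝓞 L) (K := K) (L := L)
      (FaithfulSMul.algebraMap_injective (𝓞 K) (𝓞 L))) = algebraMap K L := by
    apply IsLocalization.ringHom_ext (𝓞 K)⁰
    ext y
    simp only [RingHom.comp_apply, IsFractionRing.map, IsLocalization.map_eq]
    rfl
  show x ∈ (FractionalIdeal.extendedHom L (𝓞 L) (c : FractionalIdeal (𝓞 K)⁰ K)) ↔ _
  rw [FractionalIdeal.extendedHom'_apply, FractionalIdeal.mem_extended_iff]
  have h' : ∀ z : K, IsLocalization.map (S := K) (M := (𝓞 K)⁰) (T := (𝓞 L)⁰) L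
      (algebraMap (𝓞 K) (𝓞 L)) (nonZeroDivisors_le_comap_nonZeroDivisors_of_injective _
        (FaithfulSMul.algebraMap_injective (𝓞 K) (𝓞 L))) z = algebraMap K L z := fun z =>
    congrArg (fun f : K →+* L => f z) h
  rw [show (IsLocalization.map (S := K) (M := (𝓞 K)⁰) (T := (𝓞 L)⁰) L
      (algebraMap (𝓞 K) (𝓞 L)) (nonZeroDivisors_le_comap_nonZeroDivisors_of_injective _
        (FaithfulSMul.algebraMap_injective (𝓞 K) (𝓞 L)))) '' (c : FractionalIdeal (𝓞 K)⁰ K) =
      algebraMap K L '' {y | y ∈ (c : FractionalIdeal (𝓞 K)⁰ K)} from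
      Set.image_congr (fun z _ => h' z)]

lemma aux {F K M L : Type} [Field F] [Field K] [NumberField K] [Field M] [Field L]
    [NumberField L] [Algebra F K] [Algebra K L] [Algebra M L] (σ : L ≃ₐ[M] L) (σ' : K ≃ₐ[F] K)
    (h : ∀ x : K, algebraMap K L (σ' x) = σ (algebraMap K L x)) (c : J K) (x : L)
    (hx : x ∈ Submodule.span (𝓞 L) (algebraMap K L '' {y | y ∈ (c : FractionalIdeal (𝓞 K)⁰ K)})) :
    σ x ∈ Submodule.span (𝓞 L)
      (algebraMap K L '' {y | y ∈ ((σ' • c : J K) : FractionalIdeal (𝓞 K)⁰ K)}) := by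
  refine Submodule.span_induction (p := fun x _ => σ x ∈ _) ?_ ?_ ?_ ?_ hx
  · rintro _ ⟨y, hy, rfl⟩
    rw [← h]
    apply Submodule.subset_span
    refine ⟨σ' y, ?_, rfl⟩
    show σ' y ∈ ((σ' • c : J K) : FractionalIdeal (𝓞 K)⁰ K)
    rw [mem_smul, AlgEquiv.symm_apply_apply]
    exact hy
  · rw [map_zero]; exact zero_mem _
  · intro a b _ _ ha hb
    rw [map_add]
    exact add_mem ha hb
  · intro a b _ hb
    have : σ (a • b) =
        ((RingOfIntegers.mapRingEquiv (σ : L ≃+* L) : 𝓞 L ≃+* 𝓞 L) a) • σ b := by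
      rw [Algebra.smul_def, Algebra.smul_def, map_mul]; rfl
    rw [this]
    exact Submodule.smul_mem _ _ hb

end EXTACT

open EXTACT in
theorem EXTACT_thm : EXTACT := by
  intro F K M L _ _ _ _ _ _ _ _ _ σ σ' h c
  apply Units.ext
  ext x
  rw [mem_smul, mem_ext, mem_ext]
  constructor
  · intro hx
    have h' : ∀ x : K, algebraMap K L (σ'.symm x) = σ.symm (algebraMap K L x) := by
      intro x
      apply σ.injective
      rw [← h, AlgEquiv.apply_symm_apply, AlgEquiv.apply_symm_apply]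
    have := aux σ.symm σ'.symm h' (σ' • c) x hx
    rwa [show σ'.symm • σ' • c = c from inv_smul_smul σ' c] at this
  · intro hx
    have := aux σ σ' h c (σ.symm x) hx
    rwa [AlgEquiv.apply_symm_apply] at this

end Pool.Agent.RI

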