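import Pool.Agent.RI.Basic

/-!
# The relative Iwasawa theorem: assembly
-/

open NumberField

namespace Pool.Agent.RI

namespace MAINA

lemma unramInf_bot {F M' M : IntermediateField ℚ ℂ} [FiniteDimensional ℚ M] (h₁ : F ≤ M')
    (h₂ : M' ≤ M) (h : UnramInf (h₁.trans h₂)) : UnramInf h₁ := by
  intro φ hφ x
  let : Algebra M' M := algC h₂
  let : Algebra M' ℂ := φ.toAlgebra
  have : FiniteDimensional M' M := by
    have : IsScalarTower ℚ M' M := IsScalarTower.of_algebraMap_eq (fun _ => rfl)
    exact Module.Finite.of_restrictScalars_finite ℚ M' M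
  have : Algebra.IsAlgebraic M' M := Algebra.IsAlgebraic.of_finite M' M
  let ψ : M →ₐ[M'] ℂ := IsAlgClosed.lift
  have hψ : ∀ y : M', ψ (IntermediateField.inclusion h₂ y) = φ y := fun y => ψ.commutes y
  have := h ψ.toRingHom (fun y hy => by
    have := hφ ⟨(y : ℂ), h₁ hy⟩ hy
    rw [← hψ] at this
    exact this) (IntermediateField.inclusion h₂ x)
  rw [← hψ]
  exact this

lemma ramifies_of {F M' M : IntermediateField ℚ ℂ} [FiniteDimensional ℚ M] (h₁ : F ≤ M')
    (h₂ : M' ≤ M) (P : Ideal (𝓞 F)) (hP : Ramifies h₁ P) : Ramifies (h₁.trans h₂) P := by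
  have : FiniteDimensional ℚ M' := by
    exact FiniteDimensional.of_injective (IntermediateField.inclusion h₂).toLinearMap
      (IntermediateField.inclusion h₂).toRingHom.injective
  have : FiniteDimensional ℚ F := by
    exact FiniteDimensional.of_injective (IntermediateField.inclusion h₁).toLinearMap
      (IntermediateField.inclusion h₁).toRingHom.injective
  let : Algebra F M' := algC h₁
  let : Algebra M' M := algC h₂
  let : Algebra F M := algC (h₁.trans h₂)
  have : IsScalarTower F M' M := towerC h₁ h₂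
  obtain ⟨R', hR', hRP, he⟩ := hP
  obtain ⟨⟨R, hRp, hRo⟩⟩ := Ideal.nonempty_primesOver (S := 𝓞 M) R'
  have := hRo
  refine ⟨R, hRp, ?_, ?_⟩
  · rw [← hRP]
    have h := hRo.over
    rw [h, Ideal.under_under]
  · have h := Ideal.ramificationIdx_tower (R := 𝓞 F) R' R
    rw [h]
    have hpos : 0 < R.ramificationIdx (𝓞 M') := Ideal.ramificationIdx_pos _ _
    intro h1
    exact he (Nat.eq_one_of_mul_eq_one_right h1)

end MAINA

theorem MAINA_thm (hBASE : BASE) (hBCH : BCH) (hCHIEF : CHIEF) (hTSTEP : TSTEP) : MAINA := by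
  have key : ∀ (a p : ℕ) [Fact p.Prime] (F K M : IntermediateField ℚ ℂ)
    [FiniteDimensional ℚ K] [FiniteDimensional ℚ M] (hK : F ≤ K) (hM : F ≤ M),
    IsGalois F (IntermediateField.extendScalars hK) →
    ¬ p ∣ Module.finrank F (IntermediateField.extendScalars hK) →
    IsGalois F (IntermediateField.extendScalars hM) →
    Module.finrank F (IntermediateField.extendScalars hM) = p ^ a →
    UnramInf hM → NonsplitRam hK hM →
    padicValNat p (classNo K) = padicValNat p (classNo F) → RelTrivC p M (K ⊔ M) := by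
    intro a
    induction a with
    | zero =>
      intro p _ F K M _ _ hK hM hGK hp hGM hdeg hU hN hcl
      have hMF : M = F := by
        rw [pow_zero, IntermediateField.finrank_eq_one_iff] at hdeg
        apply le_antisymm _ hM
        intro x hx
        have hx' : x ∈ IntermediateField.extendScalars hM := hx
        rw [hdeg, IntermediateField.mem_bot] at hx'
        obtain ⟨y, rfl⟩ := hx'
        exact y.2
      subst hMF
      rw [sup_eq_left.2 hK]
      exact (hBASE p M K hK hGK hp).1 hcl
    | succ a ih =>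
      intro p _ F K M _ _ hK hM hGK hp hGM hdeg hU hN hcl
      obtain ⟨M', h₁, h₂, hG', hd', hdM⟩ := hCHIEF p a F M hM hGM hdeg
      have : FiniteDimensional ℚ M' := by
        exact FiniteDimensional.of_injective (IntermediateField.inclusion h₂).toLinearMap
          (IntermediateField.inclusion h₂).toRingHom.injective
      have hrec := ih p F K M' hK h₁ hGK hp hG' hd' (MAINA.unramInf_bot h₁ h₂ hU)
        (fun P Q hP hQ hPQ hR => hN P Q hP hQ hPQ (MAINA.ramifies_of h₁ h₂ _ hR)) hcl
      exact hTSTEP p F K M' M hK h₁ h₂ hGK hp hG' hGM ⟨a + 1, hdeg⟩ hdM hU hN hrec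
  intro p a _ F K M _ _ hK hM hGK hp hGM hdeg hU hN hcl
  have h := key a p F K M hK hM hGK hp hGM hdeg hU hN hcl
  have : FiniteDimensional ℚ F := by
    exact FiniteDimensional.of_injective (IntermediateField.inclusion hK).toLinearMap
      (IntermediateField.inclusion hK).toRingHom.injective
  have : FiniteDimensional ℚ ↥(K ⊔ M) := IntermediateField.finiteDimensional_sup K M
  have hb := hBCH.1 F K M M (K ⊔ M) hK le_sup_right (sup_eq_right.2 hM).symm rfl hGK
  exact (hBASE p M (K ⊔ M) le_sup_right hb.1 (fun hd => hp (hd.trans hb.2))).2 h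

end Pool.Agent.RI
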