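import Pool.Agent.RI.Stmts2
import Pool.Agent.Lib_helper28.FROB.Count2

/-!
# Relative Iwasawa theorem, module FROBD

The theorem of Frobenius (1896), lower bound with the exact constant: the primes `q` such that some
prime of `L` above `q` has decomposition group generated by an element of `T` have lower Dirichlet
density at least `#T / #G`.
-/

open NumberField IsDedekindDomain Ideal MulAction Filter Topology Asymptotics
open scoped Pointwise ENNReal

namespace Pool.Agent.RI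

namespace FROBD

open Pool.Agent.Lib_helper28.FROB

open Classical in
/-- The sum over the primes with decomposition group in a set of subgroups is bounded by the sum
over the rational primes below. -/
theorem sum_tt_le (L : Type) [Field L] [NumberField L] [IsGalois ℚ L]
    (I : Finset (Subgroup (L ≃ₐ[ℚ] L)))
    (S : Set ℕ) (hS : ∀ w : HeightOneSpectrum (𝓞 L), Dec w ∈ I → pr w ∈ S) {s : ℝ} (hs : 1 < s) :
    ∑ H ∈ I, ∑' w, tt H s w ≤ (Nat.card (L ≃ₐ[ℚ] L) : ℝ) *
      ∑' q : {q : ℕ // q.Prime ∧ q ∈ S}, (q : ℝ) ^ (-s) := by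
  let g : ℕ → ℝ≥0∞ := fun n => ENNReal.ofReal ((n : ℝ) ^ (-s))
  let f : ℕ → ℝ≥0∞ := fun n => if n ∈ S then g n else 0
  have hsum : Summable fun q : {q : ℕ // q.Prime ∧ q ∈ S} => (q : ℝ) ^ (-s) :=
    (Real.summable_nat_rpow.mpr (by linarith : -s < -1)).subtype _
  rw [← Summable.tsum_finsetSum fun H _ => summable_tt H hs]
  have hterm : ∀ w : HeightOneSpectrum (𝓞 L),
      ENNReal.ofReal (∑ H ∈ I, tt H s w) ≤ (Nat.card (Dec w) : ℝ≥0∞) * f (pr w) := by
    intro w
    by_cases hw : Dec w ∈ I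
    · have h1 : ∑ H ∈ I, tt H s w = tt (Dec w) s w := by
        refine Finset.sum_eq_single (Dec w) ?_ (fun h => absurd hw h)
        intro H' _ hne
        rw [tt, if_neg]
        exact fun h' => hne h'.2.symm
      have h2 : f (pr w) = g (pr w) := if_pos (hS w hw)
      rw [h1, h2]
      have h3 : (Nat.card (Dec w) : ℝ≥0∞) * g (pr w) =
          ENNReal.ofReal ((Nat.card (Dec w) : ℝ) * (pr w : ℝ) ^ (-s)) := by
        rw [ENNReal.ofReal_mul (by positivity), ENNReal.ofReal_natCast]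
      rw [h3]
      refine ENNReal.ofReal_le_ofReal ?_
      unfold tt
      split_ifs
      · exact le_rfl
      · positivity
    · have h1 : ∑ H ∈ I, tt H s w = 0 := by
        refine Finset.sum_eq_zero fun H' hH' => ?_
        rw [tt, if_neg]
        exact fun h' => hw (h'.2 ▸ hH')
      rw [h1, ENNReal.ofReal_zero]
      exact bot_le
  have hsm : Summable fun w : HeightOneSpectrum (𝓞 L) => ∑ H ∈ I, tt H s w :=
    summable_sum fun H _ => summable_tt H hs
  have hnn : ∀ w : HeightOneSpectrum (𝓞 L), 0 ≤ ∑ H ∈ I, tt H s w :=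
    fun w => Finset.sum_nonneg fun H _ => tt_nonneg H s w
  have h1 : ENNReal.ofReal (∑' w, ∑ H ∈ I, tt H s w) ≤
      ∑' w : HeightOneSpectrum (𝓞 L), (Nat.card (Dec w) : ℝ≥0∞) * f (pr w) :=
    (ENNReal.ofReal_tsum_of_nonneg hnn hsm).le.trans (ENNReal.tsum_le_tsum hterm)
  have h2 : ∑' p : Nat.Primes, f p = ∑' q : {q : ℕ // q.Prime ∧ q ∈ S}, g q := by
    have e1 : ∑' p : Nat.Primes, f p = ∑' n : ℕ, Set.indicator {n | n.Prime} f n :=
      tsum_subtype {n : ℕ | n.Prime} f
    have e2 : ∑' q : {q : ℕ // q.Prime ∧ q ∈ S}, g q =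
        ∑' n : ℕ, Set.indicator {n | n.Prime ∧ n ∈ S} g n :=
      tsum_subtype {n : ℕ | n.Prime ∧ n ∈ S} g
    rw [e1, e2]
    refine tsum_congr fun n => ?_
    simp only [Set.indicator, Set.mem_ofPred_eq]
    by_cases h1 : n.Prime <;> by_cases h2 : n ∈ S <;> simp [h1, h2, f]
  have h3 : ENNReal.ofReal (∑' w, ∑ H ∈ I, tt H s w) ≤
      ENNReal.ofReal ((Nat.card (L ≃ₐ[ℚ] L) : ℝ) *
        ∑' q : {q : ℕ // q.Prime ∧ q ∈ S}, (q : ℝ) ^ (-s)) := by
    refine h1.trans ?_
    rw [tsum_dec, h2, ENNReal.ofReal_mul (by positivity), ENNReal.ofReal_natCast,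
      ENNReal.ofReal_tsum_of_nonneg (fun q => by positivity) hsum]
  exact (ENNReal.ofReal_le_ofReal_iff (mul_nonneg (by positivity)
    (tsum_nonneg fun q => by positivity))).mp h3

open Classical in
/-- The number of elements of `T` is at most the number of generators of the cyclic groups
generated by the elements of `T`. -/
theorem card_le_gen {G : Type} [Group G] [Finite G] (T : Set G) (t : Finset (Subgroup G))
    (ht : ∀ g ∈ T, Subgroup.zpowers g ∈ t) : Nat.card T ≤ ∑ H ∈ t, gen H := by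
  have := Fintype.ofFinite G
  have h1 : Nat.card T = (Finset.univ.filter fun h : G => h ∈ T).card := by
    rw [← Fintype.card_subtype, Nat.card_eq_fintype_card]
  rw [h1, Finset.card_eq_sum_card_fiberwise (f := fun h : G => Subgroup.zpowers h) (t := t)]
  · refine Finset.sum_le_sum fun H' _ => ?_
    unfold gen
    rw [Nat.card_eq_fintype_card, Fintype.card_subtype]
    refine Finset.card_le_card fun h hh => ?_
    simp only [Finset.mem_filter, Finset.mem_univ, true_and] at hh ⊢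
    exact hh.2
  · intro h hh
    simp only [Finset.coe_filter, Finset.mem_univ, true_and, Set.mem_ofPred_eq] at hh ⊢
    exact ht h hh

/-- The lower bound for an arbitrary set `T`. -/
theorem main (L : Type) [Field L] [NumberField L] [IsGalois ℚ L] (T : Set (L ≃ₐ[ℚ] L)) :
    DensityGE {q : ℕ | ∃ g ∈ T, ∃ P : Ideal (𝓞 L), P.IsPrime ∧ (q : 𝓞 L) ∈ P ∧
      MulAction.stabilizer (L ≃ₐ[ℚ] L) P = Subgroup.zpowers g}
      ((Nat.card T : ℝ) / Nat.card (L ≃ₐ[ℚ] L)) := by
  classical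
  have := Fintype.ofFinite (Subgroup (L ≃ₐ[ℚ] L))
  set I : Finset (Subgroup (L ≃ₐ[ℚ] L)) :=
    Finset.univ.filter fun H => ∃ g ∈ T, Subgroup.zpowers g = H with hI
  set S := {q : ℕ | ∃ g ∈ T, ∃ P : Ideal (𝓞 L), P.IsPrime ∧ (q : 𝓞 L) ∈ P ∧
      MulAction.stabilizer (L ≃ₐ[ℚ] L) P = Subgroup.zpowers g} with hSdef
  have hS : ∀ w : HeightOneSpectrum (𝓞 L), Dec w ∈ I → pr w ∈ S := by
    intro w hw
    obtain ⟨g, hg, hgw⟩ := (Finset.mem_filter.mp hw).2
    refine ⟨g, hg, w.asIdeal, w.isPrime, ?_, hgw.symm⟩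
    have h1 : (pr w : ℤ) ∈ w.asIdeal.under ℤ := by
      rw [under_eq]
      exact Ideal.mem_span_singleton_self _
    rw [Ideal.mem_comap] at h1
    simpa using h1
  have hT : (Nat.card T : ℝ) ≤ ∑ H ∈ I, (gen H : ℝ) := by
    have h := card_le_gen T I fun g hg => Finset.mem_filter.mpr ⟨Finset.mem_univ _, g, hg, rfl⟩
    exact_mod_cast h
  have hO : (fun s : ℝ => ∑ H ∈ I, (∑' w, tt H s w - gen H * Real.log (1 / (s - 1))))
      =O[𝓝[>] 1] (fun _ => (1 : ℝ)) :=
    IsBigO.fun_sum fun H _ => isBigO_tt H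
  obtain ⟨c, hc⟩ := hO.bound
  have hlt : ∀ᶠ s : ℝ in 𝓝[>] 1, s < 2 := by
    have : Set.Ioo (1 : ℝ) 2 ∈ 𝓝[>] (1 : ℝ) := Ioo_mem_nhdsGT (by norm_num)
    filter_upwards [this] with s hs
    exact hs.2
  have hev : ∀ᶠ s : ℝ in 𝓝[>] 1, (Nat.card T : ℝ) * Real.log (1 / (s - 1)) - |c| ≤
      ∑ H ∈ I, ∑' w, tt H s w := by
    filter_upwards [hc, hlt, self_mem_nhdsWithin] with s hs hs2 hs1
    rw [norm_one, mul_one, Real.norm_eq_abs, Finset.sum_sub_distrib, ← Finset.sum_mul] at hs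
    have h1 := (abs_le.mp hs).1
    have h2 := le_abs_self c
    have hs1' : (1 : ℝ) < s := hs1
    have hlog : 0 ≤ Real.log (1 / (s - 1)) := by
      apply Real.log_nonneg
      rw [le_div_iff₀ (by linarith)]
      linarith
    have h3 := mul_le_mul_of_nonneg_right hT hlog
    linarith
  obtain ⟨b, hb1, hb⟩ := mem_nhdsGT_iff_exists_Ioo_subset.mp hev
  have hb1' : (1 : ℝ) < b := hb1
  set A : ℝ := ((Nat.card (L ≃ₐ[ℚ] L) : ℕ) : ℝ) with hA
  have hApos : 0 < A := by
    rw [hA]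
    exact_mod_cast Nat.card_pos
  have hδ : 0 ≤ (Nat.card T : ℝ) / A := by positivity
  refine ⟨|c| / A + Nat.card T / A * |Real.log (1 / (b - 1))|, fun s hs1 hs2 => ?_⟩
  have hnn : 0 ≤ ∑' q : {q : ℕ // q.Prime ∧ q ∈ S}, (q : ℝ) ^ (-s) :=
    tsum_nonneg fun q => by positivity
  have hcA : 0 ≤ |c| / A := by positivity
  have habs : 0 ≤ Nat.card T / A * |Real.log (1 / (b - 1))| := by positivity
  rcases lt_or_ge s b with hsb | hsb
  · have h1 : (Nat.card T : ℝ) * Real.log (1 / (s - 1)) - |c| ≤ ∑ H ∈ I, ∑' w, tt H s w :=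
      hb ⟨hs1, hsb⟩
    have h2 := sum_tt_le L I S hS hs1
    have h3 : ((Nat.card T : ℝ) * Real.log (1 / (s - 1)) - |c|) / A ≤
        ∑' q : {q : ℕ // q.Prime ∧ q ∈ S}, (q : ℝ) ^ (-s) := by
      rw [div_le_iff₀' hApos]
      exact h1.trans h2
    rw [sub_div, mul_div_right_comm] at h3
    linarith
  · have h1 : Real.log (1 / (s - 1)) ≤ Real.log (1 / (b - 1)) := by
      refine Real.log_le_log (by have := sub_pos.mpr hs1; positivity) ?_
      exact one_div_le_one_div_of_le (by linarith) (by linarith)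
    have h2 := le_abs_self (Real.log (1 / (b - 1)))
    have h3 : (Nat.card T : ℝ) / A * Real.log (1 / (s - 1)) ≤
        Nat.card T / A * |Real.log (1 / (b - 1))| :=
      mul_le_mul_of_nonneg_left (h1.trans h2) hδ
    linarith

end FROBD

/-- Module FROBD. -/
theorem FROBD_thm : FROBD := fun L _ _ _ T _ => FROBD.main L T

end Pool.Agent.RI
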