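import Pool.Agent.RI.Basic

/-!
# Relative Iwasawa theorem: statements of the density part (explicit constants)
-/

open NumberField Finset IsDedekindDomain
open scoped nonZeroDivisors Pointwise

namespace Pool.Agent.RI

/-- The set `S` of natural numbers contains primes of lower Dirichlet density at least `δ` (with a
bounded error term). -/
def DensityGE (S : Set ℕ) (δ : ℝ) : Prop :=
  ∃ C : ℝ, ∀ s : ℝ, 1 < s → s ≤ 2 →
    δ * Real.log (1 / (s - 1)) - C ≤ ∑' q : {q : ℕ // q.Prime ∧ q ∈ S}, (q : ℝ) ^ (-s)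

/-- FROBD: the theorem of Frobenius (lower bound) for a set `T` of elements of the Galois group
that is a union of divisions: the primes `q` with a decomposition group generated by an element of
`T` have lower density at least `#T / #G`. -/
def FROBD : Prop := ∀ (L : Type) [Field L] [NumberField L] [IsGalois ℚ L]
    (T : Set (L ≃ₐ[ℚ] L)),
    (∀ g h τ : L ≃ₐ[ℚ] L, g ∈ T → Subgroup.zpowers h = Subgroup.zpowers (τ * g * τ⁻¹) → h ∈ T) →
    DensityGE {q : ℕ | ∃ g ∈ T, ∃ P : Ideal (𝓞 L), P.IsPrime ∧ (q : 𝓞 L) ∈ P ∧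
      MulAction.stabilizer (L ≃ₐ[ℚ] L) P = Subgroup.zpowers g}
      ((Nat.card T : ℝ) / Nat.card (L ≃ₐ[ℚ] L))

/-- PDGE: the density bound is monotone and insensitive to finitely many primes. -/
def PDGE : Prop := ∀ (S T : Set ℕ) (A : Finset ℕ) (δ : ℝ), DensityGE S δ →
    (∀ q ∈ S, q.Prime → q ∉ A → q ∈ T) → DensityGE T δ

/-- COUNTG: number of good elements in a group `G` with an abelian subgroup `N` of index two and
a subgroup `H` of `N` with `N = H × cHc⁻¹` and `N / H` cyclic of order `m`. -/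
def COUNTG : Prop := ∀ (G : Type) [Group G] [Finite G] (N H : Subgroup G) (c : G) (m : ℕ),
    N.index = 2 → c ∉ N → (∀ a ∈ N, ∀ b ∈ N, a * b = b * a) → H ≤ N → H.relIndex N = m →
    (∀ a ∈ H, c * a * c⁻¹ ∈ H → a = 1) →
    (∀ a ∈ N, ∃ x ∈ H, ∃ y ∈ H, a = x * (c * y * c⁻¹)) →
    (∃ x ∈ N, ∀ y ∈ N, ∃ j : ℤ, y * (x ^ j)⁻¹ ∈ H) →
    Nat.card G = 2 * m ^ 2 ∧
    Nat.card {g : G // ∀ τ ρ : G, ρ ∈ N → ∃ j : ℤ, ρ * (τ * g ^ j * τ⁻¹)⁻¹ ∈ H} =
      m.totient ^ 2 + m * m.totient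

/-- `g` is good for `F ⊆ K ⊆ L`: for all conjugates `g'` of `g`, `Gal(L/F) = Gal(L/K) ⟨g'⟩`. -/
def Good (F K L : IntermediateField ℚ ℂ) (g : L ≃ₐ[ℚ] L) : Prop :=
  ∀ τ ρ : L ≃ₐ[ℚ] L, (∀ x : L, (x : ℂ) ∈ F → ρ x = x) →
    ∃ j : ℤ, ∀ x : L, (x : ℂ) ∈ K → (ρ * (τ * g ^ j * τ⁻¹)⁻¹) x = x

/-- GALE: the Galois group of `L = K ⊔ conj K`, `K / k` cyclic of degree `m`, `K ∩ conj K = k`. -/
def GALE : Prop := ∀ (k K : IntermediateField ℚ ℂ) [FiniteDimensional ℚ K] (h : k ≤ K),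
    Module.finrank ℚ k = 2 → (∃ z ∈ k, (starRingEnd ℂ) z ≠ z) →
    IsGalois k (IntermediateField.extendScalars h) →
    IsCyclic ((IntermediateField.extendScalars h) ≃ₐ[k] (IntermediateField.extendScalars h)) →
    (∀ z ∈ K, (starRingEnd ℂ) z ∈ K → z ∈ k) →
    ∃ L : IntermediateField ℚ ℂ, K ≤ L ∧ FiniteDimensional ℚ L ∧ IsGalois ℚ L ∧
      Nat.card (L ≃ₐ[ℚ] L) = 2 * Module.finrank k (IntermediateField.extendScalars h) ^ 2 ∧
      Nat.card {g : L ≃ₐ[ℚ] L // Good k K L g} =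
        (Module.finrank k (IntermediateField.extendScalars h)).totient ^ 2 +
        Module.finrank k (IntermediateField.extendScalars h) *
          (Module.finrank k (IntermediateField.extendScalars h)).totient

/-- MAIND: density of the primes with trivial relative `p`-class groups in the cyclotomic tower,
for `K / F` Galois, in terms of the Galois closure. -/
def MAIND : Prop := ∀ (F K L : IntermediateField ℚ ℂ) [FiniteDimensional ℚ L] (hFK : F ≤ K)
    (_hKL : K ≤ L), IsGalois ℚ L → IsGalois F (IntermediateField.extendScalars hFK) →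
    DensityGE {p : ℕ | ∀ (n : ℕ) (B : IntermediateField ℚ ℂ), IsLayer p n B →
        padicValNat p (classNo (K ⊔ B)) = padicValNat p (classNo (F ⊔ B))}
      ((Nat.card {g : L ≃ₐ[ℚ] L // Good F K L g} : ℝ) / Nat.card (L ≃ₐ[ℚ] L))

/-- MAINE: `K / k` cyclic of degree `m` with `K ∩ conj K = k`. -/
def MAINE : Prop := ∀ (k K : IntermediateField ℚ ℂ) [FiniteDimensional ℚ K] (h : k ≤ K) (m : ℕ),
    Module.finrank ℚ k = 2 → (∃ z ∈ k, (starRingEnd ℂ) z ≠ z) →
    IsGalois k (IntermediateField.extendScalars h) →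
    IsCyclic ((IntermediateField.extendScalars h) ≃ₐ[k] (IntermediateField.extendScalars h)) →
    (∀ z ∈ K, (starRingEnd ℂ) z ∈ K → z ∈ k) →
    Module.finrank k (IntermediateField.extendScalars h) = m →
    DensityGE {p : ℕ | ∀ (n : ℕ) (B : IntermediateField ℚ ℂ), IsLayer p n B →
        padicValNat p (classNo (K ⊔ B)) = padicValNat p (classNo (k ⊔ B))}
      (((m.totient : ℝ) / m) * (1 + (m.totient : ℝ) / m) / 2)

end Pool.Agent.RI
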