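import Pool.Agent.RI.Stmts

/-!
# Relative Iwasawa theorem: module ABS
-/

open NumberField Finset

namespace Pool.Agent.RI

namespace ABS

section hom

variable {M G D : Type} [CommGroup M] [Group G] [Group D] [Fintype D]
  [MulDistribMulAction G M] (ρ : D →* G) (g : G)

/-- The product of the conjugates under `D`. -/
noncomputable def nm : M →* M where
  toFun x := ∏ δ : D, ρ δ • x
  map_one' := by simp
  map_mul' a b := by simp only [smul_mul', Finset.prod_mul_distrib]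

lemma nm_apply (x : M) : nm ρ x = ∏ δ : D, ρ δ • x := rfl

/-- The product of the first `n` conjugates under `g`. -/
noncomputable def ng (n : ℕ) : M →* M where
  toFun x := ∏ i ∈ range n, g ^ i • x
  map_one' := by simp
  map_mul' a b := by simp only [smul_mul', Finset.prod_mul_distrib]

lemma ng_apply (n : ℕ) (x : M) : ng g n x = ∏ i ∈ range n, g ^ i • x := rfl

lemma smul_nm (δ : D) (x : M) : ρ δ • nm ρ x = nm ρ x := by
  rw [nm_apply, Finset.smul_prod']
  have h : ∀ ε : D, ρ δ • ρ ε • x = ρ (δ * ε) • x := fun ε => by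
    rw [map_mul, mul_smul]
  simp only [h]
  exact Fintype.prod_equiv (Equiv.mulLeft δ) _ _ (fun ε => rfl)

lemma nm_nm (x : M) : nm ρ (nm ρ x) = nm ρ x ^ Fintype.card D := by
  conv_lhs => rw [nm_apply]
  simp only [smul_nm, Finset.prod_const, Finset.card_univ]

lemma nm_comm (h : ∀ δ : D, ρ δ * g = g * ρ δ) (x : M) : nm ρ (g • x) = g • nm ρ x := by
  rw [nm_apply, nm_apply, Finset.smul_prod']
  refine Finset.prod_congr rfl fun δ _ => ?_
  rw [← mul_smul, ← mul_smul, h]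

lemma nm_comm_pow (h : ∀ δ : D, ρ δ * g = g * ρ δ) (n : ℕ) (x : M) :
    nm ρ (g ^ n • x) = g ^ n • nm ρ x := by
  induction n generalizing x with
  | zero => simp
  | succ n ih => rw [pow_succ, mul_smul, mul_smul, ih, nm_comm ρ g h]

/-- Projection to the kernel of the norm. -/
noncomputable def pr (x : M) : M := x ^ Fintype.card D / nm ρ x

lemma nm_pr (x : M) : nm ρ (pr ρ x) = 1 := by
  rw [pr, map_div, map_pow, nm_nm, div_self']

lemma pr_mul (x y : M) : pr ρ (x * y) = pr ρ x * pr ρ y := by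
  rw [pr, pr, pr, mul_pow, map_mul, mul_div_mul_comm]

lemma pr_comm (h : ∀ δ : D, ρ δ * g = g * ρ δ) (x : M) : pr ρ (g • x) = g • pr ρ x := by
  rw [pr, pr, nm_comm ρ g h, smul_div', smul_pow']

lemma ng_fixed (n : ℕ) (hg : g ^ n = 1) (x : M) : g • ng g n x = ng g n x := by
  rw [ng_apply, Finset.smul_prod']
  have h : ∀ i : ℕ, g • g ^ i • x = g ^ (i + 1) • x := fun i => by
    rw [pow_succ', mul_smul]
  simp only [h]
  have h1 := Finset.prod_range_succ (fun i => g ^ i • x) n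
  have h2 := Finset.prod_range_succ' (fun i => g ^ i • x) n
  rw [h2] at h1
  simp only [hg, pow_zero] at h1
  exact mul_right_cancel h1

lemma nm_ng (h : ∀ δ : D, ρ δ * g = g * ρ δ) (n : ℕ) (x : M) (hx : nm ρ x = 1) :
    nm ρ (ng g n x) = 1 := by
  rw [ng_apply, map_prod]
  refine Finset.prod_eq_one fun i _ => ?_
  rw [nm_comm_pow ρ g h, hx, smul_one]

end hom

section two

variable {A I G D : Type} [CommGroup A] [CommGroup I] [Group G] [Group D] [Fintype D]
  [MulDistribMulAction G A] [MulDistribMulAction G I] (ρ : D →* G) (g : G) (dv : A →* I)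

lemma dv_nm (hdv : ∀ (σ : G) (x : A), dv (σ • x) = σ • dv x) (x : A) :
    dv (nm ρ x) = nm ρ (dv x) := by
  rw [nm_apply, nm_apply, map_prod]
  exact Finset.prod_congr rfl fun δ _ => hdv _ _

lemma dv_pr (hdv : ∀ (σ : G) (x : A), dv (σ • x) = σ • dv x) (x : A) :
    dv (pr ρ x) = pr ρ (dv x) := by
  rw [pr, pr, map_div, map_pow, dv_nm ρ dv hdv]

lemma pow_smul_eq (hdv : ∀ (σ : G) (x : A), dv (σ • x) = σ • dv x) (c : I) (a : A)
    (h : g • c = c * dv a) (n : ℕ) : g ^ n • c = c * dv (ng g n a) := by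
  induction n with
  | zero => simp [ng_apply]
  | succ n ih =>
    rw [pow_succ, mul_smul, h, smul_mul', ih, ← hdv, ng_apply, ng_apply,
      Finset.prod_range_succ, map_mul, mul_assoc]

/-- The main point: a class fixed by `g`, of norm `1`, has order prime to `p`. -/
lemma claim (p : ℕ) (hD : (Fintype.card D).Coprime p) (hg : g ^ p = 1)
    (hcomm : ∀ δ : D, ρ δ * g = g * ρ δ)
    (hdv : ∀ (σ : G) (x : A), dv (σ • x) = σ • dv x)
    (h90 : ∀ x : A, ng g p x = 1 → ∃ y : A, x = y / g • y)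
    (hinv : ∀ b : I, g • b = b → nm ρ b = 1 →
      ∃ m : ℕ, m.Coprime p ∧ ∃ γ : A, g • γ = γ ∧ b ^ m = dv γ)
    (hunit : ∀ e : A, dv e = 1 → g • e = e → nm ρ e = 1 →
      ∃ m : ℕ, m.Coprime p ∧ ∃ η : A, dv η = 1 ∧ e ^ m = ng g p η)
    (c₀ : I) (u : A) (hN : nm ρ c₀ = dv u) (a₀ : A) (h₀ : g • c₀ = c₀ * dv a₀) :
    ∃ m : ℕ, m.Coprime p ∧ ∃ x : A, c₀ ^ m = dv x := by
  set d := Fintype.card D with hd
  set c := pr ρ c₀ with hc
  set a := pr ρ a₀ with ha
  have hNc : nm ρ c = 1 := nm_pr ρ c₀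
  have hNa : nm ρ a = 1 := nm_pr ρ a₀
  have hgc : g • c = c * dv a := by
    rw [hc, ← pr_comm ρ g hcomm, h₀, pr_mul, ha, dv_pr ρ dv hdv]
  have he : dv (ng g p a) = 1 := by
    have := pow_smul_eq g dv hdv c a hgc p
    rw [hg, one_smul] at this
    exact (mul_eq_left.mp this.symm)
  obtain ⟨m, hm, η, hη, hη'⟩ := hunit _ he (ng_fixed g p hg a) (nm_ng ρ g hcomm p a hNa)
  obtain ⟨y, hy⟩ := h90 (a ^ m / η) (by
    rw [map_div, map_pow, hη', div_self'])
  set b := c ^ m * dv y with hb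
  have hgb : g • b = b := by
    rw [hb, smul_mul', smul_pow', hgc, ← hdv, mul_pow, mul_assoc, ← map_pow, ← map_mul]
    congr 1
    have : a ^ m * g • y = y * η := by
      have h1 : a ^ m = y / g • y * η := by rw [← hy, div_mul_cancel]
      rw [h1, mul_right_comm, div_mul_cancel]
    rw [this, map_mul, hη, mul_one]
  obtain ⟨m', hm', γ, -, hγ⟩ := hinv (pr ρ b) (by rw [← pr_comm ρ g hcomm, hgb]) (nm_pr ρ b)
  refine ⟨d * m * d * m', ?_, ?_⟩
  · exact Nat.Coprime.mul_left (Nat.Coprime.mul_left (Nat.Coprime.mul_left hD hm) hD) hm'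
  · -- `pr b = b ^ d / nm b`, `b = c ^ m * dv y`, `c = c₀ ^ d / dv u`
    have e1 : c₀ ^ d = c * dv u := by
      rw [hc, pr, ← hd, hN, div_mul_cancel]
    have e2 : b ^ d = pr ρ b * nm ρ b := by rw [pr, ← hd, div_mul_cancel]
    have e3 : nm ρ b = dv (nm ρ y) := by
      rw [hb, map_mul, map_pow, hNc, one_pow, one_mul, dv_nm ρ dv hdv]
    have e4 : c ^ m = b / dv y := by rw [hb, mul_div_cancel_right]
    refine ⟨((nm ρ y) / y ^ d * (u ^ m) ^ d) ^ m' * γ, ?_⟩
    have e5 : (c₀ ^ (d * m * d)) = pr ρ b * dv ((nm ρ y) / y ^ d * (u ^ m) ^ d) := by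
      rw [pow_mul, pow_mul, e1, mul_pow, e4, mul_pow, div_pow, e2, e3, map_mul, map_div,
        map_pow, map_pow, map_pow, mul_div_assoc, mul_assoc]
    rw [pow_mul, e5, mul_pow, hγ, map_mul dv (_ ^ m') γ, map_pow dv _ m', mul_comm]

end two

end ABS

open ABS in
theorem ABS_thm : ABS := by
  intro p hp A I G D _ _ _ _ _ _ _ ρ g dv hD hg hcomm hdv h90 hinv hunit hfin c hc
  classical
  -- the induced maps on the quotient
  have hst : ∀ σ : G, dv.range ≤ dv.range.comap (MulDistribMulAction.toMonoidHom I σ) := by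
    rintro σ _ ⟨x, rfl⟩
    exact ⟨σ • x, hdv σ x⟩
  let act : G → (I ⧸ dv.range) →* (I ⧸ dv.range) := fun σ =>
    QuotientGroup.map dv.range dv.range (MulDistribMulAction.toMonoidHom I σ) (hst σ)
  have hact : ∀ (σ : G) (c : I), act σ (c : I ⧸ dv.range) = ((σ • c : I) : I ⧸ dv.range) :=
    fun σ c => rfl
  have hactmul : ∀ (σ τ : G) (x : I ⧸ dv.range), act (σ * τ) x = act σ (act τ x) := by
    intro σ τ x
    obtain ⟨c, rfl⟩ := QuotientGroup.mk_surjective x
    rw [hact, hact, hact, mul_smul]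
  have hactone : ∀ x : I ⧸ dv.range, act 1 x = x := by
    intro x
    obtain ⟨c, rfl⟩ := QuotientGroup.mk_surjective x
    rw [hact, one_smul]
  let Nq : (I ⧸ dv.range) →* (I ⧸ dv.range) :=
    QuotientGroup.map dv.range dv.range (nm ρ : I →* I) (by
      rintro _ ⟨x, rfl⟩
      exact ⟨nm ρ x, dv_nm ρ dv hdv x⟩)
  have hNq : ∀ c : I, Nq (c : I ⧸ dv.range) = ((nm ρ c : I) : I ⧸ dv.range) := fun c => rfl
  let S : Subgroup (I ⧸ dv.range) := Nq.ker ⊓ CommGroup.primaryComponent (I ⧸ dv.range) p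
  have hSst : ∀ x : I ⧸ dv.range, x ∈ S → act g x ∈ S := by
    intro x hx
    refine ⟨?_, ?_⟩
    · have h1 : Nq x = 1 := hx.1
      obtain ⟨c, rfl⟩ := QuotientGroup.mk_surjective x
      rw [hNq] at h1
      show Nq (act g _) = 1
      rw [hact, hNq, nm_comm ρ g hcomm, ← hact, h1, map_one]
    · obtain ⟨n, hn⟩ := hx.2
      exact ⟨n, by rw [← map_pow, hn, map_one]⟩
  let f : Function.End S := fun x => ⟨act g x, hSst x x.2⟩
  have hf : ∀ (n : ℕ) (x : S), (((f ^ n) x : S) : I ⧸ dv.range) = act (g ^ n) x := by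
    intro n
    induction n with
    | zero => intro x; rw [pow_zero, pow_zero, hactone]; rfl
    | succ n ih =>
      intro x
      rw [pow_succ, pow_succ, hactmul]
      exact ih (f x)
  have hfp : f ^ p ^ 1 = 1 := by
    funext x
    apply Subtype.ext
    rw [hf, pow_one, hg, hactone]
    rfl
  haveI : Finite (I ⧸ dv.range) := hfin
  haveI : Fintype S := Fintype.ofFinite _
  have hcl : ∀ x : S, f x = x → x = 1 := by
    intro x hx
    obtain ⟨c₀, hc₀⟩ := QuotientGroup.mk_surjective (x : I ⧸ dv.range)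
    have hNx : nm ρ c₀ ∈ dv.range := by
      have := x.2.1
      rw [← hc₀] at this
      exact (QuotientGroup.eq_one_iff _).mp this
    obtain ⟨u, hu⟩ := hNx
    have hgx : ∃ a₀ : A, g • c₀ = c₀ * dv a₀ := by
      have h1 : act g (x : I ⧸ dv.range) = x := congrArg Subtype.val hx
      rw [← hc₀, hact] at h1
      obtain ⟨a₀, ha₀⟩ := QuotientGroup.eq.mp h1.symm
      exact ⟨a₀, by rw [ha₀, mul_inv_cancel_left]⟩
    obtain ⟨a₀, ha₀⟩ := hgx
    obtain ⟨m, hm, y, hy⟩ := claim ρ g dv p hD hg hcomm hdv h90 hinv hunit c₀ u hu.symm a₀ ha₀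
    obtain ⟨k, hk⟩ := x.2.2
    have h1 : (x : I ⧸ dv.range) ^ m = 1 := by
      rw [← hc₀, ← QuotientGroup.mk_pow, hy]
      exact (QuotientGroup.eq_one_iff _).mpr ⟨y, rfl⟩
    have h2 : orderOf (x : I ⧸ dv.range) ∣ m := orderOf_dvd_of_pow_eq_one h1
    have h3 : orderOf (x : I ⧸ dv.range) = 1 := by
      have h4 : orderOf (x : I ⧸ dv.range) ∣ p ^ k := orderOf_dvd_of_pow_eq_one hk
      have h5 : Nat.Coprime (p ^ k) m := (Nat.Coprime.pow_left k hm.symm)
      exact Nat.dvd_one.mp (h5 ▸ Nat.dvd_gcd h4 h2)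
    exact Subtype.ext (orderOf_eq_one_iff.mp h3)
  have hfix : Fintype.card (f.fixedPoints) = 1 := by
    rw [Fintype.card_eq_one_iff]
    refine ⟨⟨1, ?_⟩, ?_⟩
    · show f 1 = 1
      exact Subtype.ext (map_one (act g))
    · rintro ⟨x, hx⟩
      exact Subtype.ext (hcl x hx)
  have hmod := Equiv.Perm.card_fixedPoints_modEq (f := f) (p := p) (n := 1) hfp
  have hpg : IsPGroup p S :=
    (CommGroup.primaryComponent.isPGroup (G := I ⧸ dv.range) (p := p)).to_le inf_le_right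
  obtain ⟨n, hn⟩ := IsPGroup.iff_card.mp hpg
  have hcard : Fintype.card S = 1 := by
    rw [Nat.card_eq_fintype_card] at hn
    rcases Nat.eq_zero_or_pos n with h0 | h0
    · rw [hn, h0, pow_zero]
    · exfalso
      rw [hfix, hn] at hmod
      have h1 : p ∣ p ^ n := dvd_pow_self p h0.ne'
      have h2 : p ^ n % p = 0 := Nat.mod_eq_zero_of_dvd h1
      rw [Nat.ModEq, h2, Nat.mod_eq_of_lt hp.out.one_lt] at hmod
      exact absurd hmod (by norm_num)
  have hS1 : ∀ x ∈ S, x = 1 := by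
    intro x hx
    have h1 := Fintype.card_eq_one_iff.mp hcard
    obtain ⟨z, hz⟩ := h1
    have := (hz ⟨x, hx⟩).trans (hz 1).symm
    exact congrArg Subtype.val this
  -- conclusion
  obtain ⟨k, m, hm, hkm⟩ := Nat.exists_eq_pow_mul_and_not_dvd
    (orderOf_pos (c : I ⧸ dv.range)).ne' p hp.out.ne_one
  refine ⟨m, (Nat.Prime.coprime_iff_not_dvd hp.out).mpr hm |>.symm, ?_⟩
  have hmem : (c : I ⧸ dv.range) ^ m ∈ S := by
    refine ⟨?_, ?_⟩
    · have hc' : nm ρ c = 1 := hc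
      show Nq ((c : I ⧸ dv.range) ^ m) = 1
      rw [map_pow, hNq, hc']
      simp
    · have h2 : ((c : I ⧸ dv.range) ^ m) ^ (p ^ k) = 1 := by
        rw [← pow_mul, mul_comm, ← hkm, pow_orderOf_eq_one]
      exact ⟨k, h2⟩
  have h3 := hS1 _ hmem
  rw [← QuotientGroup.mk_pow] at h3
  obtain ⟨x, hx⟩ := (QuotientGroup.eq_one_iff _).mp h3
  exact ⟨x, hx.symm⟩

end Pool.Agent.RI
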