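import Pool.Agent.RI.Stmts

/-!
# Relative Iwasawa theorem: module ABSH

The relative units have trivial first cohomology at `p` (abstract form).
-/

open Finset

namespace Pool.Agent.RI

namespace ABSH

/-- The product over the finite group `D`. -/
noncomputable def N {G D : Type} (A : Type) [CommGroup A] [Group G] [Group D] [Fintype D]
    [MulDistribMulAction G A] (ρ : D →* G) : A →* A where
  toFun x := ∏ δ : D, ρ δ • x
  map_one' := by simp
  map_mul' x y := by simp only [smul_mul', Finset.prod_mul_distrib]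

variable {A I G D : Type} [CommGroup A] [CommGroup I] [Group G] [Group D] [Fintype D]
  [MulDistribMulAction G A] [MulDistribMulAction G I] (ρ : D →* G)

lemma N_def (x : A) : N A ρ x = ∏ δ : D, ρ δ • x := rfl

/-- The product is fixed by the group. -/
lemma smul_N (δ : D) (x : A) : ρ δ • N A ρ x = N A ρ x := by
  rw [N_def, Finset.smul_prod']
  refine Fintype.prod_equiv (Equiv.mulLeft δ) _ _ fun ε => ?_
  simp [mul_smul]

lemma N_N (x : A) : N A ρ (N A ρ x) = N A ρ x ^ Fintype.card D := by
  rw [N_def ρ (N A ρ x)]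
  simp only [smul_N, Finset.prod_const, Finset.card_univ]

lemma smul_comm_N (g : G) (h : ∀ δ : D, ρ δ * g = g * ρ δ) (x : A) :
    g • N A ρ x = N A ρ (g • x) := by
  rw [N_def, N_def, Finset.smul_prod']
  refine Finset.prod_congr rfl fun δ _ => ?_
  rw [← mul_smul, ← mul_smul, h]

lemma map_N (dv : A →* I) (h : ∀ (σ : G) (x : A), dv (σ • x) = σ • dv x) (x : A) :
    dv (N A ρ x) = N I ρ (dv x) := by
  rw [N_def, N_def, map_prod]
  exact Finset.prod_congr rfl fun δ _ => h _ _

/-- The projector to the kernel of the product, up to the power `card D`. -/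
noncomputable def P {G D : Type} (A : Type) [CommGroup A] [Group G] [Group D] [Fintype D]
    [MulDistribMulAction G A] (ρ : D →* G) : A →* A where
  toFun x := x ^ Fintype.card D / N A ρ x
  map_one' := by simp
  map_mul' x y := by rw [map_mul, mul_pow, mul_div_mul_comm]

lemma P_def (x : A) : P A ρ x = x ^ Fintype.card D / N A ρ x := rfl

lemma N_P (x : A) : N A ρ (P A ρ x) = 1 := by
  rw [P_def, map_div, map_pow, N_N, div_self']

lemma P_of_N (x : A) (h : N A ρ x = 1) : P A ρ x = x ^ Fintype.card D := by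
  rw [P_def, h, div_one]

lemma smul_comm_P (g : G) (h : ∀ δ : D, ρ δ * g = g * ρ δ) (x : A) :
    g • P A ρ x = P A ρ (g • x) := by
  rw [P_def, P_def, smul_div', smul_pow', smul_comm_N ρ g h]

lemma map_P (dv : A →* I) (h : ∀ (σ : G) (x : A), dv (σ • x) = σ • dv x) (x : A) :
    dv (P A ρ x) = P I ρ (dv x) := by
  rw [P_def, P_def, map_div, map_pow, map_N ρ dv h]

end ABSH

open ABSH in
/-- The relative units have trivial first cohomology at `p`. -/
theorem ABSH_thm : ABSH := by
  intro p _ A I G D _ _ _ _ _ _ _ ρ g dv hD hg hcomm hdv hH hI u hu hNu hgu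
  obtain ⟨y, hy⟩ := hH u hgu
  have hNu' : N A ρ u = 1 := hNu
  set d := Fintype.card D with hd
  set y1 := P A ρ y with hy1
  have hNy1 : N A ρ y1 = 1 := N_P ρ y
  -- `y1 / g y1 = u ^ d`
  have hy1g : y1 / g • y1 = u ^ d := by
    rw [hy1, smul_comm_P ρ g hcomm, ← map_div, ← hy, P_of_N ρ u hNu']
  have hb : g • dv y1 = dv y1 := by
    rw [← hdv]
    have := congrArg dv hy1g
    rw [map_div, map_pow, hu, one_pow] at this
    exact (div_eq_one.1 this).symm
  have hNb : ∏ δ : D, ρ δ • dv y1 = 1 := by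
    have := map_N ρ dv hdv y1
    rw [hNy1, map_one] at this
    exact this.symm
  obtain ⟨m, hm, γ, hγ, hbm⟩ := hI (dv y1) hb hNb
  refine ⟨d * (m * d), Nat.Coprime.mul_left hD (Nat.Coprime.mul_left hm hD),
    P A ρ (y1 ^ m / γ), ?_, N_P ρ _, ?_⟩
  · rw [map_P ρ dv hdv, map_div, map_pow, hbm, div_self', map_one]
  · have h1 : P A ρ (y1 ^ m) = y1 ^ (m * d) := by
      rw [P_of_N ρ _ (by rw [map_pow, hNy1, one_pow]), ← pow_mul]
    have h2 : g • P A ρ γ = P A ρ γ := by rw [smul_comm_P ρ g hcomm, hγ]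
    rw [map_div, h1, smul_div', smul_pow', h2, div_div_div_cancel_right, ← div_pow, hy1g,
      ← pow_mul]

end Pool.Agent.RI
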