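import Pool.Agent.RI.Stmts2

/-!
# Relative Iwasawa theorem: module COUNTG (number of good elements)
-/

namespace Pool.Agent.RI

namespace COUNTG

/-- `q` generates `Q`. -/
def Gen {Q : Type} [Group Q] (q : Q) : Prop := ∀ r : Q, ∃ j : ℤ, q ^ j = r

lemma card_gen {Q : Type} [Group Q] [Finite Q] (hcyc : ∃ q : Q, Gen q) :
    Nat.card {q : Q // Gen q} = (Nat.card Q).totient := by
  classical
  obtain ⟨q0, hq0⟩ := hcyc
  have : IsCyclic Q := ⟨q0, fun r => by
    obtain ⟨j, hj⟩ := hq0 r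
    exact ⟨j, hj⟩⟩
  have := Fintype.ofFinite Q
  have h1 : ∀ q : Q, Gen q ↔ orderOf q = Nat.card Q := by
    intro q
    constructor
    · intro h
      apply orderOf_eq_card_of_forall_mem_zpowers
      intro r
      obtain ⟨j, hj⟩ := h r
      exact ⟨j, hj⟩
    · intro h r
      have h2 : Subgroup.zpowers q = ⊤ := by
        apply Subgroup.eq_top_of_card_eq
        rw [Nat.card_zpowers, h]
      have h3 : r ∈ Subgroup.zpowers q := by
        rw [h2]
        trivial
      obtain ⟨j, hj⟩ := h3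
      exact ⟨j, hj⟩
  have h4 : Nat.card {q : Q // Gen q} = Nat.card {q : Q // orderOf q = Nat.card Q} :=
    Nat.card_congr (Equiv.subtypeEquivRight h1)
  rw [h4, Nat.card_eq_fintype_card, Fintype.card_subtype, Nat.card_eq_fintype_card]
  exact IsCyclic.card_orderOf_eq_totient dvd_rfl

section core

variable {G Q : Type} [Group G] [Group Q] (N H : Subgroup G) (c : G)

/-- The bijection `N ⊕ N → G`. -/
def FF : N ⊕ N → G := Sum.elim (fun n => (n : G)) (fun n => c * n)

lemma FF_bij (hN : N.index = 2) (hc : c ∉ N) : Function.Bijective (FF N c) := by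
  constructor
  · rintro (a | a) (b | b) h
    · exact congrArg Sum.inl (Subtype.ext h)
    · exfalso
      have h' : (a : G) = c * b := h
      apply hc
      have : c = a * (b : G)⁻¹ := by rw [h']; group
      rw [this]
      exact N.mul_mem a.2 (N.inv_mem b.2)
    · exfalso
      have h' : c * a = (b : G) := h
      apply hc
      have : c = b * (a : G)⁻¹ := by rw [← h']; group
      rw [this]
      exact N.mul_mem b.2 (N.inv_mem a.2)
    · have h' : c * (a : G) = c * b := h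
      exact congrArg Sum.inr (Subtype.ext (mul_left_cancel h'))
  · intro g
    by_cases hg : g ∈ N
    · exact ⟨Sum.inl ⟨g, hg⟩, rfl⟩
    · have h1 : c⁻¹ * g ∈ N := by
        rw [Subgroup.mul_mem_iff_of_index_two hN]
        constructor
        · intro h
          exact absurd (by simpa using N.inv_mem h) hc
        · intro h
          exact absurd h hg
      refine ⟨Sum.inr ⟨c⁻¹ * g, h1⟩, ?_⟩
      show c * (c⁻¹ * g) = g
      group

/-- Good elements. -/
def GoodG (g : G) : Prop :=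
  ∀ τ ρ : G, ρ ∈ N → ∃ j : ℤ, ρ * (τ * g ^ j * τ⁻¹)⁻¹ ∈ H

variable [N.Normal] (π : N →* Q)

/-- Conjugation by `c` on `N`. -/
def kap : N →* N := (MulAut.conjNormal c : MulAut N).toMonoidHom

lemma kap_coe (n : N) : ((kap N c n : N) : G) = c * n * c⁻¹ := rfl

omit [N.Normal] in
lemma mem_iff (hπ : ∀ n : N, π n = 1 ↔ (n : G) ∈ H) (a b : N) :
    (a : G) * (b : G)⁻¹ ∈ H ↔ π b = π a := by
  have h := hπ (a * b⁻¹)
  rw [map_mul, map_inv, mul_inv_eq_one] at h
  rw [eq_comm, h]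
  rfl

lemma good_in (hN : N.index = 2) (hc : c ∉ N) (hab : ∀ a ∈ N, ∀ b ∈ N, a * b = b * a)
    (hπ : ∀ n : N, π n = 1 ↔ (n : G) ∈ H) (hs : Function.Surjective π) (g : N) :
    GoodG N H (g : G) ↔ Gen (π g) ∧ Gen (π (kap N c g)) := by
  constructor
  · intro h
    constructor
    · intro r
      obtain ⟨ρ, rfl⟩ := hs r
      obtain ⟨j, hj⟩ := h 1 ρ ρ.2
      refine ⟨j, ?_⟩
      have h1 : (ρ : G) * ((g ^ j : N) : G)⁻¹ ∈ H := by
        simpa using hj
      rw [mem_iff N H π hπ] at h1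
      rw [← map_zpow]
      exact h1
    · intro r
      obtain ⟨ρ, rfl⟩ := hs r
      obtain ⟨j, hj⟩ := h c ρ ρ.2
      refine ⟨j, ?_⟩
      have h1 : (ρ : G) * (((kap N c g) ^ j : N) : G)⁻¹ ∈ H := by
        rw [Subgroup.coe_zpow, kap_coe, conj_zpow]
        exact hj
      rw [mem_iff N H π hπ] at h1
      rw [← map_zpow]
      exact h1
  · rintro ⟨h1, h2⟩ τ ρ hρ
    by_cases hτ : τ ∈ N
    · obtain ⟨j, hj⟩ := h1 (π ⟨ρ, hρ⟩)
      refine ⟨j, ?_⟩
      have h3 : τ * (g : G) ^ j * τ⁻¹ = ((g ^ j : N) : G) := by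
        rw [hab τ hτ _ (N.zpow_mem g.2 j), mul_assoc, mul_inv_cancel, mul_one]
        rfl
      rw [h3]
      have h4 := (mem_iff N H π hπ ⟨ρ, hρ⟩ (g ^ j)).mpr (by rw [map_zpow]; exact hj)
      exact h4
    · obtain ⟨j, hj⟩ := h2 (π ⟨ρ, hρ⟩)
      refine ⟨j, ?_⟩
      have h5 : c⁻¹ * τ ∈ N := by
        rw [Subgroup.mul_mem_iff_of_index_two hN]
        constructor
        · intro h
          exact absurd (by simpa using N.inv_mem h) hc
        · intro h
          exact absurd h hτ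
      have h3 : τ * (g : G) ^ j * τ⁻¹ = (((kap N c g) ^ j : N) : G) := by
        rw [Subgroup.coe_zpow, kap_coe, conj_zpow]
        have h6 : (c⁻¹ * τ) * (g : G) ^ j * (c⁻¹ * τ)⁻¹ = (g : G) ^ j := by
          rw [hab _ h5 _ (N.zpow_mem g.2 j), mul_assoc, mul_inv_cancel, mul_one]
        calc τ * (g : G) ^ j * τ⁻¹ = c * ((c⁻¹ * τ) * (g : G) ^ j * (c⁻¹ * τ)⁻¹) * c⁻¹ := by group
          _ = _ := by rw [h6]
      rw [h3]
      exact (mem_iff N H π hπ ⟨ρ, hρ⟩ (kap N c g ^ j)).mpr (by rw [map_zpow]; exact hj)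

omit [N.Normal] in
lemma sq_mem (hN : N.index = 2) (g : G) : g ^ 2 ∈ N := by
  rw [pow_two]
  exact Subgroup.mul_self_mem_of_index_two hN g

omit [N.Normal] in
lemma even_of_mem (hN : N.index = 2) {g : G} (hg : g ∉ N) {j : ℤ} (h : g ^ j ∈ N) :
    ∃ i : ℤ, j = 2 * i := by
  rcases Int.even_or_odd' j with ⟨i, rfl | rfl⟩
  · exact ⟨i, rfl⟩
  · exfalso
    apply hg
    have h1 : (g ^ 2) ^ i ∈ N := N.zpow_mem (sq_mem N hN g) i
    have h2 : g = ((g ^ 2) ^ i)⁻¹ * g ^ (2 * i + 1) := by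
      rw [← zpow_natCast g 2, ← zpow_mul, zpow_add, zpow_one]
      push_cast
      group
    rw [h2]
    exact N.mul_mem (N.inv_mem h1) h

lemma good_out (hN : N.index = 2) (hab : ∀ a ∈ N, ∀ b ∈ N, a * b = b * a)
    (hHN : H ≤ N) (hπ : ∀ n : N, π n = 1 ↔ (n : G) ∈ H) (hs : Function.Surjective π)
    {g : G} (hg : g ∉ N) :
    GoodG N H g ↔ Gen (π ⟨g ^ 2, sq_mem N hN g⟩) := by
  -- conjugates of the square
  have hconj : ∀ (τ : G) (i : ℤ), τ * g ^ (2 * i) * τ⁻¹ = (g ^ 2) ^ i := by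
    intro τ i
    have e : g ^ (2 * i) = (g ^ 2) ^ i := by
      rw [← zpow_natCast g 2, ← zpow_mul]; rfl
    rw [e]
    by_cases hτ : τ ∈ N
    · rw [hab τ hτ _ (N.zpow_mem (sq_mem N hN g) i), mul_assoc, mul_inv_cancel, mul_one]
    · have h5 : τ * g⁻¹ ∈ N := by
        rw [Subgroup.mul_mem_iff_of_index_two hN]
        constructor
        · intro h
          exact absurd h hτ
        · intro h
          exact absurd (by simpa using N.inv_mem h) hg
      have h6 : (τ * g⁻¹) * (g ^ 2) ^ i * (τ * g⁻¹)⁻¹ = (g ^ 2) ^ i := by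
        rw [hab _ h5 _ (N.zpow_mem (sq_mem N hN g) i), mul_assoc, mul_inv_cancel, mul_one]
      have h7 : g * (g ^ 2) ^ i * g⁻¹ = (g ^ 2) ^ i := by
        have : Commute g ((g ^ 2) ^ i) := ((Commute.refl g).pow_right 2).zpow_right i
        rw [this.eq, mul_assoc, mul_inv_cancel, mul_one]
      calc τ * (g ^ 2) ^ i * τ⁻¹ = (τ * g⁻¹) * (g * (g ^ 2) ^ i * g⁻¹) * (τ * g⁻¹)⁻¹ := by group
        _ = _ := by rw [h7, h6]
  constructor
  · intro h r
    obtain ⟨ρ, rfl⟩ := hs r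
    obtain ⟨j, hj⟩ := h 1 ρ ρ.2
    have h1 : g ^ j ∈ N := by
      have h2 : (ρ : G) * (g ^ j)⁻¹ ∈ N := hHN (by simpa using hj)
      have h3 := N.mul_mem (N.inv_mem h2) ρ.2
      have h4 : ((ρ : G) * (g ^ j)⁻¹)⁻¹ * ρ = g ^ j := by group
      rwa [h4] at h3
    obtain ⟨i, rfl⟩ := even_of_mem N hN hg h1
    refine ⟨i, ?_⟩
    rw [hconj 1 i] at hj
    rw [← map_zpow]
    exact (mem_iff N H π hπ ρ _).mp hj
  · intro h τ ρ hρ
    obtain ⟨i, hi⟩ := h (π ⟨ρ, hρ⟩)
    refine ⟨2 * i, ?_⟩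
    rw [hconj τ i]
    exact (mem_iff N H π hπ ⟨ρ, hρ⟩ (⟨g ^ 2, sq_mem N hN g⟩ ^ i)).mpr (by rw [map_zpow]; exact hi)

lemma pair_bij (hπ : ∀ n : N, π n = 1 ↔ (n : G) ∈ H) (hs : Function.Surjective π) (hHN : H ≤ N)
    (hcH : ∀ a ∈ H, c * a * c⁻¹ ∈ H → a = 1)
    (hdec : ∀ a ∈ N, ∃ x ∈ H, ∃ y ∈ H, a = x * (c * y * c⁻¹)) :
    Function.Bijective (fun n : N => (π n, π (kap N c n))) := by
  constructor
  · intro a b h
    have h1 : π a = π b := congrArg Prod.fst h
    have h2 : π (kap N c a) = π (kap N c b) := congrArg Prod.snd h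
    have h3 : π (a * b⁻¹) = 1 := by rw [map_mul, map_inv, h1, mul_inv_cancel]
    have h4 : π (kap N c (a * b⁻¹)) = 1 := by
      rw [map_mul, map_mul, map_inv, map_inv, h2, mul_inv_cancel]
    rw [hπ] at h3 h4
    have h5 := hcH _ h3 h4
    have h6 : a * b⁻¹ = 1 := Subtype.ext h5
    exact mul_inv_eq_one.mp h6
  · rintro ⟨q1, q2⟩
    obtain ⟨a, rfl⟩ := hs q1
    obtain ⟨b, hb⟩ := hs (q2 * (π (kap N c a))⁻¹)
    obtain ⟨x, hx, y, hy, hxy⟩ := hdec b b.2
    have hyN : y ∈ N := hHN hy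
    have hxN : x ∈ N := hHN hx
    have e1 : b = ⟨x, hxN⟩ * kap N c ⟨y, hyN⟩ := Subtype.ext hxy
    have e2 : π ⟨x, hxN⟩ = 1 := (hπ _).mpr hx
    have e3 : π ⟨y, hyN⟩ = 1 := (hπ _).mpr hy
    rw [e1, map_mul, e2, one_mul] at hb
    refine ⟨⟨y, hyN⟩ * a, ?_⟩
    show (π (⟨y, hyN⟩ * a), π (kap N c (⟨y, hyN⟩ * a))) = _
    rw [map_mul, e3, one_mul, map_mul, map_mul, hb]
    simp

lemma pair_bij' (z : Q)
    (hb : Function.Bijective (fun n : N => (π n, π (kap N c n)))) :
    Function.Bijective (fun n : N => (π n, π (kap N c n) * z * π n)) := by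
  have h : Function.Bijective (fun q : Q × Q => (q.1, q.2 * z * q.1)) := by
    constructor
    · rintro ⟨a, b⟩ ⟨a', b'⟩ h
      have h1 : a = a' := congrArg Prod.fst h
      have h2 : b * z * a = b' * z * a' := congrArg Prod.snd h
      subst h1
      have h3 : b = b' := mul_right_cancel (mul_right_cancel h2)
      rw [h3]
    · rintro ⟨a, b⟩
      refine ⟨(a, b * a⁻¹ * z⁻¹), ?_⟩
      show (a, b * a⁻¹ * z⁻¹ * z * a) = (a, b)
      simp
  exact h.comp hb

end core

end COUNTG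

open COUNTG in
theorem COUNTG_thm : COUNTG := by
  intro G _ _ N H c m hN hc hab hHN hm hcH hdec hcyc
  classical
  have hNn : N.Normal := Subgroup.normal_of_index_eq_two hN
  have habN : ∀ a b : N, a * b = b * a := fun a b => Subtype.ext (hab a a.2 b b.2)
  have hHn : (H.subgroupOf N).Normal :=
    ⟨fun n hn g => by rw [habN g n, mul_assoc, mul_inv_cancel, mul_one]; exact hn⟩
  have hs : Function.Surjective (QuotientGroup.mk' (H.subgroupOf N)) :=
    QuotientGroup.mk'_surjective _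
  have hπ : ∀ n : N, QuotientGroup.mk' (H.subgroupOf N) n = 1 ↔ (n : G) ∈ H := by
    intro n
    rw [QuotientGroup.mk'_apply, QuotientGroup.eq_one_iff, Subgroup.mem_subgroupOf]
  have hcard : Nat.card (N ⧸ H.subgroupOf N) = m := hm
  generalize hQdef : (QuotientGroup.mk' (H.subgroupOf N)) = π at hs hπ
  have hgen : ∃ q : N ⧸ H.subgroupOf N, Gen q := by
    obtain ⟨x, hx, hy⟩ := hcyc
    refine ⟨π ⟨x, hx⟩, fun r => ?_⟩
    obtain ⟨y, rfl⟩ := hs r
    obtain ⟨j, hj⟩ := hy y y.2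
    refine ⟨j, ?_⟩
    rw [← map_zpow]
    exact (mem_iff N H π hπ y (⟨x, hx⟩ ^ j)).mp hj
  have hphi := card_gen hgen
  rw [hcard] at hphi
  have b1 := pair_bij N H c π hπ hs hHN hcH hdec
  have hcc : c * c ∈ N := Subgroup.mul_self_mem_of_index_two hN c
  have b2 := pair_bij' N c π (π ⟨c * c, hcc⟩) b1
  have hF := FF_bij N c hN hc
  have cN : Nat.card N = m ^ 2 := by
    rw [Nat.card_congr (Equiv.ofBijective _ b1), Nat.card_prod, hcard, pow_two]
  constructor
  · rw [← Nat.card_congr (Equiv.ofBijective _ hF), Nat.card_sum, cN]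
    ring
  · have e1 : Nat.card {g : G // GoodG N H g} =
        Nat.card {x : N ⊕ N // GoodG N H (FF N c x)} :=
      Nat.card_congr ((Equiv.ofBijective _ hF).subtypeEquiv (fun _ => Iff.rfl)).symm
    have e2 : Nat.card {x : N ⊕ N // GoodG N H (FF N c x)} =
        Nat.card {n : N // GoodG N H (n : G)} + Nat.card {n : N // GoodG N H (c * (n : G))} := by
      rw [Nat.card_congr (Equiv.subtypeSum), Nat.card_sum]
      rfl
    have e3 : Nat.card {n : N // GoodG N H (n : G)} = m.totient ^ 2 := by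
      have f1 : {n : N // GoodG N H (n : G)} ≃
          {q : (N ⧸ H.subgroupOf N) × (N ⧸ H.subgroupOf N) // Gen q.1 ∧ Gen q.2} :=
        (Equiv.ofBijective _ b1).subtypeEquiv (fun n => good_in N H c π hN hc hab hπ hs n)
      rw [Nat.card_congr f1, Nat.card_congr Equiv.subtypeProdEquivProd, Nat.card_prod, hphi,
        pow_two]
    have e4 : Nat.card {n : N // GoodG N H (c * (n : G))} = m * m.totient := by
      have hout : ∀ n : N, c * (n : G) ∉ N := by
        intro n h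
        apply hc
        have : c = (c * (n : G)) * (n : G)⁻¹ := by group
        rw [this]
        exact N.mul_mem h (N.inv_mem n.2)
      have hsq : ∀ n : N, π ⟨(c * (n : G)) ^ 2, sq_mem N hN _⟩ =
          π (kap N c n) * π ⟨c * c, hcc⟩ * π n := by
        intro n
        rw [← map_mul, ← map_mul]
        congr 1
        apply Subtype.ext
        show (c * (n : G)) ^ 2 = (c * n * c⁻¹) * (c * c) * n
        rw [pow_two]
        group
      have f1 : {n : N // GoodG N H (c * (n : G))} ≃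
          {q : (N ⧸ H.subgroupOf N) × (N ⧸ H.subgroupOf N) // True ∧ Gen q.2} :=
        (Equiv.ofBijective _ b2).subtypeEquiv (fun n => by
          rw [good_out N H π hN hab hHN hπ hs (hout n), hsq n]
          exact ⟨fun h => ⟨trivial, h⟩, fun h => h.2⟩)
      rw [Nat.card_congr f1,
        Nat.card_congr (Equiv.subtypeProdEquivProd (p := fun _ : N ⧸ H.subgroupOf N => True)),
        Nat.card_prod, hphi, Nat.card_congr (Equiv.subtypeUnivEquiv (fun _ => trivial)), hcard]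
    show Nat.card {g : G // GoodG N H g} = _
    rw [e1, e2, e3, e4]

end Pool.Agent.RI
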