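import Pool.Agent.RI.Stmts2

/-!
# The theorem of Frobenius for one division, from the version with exact constants
-/

open NumberField
open scoped Pointwise

namespace Pool.Agent.RI

namespace FROBOF

lemma zpowers_conj {G : Type} [Group G] {g h : G} (τ : G)
    (H : Subgroup.zpowers g = Subgroup.zpowers h) :
    Subgroup.zpowers (τ * g * τ⁻¹) = Subgroup.zpowers (τ * h * τ⁻¹) := by
  have key : ∀ a b : G, Subgroup.zpowers a = Subgroup.zpowers b →
      Subgroup.zpowers (τ * a * τ⁻¹) ≤ Subgroup.zpowers (τ * b * τ⁻¹) := by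
    intro a b hab
    rw [Subgroup.zpowers_le]
    have : a ∈ Subgroup.zpowers b := hab ▸ Subgroup.mem_zpowers a
    obtain ⟨i, rfl⟩ := this
    exact ⟨i, by simp [conj_zpow]⟩
  exact le_antisymm (key g h H) (key h g H.symm)

end FROBOF

theorem FROB_of (hF : FROBD) (hPD : PDGE) : FROB := by
  intro L _ _ _ σ
  let T : Set (L ≃ₐ[ℚ] L) := {h | ∃ τ : L ≃ₐ[ℚ] L, Subgroup.zpowers h =
    Subgroup.zpowers (τ * σ * τ⁻¹)}
  have hσT : σ ∈ T := ⟨1, by simp⟩
  have hd := hF L T (by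
    rintro g h τ' ⟨τ, hτ⟩ hh
    refine ⟨τ' * τ, ?_⟩
    rw [hh, FROBOF.zpowers_conj τ' hτ]
    simp only [mul_inv_rev, mul_assoc])
  have hpos : 0 < (Nat.card T : ℝ) / Nat.card (L ≃ₐ[ℚ] L) := by
    have h1 : 0 < Nat.card T := by
      have : Nonempty T := ⟨⟨σ, hσT⟩⟩
      exact Nat.card_pos
    have h2 : 0 < Nat.card (L ≃ₐ[ℚ] L) := Nat.card_pos
    exact div_pos (by exact_mod_cast h1) (by exact_mod_cast h2)
  refine ⟨_, hpos, hPD _ _ ∅ _ hd ?_⟩
  rintro q ⟨g, ⟨τ, hτ⟩, P, hP, hqP, hst⟩ - -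
  refine ⟨τ⁻¹ • P, ?_, ?_, ?_⟩
  · have := hP
    exact Ideal.IsPrime.smul (τ⁻¹)
  · rw [Ideal.mem_pointwise_smul_iff_inv_smul_mem]
    have : (τ⁻¹)⁻¹ • (q : 𝓞 L) = (q : 𝓞 L) := by
      rw [inv_inv]
      exact map_natCast (MulSemiringAction.toRingHom (L ≃ₐ[ℚ] L) (𝓞 L) τ) q
    rw [this]
    exact hqP
  · rw [MulAction.stabilizer_smul_eq_stabilizer_map_conj, hst, hτ]
    rw [MonoidHom.map_zpowers]
    congr 1
    simp [mul_assoc]

end Pool.Agent.RI
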