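import Pool.Agent.RI.Stmts

/-!
# Relative Iwasawa theorem: module INV
-/

open NumberField Finset IsDedekindDomain
open scoped nonZeroDivisors Pointwise

namespace Pool.Agent.RI

/-- INV -/
theorem INV_thm (h1 : SQ) (h2 : COUNTACT) (h3 : INVI) (h4 : EXTACT) : INV := by
  intro p _ F K M L _ _ _ _ _ _ _ _ _ _ _ _ _ _ _ hS hR hw b hb hN
  obtain ⟨gKL, gML, -, -, ρ, hρ⟩ := h1 p F K M L hS
  -- the exponents at the ramified primes
  have hcount : ∀ w : HeightOneSpectrum (𝓞 L), w.asIdeal.ramificationIdx (𝓞 K) ≠ 1 →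
      FractionalIdeal.count L w (b : FractionalIdeal (𝓞 L)⁰ L) = 0 := by
    intro w hwr
    have e1 : ∀ σ : L ≃ₐ[M] L, FractionalIdeal.count L w
        ((σ • b : J L) : FractionalIdeal (𝓞 L)⁰ L) =
          FractionalIdeal.count L w (b : FractionalIdeal (𝓞 L)⁰ L) :=
      fun σ => h2 M L σ w w (hw w hwr σ).symm b
    have e2 : FractionalIdeal.count L w
        ((∏ σ : L ≃ₐ[M] L, σ • b : J L) : FractionalIdeal (𝓞 L)⁰ L) = 0 := by
      rw [hN, Units.val_one, FractionalIdeal.count_one]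
    rw [Units.coe_prod, FractionalIdeal.count_prod _ _ _ _ (fun σ _ => (σ • b : J L).ne_zero),
      Finset.sum_congr rfl (fun σ _ => e1 σ), Finset.sum_const, nsmul_eq_mul] at e2
    rcases mul_eq_zero.mp e2 with e3 | e3
    · exfalso
      have e4 : (univ : Finset (L ≃ₐ[M] L)).card = 0 := by exact_mod_cast e3
      have e5 : (1 : L ≃ₐ[M] L) ∈ (univ : Finset (L ≃ₐ[M] L)) := mem_univ _
      rw [Finset.card_eq_zero] at e4
      rw [e4] at e5
      simp at e5
    · exact e3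
  obtain ⟨c, hc⟩ := h3 K L b hb hcount
  have hc1 : ∏ σ' : K ≃ₐ[F] K, σ' • c = 1 := by
    apply ext_injective K L
    rw [map_one, map_prod, ← hN, ← Equiv.prod_comp ρ.toEquiv]
    apply Finset.prod_congr rfl
    intro σ _
    rw [← hc]
    exact h4 F K M L σ (ρ σ) (hρ σ) c
  obtain ⟨m, hm, x, hx⟩ := hR c hc1
  refine ⟨m, hm, x, ?_⟩
  rw [← hc, ← map_pow, hx, ext_prin]

end Pool.Agent.RI
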