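import Pool.Agent.RI.Stmts

/-!
# Relative Iwasawa theorem: NSN, undecomposed primes
-/

open NumberField Finset IsDedekindDomain
open scoped nonZeroDivisors Pointwise

namespace Pool.Agent.RI

namespace NSN

/-- A normal subgroup of order prime to `p` is contained in every subgroup whose index is a power
of `p`. -/
theorem le_of_index {G : Type} [Group G] [Finite G] (H S : Subgroup G) [H.Normal] (p b : ℕ)
    (hS : S.index ∣ p ^ b) (hH : (Nat.card H).Coprime p) : H ≤ S := by
  rw [← Subgroup.relIndex_eq_one]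
  have h1 : S.relIndex H ∣ S.index := by
    obtain ⟨r, hr⟩ := Subgroup.relIndex_dvd_index_of_normal H S
    have e1 : (S ⊓ H).relIndex H * H.index = (S ⊓ H).index :=
      Subgroup.relIndex_mul_index inf_le_right
    have e2 : (S ⊓ H).relIndex S * S.index = (S ⊓ H).index :=
      Subgroup.relIndex_mul_index inf_le_left
    rw [Subgroup.inf_relIndex_right] at e1
    rw [Subgroup.inf_relIndex_left] at e2
    have e3 : H.relIndex S * S.index = H.relIndex S * (S.relIndex H * r) := by
      rw [e2, ← e1, hr]
      ring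
    have hpos : H.relIndex S ≠ 0 := by
      intro h0
      rw [h0, zero_mul] at hr
      exact (Subgroup.index_ne_zero_of_finite (H := H)) hr
    exact ⟨r, mul_left_cancel₀ hpos e3⟩
  have h2 : S.relIndex H ∣ Nat.card H := Subgroup.relIndex_dvd_card S H
  exact Nat.eq_one_of_dvd_coprimes (Nat.Coprime.pow_right b hH) h2 (h1.trans hS)

/-- Restriction of the conjugate ideal to a normal subextension. -/
theorem under_smul {F K L : Type} [Field F] [Field K] [Field L] [Algebra F K] [Algebra F L]
    [Algebra K L] [IsScalarTower F K L] [Normal F K] (τ : L ≃ₐ[F] L) (w : Ideal (𝓞 L)) :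
    (τ • w).under (𝓞 K) = τ.restrictNormal K • w.under (𝓞 K) := by
  ext x
  rw [Ideal.under_def, Ideal.mem_comap, Ideal.mem_pointwise_smul_iff_inv_smul_mem,
    Ideal.mem_pointwise_smul_iff_inv_smul_mem, Ideal.under_def, Ideal.mem_comap]
  have h : algebraMap (𝓞 K) (𝓞 L) ((τ.restrictNormal K)⁻¹ • x) =
      τ⁻¹ • algebraMap (𝓞 K) (𝓞 L) x := by
    apply RingOfIntegers.ext
    show algebraMap K L ((τ.restrictNormal K)⁻¹ (x : K)) = τ⁻¹ (algebraMap K L (x : K))
    apply τ.injective
    rw [← AlgEquiv.restrictNormal_commutes]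
    have e1 : τ.restrictNormal K ((τ.restrictNormal K)⁻¹ (x : K)) = x :=
      (τ.restrictNormal K).apply_symm_apply _
    have e2 : τ (τ⁻¹ (algebraMap K L (x : K))) = algebraMap K L (x : K) :=
      τ.apply_symm_apply _
    rw [e1, e2]
  rw [h]

/-- The action on ideals does not depend on the base field. -/
theorem restrictScalars_smul {F M L : Type} [Field F] [Field M] [Field L] [Algebra F M]
    [Algebra F L] [Algebra M L] [IsScalarTower F M L] (σ : L ≃ₐ[M] L) (w : Ideal (𝓞 L)) :
    σ.restrictScalars F • w = σ • w := by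
  ext x
  rw [Ideal.mem_pointwise_smul_iff_inv_smul_mem, Ideal.mem_pointwise_smul_iff_inv_smul_mem]
  have h : (σ.restrictScalars F)⁻¹ • x = σ⁻¹ • x := by
    apply RingOfIntegers.ext
    show (σ.restrictScalars F)⁻¹ (x : L) = σ⁻¹ (x : L)
    apply σ.injective
    have e1 : σ (σ⁻¹ (x : L)) = x := σ.apply_symm_apply _
    have e2 : (σ.restrictScalars F) ((σ.restrictScalars F)⁻¹ (x : L)) = x :=
      (σ.restrictScalars F).apply_symm_apply _
    rw [e1]
    exact e2
  rw [h]

end NSN

theorem NSN_thm : NSN := by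
  intro p _ F K M L _ _ _ _ _ _ _ _ _ _ _ _ _ _ _ _ _ _ hpow hcop w hw hfix σ
  have hKL : IsGalois K L := IsGalois.tower_top_of_isGalois F K L
  have hML : IsGalois M L := IsGalois.tower_top_of_isGalois F M L
  obtain ⟨a, ha⟩ := hpow
  -- the orbit of `w` under `Gal(L / F)` is its orbit under `Gal(L / K)`
  have horb : MulAction.orbit (L ≃ₐ[F] L) w = MulAction.orbit (L ≃ₐ[K] L) w := by
    apply Set.Subset.antisymm
    · rintro _ ⟨τ, rfl⟩
      have h1 : (τ • w).under (𝓞 K) = w.under (𝓞 K) := by
        rw [NSN.under_smul, hfix]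
      have : (τ • w).IsPrime := inferInstance
      have : w.LiesOver (w.under (𝓞 K)) := ⟨rfl⟩
      have : (τ • w).LiesOver (w.under (𝓞 K)) := ⟨h1.symm⟩
      obtain ⟨κ, hκ⟩ := Ideal.exists_smul_eq_of_isGaloisGroup (w.under (𝓞 K)) w (τ • w)
        (L ≃ₐ[K] L)
      exact ⟨κ, hκ⟩
    · rintro _ ⟨κ, rfl⟩
      exact ⟨κ.restrictScalars F, NSN.restrictScalars_smul κ w⟩
  -- the index of the stabilizer
  have hidx : (MulAction.stabilizer (L ≃ₐ[F] L) w).index ∣ p ^ a := by
    rw [MulAction.index_stabilizer, horb, ← MulAction.index_stabilizer, ← ha,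
      ← IsGalois.card_aut_eq_finrank K L]
    exact Subgroup.index_dvd_card _
  -- the subgroup of the automorphisms which are trivial on `M`
  have hcard : Nat.card (AlgEquiv.restrictNormalHom (F := F) (K₁ := L) M).ker =
      Module.finrank M L := by
    have h1 := Subgroup.card_mul_index (AlgEquiv.restrictNormalHom (F := F) (K₁ := L) M).ker
    rw [Subgroup.index_ker, MonoidHom.range_eq_top.mpr
      (AlgEquiv.restrictNormalHom_surjective (F := F) (K₁ := M) L), Subgroup.card_top,
      IsGalois.card_aut_eq_finrank, IsGalois.card_aut_eq_finrank,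
      ← Module.finrank_mul_finrank F M L, mul_comm] at h1
    exact Nat.eq_of_mul_eq_mul_left Module.finrank_pos h1
  have hle : (AlgEquiv.restrictNormalHom (F := F) (K₁ := L) M).ker ≤
      MulAction.stabilizer (L ≃ₐ[F] L) w :=
    NSN.le_of_index _ _ p a hidx (by rw [hcard]; exact hcop)
  have hmem : σ.restrictScalars F ∈ (AlgEquiv.restrictNormalHom (F := F) (K₁ := L) M).ker := by
    rw [MonoidHom.mem_ker]
    apply AlgEquiv.ext
    intro x
    apply (algebraMap M L).injective
    have h1 := AlgEquiv.restrictNormal_commutes (σ.restrictScalars F) M x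
    show algebraMap M L ((σ.restrictScalars F).restrictNormal M x) = algebraMap M L x
    rw [h1]
    exact σ.commutes x
  have hfin := MulAction.mem_stabilizer_iff.mp (hle hmem)
  rw [NSN.restrictScalars_smul] at hfin
  exact hfin

end Pool.Agent.RI
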