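import Pool.Agent.RI.Stmts

/-!
# Relative Iwasawa theorem: Galois theory of the square
-/

open NumberField

namespace Pool.Agent.RI

namespace SQ

/-- An automorphism over `F` that is trivial on `K` and on `M` is trivial, when the degrees of
`L / K` and `L / M` are coprime. -/
lemma eq_one_of_fix {F K M L : Type} [Field F] [Field K] [Field M] [Field L]
    [Algebra F K] [Algebra F M] [Algebra F L] [Algebra K L] [Algebra M L]
    [IsScalarTower F K L] [IsScalarTower F M L] [FiniteDimensional K L] [FiniteDimensional M L]
    [IsGalois K L] [IsGalois M L]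
    (hc : (Module.finrank K L).Coprime (Module.finrank M L)) (c : L ≃ₐ[F] L)
    (hK : ∀ x : K, c (algebraMap K L x) = algebraMap K L x)
    (hM : ∀ x : M, c (algebraMap M L x) = algebraMap M L x) : c = 1 := by
  let cK : L ≃ₐ[K] L := AlgEquiv.ofRingEquiv (f := (c : L ≃+* L)) hK
  let cM : L ≃ₐ[M] L := AlgEquiv.ofRingEquiv (f := (c : L ≃+* L)) hM
  have h1 : cK ^ Module.finrank K L = 1 := by
    rw [← IsGalois.card_aut_eq_finrank K L]
    exact pow_card_eq_one'
  have h2 : cM ^ Module.finrank M L = 1 := by
    rw [← IsGalois.card_aut_eq_finrank M L]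
    exact pow_card_eq_one'
  have e1 : ∀ n : ℕ, ∀ x : L, (cK ^ n) x = (c ^ n) x := by
    intro n
    induction n with
    | zero => intro x; rfl
    | succ n ih => intro x; rw [pow_succ, pow_succ]; exact ih (c x)
  have e2 : ∀ n : ℕ, ∀ x : L, (cM ^ n) x = (c ^ n) x := by
    intro n
    induction n with
    | zero => intro x; rfl
    | succ n ih => intro x; rw [pow_succ, pow_succ]; exact ih (c x)
  have h3 : c ^ Module.finrank K L = 1 := by
    ext x
    rw [← e1, h1]; rfl
  have h4 : c ^ Module.finrank M L = 1 := by
    ext x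
    rw [← e2, h2]; rfl
  have h5 := Nat.dvd_gcd (orderOf_dvd_of_pow_eq_one h3) (orderOf_dvd_of_pow_eq_one h4)
  rw [hc] at h5
  exact orderOf_eq_one_iff.1 (Nat.dvd_one.1 h5)

end SQ

theorem SQ_thm : SQ := by
  intro p _ F K M L _ _ _ _ _ _ _ _ _ _ _ _ _ _ _ h
  haveI := h.galK
  haveI := h.galM
  haveI := h.galL
  have hp : 0 < p := (Fact.out : p.Prime).pos
  have galKL : IsGalois K L := IsGalois.tower_top_of_isGalois F K L
  have galML : IsGalois M L := IsGalois.tower_top_of_isGalois F M L
  have hdeg : Module.finrank M L = Module.finrank F K := by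
    have h1 := Module.finrank_mul_finrank F K L
    have h2 := Module.finrank_mul_finrank F M L
    rw [h.degL] at h1
    rw [h.degM] at h2
    rw [← h2, mul_comm] at h1
    exact (Nat.eq_of_mul_eq_mul_left hp h1).symm
  have hcop : (Module.finrank K L).Coprime (Module.finrank M L) := by
    rw [h.degL, hdeg]
    exact h.cop.symm
  have key := SQ.eq_one_of_fix (F := F) hcop
  -- an automorphism over `F` maps `K` to `K`
  have mK : ∀ (s : L ≃ₐ[F] L) (x : K), s (algebraMap K L x) =
      algebraMap K L (s.restrictNormal K x) := fun s x => (s.restrictNormal_commutes K x).symm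
  have mM : ∀ (s : L ≃ₐ[F] L) (x : M), s (algebraMap M L x) =
      algebraMap M L (s.restrictNormal M x) := fun s x => (s.restrictNormal_commutes M x).symm
  refine ⟨galKL, galML, hdeg, ?_, ?_⟩
  · intro σ τ x
    let s : L ≃ₐ[F] L := σ.restrictScalars F
    let t : L ≃ₐ[F] L := τ.restrictScalars F
    have hs : ∀ y : M, s (algebraMap M L y) = algebraMap M L y := fun y => σ.commutes y
    have ht : ∀ y : K, t (algebraMap K L y) = algebraMap K L y := fun y => τ.commutes y
    have hs' : ∀ y : M, s⁻¹ (algebraMap M L y) = algebraMap M L y := fun y => by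
      conv_lhs => rw [← hs y]
      exact s.symm_apply_apply _
    have ht' : ∀ y : K, t⁻¹ (algebraMap K L y) = algebraMap K L y := fun y => by
      conv_lhs => rw [← ht y]
      exact t.symm_apply_apply _
    have hone : s * t * s⁻¹ * t⁻¹ = 1 := by
      apply key
      · intro y
        show s (t (s⁻¹ (t⁻¹ (algebraMap K L y)))) = _
        rw [ht', mK, ht, ← mK]
        exact s.apply_symm_apply _
      · intro y
        show s (t (s⁻¹ (t⁻¹ (algebraMap M L y)))) = _
        rw [mM t⁻¹, hs', ← mM]
        rw [show t (t⁻¹ (algebraMap M L y)) = algebraMap M L y from t.apply_symm_apply _, hs]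
    have hst : s * t = t * s := by
      have h6 : s * t * (t * s)⁻¹ = 1 := by
        rw [mul_inv_rev, ← mul_assoc]; exact hone
      exact mul_inv_eq_one.1 h6
    exact congrArg (fun f : L ≃ₐ[F] L => f x) hst
  · let ρ : (L ≃ₐ[M] L) →* (K ≃ₐ[F] K) :=
      (AlgEquiv.restrictNormalHom K).comp (AlgEquiv.restrictScalarsHom F)
    have hρ : ∀ (σ : L ≃ₐ[M] L) (x : K), algebraMap K L (ρ σ x) = σ (algebraMap K L x) :=
      fun σ x => (σ.restrictScalars F).restrictNormal_commutes K x
    have hinj : Function.Injective ρ := by
      rw [injective_iff_map_eq_one]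
      intro σ hσ
      have h1 : σ.restrictScalars F = 1 := by
        apply key
        · intro x
          have := hρ σ x
          rw [hσ] at this
          exact this.symm
        · intro x
          exact σ.commutes x
      ext x
      exact congrArg (fun f : L ≃ₐ[F] L => f x) h1
    have hbij : Function.Bijective ρ := by
      rw [Nat.bijective_iff_injective_and_card]
      refine ⟨hinj, ?_⟩
      rw [IsGalois.card_aut_eq_finrank, IsGalois.card_aut_eq_finrank, hdeg]
    exact ⟨MulEquiv.ofBijective ρ hbij, hρ⟩

end Pool.Agent.RI
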