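import Pool.Agent.RI.Stmts

/-!
# Relative Iwasawa theorem: the step
-/

open NumberField Finset IsDedekindDomain
open scoped nonZeroDivisors Pointwise

namespace Pool.Agent.RI

namespace STEP

/-- A group of prime order `p`, generated by `g ≠ 1`, is `{g ^ i : i < p}`. -/
theorem exists_pow {G : Type} [Group G] [Finite G] {p : ℕ} [hp : Fact p.Prime]
    (hc : Nat.card G = p) {g : G} (hg : g ≠ 1) (x : G) : ∃ i < p, g ^ i = x := by
  have ho : orderOf g = p := by
    have h1 : orderOf g ∣ p := hc ▸ orderOf_dvd_natCard g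
    rcases (Nat.dvd_prime hp.out).mp h1 with h | h
    · exact absurd (orderOf_eq_one_iff.mp h) hg
    · exact h
  have h2 : x ∈ Subgroup.zpowers g := by
    have : Subgroup.zpowers g = ⊤ := by
      apply Subgroup.eq_top_of_card_eq
      rw [Nat.card_zpowers, ho, hc]
    rw [this]
    trivial
  have h3 := (mem_powers_iff_mem_zpowers (x := g) (y := x)).mpr h2
  obtain ⟨n, hn⟩ := h3
  refine ⟨n % p, Nat.mod_lt _ hp.out.pos, ?_⟩
  rw [← ho, pow_mod_orderOf]
  exact hn

theorem prod_pow {G A : Type} [Group G] [Fintype G] [CommGroup A] [MulDistribMulAction G A] {p : ℕ}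
    [hp : Fact p.Prime] (hc : Nat.card G = p) {g : G} (hg : g ≠ 1) (x : A) :
    ∏ τ : G, τ • x = ∏ i ∈ range p, g ^ i • x := by
  classical
  have ho : orderOf g = p := by
    have h1 : orderOf g ∣ p := hc ▸ orderOf_dvd_natCard g
    rcases (Nat.dvd_prime hp.out).mp h1 with h | h
    · exact absurd (orderOf_eq_one_iff.mp h) hg
    · exact h
  symm
  refine Finset.prod_bij (fun i _ => g ^ i) (fun i _ => Finset.mem_univ _) ?_ ?_ (fun _ _ => rfl)
  · intro i hi j hj hij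
    have hi' := Finset.mem_range.mp hi
    have hj' := Finset.mem_range.mp hj
    exact pow_injOn_Iio_orderOf (by rw [ho]; exact hi') (by rw [ho]; exact hj') hij
  · intro τ _
    obtain ⟨i, hi, h⟩ := exists_pow hc hg τ
    exact ⟨i, Finset.mem_range.mpr hi, h⟩

end STEP

theorem STEP_thm (hsq : SQ) (habs : ABS) (h90 : H90) (hinv : INV) (hunit : UNIT) : STEP := by
  intro p hp F K M L _ _ _ _ _ _ _ _ _ _ _ _ _ _ _ sq hL hM hram hrel
  obtain ⟨galKL, galML, hML, hcomm, -⟩ := hsq p F K M L sq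
  have hcK : Nat.card (L ≃ₐ[K] L) = p := by
    rw [IsGalois.card_aut_eq_finrank, sq.degL]
  have hcM : Fintype.card (L ≃ₐ[M] L) = Module.finrank F K := by
    rw [← Nat.card_eq_fintype_card, IsGalois.card_aut_eq_finrank, hML]
  -- a generator
  obtain ⟨g₀, hg₀⟩ : ∃ g₀ : L ≃ₐ[K] L, g₀ ≠ 1 := by
    by_contra h
    push Not at h
    have : Nat.card (L ≃ₐ[K] L) = 1 := by
      rw [Nat.card_eq_one_iff_unique]
      exact ⟨⟨fun a b => (h a).trans (h b).symm⟩, ⟨1⟩⟩
    rw [hcK] at this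
    exact hp.out.one_lt.ne' this
  let ρ : (L ≃ₐ[M] L) →* (L ≃ₐ[F] L) := AlgEquiv.restrictScalarsHom F
  let κ : (L ≃ₐ[K] L) →* (L ≃ₐ[F] L) := AlgEquiv.restrictScalarsHom F
  have hρu : ∀ (δ : L ≃ₐ[M] L) (x : Lˣ), ρ δ • x = δ • x := fun δ x => rfl
  have hκu : ∀ (δ : L ≃ₐ[K] L) (x : Lˣ), κ δ • x = δ • x := fun δ x => rfl
  have hρJ : ∀ (δ : L ≃ₐ[M] L) (x : J L), ρ δ • x = δ • x := fun δ x => rfl
  have hκJ : ∀ (δ : L ≃ₐ[K] L) (x : J L), κ δ • x = δ • x := fun δ x => rfl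
  have hfixu : ∀ e : Lˣ, κ g₀ • e = e → ∀ τ : L ≃ₐ[K] L, τ • e = e := by
    intro e he τ
    obtain ⟨i, -, rfl⟩ := STEP.exists_pow hcK hg₀ τ
    rw [hκu] at he
    induction i with
    | zero => rw [pow_zero, one_smul]
    | succ i ih => rw [pow_succ, mul_smul, he, ih]
  have hfixJ : ∀ e : J L, κ g₀ • e = e → ∀ τ : L ≃ₐ[K] L, τ • e = e := by
    intro e he τ
    obtain ⟨i, -, rfl⟩ := STEP.exists_pow hcK hg₀ τ
    rw [hκJ] at he
    induction i with
    | zero => rw [pow_zero, one_smul]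
    | succ i ih => rw [pow_succ, mul_smul, he, ih]
  have hprod : ∀ x : Lˣ, ∏ i ∈ range p, κ g₀ ^ i • x = ∏ i ∈ range p, g₀ ^ i • x := by
    intro x
    refine Finset.prod_congr rfl fun i _ => ?_
    rw [← map_pow, hκu]
  have key := habs p Lˣ (J L) (L ≃ₐ[F] L) (L ≃ₐ[M] L) ρ (κ g₀) prin (by rw [hcM]; exact sq.cop)
    (by rw [← map_pow, ← hcK, pow_card_eq_one', map_one])
    (by
      intro δ
      apply AlgEquiv.ext
      intro x
      exact hcomm δ g₀ x)
    (fun σ x => (smul_prin σ x).symm)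
    (by
      intro x hx
      rw [hprod] at hx
      exact h90 p K L g₀ sq.degL hg₀ x hx)
    (by
      intro b hb hb'
      obtain ⟨m, hm, γ, hγ⟩ := hinv p F K M L sq hrel hram b (hfixJ b hb) hb'
      refine ⟨m, hm, _, ?_, hγ⟩
      rw [hκu]
      apply Units.ext
      exact g₀.commutes (γ : K))
    (by
      intro e he hge hNe
      obtain ⟨η, hη, h⟩ := hunit p F K M L sq hL hM hram hrel e ⟨⟨he, hNe⟩, hfixu e hge⟩
      refine ⟨1, Nat.coprime_one_left p, η, hη.1, ?_⟩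
      rw [pow_one, hprod, ← STEP.prod_pow hcK hg₀]
      exact h)
    (Finite.of_equiv (ClassGroup (𝓞 L)) (ClassGroup.equiv L).toEquiv)
  intro c hc
  exact key c hc

end Pool.Agent.RI
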