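import Pool.Agent.RI.RKF

/-!
# UNIT: relative units fixed by `Gal(L / K)` are norms
-/

open NumberField Finset IsDedekindDomain
open scoped nonZeroDivisors Pointwise

namespace Pool.Agent.RI

namespace UNIT

/-- The group `(1 - g) E`. -/
def S {A G : Type} [CommGroup A] [Group G] [MulDistribMulAction G A] (g : G) (E : Subgroup A) :
    Subgroup A where
  carrier := {u | ∃ v ∈ E, u = v / g • v}
  mul_mem' := by
    rintro _ _ ⟨v, hv, rfl⟩ ⟨w, hw, rfl⟩
    refine ⟨v * w, mul_mem hv hw, ?_⟩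
    rw [smul_mul', div_mul_div_comm]
  one_mem' := ⟨1, one_mem _, by rw [smul_one, div_one]⟩
  inv_mem' := by
    rintro _ ⟨v, hv, rfl⟩
    refine ⟨v⁻¹, inv_mem hv, ?_⟩
    rw [smul_inv', inv_div, div_inv_eq_mul, div_eq_mul_inv, mul_comm]

theorem mem_S {A G : Type} [CommGroup A] [Group G] [MulDistribMulAction G A] {g : G}
    {E : Subgroup A} {u : A} : u ∈ S g E ↔ ∃ v ∈ E, u = v / g • v := Iff.rfl

/-- From triviality of `H¹` up to exponents prime to `p` to triviality of `H¹`. -/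
theorem exact_H1 {A G : Type} [CommGroup A] [Group G] [MulDistribMulAction G A] (g : G)
    (E : Subgroup A) (hE : ∀ u ∈ E, g • u ∈ E) (p m : ℕ) (hm : m.Coprime p) (u : A) (hu : u ∈ E)
    (hN : ∏ i ∈ range p, g ^ i • u = 1) (h : u ^ m ∈ S g E) : u ∈ S g E := by
  have hpow : ∀ i : ℕ, g ^ i • u ∈ E := by
    intro i
    induction i with
    | zero => rwa [pow_zero, one_smul]
    | succ i ih =>
      rw [pow_succ', mul_smul]
      exact hE _ ih
  have h1 : ∀ i : ℕ, u / g ^ i • u ∈ S g E := by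
    intro i
    induction i with
    | zero =>
      rw [pow_zero, one_smul, div_self']
      exact one_mem _
    | succ i ih =>
      have h2 : g ^ i • u / g • (g ^ i • u) ∈ S g E := ⟨_, hpow i, rfl⟩
      have h3 := mul_mem ih h2
      rw [div_mul_div_cancel] at h3
      rw [pow_succ', mul_smul]
      exact h3
  have h2 : u ^ p ∈ S g E := by
    have h3 : ∏ i ∈ range p, (u / g ^ i • u) ∈ S g E := prod_mem fun i _ => h1 i
    rw [Finset.prod_div_distrib, hN, div_one, Finset.prod_const, card_range] at h3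
    exact h3
  have h3 := Nat.gcd_eq_gcd_ab m p
  rw [Nat.Coprime.gcd_eq_one hm] at h3
  have h4 : u = (u ^ m) ^ (Nat.gcdA m p) * (u ^ p) ^ (Nat.gcdB m p) := by
    rw [← zpow_natCast u m, ← zpow_natCast u p, ← zpow_mul, ← zpow_mul, ← zpow_add, ← h3]
    simp
  rw [h4]
  exact mul_mem (zpow_mem h _) (zpow_mem h2 _)

/-- The norm as a product over the powers of a generator. -/
theorem prod_range_eq {A G : Type} [CommGroup A] [Group G] [Fintype G] [MulDistribMulAction G A]
    (g : G) (p : ℕ) (hp : p.Prime) (hG : Fintype.card G = p) (hg : g ≠ 1) (u : A) :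
    ∏ i ∈ range p, g ^ i • u = ∏ τ : G, τ • u := by
  have ho : orderOf g = p := by
    have h1 : orderOf g ∣ p := hG ▸ orderOf_dvd_card
    rcases (Nat.dvd_prime hp).mp h1 with h2 | h2
    · exact absurd (orderOf_eq_one_iff.mp h2) hg
    · exact h2
  symm
  have h2 : Function.Bijective (fun i : Fin p => g ^ (i : ℕ)) := by
    rw [Fintype.bijective_iff_injective_and_card]
    refine ⟨?_, by rw [Fintype.card_fin, hG]⟩
    intro i j hij
    apply Fin.ext
    have h3 := pow_injOn_Iio_orderOf (x := g)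
    rw [ho] at h3
    exact h3 i.2 j.2 hij
  rw [← Fin.prod_univ_eq_prod_range (fun i => g ^ i • u) p]
  exact (Function.Bijective.prod_comp h2 (fun τ => τ • u)).symm

/-- A fixed point of a generator is a fixed point of the group. -/
theorem fixed {A G : Type} [Group G] [Fintype G] [MulAction G A]
    (g : G) (p : ℕ) (hp : p.Prime) (hG : Fintype.card G = p) (hg : g ≠ 1) (u : A)
    (hu : g • u = u) (τ : G) : τ • u = u := by
  have : Fact p.Prime := ⟨hp⟩
  have h1 : τ ∈ Subgroup.zpowers g := by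
    apply mem_zpowers_of_prime_card (p := p)
    · rw [Nat.card_eq_fintype_card, hG]
    · exact hg
  have h2 : Subgroup.zpowers g ≤ MulAction.stabilizer G u := by
    rw [Subgroup.zpowers_le]
    exact hu
  exact h2 h1

end UNIT

theorem UNIT_thm (hSQ : SQ) (hABSH : ABSH) (hHERB : HERB) (hH90 : H90) (hINV : INV)
    (hRKU : RKU) (hRKF : RKF) : UNIT := by
  intro p hp F K M L _ _ _ _ _ _ _ _ _ _ _ _ _ _ _ hsq hL hM hram hrel
  obtain ⟨galKL, galML, hdeg, hcomm, ρ, hρ⟩ := hSQ p F K M L hsq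
  have hcard : Fintype.card (L ≃ₐ[K] L) = p := by
    rw [← Nat.card_eq_fintype_card, IsGalois.card_aut_eq_finrank, hsq.degL]
  obtain ⟨g0, hg0⟩ : ∃ g0 : L ≃ₐ[K] L, g0 ≠ 1 := by
    have : Nontrivial (L ≃ₐ[K] L) := by
      rw [← Fintype.one_lt_card_iff_nontrivial, hcard]
      exact hp.out.one_lt
    exact exists_ne 1
  have hg0p : g0 ^ p = 1 := by
    rw [← hcard]
    exact pow_card_eq_one
  have hc : ∀ (σ : L ≃ₐ[M] L) (x : Lˣ), σ • g0 • x = g0 • σ • x := by
    intro σ x
    apply Units.ext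
    exact hcomm σ g0 x
  -- stability of the relative units
  have hst : ∀ u ∈ relU M L, g0 • u ∈ relU M L := by
    rintro u ⟨hu1, hu2⟩
    refine ⟨?_, ?_⟩
    · rw [← smul_prin, hu1, smul_one]
    · simp only [hc]
      rw [← Finset.smul_prod', hu2, smul_one]
  -- the transition to automorphisms over `F`
  obtain ⟨r, hr⟩ : ∃ r : (L ≃ₐ[M] L) →* (L ≃ₐ[F] L), r = AlgEquiv.restrictScalarsHom F :=
    ⟨_, rfl⟩
  obtain ⟨g, hg⟩ : ∃ g : L ≃ₐ[F] L, g = AlgEquiv.restrictScalarsHom F g0 := ⟨_, rfl⟩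
  have hgx : ∀ (i : ℕ) (x : Lˣ), g ^ i • x = g0 ^ i • x := by
    intro i x
    rw [hg, ← map_pow]
    rfl
  have hgx1 : ∀ (x : Lˣ), g • x = g0 • x := by
    intro x
    rw [hg]
    rfl
  have hgb : ∀ (x : J L), g • x = g0 • x := by
    intro x
    rw [hg]
    rfl
  have hrx : ∀ (σ : L ≃ₐ[M] L) (x : Lˣ), r σ • x = σ • x := by
    intro σ x
    rw [hr]
    rfl
  have hrb : ∀ (σ : L ≃ₐ[M] L) (x : J L), r σ • x = σ • x := by
    intro σ x
    rw [hr]
    rfl
  have hD : (Fintype.card (L ≃ₐ[M] L)).Coprime p := by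
    rw [← Nat.card_eq_fintype_card, IsGalois.card_aut_eq_finrank, hdeg]
    exact hsq.cop
  have hmain := hABSH p Lˣ (J L) (L ≃ₐ[F] L) (L ≃ₐ[M] L) r g prin hD
    (by rw [hg, ← map_pow, hg0p, map_one])
    (by
      intro δ
      rw [hr, hg]
      apply AlgEquiv.ext
      intro x
      exact hcomm δ g0 x)
    (fun σ x => (smul_prin σ x).symm)
    (by
      intro x hx
      simp only [hgx] at hx
      obtain ⟨y, hy⟩ := hH90 p K L g0 hsq.degL hg0 x hx
      exact ⟨y, by rw [hgx1, hy]⟩)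
    (by
      intro b hb1 hb2
      rw [hgb] at hb1
      simp only [hrb] at hb2
      obtain ⟨m, hm, γ, hγ⟩ := hINV p F K M L hsq hrel hram b
        (UNIT.fixed g0 p hp.out hcard hg0 b hb1) hb2
      refine ⟨m, hm, Units.map (algebraMap K L : K →* L) γ, ?_, hγ⟩
      rw [hgx1]
      apply Units.ext
      exact g0.commutes _)
  -- the exact statement
  have hH1 : ∀ u ∈ relU M L, ∏ i ∈ range p, g0 ^ i • u = 1 → ∃ v ∈ relU M L, u = v / g0 • v := by
    intro u hu hN
    obtain ⟨m, hm, v, hv1, hv2, hv3⟩ := hmain u hu.1 (by simp only [hrx]; exact hu.2)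
      (by simp only [hgx]; exact hN)
    simp only [hrx] at hv2
    rw [hgx1] at hv3
    exact UNIT.exact_H1 g0 (relU M L) hst p m hm u hu hN ⟨v, ⟨hv1, hv2⟩, hv3⟩
  intro e he
  obtain ⟨η, hη, heq⟩ := hHERB p Lˣ (L ≃ₐ[K] L) g0 (relU M L) (relUfix K M L) hg0p (hRKU M L).1
    hst
    (by
      intro u
      constructor
      · rintro ⟨h1, h2⟩
        exact ⟨h1, h2 g0⟩
      · rintro ⟨h1, h2⟩
        exact ⟨h1, UNIT.fixed g0 p hp.out hcard hg0 u h2⟩)
    hH1 (hRKF p F K M L hsq hL hM) e he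
  refine ⟨η, hη, ?_⟩
  rw [heq, UNIT.prod_range_eq g0 p hp.out hcard hg0]

end Pool.Agent.RI
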