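import Pool.Agent.RI.ABSH
import Pool.Agent.RI.ABS
import Pool.Agent.RI.COUNTACT
import Pool.Agent.RI.COUNTEXT
import Pool.Agent.RI.INVI
import Pool.Agent.RI.EXTACT
import Pool.Agent.RI.CL
import Pool.Agent.RI.SQ
import Pool.Agent.RI.INV
import Pool.Agent.RI.H90
import Pool.Agent.RI.STEP
import Pool.Agent.RI.RAMB
import Pool.Agent.RI.INF
import Pool.Agent.RI.NSN
import Pool.Agent.RI.LAY
import Pool.Agent.RI.BASE
import Pool.Agent.RI.BCH
import Pool.Agent.RI.CHIEF
import Pool.Agent.RI.TSTEP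
import Pool.Agent.RI.HERB
import Pool.Agent.RI.RKU
import Pool.Agent.RI.RKF
import Pool.Agent.RI.UNIT
import Pool.Agent.RI.RAM
import Pool.Agent.RI.MAINA
import Pool.Agent.RI.MAINC

/-!
# The relative Iwasawa theorem
-/

namespace Pool.Agent.RI

theorem finalINV : INV :=
  INV_thm SQ_thm COUNTACT_thm (INVI_thm COUNTACT_thm COUNTEXT_thm) EXTACT_thm

theorem finalUNIT : UNIT :=
  UNIT_thm SQ_thm ABSH_thm HERB_thm H90_thm finalINV RKU_thm (RKF_thm SQ_thm RKU_thm)

theorem finalSTEP : STEP := STEP_thm SQ_thm ABS_thm H90_thm finalINV finalUNIT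

theorem finalTSTEP : TSTEP := TSTEP_thm finalSTEP NSN_thm RAMB_thm INF_thm BCH_thm

theorem finalA : MAINA := MAINA_thm (BASE_thm CL_thm) BCH_thm CHIEF_thm finalTSTEP

theorem finalC : MAINC := MAINC_thm finalA LAY_thm BCH_thm RAM_thm

end Pool.Agent.RI
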