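import Pool.Agent.RI.Stmts
import Pool.Agent.RI.Basic

/-!
# GALB: a Galois element that generates the groups of all conjugates
-/

set_option autoImplicit false

open NumberField

namespace Pool.Agent.RI

namespace GALB

/-! ### Group theory -/

theorem grp (h : GEN2) {G C₁ : Type} [Group G] [Finite G] [Group C₁] [IsCyclic C₁]
    (A B C : Subgroup G) (hBn : B.Normal) (φ : B →* C₁) (hφ : Function.Surjective φ)
    (hker : ∀ b : B, φ b = 1 → (b : G) ∈ C)
    (hA : ∀ a ∈ A, ∀ c ∈ C, a * c * a⁻¹ ∈ C)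
    (hidx : ∀ x y : G, x ∉ A → y ∉ A → x⁻¹ * y ∈ A) :
    ∃ σ ∈ B, ∀ τ : G, ∀ ρ ∈ B, ∃ j : ℤ, ρ * (τ * σ ^ j * τ⁻¹)⁻¹ ∈ C := by
  obtain ⟨τ₀, hτ₀⟩ : ∃ τ₀ : G, ∀ τ : G, τ ∉ A → τ * τ₀⁻¹ ∈ A := by
    by_cases hA' : ∃ t, t ∉ A
    · obtain ⟨t, ht⟩ := hA'
      refine ⟨t, fun τ hτ => ?_⟩
      have h1 := hidx τ⁻¹ t⁻¹ (fun h => hτ (by simpa using A.inv_mem h))
        (fun h => ht (by simpa using A.inv_mem h))
      rwa [inv_inv] at h1
    · push Not at hA'
      exact ⟨1, fun τ hτ => absurd (hA' τ) hτ⟩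
  have hfin : Finite C₁ := Finite.of_surjective φ hφ
  let φ₂ : B →* C₁ := φ.comp (MulAut.conjNormal τ₀ : B ≃* B).toMonoidHom
  have hφ₂ : Function.Surjective φ₂ := hφ.comp (MulAut.conjNormal τ₀ : B ≃* B).surjective
  have hcomm : ∀ a b : C₁, a * b = b * a := by
    let _ := IsCyclic.commGroup (α := C₁)
    exact fun a b => mul_comm a b
  let ψ : B →* C₁ × C₁ := φ.prod φ₂
  let _ : CommGroup ψ.range :=
    { (inferInstance : Group ψ.range) with
      mul_comm := fun a b => Subtype.ext (Prod.ext (hcomm _ _) (hcomm _ _)) }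
  have hs₁ : Function.Surjective ((MonoidHom.fst C₁ C₁).comp ψ.range.subtype) := by
    intro c
    obtain ⟨b, hb⟩ := hφ c
    exact ⟨⟨ψ b, ⟨b, rfl⟩⟩, hb⟩
  have hs₂ : Function.Surjective ((MonoidHom.snd C₁ C₁).comp ψ.range.subtype) := by
    intro c
    obtain ⟨b, hb⟩ := hφ₂ c
    exact ⟨⟨ψ b, ⟨b, rfl⟩⟩, hb⟩
  obtain ⟨⟨_, ⟨σ, rfl⟩⟩, hx₁, hx₂⟩ := h ψ.range C₁ C₁
    ((MonoidHom.fst C₁ C₁).comp ψ.range.subtype) ((MonoidHom.snd C₁ C₁).comp ψ.range.subtype)
    hs₁ hs₂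
  have hg₁ : Subgroup.zpowers (φ σ) = ⊤ := hx₁
  have hg₂ : Subgroup.zpowers (φ₂ σ) = ⊤ := hx₂
  refine ⟨σ, σ.2, fun τ ρ hρ => ?_⟩
  have hbB : τ⁻¹ * ρ * τ ∈ B := by
    have := hBn.conj_mem ρ hρ τ⁻¹
    rwa [inv_inv] at this
  obtain ⟨b, hb⟩ : ∃ b : B, (b : G) = τ⁻¹ * ρ * τ := ⟨⟨_, hbB⟩, rfl⟩
  by_cases hτ : τ ∈ A
  · have h1 : φ b ∈ Subgroup.zpowers (φ σ) := by rw [hg₁]; exact Subgroup.mem_top _
    obtain ⟨j, hj⟩ := Subgroup.mem_zpowers_iff.1 h1
    refine ⟨j, ?_⟩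
    have h2 : φ (b * (σ ^ j)⁻¹) = 1 := by
      rw [map_mul, map_inv, map_zpow, hj, mul_inv_cancel]
    have h3 := hA τ hτ _ (hker _ h2)
    have h4 : τ * ((b * (σ ^ j)⁻¹ : B) : G) * τ⁻¹ = ρ * (τ * (σ : G) ^ j * τ⁻¹)⁻¹ := by
      rw [Subgroup.coe_mul, Subgroup.coe_inv, Subgroup.coe_zpow, hb]
      group
    rwa [h4] at h3
  · have h1 : φ₂ b ∈ Subgroup.zpowers (φ₂ σ) := by rw [hg₂]; exact Subgroup.mem_top _
    obtain ⟨j, hj⟩ := Subgroup.mem_zpowers_iff.1 h1
    refine ⟨j, ?_⟩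
    have h2 : φ₂ (b * (σ ^ j)⁻¹) = 1 := by
      rw [map_mul, map_inv, map_zpow, hj, mul_inv_cancel]
    have h3 := hA _ (hτ₀ τ hτ) _ (hker _ h2)
    have h5 : (((MulAut.conjNormal τ₀ : B ≃* B).toMonoidHom (b * (σ ^ j)⁻¹) : B) : G) =
        τ₀ * ((b * (σ ^ j)⁻¹ : B) : G) * τ₀⁻¹ := MulAut.conjNormal_apply _ _
    have h4 : τ * τ₀⁻¹ * (((MulAut.conjNormal τ₀ : B ≃* B).toMonoidHom (b * (σ ^ j)⁻¹) : B) : G) *
        (τ * τ₀⁻¹)⁻¹ = ρ * (τ * (σ : G) ^ j * τ⁻¹)⁻¹ := by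
      rw [h5, Subgroup.coe_mul, Subgroup.coe_inv, Subgroup.coe_zpow, hb]
      group
    rwa [h4] at h3

/-! ### Automorphisms that fix a subfield -/

/-- The automorphisms of `L` that fix the elements of `E`. -/
def fixG (L E : IntermediateField ℚ ℂ) : Subgroup (L ≃ₐ[ℚ] L) where
  carrier := {g | ∀ x : L, (x : ℂ) ∈ E → g x = x}
  mul_mem' := by
    intro a b ha hb x hx
    have h1 : (a * b) x = a (b x) := rfl
    rw [h1, hb x hx, ha x hx]
  one_mem' := fun x _ => rfl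
  inv_mem' := by
    intro a ha x hx
    exact (AlgEquiv.symm_apply_eq a).2 (ha x hx).symm

theorem mem_fixG {L E : IntermediateField ℚ ℂ} {g : L ≃ₐ[ℚ] L} :
    g ∈ fixG L E ↔ ∀ x : L, (x : ℂ) ∈ E → g x = x := Iff.rfl

/-- A normal subfield is stable. -/
theorem stab {k K L : IntermediateField ℚ ℂ} (hkK : k ≤ K) (hKL : K ≤ L)
    (hgal : Normal k (IntermediateField.extendScalars hkK)) (g : L ≃ₐ[ℚ] L)
    (hg : g ∈ fixG L k) (x : L) (hx : (x : ℂ) ∈ K) : ((g x : L) : ℂ) ∈ K := by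
  let f : IntermediateField.extendScalars hkK →ₐ[k] ℂ :=
    { toFun := fun y => ((g ⟨y.1, hKL y.2⟩ : L) : ℂ)
      map_one' := congrArg (fun z : L => (z : ℂ)) (map_one g)
      map_mul' := fun a b => congrArg (fun z : L => (z : ℂ))
        (map_mul g ⟨a.1, hKL a.2⟩ ⟨b.1, hKL b.2⟩)
      map_zero' := congrArg (fun z : L => (z : ℂ)) (map_zero g)
      map_add' := fun a b => congrArg (fun z : L => (z : ℂ))
        (map_add g ⟨a.1, hKL a.2⟩ ⟨b.1, hKL b.2⟩)
      commutes' := fun a => congrArg (fun z : L => (z : ℂ)) (hg ⟨a.1, hKL (hkK a.2)⟩ a.2) }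
  have h1 : f.fieldRange = IntermediateField.extendScalars hkK := AlgHom.fieldRange_of_normal f
  have h2 : f ⟨x, hx⟩ ∈ f.fieldRange := ⟨_, rfl⟩
  rw [h1] at h2
  exact h2

/-- A subfield normal over `ℚ` is stable. -/
theorem stabQ {F L : IntermediateField ℚ ℂ} (hFL : F ≤ L) (hgal : Normal ℚ F) (g : L ≃ₐ[ℚ] L)
    (x : L) (hx : (x : ℂ) ∈ F) : ((g x : L) : ℂ) ∈ F := by
  let f : F →ₐ[ℚ] ℂ := (L.val.comp g.toAlgHom).comp (IntermediateField.inclusion hFL)
  have hn : @Normal ℚ F _ _ (IntermediateField.algebra' F) := hgal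
  have h1 : f.fieldRange = F := AlgHom.fieldRange_of_normal f
  have h2 : f ⟨x, hx⟩ ∈ f.fieldRange := ⟨_, rfl⟩
  rw [h1] at h2
  exact h2

/-- Restriction to `K`. -/
noncomputable def res {F K L : IntermediateField ℚ ℂ} (hFK : F ≤ K) (hKL : K ≤ L)
    (hgal : Normal F (IntermediateField.extendScalars hFK)) :
    fixG L F →* ((IntermediateField.extendScalars hFK) ≃ₐ[F]
      (IntermediateField.extendScalars hFK)) where
  toFun g :=
    { toFun := fun x => ⟨((g.1 ⟨x.1, hKL x.2⟩ : L) : ℂ), stab hFK hKL hgal g.1 g.2 _ x.2⟩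
      invFun := fun x => ⟨((g.1⁻¹ ⟨x.1, hKL x.2⟩ : L) : ℂ),
        stab hFK hKL hgal g.1⁻¹ (g⁻¹).2 _ x.2⟩
      left_inv := fun x => Subtype.ext (congrArg (fun z : L => (z : ℂ))
        (g.1.symm_apply_apply (⟨x.1, hKL x.2⟩ : L)))
      right_inv := fun x => Subtype.ext (congrArg (fun z : L => (z : ℂ))
        (g.1.apply_symm_apply (⟨x.1, hKL x.2⟩ : L)))
      map_mul' := fun a b => Subtype.ext
        (congrArg (fun z : L => (z : ℂ)) (map_mul g.1 ⟨a.1, hKL a.2⟩ ⟨b.1, hKL b.2⟩))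
      map_add' := fun a b => Subtype.ext
        (congrArg (fun z : L => (z : ℂ)) (map_add g.1 ⟨a.1, hKL a.2⟩ ⟨b.1, hKL b.2⟩))
      commutes' := fun a => Subtype.ext
        (congrArg (fun z : L => (z : ℂ)) (g.2 ⟨a.1, hKL (hFK a.2)⟩ a.2)) }
  map_one' := rfl
  map_mul' _ _ := rfl

theorem res_apply {F K L : IntermediateField ℚ ℂ} (hFK : F ≤ K) (hKL : K ≤ L)
    (hgal : Normal F (IntermediateField.extendScalars hFK)) (g : fixG L F)
    (x : IntermediateField.extendScalars hFK) :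
    ((res hFK hKL hgal g x : IntermediateField.extendScalars hFK) : ℂ) =
      ((g.1 ⟨x.1, hKL x.2⟩ : L) : ℂ) := rfl

theorem res_surjective {F K L : IntermediateField ℚ ℂ} (hFK : F ≤ K) (hKL : K ≤ L)
    (hgal : Normal F (IntermediateField.extendScalars hFK)) (hL : Normal ℚ L) :
    Function.Surjective (res (L := L) hFK hKL hgal) := by
  intro s
  let _ : Algebra K L := algC hKL
  have hst : IsScalarTower ℚ K L := IsScalarTower.of_algebraMap_eq (fun _ => rfl)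
  let χ : K ≃ₐ[ℚ] K :=
    { toFun := fun x => ⟨(s ⟨x.1, x.2⟩).1, (s ⟨x.1, x.2⟩).2⟩
      invFun := fun x => ⟨(s.symm ⟨x.1, x.2⟩).1, (s.symm ⟨x.1, x.2⟩).2⟩
      left_inv := fun x => Subtype.ext (congrArg
        (fun z : IntermediateField.extendScalars hFK => (z : ℂ))
        (s.symm_apply_apply (⟨x.1, x.2⟩ : IntermediateField.extendScalars hFK)))
      right_inv := fun x => Subtype.ext (congrArg
        (fun z : IntermediateField.extendScalars hFK => (z : ℂ))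
        (s.apply_symm_apply (⟨x.1, x.2⟩ : IntermediateField.extendScalars hFK)))
      map_mul' := fun a b => Subtype.ext (congrArg
        (fun z : IntermediateField.extendScalars hFK => (z : ℂ))
        (map_mul s (⟨a.1, a.2⟩ : IntermediateField.extendScalars hFK) ⟨b.1, b.2⟩))
      map_add' := fun a b => Subtype.ext (congrArg
        (fun z : IntermediateField.extendScalars hFK => (z : ℂ))
        (map_add s (⟨a.1, a.2⟩ : IntermediateField.extendScalars hFK) ⟨b.1, b.2⟩))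
      commutes' := fun a => Subtype.ext (congrArg
        (fun z : IntermediateField.extendScalars hFK => (z : ℂ))
        (s.commutes (algebraMap ℚ F a))) }
  have hχ : ∀ x : K, ((χ.liftNormal L (algebraMap K L x) : L) : ℂ) =
      ((s ⟨x.1, x.2⟩ : IntermediateField.extendScalars hFK) : ℂ) := by
    intro x
    rw [AlgEquiv.liftNormal_commutes]
    rfl
  refine ⟨⟨χ.liftNormal L, ?_⟩, ?_⟩
  · intro x hx
    have h1 := hχ ⟨x.1, hFK hx⟩
    apply Subtype.ext
    have h2 : (algebraMap K L ⟨x.1, hFK hx⟩ : L) = x := rfl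
    rw [h2] at h1
    rw [h1]
    exact congrArg (fun z : IntermediateField.extendScalars hFK => (z : ℂ))
      (s.commutes (⟨x.1, hx⟩ : F))
  · apply AlgEquiv.ext
    intro x
    apply Subtype.ext
    rw [res_apply]
    exact hχ ⟨x.1, x.2⟩

/-- Two automorphisms that are nontrivial on a quadratic field agree on it. -/
theorem quad {k L : IntermediateField ℚ ℂ} (hkL : k ≤ L) (hk : Module.finrank ℚ k = 2)
    (x y : L ≃ₐ[ℚ] L) (hx : x ∉ fixG L k) (hy : y ∉ fixG L k) : x⁻¹ * y ∈ fixG L k := by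
  classical
  have hfd : FiniteDimensional ℚ k := FiniteDimensional.of_finrank_pos (by omega)
  let f : (L ≃ₐ[ℚ] L) → (k →+* ℂ) := fun g =>
    ((L.val.comp g.toAlgHom).comp (IntermediateField.inclusion hkL)).toRingHom
  have hf : ∀ g, (g ∉ fixG L k) → f g ≠ f 1 := by
    intro g hg he
    apply hg
    intro z hz
    have h1 := congrArg (fun h : k →+* ℂ => h ⟨z, hz⟩) he
    exact Subtype.ext h1
  have hcard : Fintype.card (k →+* ℂ) = 2 := by
    rw [NumberField.Embeddings.card k ℂ, hk]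
  have hxy : f x = f y := by
    by_contra hne
    have h3 : ({f 1, f x, f y} : Finset (k →+* ℂ)).card = 3 := by
      rw [Finset.card_eq_three]
      exact ⟨_, _, _, (hf x hx).symm, (hf y hy).symm, hne, rfl⟩
    have h4 := Finset.card_le_univ ({f 1, f x, f y} : Finset (k →+* ℂ))
    omega
  intro z hz
  have h1 := congrArg (fun h : k →+* ℂ => h ⟨z, hz⟩) hxy
  have h2 : x z = y z := Subtype.ext h1
  have h3 : (x⁻¹ * y) z = x.symm (y z) := rfl
  rw [h3, ← h2]
  exact x.symm_apply_apply z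

end GALB

theorem GALB_thm (h : GEN2) : GALB := by
  intro k F K _ hkF hFK hk _ hKk _ hFQ _ hcyc
  let L : IntermediateField ℚ ℂ := IntermediateField.normalClosure ℚ K ℂ
  have hKL : K ≤ L := IntermediateField.le_normalClosure K
  have hFL : F ≤ L := hFK.trans hKL
  have hkL : k ≤ L := hkF.trans hFL
  have hfd : FiniteDimensional ℚ L := inferInstance
  have hnc : IsNormalClosure ℚ K L :=
    Algebra.IsAlgebraic.isNormalClosure_normalClosure
      (fun x => IsAlgClosed.splits _)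
  have hnL : Normal ℚ L := hnc.normal (K := K)
  have hgL : IsGalois ℚ L := ⟨⟩
  have hnk : Normal k (IntermediateField.extendScalars (hkF.trans hFK)) := hKk.to_normal
  have hnF : Normal F (IntermediateField.extendScalars hFK) := by
    have g1 := (isGalois_algC (hkF.trans hFK)).2 hKk
    let _ := algC hkF
    let _ := algC hFK
    let _ := algC (hkF.trans hFK)
    have g2 := towerC hkF hFK
    have g3 : IsGalois F K := IsGalois.tower_top_of_isGalois k F K
    exact ((isGalois_algC hFK).1 g3).to_normal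
  have hgrp := GALB.grp h (GALB.fixG L k) (GALB.fixG L F) (GALB.fixG L K) ?_
    (GALB.res hFK hKL hnF) (GALB.res_surjective hFK hKL hnF hnL) ?_ ?_ ?_
  · obtain ⟨σ, hσ, hσ'⟩ := hgrp
    exact ⟨L, hKL, hfd, hgL, σ, hσ, fun τ ρ hρ => hσ' τ ρ hρ⟩
  · -- normal
    constructor
    intro b hb g x hx
    have h1 : (g * b * g⁻¹) x = g (b (g⁻¹ x)) := rfl
    rw [h1, hb _ (GALB.stabQ hFL hFQ.to_normal g⁻¹ x hx)]
    exact g.apply_symm_apply x
  · -- kernel
    intro b hb x hx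
    have h1 := congrArg (fun s => ((s ⟨x.1, hx⟩ : IntermediateField.extendScalars hFK) : ℂ)) hb
    exact Subtype.ext h1
  · -- conjugation
    intro a ha c hc x hx
    have h1 : (a * c * a⁻¹) x = a (c (a⁻¹ x)) := rfl
    rw [h1, hc _ (GALB.stab (hkF.trans hFK) hKL hnk a⁻¹ (inv_mem ha) x hx)]
    exact a.apply_symm_apply x
  · exact fun x y hx hy => GALB.quad hkL hk x y hx hy

end Pool.Agent.RI
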