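import Pool.Agent.RI.Stmts2
import Pool.Agent.RI.GALB

/-!
# GALE: the Galois group of the Galois closure of `K`, `K / k` cyclic, `K ∩ conj K = k`
-/

set_option autoImplicit false

open NumberField

namespace Pool.Agent.RI

namespace GALE

/-- Complex conjugation over `ℚ`. -/
noncomputable def cj : ℂ →ₐ[ℚ] ℂ :=
  { toRingHom := starRingEnd ℂ
    commutes' := fun q => by
      change (starRingEnd ℂ) (algebraMap ℚ ℂ q) = algebraMap ℚ ℂ q
      rw [eq_ratCast]
      exact map_ratCast (starRingEnd ℂ) q }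

theorem cj_apply (z : ℂ) : cj z = (starRingEnd ℂ) z := rfl

/-- A normal subfield is stable under complex conjugation. -/
theorem conj_mem {L : IntermediateField ℚ ℂ} (hn : Normal ℚ L) (x : ℂ) (hx : x ∈ L) :
    (starRingEnd ℂ) x ∈ L := by
  have hn' : @Normal ℚ L _ _ (IntermediateField.algebra' L) := hn
  let f : L →ₐ[ℚ] ℂ := cj.comp L.val
  have h1 : f.fieldRange = L := AlgHom.fieldRange_of_normal f
  have h2 : f ⟨x, hx⟩ ∈ f.fieldRange := ⟨_, rfl⟩
  rw [h1] at h2
  exact h2

/-- Complex conjugation on `L`. -/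
noncomputable def conjL {L : IntermediateField ℚ ℂ} (hn : Normal ℚ L) : L ≃ₐ[ℚ] L where
  toFun x := ⟨(starRingEnd ℂ) x, conj_mem hn x x.2⟩
  invFun x := ⟨(starRingEnd ℂ) x, conj_mem hn x x.2⟩
  left_inv x := Subtype.ext (Complex.conj_conj (x : ℂ))
  right_inv x := Subtype.ext (Complex.conj_conj (x : ℂ))
  map_mul' a b := Subtype.ext (map_mul (starRingEnd ℂ) (a : ℂ) (b : ℂ))
  map_add' a b := Subtype.ext (map_add (starRingEnd ℂ) (a : ℂ) (b : ℂ))
  commutes' q := Subtype.ext (cj.commutes q)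

theorem conjL_apply {L : IntermediateField ℚ ℂ} (hn : Normal ℚ L) (x : L) :
    ((conjL hn x : L) : ℂ) = (starRingEnd ℂ) (x : ℂ) := rfl

theorem conjL_inv {L : IntermediateField ℚ ℂ} (hn : Normal ℚ L) : (conjL hn)⁻¹ = conjL hn := by
  rw [inv_eq_iff_mul_eq_one]
  apply AlgEquiv.ext
  intro x
  exact Subtype.ext (Complex.conj_conj (x : ℂ))

/-- An embedding of `K` that is trivial on `k` has image `K`. -/
theorem rng {k K : IntermediateField ℚ ℂ} (hkK : k ≤ K)
    (hnk : Normal k (IntermediateField.extendScalars hkK)) (f : K →ₐ[ℚ] ℂ)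
    (hf : ∀ z (hz : z ∈ k), f ⟨z, hkK hz⟩ = z) (y : K) : f y ∈ K := by
  let f' : IntermediateField.extendScalars hkK →ₐ[k] ℂ :=
    { toFun := fun y => f ⟨y.1, y.2⟩
      map_one' := map_one f
      map_mul' := fun a b => map_mul f ⟨a.1, a.2⟩ ⟨b.1, b.2⟩
      map_zero' := map_zero f
      map_add' := fun a b => map_add f ⟨a.1, a.2⟩ ⟨b.1, b.2⟩
      commutes' := fun a => hf a.1 a.2 }
  have h1 : f'.fieldRange = IntermediateField.extendScalars hkK := AlgHom.fieldRange_of_normal f'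
  have h2 : f' ⟨y.1, y.2⟩ ∈ f'.fieldRange := ⟨_, rfl⟩
  rw [h1] at h2
  exact h2

/-- The embeddings of an imaginary quadratic field. -/
theorem two {k : IntermediateField ℚ ℂ} (hk : Module.finrank ℚ k = 2)
    (hz : ∃ z ∈ k, (starRingEnd ℂ) z ≠ z) (f : k →+* ℂ) :
    (∀ z : k, f z = z) ∨ (∀ z : k, (starRingEnd ℂ) (f z) = z) := by
  classical
  have hfd : FiniteDimensional ℚ k := FiniteDimensional.of_finrank_pos (by omega)
  let g1 : k →+* ℂ := k.val.toRingHom
  let g2 : k →+* ℂ := (starRingEnd ℂ).comp k.val.toRingHom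
  have h12 : g1 ≠ g2 := by
    intro he
    obtain ⟨z, hzk, hz'⟩ := hz
    exact hz' (congrArg (fun h : k →+* ℂ => h ⟨z, hzk⟩) he).symm
  have hcard : Fintype.card (k →+* ℂ) = 2 := by
    rw [NumberField.Embeddings.card k ℂ, hk]
  by_cases h1 : f = g1
  · left
    intro z
    rw [h1]
    rfl
  · right
    by_cases h2 : f = g2
    · intro z
      rw [h2]
      exact Complex.conj_conj (z : ℂ)
    · exfalso
      have h3 : ({f, g1, g2} : Finset (k →+* ℂ)).card = 3 := by
        rw [Finset.card_eq_three]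
        exact ⟨_, _, _, h1, h2, h12, rfl⟩
      have h4 := Finset.card_le_univ ({f, g1, g2} : Finset (k →+* ℂ))
      omega

/-- An automorphism of the Galois closure which fixes `K` and `conj K` is trivial. -/
theorem triv {k K L : IntermediateField ℚ ℂ} [FiniteDimensional ℚ K] (hkK : k ≤ K)
    (hk : Module.finrank ℚ k = 2) (hz : ∃ z ∈ k, (starRingEnd ℂ) z ≠ z)
    (hnk : Normal k (IntermediateField.extendScalars hkK)) (hKL : K ≤ L) (hn : Normal ℚ L)
    (hL : L ≤ IntermediateField.normalClosure ℚ K ℂ) (a : L ≃ₐ[ℚ] L)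
    (h1 : ∀ x : L, (x : ℂ) ∈ K → a x = x)
    (h2 : ∀ x : L, (starRingEnd ℂ) (x : ℂ) ∈ K → a x = x) : a = 1 := by
  let E0 : IntermediateField ℚ L := IntermediateField.fixedField (Subgroup.zpowers a)
  let E : IntermediateField ℚ ℂ := IntermediateField.lift E0
  have hE0 : ∀ x : L, a x = x → x ∈ E0 := by
    intro x hx
    rw [IntermediateField.mem_fixedField_iff]
    intro g hg
    obtain ⟨j, rfl⟩ := Subgroup.mem_zpowers_iff.1 hg
    have h3 : a ∈ MulAction.stabilizer (L ≃ₐ[ℚ] L) x := hx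
    exact Subgroup.zpow_mem _ h3 j
  have hE : ∀ x : L, a x = x → (x : ℂ) ∈ E := fun x hx =>
    (IntermediateField.mem_lift x).2 (hE0 x hx)
  have hle : IntermediateField.normalClosure ℚ K ℂ ≤ E := by
    rw [normalClosure_le_iff]
    rintro f _ ⟨y, rfl⟩
    change f y ∈ E
    let fk : k →+* ℂ := (f.comp (IntermediateField.inclusion hkK)).toRingHom
    rcases two hk hz fk with h | h
    · have h3 : f y ∈ K := rng hkK hnk f (fun z hz' => h ⟨z, hz'⟩) y
      exact hE ⟨f y, hKL h3⟩ (h1 _ h3)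
    · have h3 : (starRingEnd ℂ) (f y) ∈ K :=
        rng hkK hnk (cj.comp f) (fun z hz' => h ⟨z, hz'⟩) y
      have h4 : f y ∈ L := by
        have h5 := conj_mem hn _ (hKL h3)
        rwa [Complex.conj_conj] at h5
      exact hE ⟨f y, h4⟩ (h2 _ h3)
  apply AlgEquiv.ext
  intro x
  have h3 : (x : ℂ) ∈ E := hle (hL x.2)
  have h4 : x ∈ E0 := (IntermediateField.mem_lift x).1 h3
  rw [IntermediateField.mem_fixedField_iff] at h4
  exact h4 a (Subgroup.mem_zpowers a)

/-- The Galois correspondence for the group `fixG`. -/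
theorem mem_of_fixed {K L : IntermediateField ℚ ℂ} [FiniteDimensional ℚ L] (hKL : K ≤ L)
    (hL : IsGalois ℚ L) (x : L) (hx : ∀ g ∈ GALB.fixG L K, g x = x) : (x : ℂ) ∈ K := by
  have hL2 : @IsGalois ℚ _ L _ (IntermediateField.algebra' L) := hL
  have h1 : x ∈ IntermediateField.fixedField
      (IntermediateField.fixingSubgroup (IntermediateField.restrict hKL)) := by
    rw [IntermediateField.mem_fixedField_iff]
    intro g hg
    apply hx
    intro y hy
    rw [IntermediateField.mem_fixingSubgroup_iff] at hg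
    exact hg y ((IntermediateField.mem_restrict hKL y).2 hy)
  rw [IsGalois.fixedField_fixingSubgroup] at h1
  exact (IntermediateField.mem_restrict hKL x).1 h1

end GALE

open GALB GALE in
theorem GALE_thm (h : COUNTG) : GALE := by
  intro k K _ hkK hk hz hKk hcyc hcap
  let L : IntermediateField ℚ ℂ := IntermediateField.normalClosure ℚ K ℂ
  have hKL : K ≤ L := IntermediateField.le_normalClosure K
  have hkL : k ≤ L := hkK.trans hKL
  have hfd : FiniteDimensional ℚ L := inferInstance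
  have hnc : IsNormalClosure ℚ K L :=
    Algebra.IsAlgebraic.isNormalClosure_normalClosure
      (fun x => IsAlgClosed.splits _)
  have hnL : Normal ℚ L := hnc.normal (K := K)
  have hgL : IsGalois ℚ L := ⟨⟩
  have hnk : Normal k (IntermediateField.extendScalars hkK) := hKk.to_normal
  have hLle : L ≤ IntermediateField.normalClosure ℚ K ℂ := le_rfl
  clear_value L
  obtain ⟨c, hc⟩ : ∃ c : L ≃ₐ[ℚ] L, c = conjL hnL := ⟨_, rfl⟩
  have hcap' : ∀ x : L, ((c x : L) : ℂ) = (starRingEnd ℂ) (x : ℂ) := by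
    intro x
    rw [hc]
    rfl
  have hcinv : c⁻¹ = c := by rw [hc]; exact conjL_inv hnL
  obtain ⟨N, hN⟩ : ∃ N : Subgroup (L ≃ₐ[ℚ] L), N = fixG L k := ⟨_, rfl⟩
  obtain ⟨H, hH⟩ : ∃ H : Subgroup (L ≃ₐ[ℚ] L), H = fixG L K := ⟨_, rfl⟩
  have hHN : H ≤ N := by
    rw [hH, hN]
    intro g hg x hx
    exact hg x (hkK hx)
  have hcN : c ∉ N := by
    rw [hN]
    intro hc'
    obtain ⟨z, hzk, hz'⟩ := hz
    apply hz'
    have h1 := hc' ⟨z, hkL hzk⟩ hzk
    have h2 := congrArg (fun y : L => (y : ℂ)) h1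
    simp only at h2
    rw [hcap'] at h2
    exact h2
  have hquad : ∀ x y : L ≃ₐ[ℚ] L, x ∉ N → y ∉ N → x⁻¹ * y ∈ N := by
    rw [hN]
    exact fun x y hx hy => quad hkL hk x y hx hy
  have hidx : N.index = 2 := by
    rw [Subgroup.index_eq_two_iff]
    refine ⟨c, fun b => ?_⟩
    by_cases hb : b ∈ N
    · right
      refine ⟨hb, fun h1 => hcN ?_⟩
      have h2 := N.mul_mem (N.inv_mem hb) h1
      rwa [inv_mul_cancel_left] at h2
    · left
      refine ⟨?_, hb⟩
      have h1 : b⁻¹ ∉ N := fun h2 => hb (by simpa using N.inv_mem h2)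
      have h2 := hquad b⁻¹ c h1 hcN
      rwa [inv_inv] at h2
  have hNn : N.Normal := Subgroup.normal_of_index_eq_two hidx
  have hinj : ∀ a ∈ H, c * a * c⁻¹ ∈ H → a = 1 := by
    intro a ha hca
    rw [hH] at ha hca
    refine triv hkK hk hz hnk hKL hnL hLle a ha ?_
    intro x hx
    have h1 := hca (c x) (by rw [hcap']; exact hx)
    have h2 : (c * a * c⁻¹) (c x) = c (a x) := by
      have h3 : c⁻¹ (c x) = x := c.symm_apply_apply x
      change c (a (c⁻¹ (c x))) = _
      rw [h3]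
    rw [h2] at h1
    exact c.injective h1
  -- the restriction to `K`
  obtain ⟨r, hr⟩ : ∃ r : fixG L k →* ((IntermediateField.extendScalars hkK) ≃ₐ[k]
      (IntermediateField.extendScalars hkK)), r = res hkK hKL hnk := ⟨_, rfl⟩
  have hrs : Function.Surjective r := by
    rw [hr]
    exact res_surjective hkK hKL hnk hnL
  have hrk : ∀ b : fixG L k, r b = 1 → (b : L ≃ₐ[ℚ] L) ∈ H := by
    intro b hb
    rw [hH]
    intro x hx
    rw [hr] at hb
    have h1 := congrArg (fun s => ((s ⟨x.1, hx⟩ : IntermediateField.extendScalars hkK) : ℂ)) hb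
    exact Subtype.ext h1
  have hrk' : ∀ b : fixG L k, (b : L ≃ₐ[ℚ] L) ∈ H → r b = 1 := by
    intro b hb
    rw [hH] at hb
    rw [hr]
    apply AlgEquiv.ext
    intro x
    apply Subtype.ext
    rw [res_apply]
    exact congrArg (fun y : L => (y : ℂ)) (hb ⟨x.1, hKL x.2⟩ x.2)
  have hcomm0 : ∀ a b : ((IntermediateField.extendScalars hkK) ≃ₐ[k]
      (IntermediateField.extendScalars hkK)), a * b = b * a := by
    let _ := IsCyclic.commGroup (α := ((IntermediateField.extendScalars hkK) ≃ₐ[k]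
      (IntermediateField.extendScalars hkK)))
    exact fun a b => mul_comm a b
  have hcommH : ∀ a ∈ N, ∀ b ∈ N, a * b * a⁻¹ * b⁻¹ ∈ H := by
    intro a ha b hb
    rw [hN] at ha hb
    have h1 := hrk (⟨a, ha⟩ * ⟨b, hb⟩ * ⟨a, ha⟩⁻¹ * ⟨b, hb⟩⁻¹) (by
      rw [map_mul, map_mul, map_mul, map_inv, map_inv, hcomm0 (r ⟨a, ha⟩) (r ⟨b, hb⟩)]
      group)
    exact h1
  have habel : ∀ a ∈ N, ∀ b ∈ N, a * b = b * a := by
    intro a ha b hb
    have h1 := hcommH a ha b hb
    have h2 := hcommH _ (hNn.conj_mem a ha c) _ (hNn.conj_mem b hb c)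
    have h3 : c * (a * b * a⁻¹ * b⁻¹) * c⁻¹ =
        c * a * c⁻¹ * (c * b * c⁻¹) * (c * a * c⁻¹)⁻¹ * (c * b * c⁻¹)⁻¹ := by group
    have h4 := hinj _ h1 (by rw [h3]; exact h2)
    have h5 : a * b = (a * b * a⁻¹ * b⁻¹) * (b * a) := by group
    rw [h5, h4, one_mul]
  have hrel : H.relIndex N = Module.finrank k (IntermediateField.extendScalars hkK) := by
    have h1 : H.subgroupOf N = (r.comp (MulEquiv.subgroupCongr hN).toMonoidHom).ker := by
      ext b
      rw [Subgroup.mem_subgroupOf, MonoidHom.mem_ker]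
      constructor
      · intro hb
        exact hrk' _ hb
      · intro hb
        exact hrk _ hb
    have h2 : Function.Surjective (r.comp (MulEquiv.subgroupCongr hN).toMonoidHom) :=
      hrs.comp (MulEquiv.subgroupCongr hN).surjective
    have hfdk : FiniteDimensional k (IntermediateField.extendScalars hkK) := by
      let _ := algC hkK
      have hst : IsScalarTower ℚ k K := IsScalarTower.of_algebraMap_eq (fun _ => rfl)
      have h3 : FiniteDimensional k K := FiniteDimensional.right ℚ k K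
      exact (extEquiv hkK).symm.toLinearEquiv.finiteDimensional
    rw [Subgroup.relIndex, h1, Subgroup.index_ker, MonoidHom.range_eq_top.2 h2,
      Subgroup.card_top]
    exact IsGalois.card_aut_eq_finrank k (IntermediateField.extendScalars hkK)
  have hgen : ∀ a ∈ N, ∃ x ∈ H, ∃ y ∈ H, a = x * (c * y * c⁻¹) := by
    let S : Subgroup (L ≃ₐ[ℚ] L) :=
      { carrier := {g | ∃ x ∈ H, ∃ y ∈ H, g = x * (c * y * c⁻¹)}
        one_mem' := ⟨1, H.one_mem, 1, H.one_mem, by group⟩
        mul_mem' := by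
          rintro _ _ ⟨x, hx, y, hy, rfl⟩ ⟨x', hx', y', hy', rfl⟩
          refine ⟨x * x', H.mul_mem hx hx', y * y', H.mul_mem hy hy', ?_⟩
          have h1 := habel _ (hNn.conj_mem y (hHN hy) c) _ (hHN hx')
          calc x * (c * y * c⁻¹) * (x' * (c * y' * c⁻¹))
              = x * ((c * y * c⁻¹) * x') * (c * y' * c⁻¹) := by group
            _ = x * (x' * (c * y * c⁻¹)) * (c * y' * c⁻¹) := by rw [h1]
            _ = x * x' * (c * (y * y') * c⁻¹) := by group
        inv_mem' := by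
          rintro _ ⟨x, hx, y, hy, rfl⟩
          refine ⟨x⁻¹, H.inv_mem hx, y⁻¹, H.inv_mem hy, ?_⟩
          have h1 := habel _ (hNn.conj_mem y⁻¹ (N.inv_mem (hHN hy)) c) _ (N.inv_mem (hHN hx))
          rw [← h1]
          group }
    have hS1 : ∀ g ∈ H, g ∈ S := fun g hg => ⟨g, hg, 1, H.one_mem, by group⟩
    have hS2 : ∀ g ∈ H, c * g * c⁻¹ ∈ S := fun g hg => ⟨1, H.one_mem, g, hg, by group⟩
    have hfix : ∀ x : L, x ∈ IntermediateField.fixedField S → (x : ℂ) ∈ k := by
      intro x hx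
      rw [IntermediateField.mem_fixedField_iff] at hx
      have h1 : (x : ℂ) ∈ K := mem_of_fixed hKL hgL x fun g hg => hx g (hS1 g (by rw [hH]; exact hg))
      have h2 : ((c⁻¹ x : L) : ℂ) ∈ K := by
        refine mem_of_fixed hKL hgL (c⁻¹ x) fun g hg => ?_
        have h3 := hx _ (hS2 g (by rw [hH]; exact hg))
        have h4 : (c * g * c⁻¹) x = c (g (c⁻¹ x)) := rfl
        rw [h4] at h3
        have h5 : c (c⁻¹ x) = x := c.apply_symm_apply x
        apply c.injective
        rw [h3, h5]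
      rw [hcinv, hcap'] at h2
      exact hcap _ h1 h2
    intro a ha
    have h1 : a ∈ IntermediateField.fixingSubgroup (IntermediateField.fixedField S) := by
      rw [IntermediateField.mem_fixingSubgroup_iff]
      intro x hx
      rw [hN] at ha
      exact ha x (hfix x hx)
    rw [IntermediateField.fixingSubgroup_fixedField] at h1
    exact h1
  have hcyc' : ∃ x ∈ N, ∀ y ∈ N, ∃ j : ℤ, y * (x ^ j)⁻¹ ∈ H := by
    obtain ⟨g0, hg0⟩ := hcyc.exists_generator
    obtain ⟨b, hb⟩ := hrs g0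
    refine ⟨b.1, by rw [hN]; exact b.2, fun y hy => ?_⟩
    rw [hN] at hy
    obtain ⟨j, hj⟩ := Subgroup.mem_zpowers_iff.1 (hg0 (r ⟨y, hy⟩))
    refine ⟨j, ?_⟩
    exact hrk (⟨y, hy⟩ * (b ^ j)⁻¹) (by
      rw [map_mul, map_inv, map_zpow, hb, hj, mul_inv_cancel])
  obtain ⟨h1, h2⟩ := h (L ≃ₐ[ℚ] L) N H c _ hidx hcN habel hHN hrel hinj hgen hcyc'
  refine ⟨L, hKL, hfd, hgL, h1, ?_⟩
  rw [← h2, hN, hH]
  rfl

end Pool.Agent.RI
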