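import Pool.Agent.RI.Basic

/-!
# Positive density of primes with trivial relative `p`-class groups in the cyclotomic tower
-/

open NumberField IsDedekindDomain
open scoped Pointwise

namespace Pool.Agent.RI

namespace MAINB

/-- The subfield `F` of `L` as an intermediate field of `L / ℚ`. -/
noncomputable def inL (F L : IntermediateField ℚ ℂ) : IntermediateField ℚ L := F.comap L.val

lemma mem_inL {F L : IntermediateField ℚ ℂ} (x : L) : x ∈ inL F L ↔ (x : ℂ) ∈ F := Iff.rfl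

/-- `F` and `inL F L` are isomorphic. -/
noncomputable def equivL {F L : IntermediateField ℚ ℂ} (h : F ≤ L) : F ≃ₐ[ℚ] inL F L where
  toFun := fun x => ⟨⟨x.1, h x.2⟩, x.2⟩
  invFun := fun x => ⟨x.1.1, x.2⟩
  left_inv := fun _ => rfl
  right_inv := fun _ => rfl
  map_mul' := fun _ _ => rfl
  map_add' := fun _ _ => rfl
  commutes' := fun _ => rfl

lemma nonsplit_of (hNSF : NSF) {F K L : IntermediateField ℚ ℂ} [FiniteDimensional ℚ L]
    [IsGalois ℚ L] (hFK : F ≤ K) (hKL : K ≤ L) (σ : L ≃ₐ[ℚ] L)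
    (hσ : ∀ τ ρ : L ≃ₐ[ℚ] L, (∀ x : L, (x : ℂ) ∈ F → ρ x = x) →
          ∃ j : ℤ, ∀ x : L, (x : ℂ) ∈ K → (ρ * (τ * σ ^ j * τ⁻¹)⁻¹) x = x)
    (q : ℕ) (hq : q.Prime) (P : Ideal (𝓞 L)) (hP : P.IsPrime) (hqP : (q : 𝓞 L) ∈ P)
    (hst : MulAction.stabilizer (L ≃ₐ[ℚ] L) P = Subgroup.zpowers σ) : Nonsplit q hFK := by
  intro P₁ P₂ hP₁ hP₂ hq₁ hq₂ h12
  have hfK : FiniteDimensional ℚ K := FiniteDimensional.of_injective
    (IntermediateField.inclusion hKL).toLinearMap
    (IntermediateField.inclusion hKL).toRingHom.injective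
  let : Algebra K L := algC hKL
  obtain ⟨⟨Q₁, hQ₁, hQo₁⟩⟩ := Ideal.nonempty_primesOver (S := 𝓞 L) P₁
  obtain ⟨⟨Q₂, hQ₂, hQo₂⟩⟩ := Ideal.nonempty_primesOver (S := 𝓞 L) P₂
  have key := hNSF L (inL F L) (inL K L) σ q P hq hP hqP hst (by
    intro τ ρ hρ
    rw [IntermediateField.mem_fixingSubgroup_iff] at hρ
    obtain ⟨j, hj⟩ := hσ τ ρ (fun x hx => hρ x hx)
    exact ⟨j, by
      rw [IntermediateField.mem_fixingSubgroup_iff]
      exact fun x hx => hj x hx⟩) Q₁ Q₂ hQ₁ hQ₂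
      (by
        have : (q : 𝓞 K) ∈ Q₁.under (𝓞 K) := hQo₁.over ▸ hq₁
        rwa [Ideal.mem_comap, map_natCast] at this)
      (by
        have : (q : 𝓞 K) ∈ Q₂.under (𝓞 K) := hQo₂.over ▸ hq₂
        rwa [Ideal.mem_comap, map_natCast] at this)
      (by
        intro x hx
        -- x comes from F
        have hint : IsIntegral ℤ (⟨((x : L) : ℂ), hx⟩ : F) := by
          have h1 := x.2
          have h2 : IsIntegral ℤ ((x : L) : ℂ) := h1.map L.val.toRingHom.toIntAlgHom
          exact (isIntegral_algebraMap_iff (R := ℤ) (A := F) (B := ℂ)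
            (algebraMap F ℂ).injective).1 h2
        let y : 𝓞 F := ⟨⟨((x : L) : ℂ), hx⟩, hint⟩
        have hy : algebraMap (𝓞 K) (𝓞 L) (RingOfIntegers.mapRingHom
            (IntermediateField.inclusion hFK : F →+* K) y) = x := rfl
        have h1 : x ∈ Q₁ ↔ y ∈ P₁.comap (RingOfIntegers.mapRingHom
            (IntermediateField.inclusion hFK : F →+* K)) := by
          rw [Ideal.mem_comap, hQo₁.over, Ideal.mem_comap, hy]
        have h2 : x ∈ Q₂ ↔ y ∈ P₂.comap (RingOfIntegers.mapRingHom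
            (IntermediateField.inclusion hFK : F →+* K)) := by
          rw [Ideal.mem_comap, hQo₂.over, Ideal.mem_comap, hy]
        rw [h1, h2, h12])
  ext z
  have h := key (algebraMap (𝓞 K) (𝓞 L) z) (by
    show (((z : K) : ℂ)) ∈ K
    exact (z : K).2)
  rw [hQo₁.over, hQo₂.over, Ideal.mem_comap, Ideal.mem_comap]
  exact h

lemma card_of (hSPL : SPL) {F L : IntermediateField ℚ ℂ} [FiniteDimensional ℚ L]
    [IsGalois ℚ L] (hFL : F ≤ L) (hF : IsGalois ℚ F) (σ : L ≃ₐ[ℚ] L)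
    (hσ : ∀ x : L, (x : ℂ) ∈ F → σ x = x)
    (q : ℕ) (hq : q.Prime) (P : Ideal (𝓞 L)) (hP : P.IsPrime) (hqP : (q : 𝓞 L) ∈ P)
    (hst : MulAction.stabilizer (L ≃ₐ[ℚ] L) P = Subgroup.zpowers σ) :
    ∀ Q : Ideal (𝓞 F), Q.IsPrime → (q : 𝓞 F) ∈ Q → Nat.card (𝓞 F ⧸ Q) = q := by
  intro Q hQ hqQ
  have : IsGalois ℚ (inL F L) := IsGalois.of_algEquiv (equivL hFL)
  let e : 𝓞 F ≃+* 𝓞 (inL F L) := RingOfIntegers.mapRingEquiv (equivL hFL).toRingEquiv
  have hle : MulAction.stabilizer (L ≃ₐ[ℚ] L) P ≤ (inL F L).fixingSubgroup := by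
    rw [hst, Subgroup.zpowers_le, IntermediateField.mem_fixingSubgroup_iff]
    exact fun x hx => hσ x hx
  have h := hSPL L (inL F L) q P hq hP hqP hle (Q.map e) (Ideal.map_isPrime_of_equiv e)
    (by
      have := Ideal.mem_map_of_mem e hqQ
      rwa [map_natCast] at this)
  rw [← h]
  exact Nat.card_congr (Ideal.quotientEquiv Q (Q.map e) e rfl).toEquiv

end MAINB

theorem MAINB_thm (hC : MAINC) (hGALB : GALB) (hFROB : FROB) (hNSF : NSF) (hSPL : SPL)
    (hPD : PD) : MAINB := by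
  intro k F K _ hkF hFK hk hz hGk hab hGF habF hcyc
  obtain ⟨L, hKL, hfL, hGL, σ, hσF, hστ⟩ := hGALB k F K hkF hFK hk hz hGk hab hGF habF hcyc
  have hfF : FiniteDimensional ℚ F := FiniteDimensional.of_injective
    (IntermediateField.inclusion hFK).toLinearMap
    (IntermediateField.inclusion hFK).toRingHom.injective
  have hGK : IsGalois F (IntermediateField.extendScalars hFK) := by
    rw [← isGalois_algC]
    rw [← isGalois_algC] at hGk
    let : Algebra k F := algC hkF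
    let : Algebra F K := algC hFK
    let : Algebra k K := algC (hkF.trans hFK)
    have : IsScalarTower k F K := towerC hkF hFK
    exact IsGalois.tower_top_of_isGalois k F K
  have hcard : ∀ E : IntermediateField ℚ ℂ, FiniteDimensional ℚ E → classNo E ≠ 0 := by
    intro E hE
    have : Finite (ClassGroup (𝓞 E)) := Finite.of_fintype _
    exact Nat.card_pos.ne'
  have hdeg0 : Module.finrank F (IntermediateField.extendScalars hFK) ≠ 0 := by
    rw [← finrank_algC]
    let : Algebra F K := algC hFK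
    exact (Module.finrank_pos (R := F) (M := K)).ne'
  refine hPD _ _ ((Module.finrank F (IntermediateField.extendScalars hFK) * classNo K *
    classNo F).primeFactors) (hFROB L σ) ?_
  rintro q ⟨P, hP, hqP, hst⟩ hq hqA
  have hne : Module.finrank F (IntermediateField.extendScalars hFK) * classNo K * classNo F ≠ 0 :=
    mul_ne_zero (mul_ne_zero hdeg0 (hcard K inferInstance)) (hcard F hfF)
  have hnd : ¬ q ∣ Module.finrank F (IntermediateField.extendScalars hFK) * classNo K *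
      classNo F := fun h => hqA (Nat.mem_primeFactors.2 ⟨hq, h, hne⟩)
  have hd1 : ¬ q ∣ Module.finrank F (IntermediateField.extendScalars hFK) :=
    fun h => hnd (Dvd.dvd.mul_right (Dvd.dvd.mul_right h _) _)
  have hd2 : ¬ q ∣ classNo K := fun h => hnd (Dvd.dvd.mul_right (Dvd.dvd.mul_left h _) _)
  have hd3 : ¬ q ∣ classNo F := fun h => hnd (Dvd.dvd.mul_left h _)
  have : Fact q.Prime := ⟨hq⟩
  refine ⟨MAINB.card_of hSPL (hFK.trans hKL) hGF σ hσF q hq P hP hqP hst, ?_⟩
  intro n B hB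
  exact hC q F K hFK hGK hd1 (MAINB.nonsplit_of hNSF hFK hKL σ hστ q hq P hP hqP hst)
    (by rw [padicValNat.eq_zero_of_not_dvd hd2, padicValNat.eq_zero_of_not_dvd hd3]) n B hB

end Pool.Agent.RI
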