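import Pool.Agent.RI.Stmts3
import Pool.Agent.RI.MAINB
import Pool.Agent.RI.FROBOF
import Pool.Agent.RI.GALB

/-!
# Explicit density for `K / k` abelian, `K / F` cyclic, `F / ℚ` Galois
-/

open NumberField IsDedekindDomain
open scoped Pointwise

namespace Pool.Agent.RI

theorem MAINB2_thm (hC : MAINC) (hGALB : GALBC) (hFROB : FROBD) (hNSF : NSF) (hSPL : SPL)
    (hPD : PDGE) : MAINB2 := by
  intro k F K _ hkF hFK m hk hGk hab hGF hcyc hm
  obtain ⟨L, hKL, hfL, hGL, hcount⟩ := hGALB k F K hkF hFK hk hGk hab hGF hcyc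
  have hFL : F ≤ L := hFK.trans hKL
  have hfF : FiniteDimensional ℚ F := FiniteDimensional.of_injective
    (IntermediateField.inclusion hFK).toLinearMap
    (IntermediateField.inclusion hFK).toRingHom.injective
  have hGK : IsGalois F (IntermediateField.extendScalars hFK) := by
    rw [← isGalois_algC]
    rw [← isGalois_algC] at hGk
    let : Algebra k F := algC hkF
    let : Algebra F K := algC hFK
    let : Algebra k K := algC (hkF.trans hFK)
    have : IsScalarTower k F K := towerC hkF hFK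
    exact IsGalois.tower_top_of_isGalois k F K
  have hcard : ∀ E : IntermediateField ℚ ℂ, FiniteDimensional ℚ E → classNo E ≠ 0 := by
    intro E hE
    have : Finite (ClassGroup (𝓞 E)) := Finite.of_fintype _
    exact Nat.card_pos.ne'
  have hdeg0 : Module.finrank F (IntermediateField.extendScalars hFK) ≠ 0 := by
    rw [← finrank_algC]
    let : Algebra F K := algC hFK
    exact (Module.finrank_pos (R := F) (M := K)).ne'
  set T : Set (L ≃ₐ[ℚ] L) := {σ | (∀ x : L, (x : ℂ) ∈ F → σ x = x) ∧ Good F K L σ} with hT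
  have hdens := hFROB L T (by
    rintro g h τ₀ ⟨hgF, hg⟩ hh
    constructor
    · have hmem : h ∈ Subgroup.zpowers (τ₀ * g * τ₀⁻¹) := hh ▸ Subgroup.mem_zpowers h
      obtain ⟨i, hi⟩ := hmem
      have h2 : τ₀ * g ^ i * τ₀⁻¹ = h := by
        rw [← hi]
        exact (conj_zpow).symm
      intro x hx
      have hgi : g ^ i ∈ GALB.fixG L F := zpow_mem (GALB.mem_fixG.2 hgF) i
      rw [← h2]
      have h1 : (τ₀ * g ^ i * τ₀⁻¹) x = τ₀ ((g ^ i) (τ₀⁻¹ x)) := rfl
      rw [h1, hgi _ (GALB.stabQ hFL hGF.to_normal τ₀⁻¹ x hx)]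
      exact τ₀.apply_symm_apply x
    · intro τ ρ hρ
      obtain ⟨j, hj⟩ := hg (τ * τ₀) ρ hρ
      have hmem : (τ₀ * g * τ₀⁻¹) ^ j ∈ Subgroup.zpowers h := by
        rw [hh]
        exact Subgroup.zpow_mem_zpowers _ _
      obtain ⟨i, hi⟩ := hmem
      refine ⟨i, fun x hx => ?_⟩
      have h1 : τ * h ^ i * τ⁻¹ = τ * τ₀ * g ^ j * (τ * τ₀)⁻¹ := by
        have h2 : h ^ i = (τ₀ * g * τ₀⁻¹) ^ j := hi
        rw [h2, conj_zpow, mul_inv_rev]
        group
      rw [h1]
      exact hj x hx)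
  -- the constant
  have hG0 : (0 : ℝ) < Nat.card (L ≃ₐ[ℚ] L) := by exact_mod_cast Nat.card_pos
  have hm0 : (0 : ℝ) < m := by
    rw [← hm]
    exact_mod_cast Nat.pos_of_ne_zero hdeg0
  have hF0 : (0 : ℝ) < Module.finrank ℚ F := by exact_mod_cast Module.finrank_pos
  rw [hm] at hcount
  have hle : (((m.totient : ℝ) / m) ^ 2 / Module.finrank ℚ F) ≤
      (Nat.card T : ℝ) / Nat.card (L ≃ₐ[ℚ] L) := by
    have h2 : (m.totient : ℝ) ^ 2 * Nat.card (L ≃ₐ[ℚ] L) ≤
        (m : ℝ) ^ 2 * Module.finrank ℚ F * Nat.card T := by exact_mod_cast hcount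
    rw [div_pow, div_div, div_le_div_iff₀ (by positivity) hG0]
    nlinarith [h2]
  have hmono : DensityGE {q : ℕ | ∃ g ∈ T, ∃ P : Ideal (𝓞 L), P.IsPrime ∧ (q : 𝓞 L) ∈ P ∧
      MulAction.stabilizer (L ≃ₐ[ℚ] L) P = Subgroup.zpowers g}
      (((m.totient : ℝ) / m) ^ 2 / Module.finrank ℚ F) := by
    obtain ⟨C, hC'⟩ := hdens
    refine ⟨C, fun s hs1 hs2 => le_trans ?_ (hC' s hs1 hs2)⟩
    have hlog : 0 ≤ Real.log (1 / (s - 1)) := by
      apply Real.log_nonneg
      rw [le_div_iff₀ (by linarith)]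
      linarith
    have := mul_le_mul_of_nonneg_right hle hlog
    linarith
  refine hPD _ _ ((Module.finrank F (IntermediateField.extendScalars hFK) * classNo K *
    classNo F).primeFactors) _ hmono ?_
  rintro q ⟨g, ⟨hgF, hg⟩, P, hP, hqP, hst⟩ hq hqA
  have hne : Module.finrank F (IntermediateField.extendScalars hFK) * classNo K * classNo F ≠ 0 :=
    mul_ne_zero (mul_ne_zero hdeg0 (hcard K inferInstance)) (hcard F hfF)
  have hnd : ¬ q ∣ Module.finrank F (IntermediateField.extendScalars hFK) * classNo K *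
      classNo F := fun h => hqA (Nat.mem_primeFactors.2 ⟨hq, h, hne⟩)
  have hd1 : ¬ q ∣ Module.finrank F (IntermediateField.extendScalars hFK) :=
    fun h => hnd (Dvd.dvd.mul_right (Dvd.dvd.mul_right h _) _)
  have hd2 : ¬ q ∣ classNo K := fun h => hnd (Dvd.dvd.mul_right (Dvd.dvd.mul_left h _) _)
  have hd3 : ¬ q ∣ classNo F := fun h => hnd (Dvd.dvd.mul_left h _)
  have : Fact q.Prime := ⟨hq⟩
  refine ⟨MAINB.card_of hSPL hFL hGF g hgF q hq P hP hqP hst, ?_⟩
  intro n B hB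
  exact hC q F K hFK hGK hd1 (MAINB.nonsplit_of hNSF hFK hKL g hg q hq P hP hqP hst)
    (by rw [padicValNat.eq_zero_of_not_dvd hd2, padicValNat.eq_zero_of_not_dvd hd3]) n B hB

end Pool.Agent.RI
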