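import Pool.Agent.RI.Stmts2
import Pool.Agent.RI.MAINB

/-!
# Density of primes with trivial relative `p`-class groups in the cyclotomic tower
-/

open NumberField IsDedekindDomain
open scoped Pointwise

namespace Pool.Agent.RI

theorem MAIND_thm (hC : MAINC) (hFROB : FROBD) (hNSF : NSF) (hPD : PDGE) : MAIND := by
  intro F K L _ hFK hKL hGL hGK
  have hfK : FiniteDimensional ℚ K := FiniteDimensional.of_injective
    (IntermediateField.inclusion hKL).toLinearMap
    (IntermediateField.inclusion hKL).toRingHom.injective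
  have hfF : FiniteDimensional ℚ F := FiniteDimensional.of_injective
    (IntermediateField.inclusion hFK).toLinearMap
    (IntermediateField.inclusion hFK).toRingHom.injective
  have hcard : ∀ E : IntermediateField ℚ ℂ, FiniteDimensional ℚ E → classNo E ≠ 0 := by
    intro E hE
    have : Finite (ClassGroup (𝓞 E)) := Finite.of_fintype _
    exact Nat.card_pos.ne'
  have hdeg0 : Module.finrank F (IntermediateField.extendScalars hFK) ≠ 0 := by
    rw [← finrank_algC]
    let : Algebra F K := algC hFK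
    exact (Module.finrank_pos (R := F) (M := K)).ne'
  have hdens := hFROB L {g | Good F K L g} (by
    intro g h τ₀ hg hh τ ρ hρ
    obtain ⟨j, hj⟩ := hg (τ * τ₀) ρ hρ
    have hmem : (τ₀ * g * τ₀⁻¹) ^ j ∈ Subgroup.zpowers h := by
      rw [hh]
      exact Subgroup.zpow_mem_zpowers _ _
    obtain ⟨i, hi⟩ := hmem
    refine ⟨i, fun x hx => ?_⟩
    have h1 : τ * h ^ i * τ⁻¹ = τ * τ₀ * g ^ j * (τ * τ₀)⁻¹ := by
      have h2 : h ^ i = (τ₀ * g * τ₀⁻¹) ^ j := hi
      rw [h2, conj_zpow, mul_inv_rev]
      group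
    rw [h1]
    exact hj x hx)
  refine hPD _ _ ((Module.finrank F (IntermediateField.extendScalars hFK) * classNo K *
    classNo F).primeFactors) _ hdens ?_
  rintro q ⟨g, hg, P, hP, hqP, hst⟩ hq hqA
  have hne : Module.finrank F (IntermediateField.extendScalars hFK) * classNo K * classNo F ≠ 0 :=
    mul_ne_zero (mul_ne_zero hdeg0 (hcard K inferInstance)) (hcard F hfF)
  have hnd : ¬ q ∣ Module.finrank F (IntermediateField.extendScalars hFK) * classNo K *
      classNo F := fun h => hqA (Nat.mem_primeFactors.2 ⟨hq, h, hne⟩)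
  have hd1 : ¬ q ∣ Module.finrank F (IntermediateField.extendScalars hFK) :=
    fun h => hnd (Dvd.dvd.mul_right (Dvd.dvd.mul_right h _) _)
  have hd2 : ¬ q ∣ classNo K := fun h => hnd (Dvd.dvd.mul_right (Dvd.dvd.mul_left h _) _)
  have hd3 : ¬ q ∣ classNo F := fun h => hnd (Dvd.dvd.mul_left h _)
  have : Fact q.Prime := ⟨hq⟩
  intro n B hB
  exact hC q F K hFK hGK hd1 (MAINB.nonsplit_of hNSF hFK hKL g hg q hq P hP hqP hst)
    (by rw [padicValNat.eq_zero_of_not_dvd hd2, padicValNat.eq_zero_of_not_dvd hd3]) n B hB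

theorem MAINE_thm (hD : MAIND) (hGALE : GALE) : MAINE := by
  intro k K _ h m hk hz hG hcyc hKK hm
  obtain ⟨L, hKL, hfL, hGL, hc1, hc2⟩ := hGALE k K h hk hz hG hcyc hKK
  have hd := hD k K L h hKL hGL hG
  rw [hm] at hc1 hc2
  rw [hc1, hc2] at hd
  have hm0 : (m : ℝ) ≠ 0 := by
    have hfk : FiniteDimensional ℚ k := FiniteDimensional.of_injective
      (IntermediateField.inclusion h).toLinearMap
      (IntermediateField.inclusion h).toRingHom.injective
    rw [← hm, ← finrank_algC]
    let : Algebra k K := algC h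
    exact_mod_cast (Module.finrank_pos (R := k) (M := K)).ne'
  have he : (((m.totient ^ 2 + m * m.totient : ℕ) : ℝ) / ((2 * m ^ 2 : ℕ) : ℝ)) =
      ((m.totient : ℝ) / m) * (1 + (m.totient : ℝ) / m) / 2 := by
    push_cast
    field_simp
    ring
  rw [he] at hd
  exact hd

end Pool.Agent.RI
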