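import Pool.Agent.RI.Stmts

/-!
# Relative Iwasawa theorem: module NSF

A decomposition group that surjects onto `Gal(K / F)` makes the primes above `q` nonsplit.
-/

open NumberField
open scoped nonZeroDivisors Pointwise

namespace Pool.Agent.RI

namespace NSF

theorem under_eq {L : Type} [Field L] [NumberField L] {q : ℕ} (hq : q.Prime) {Q : Ideal (𝓞 L)}
    (hQ : Q.IsPrime) (h : (q : 𝓞 L) ∈ Q) : Q.under ℤ = Ideal.span {(q : ℤ)} := by
  have hmax : (Ideal.span {(q : ℤ)}).IsMaximal :=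
    (Ideal.span_singleton_prime (by exact_mod_cast hq.ne_zero)).mpr
      (Nat.prime_iff_prime_int.mp hq) |>.isMaximal (by
        rw [Ne, Ideal.span_singleton_eq_bot]
        exact_mod_cast hq.ne_zero)
  refine (hmax.eq_of_le (Ideal.IsPrime.under ℤ Q).ne_top ?_).symm
  rw [Ideal.span_singleton_le_iff_mem, Ideal.mem_comap]
  simpa using h

theorem trans_Q {L : Type} [Field L] [NumberField L] [IsGalois ℚ L] {q : ℕ} (hq : q.Prime)
    {P Q : Ideal (𝓞 L)} (hP : P.IsPrime) (hQ : Q.IsPrime) (h1 : (q : 𝓞 L) ∈ P)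
    (h2 : (q : 𝓞 L) ∈ Q) : ∃ τ : L ≃ₐ[ℚ] L, Q = τ • P := by
  apply Algebra.IsInvariant.exists_smul_of_under_eq ℤ (𝓞 L) (L ≃ₐ[ℚ] L) P Q
  rw [under_eq hq hP h1, under_eq hq hQ h2]

theorem trans_F {L : Type} [Field L] [NumberField L] [IsGalois ℚ L] (F : IntermediateField ℚ L)
    {P Q : Ideal (𝓞 L)} (hP : P.IsPrime) (hQ : Q.IsPrime)
    (h : ∀ x : 𝓞 L, (x : L) ∈ F → (x ∈ P ↔ x ∈ Q)) : ∃ ρ ∈ F.fixingSubgroup, Q = ρ • P := by
  have hu : P.under (𝓞 F) = Q.under (𝓞 F) := by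
    ext x
    rw [Ideal.mem_comap, Ideal.mem_comap]
    exact h _ (x : F).2
  obtain ⟨ρ, hρ⟩ := Algebra.IsInvariant.exists_smul_of_under_eq (𝓞 F) (𝓞 L) (L ≃ₐ[F] L) P Q hu
  refine ⟨ρ.restrictScalars ℚ, ?_, ?_⟩
  · rw [IntermediateField.mem_fixingSubgroup_iff]
    intro x hx
    exact ρ.commutes ⟨x, hx⟩
  · rw [hρ]
    rfl

end NSF

theorem NSF_thm : NSF := by
  intro L _ _ _ F K σ q P hq hP hqP hD hyp Q₁ Q₂ h1 h2 hq1 hq2 hF x hx
  obtain ⟨τ, hτ⟩ := NSF.trans_Q hq hP h1 hqP hq1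
  obtain ⟨ρ, hρ, hρQ⟩ := NSF.trans_F F h1 h2 hF
  obtain ⟨j, hj⟩ := hyp τ ρ hρ
  set κ := ρ * (τ * σ ^ j * τ⁻¹)⁻¹ with hκ
  have e1 : ρ = κ * (τ * σ ^ j * τ⁻¹) := by rw [hκ]; group
  have hs : σ ^ j • P = P := by
    have : σ ^ j ∈ MulAction.stabilizer (L ≃ₐ[ℚ] L) P := by
      rw [hD]
      exact ⟨j, rfl⟩
    exact this
  have e2 : Q₂ = κ • Q₁ := by
    rw [hρQ, e1, hτ]
    simp only [mul_smul, inv_smul_smul, hs]
  have e3 : κ⁻¹ • x = x := by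
    have h3 : κ⁻¹ ∈ K.fixingSubgroup := inv_mem hj
    rw [IntermediateField.mem_fixingSubgroup_iff] at h3
    apply RingOfIntegers.ext
    exact h3 x hx
  rw [e2, Ideal.mem_pointwise_smul_iff_inv_smul_mem, e3]

end Pool.Agent.RI
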