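import Pool.Agent.RI.Stmts

open NumberField Finset IsDedekindDomain
open scoped nonZeroDivisors Pointwise

namespace Pool.Agent.RI.SPL

/-- The decomposition groups over `F` and over `ℚ` agree. -/
lemma card_stab (L : Type) [Field L] [NumberField L] [IsGalois ℚ L]
    (F : IntermediateField ℚ L) (P : Ideal (𝓞 L))
    (h : MulAction.stabilizer (L ≃ₐ[ℚ] L) P ≤ F.fixingSubgroup) :
    Nat.card (MulAction.stabilizer (L ≃ₐ[F] L) P) =
      Nat.card (MulAction.stabilizer (L ≃ₐ[ℚ] L) P) := by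
  have hact : ∀ σ : L ≃ₐ[F] L, (AlgEquiv.restrictScalars ℚ σ : L ≃ₐ[ℚ] L) • P = σ • P := by
    intro σ
    ext x
    rw [Ideal.mem_pointwise_smul_iff_inv_smul_mem, Ideal.mem_pointwise_smul_iff_inv_smul_mem]
    rfl
  apply Nat.card_congr
  refine Equiv.ofBijective (fun σ => ⟨AlgEquiv.restrictScalars ℚ σ.1, ?_⟩) ⟨?_, ?_⟩
  · rw [MulAction.mem_stabilizer_iff, hact]
    exact σ.2
  · intro σ τ hst
    apply Subtype.ext
    apply AlgEquiv.ext
    intro x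
    have := congrArg (fun u => (u.1 : L ≃ₐ[ℚ] L) x) hst
    exact this
  · rintro ⟨σ, hσ⟩
    have hF := h hσ
    refine ⟨⟨{ σ.toRingEquiv with
      commutes' := fun a => by
        have := (IntermediateField.mem_fixingSubgroup_iff F σ).1 hF a.1 a.2
        exact this }, ?_⟩, ?_⟩
    · rw [MulAction.mem_stabilizer_iff, ← hact]
      exact hσ
    · apply Subtype.ext
      apply AlgEquiv.ext
      intro x
      rfl

end Pool.Agent.RI.SPL

namespace Pool.Agent.RI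

open SPL

theorem SPL_thm : SPL := by
  intro L _ _ _ F _ q P hq hP hqP hstab Q hQ hqQ
  have : Fact q.Prime := ⟨hq⟩
  have hq0 : (q : ℤ) ≠ 0 := by exact_mod_cast hq.ne_zero
  have hpr : (Ideal.span {(q : ℤ)}).IsPrime :=
    (Ideal.span_singleton_prime hq0).2 (Nat.prime_iff_prime_int.1 hq)
  have hmax : (Ideal.span {(q : ℤ)}).IsMaximal := hpr.isMaximal (by simpa using hq0)
  have hover : ∀ (K : Type) [Field K] [NumberField K] (R : Ideal (𝓞 K)) [R.IsPrime],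
      (q : 𝓞 K) ∈ R → R.LiesOver (Ideal.span {(q : ℤ)}) := by
    intro K _ _ R hR hqR
    constructor
    refine (hmax.eq_of_le ?_ ?_)
    · exact (Ideal.IsPrime.under ℤ R).ne_top
    · rw [Ideal.span_singleton_le_iff_mem, Ideal.under, Ideal.mem_comap]
      simpa using hqR
  have hPo := hover L P hqP
  have hQo := hover F Q hqQ
  set Q₀ := P.under (𝓞 F) with hQ₀
  have hQ₀p : Q₀.IsPrime := inferInstance
  have hPQ₀ : P.LiesOver Q₀ := ⟨rfl⟩
  have hQ₀o : Q₀.LiesOver (Ideal.span {(q : ℤ)}) := by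
    apply hover F Q₀
    rw [hQ₀, Ideal.under, Ideal.mem_comap]
    simpa using hqP
  have hQ₀b : Q₀ ≠ ⊥ := by
    intro hb
    have : (q : 𝓞 F) ∈ Q₀ := by
      rw [hQ₀, Ideal.under, Ideal.mem_comap]
      simpa using hqP
    rw [hb, Ideal.mem_bot] at this
    exact hq.ne_zero (by exact_mod_cast this)
  have hQ₀m : Q₀.IsMaximal := hQ₀p.isMaximal hQ₀b
  have hfin : Finite (ℤ ⧸ Ideal.span {(q : ℤ)}) :=
    Ring.HasFiniteQuotients.finiteQuotient (by simpa using hq0)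
  have hfin' : Finite (𝓞 F ⧸ Q₀) := Ring.HasFiniteQuotients.finiteQuotient hQ₀b
  have h1 := Ideal.card_stabilizer_eq (G := L ≃ₐ[ℚ] L) (Ideal.span {(q : ℤ)}) P
  have h2 := Ideal.card_stabilizer_eq (G := L ≃ₐ[F] L) Q₀ P
  rw [card_stab L F P hstab, h1] at h2
  have h3 := Ideal.inertiaDegIn_mul_inertiaDegIn (p := Ideal.span {(q : ℤ)}) (P := Q₀)
    (G := F ≃ₐ[ℚ] F) (C := 𝓞 L) (GAC := L ≃ₐ[ℚ] L) (GBC := L ≃ₐ[F] L)
  have h4 := Ideal.ramificationIdxIn_mul_ramificationIdxIn (p := Ideal.span {(q : ℤ)}) (P := Q₀)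
    (G := F ≃ₐ[ℚ] F) (C := 𝓞 L) (GAC := L ≃ₐ[ℚ] L) (GBC := L ≃ₐ[F] L)
  have h5 : Ideal.ramificationIdxIn Q₀ (𝓞 L) ≠ 0 :=
    Ideal.ramificationIdxIn_ne_zero (G := L ≃ₐ[F] L)
  have h6 : Ideal.inertiaDegIn Q₀ (𝓞 L) ≠ 0 :=
    Ideal.inertiaDegIn_ne_zero (G := L ≃ₐ[F] L)
  rw [← h3, ← h4] at h2
  have h7 : Ideal.ramificationIdxIn (Ideal.span {(q : ℤ)}) (𝓞 F) *
      Ideal.inertiaDegIn (Ideal.span {(q : ℤ)}) (𝓞 F) = 1 := by
    have h8 : 0 < Ideal.ramificationIdxIn Q₀ (𝓞 L) * Ideal.inertiaDegIn Q₀ (𝓞 L) :=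
      Nat.mul_pos (Nat.pos_of_ne_zero h5) (Nat.pos_of_ne_zero h6)
    apply Nat.eq_of_mul_eq_mul_right h8
    rw [one_mul]
    calc _ = Ideal.ramificationIdxIn (Ideal.span {(q : ℤ)}) (𝓞 F) *
          Ideal.ramificationIdxIn Q₀ (𝓞 L) *
          (Ideal.inertiaDegIn (Ideal.span {(q : ℤ)}) (𝓞 F) * Ideal.inertiaDegIn Q₀ (𝓞 L)) := by
            ring
      _ = _ := h2
  have h9 := Nat.eq_one_of_mul_eq_one_left h7
  rw [Ideal.inertiaDegIn_eq_inertiaDeg (Ideal.span {(q : ℤ)}) Q (F ≃ₐ[ℚ] F)] at h9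
  have h10 := Ideal.pow_inertiaDeg q Q
  rw [h9, pow_one, Ideal.absNorm_apply, Submodule.cardQuot_apply] at h10
  exact h10.symm

end Pool.Agent.RI
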