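import Pool.Agent.RI.FinalA
import Pool.Agent.RI.MAIND
import Pool.Agent.RI.MAINB2
import Pool.Agent.RI.FROBD
import Pool.Agent.RI.NSF
import Pool.Agent.RI.SPL
import Pool.Agent.RI.PDGE
import Pool.Agent.RI.COUNTG
import Pool.Agent.RI.GALE

/-!
# Densities
-/

namespace Pool.Agent.RI

theorem finalD : MAIND := MAIND_thm finalC FROBD_thm NSF_thm PDGE_thm

theorem finalE : MAINE := MAINE_thm finalD (GALE_thm COUNTG_thm)

theorem finalB2 (h : GALBC) : MAINB2 := MAINB2_thm finalC h FROBD_thm NSF_thm SPL_thm PDGE_thm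

end Pool.Agent.RI
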