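import Pool.Agent.RI.Stmts3
import Pool.Agent.RI.GALB

/-!
# GALBC: the number of Galois elements that generate the groups of all conjugates
-/

set_option autoImplicit false

open NumberField

namespace Pool.Agent.RI

namespace GALBC

/-! ### Group theory -/

theorem grp (h : GEN2C) {G C₁ : Type} [Group G] [Finite G] [Group C₁] [IsCyclic C₁]
    (A B C : Subgroup G) (hBn : B.Normal) (φ : B →* C₁) (hφ : Function.Surjective φ)
    (hker : ∀ b : B, φ b = 1 → (b : G) ∈ C)
    (hA : ∀ a ∈ A, ∀ c ∈ C, a * c * a⁻¹ ∈ C)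
    (hidx : ∀ x y : G, x ∉ A → y ∉ A → x⁻¹ * y ∈ A) :
    (Nat.card C₁).totient ^ 2 * Nat.card B ≤ Nat.card C₁ ^ 2 *
      Nat.card {σ : G // σ ∈ B ∧ ∀ τ : G, ∀ ρ ∈ B, ∃ j : ℤ, ρ * (τ * σ ^ j * τ⁻¹)⁻¹ ∈ C} := by
  obtain ⟨τ₀, hτ₀⟩ : ∃ τ₀ : G, ∀ τ : G, τ ∉ A → τ * τ₀⁻¹ ∈ A := by
    by_cases hA' : ∃ t, t ∉ A
    · obtain ⟨t, ht⟩ := hA'
      refine ⟨t, fun τ hτ => ?_⟩
      have h1 := hidx τ⁻¹ t⁻¹ (fun h => hτ (by simpa using A.inv_mem h))
        (fun h => ht (by simpa using A.inv_mem h))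
      rwa [inv_inv] at h1
    · push Not at hA'
      exact ⟨1, fun τ hτ => absurd (hA' τ) hτ⟩
  have hfin : Finite C₁ := Finite.of_surjective φ hφ
  let φ₂ : B →* C₁ := φ.comp (MulAut.conjNormal τ₀ : B ≃* B).toMonoidHom
  have hφ₂ : Function.Surjective φ₂ := hφ.comp (MulAut.conjNormal τ₀ : B ≃* B).surjective
  refine (h B C₁ φ φ₂ hφ hφ₂).trans (Nat.mul_le_mul_left _ ?_)
  refine Nat.card_le_card_of_injective (fun s => ⟨(s.1 : G), s.1.2, ?_⟩) ?_
  · intro τ ρ hρ
    obtain ⟨σ, hg₁, hg₂⟩ := s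
    have hbB : τ⁻¹ * ρ * τ ∈ B := by
      have := hBn.conj_mem ρ hρ τ⁻¹
      rwa [inv_inv] at this
    obtain ⟨b, hb⟩ : ∃ b : B, (b : G) = τ⁻¹ * ρ * τ := ⟨⟨_, hbB⟩, rfl⟩
    by_cases hτ : τ ∈ A
    · have h1 : φ b ∈ Subgroup.zpowers (φ σ) := by rw [hg₁]; exact Subgroup.mem_top _
      obtain ⟨j, hj⟩ := Subgroup.mem_zpowers_iff.1 h1
      refine ⟨j, ?_⟩
      have h2 : φ (b * (σ ^ j)⁻¹) = 1 := by
        rw [map_mul, map_inv, map_zpow, hj, mul_inv_cancel]
      have h3 := hA τ hτ _ (hker _ h2)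
      have h4 : τ * ((b * (σ ^ j)⁻¹ : B) : G) * τ⁻¹ = ρ * (τ * (σ : G) ^ j * τ⁻¹)⁻¹ := by
        rw [Subgroup.coe_mul, Subgroup.coe_inv, Subgroup.coe_zpow, hb]
        group
      rwa [h4] at h3
    · have h1 : φ₂ b ∈ Subgroup.zpowers (φ₂ σ) := by rw [hg₂]; exact Subgroup.mem_top _
      obtain ⟨j, hj⟩ := Subgroup.mem_zpowers_iff.1 h1
      refine ⟨j, ?_⟩
      have h2 : φ₂ (b * (σ ^ j)⁻¹) = 1 := by
        rw [map_mul, map_inv, map_zpow, hj, mul_inv_cancel]
      have h3 := hA _ (hτ₀ τ hτ) _ (hker _ h2)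
      have h5 : (((MulAut.conjNormal τ₀ : B ≃* B).toMonoidHom (b * (σ ^ j)⁻¹) : B) : G) =
          τ₀ * ((b * (σ ^ j)⁻¹ : B) : G) * τ₀⁻¹ := MulAut.conjNormal_apply _ _
      have h4 : τ * τ₀⁻¹ *
          (((MulAut.conjNormal τ₀ : B ≃* B).toMonoidHom (b * (σ ^ j)⁻¹) : B) : G) *
          (τ * τ₀⁻¹)⁻¹ = ρ * (τ * (σ : G) ^ j * τ⁻¹)⁻¹ := by
        rw [h5, Subgroup.coe_mul, Subgroup.coe_inv, Subgroup.coe_zpow, hb]
        group
      rwa [h4] at h3
  · intro s t hst
    have h1 := congrArg Subtype.val hst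
    exact Subtype.ext (Subtype.ext h1)

/-- The index of the group fixing `F` is at most the degree of `F`. -/
theorem card_le {F L : IntermediateField ℚ ℂ} (hFL : F ≤ L) [FiniteDimensional ℚ F]
    [FiniteDimensional ℚ L] :
    Nat.card (L ≃ₐ[ℚ] L) ≤ Module.finrank ℚ F * Nat.card (GALB.fixG L F) := by
  classical
  let f : (L ≃ₐ[ℚ] L) → (F →+* ℂ) := fun g =>
    ((L.val.comp g.toAlgHom).comp (IntermediateField.inclusion hFL)).toRingHom
  have hf : ∀ g g', f g = f g' ↔ g⁻¹ * g' ∈ GALB.fixG L F := by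
    intro g g'
    constructor
    · intro he z hz
      have h1 := congrArg (fun h : F →+* ℂ => h ⟨z, hz⟩) he
      have h2 : g z = g' z := Subtype.ext h1
      have h3 : (g⁻¹ * g') z = g.symm (g' z) := rfl
      rw [h3, ← h2]
      exact g.symm_apply_apply z
    · intro he
      apply RingHom.ext
      intro z
      have h1 := he ⟨(z : ℂ), hFL z.2⟩ z.2
      have h3 : (g⁻¹ * g') ⟨(z : ℂ), hFL z.2⟩ = g.symm (g' ⟨(z : ℂ), hFL z.2⟩) := rfl
      rw [h3, AlgEquiv.symm_apply_eq] at h1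
      exact congrArg (fun z : L => (z : ℂ)) h1.symm
  have hq : Nat.card ((L ≃ₐ[ℚ] L) ⧸ GALB.fixG L F) ≤ Nat.card (F →+* ℂ) := by
    refine Nat.card_le_card_of_injective (Quotient.lift f (fun a b hab =>
      (hf a b).2 (QuotientGroup.leftRel_apply.1 hab))) ?_
    intro x y
    induction x using Quotient.inductionOn with
    | h a =>
      induction y using Quotient.inductionOn with
      | h b =>
        intro hab
        exact Quotient.sound (QuotientGroup.leftRel_apply.2 ((hf a b).1 hab))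
  have hcard : Nat.card (F →+* ℂ) = Module.finrank ℚ F := by
    rw [Nat.card_eq_fintype_card, NumberField.Embeddings.card F ℂ]
  rw [hcard] at hq
  rw [Subgroup.card_eq_card_quotient_mul_card_subgroup (GALB.fixG L F)]
  exact Nat.mul_le_mul_right _ hq

end GALBC

theorem GALBC_thm (h : GEN2C) : GALBC := by
  intro k F K _ hkF hFK hk hKk _ hFQ hcyc
  let L : IntermediateField ℚ ℂ := IntermediateField.normalClosure ℚ K ℂ
  have hKL : K ≤ L := IntermediateField.le_normalClosure K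
  have hFL : F ≤ L := hFK.trans hKL
  have hkL : k ≤ L := hkF.trans hFL
  have hfd : FiniteDimensional ℚ L := inferInstance
  have hfF : FiniteDimensional ℚ F := by
    have hle : (F.toSubalgebra.toSubmodule) ≤ K.toSubalgebra.toSubmodule := hFK
    exact Submodule.finiteDimensional_of_le hle
  have hnc : IsNormalClosure ℚ K L :=
    Algebra.IsAlgebraic.isNormalClosure_normalClosure
      (fun x => IsAlgClosed.splits _)
  have hnL : Normal ℚ L := hnc.normal (K := K)
  have hgL : IsGalois ℚ L := ⟨⟩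
  have hnk : Normal k (IntermediateField.extendScalars (hkF.trans hFK)) := hKk.to_normal
  have hgF : IsGalois F (IntermediateField.extendScalars hFK) := by
    have g1 := (isGalois_algC (hkF.trans hFK)).2 hKk
    let _ := algC hkF
    let _ := algC hFK
    let _ := algC (hkF.trans hFK)
    have g2 := towerC hkF hFK
    have g3 : IsGalois F K := IsGalois.tower_top_of_isGalois k F K
    exact (isGalois_algC hFK).1 g3
  have hnF : Normal F (IntermediateField.extendScalars hFK) := hgF.to_normal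
  have hfdF : FiniteDimensional F (IntermediateField.extendScalars hFK) := by
    let _ := algC hFK
    have g1 : IsScalarTower ℚ F K := IsScalarTower.of_algebraMap_eq (fun _ => rfl)
    have g2 : FiniteDimensional F K := FiniteDimensional.right ℚ F K
    exact (extEquiv hFK).symm.toLinearEquiv.finiteDimensional
  have hm : Nat.card ((IntermediateField.extendScalars hFK) ≃ₐ[F]
      (IntermediateField.extendScalars hFK)) =
      Module.finrank F (IntermediateField.extendScalars hFK) := IsGalois.card_aut_eq_finrank _ _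
  have hgrp := GALBC.grp h (GALB.fixG L k) (GALB.fixG L F) (GALB.fixG L K) ?_
    (GALB.res hFK hKL hnF) (GALB.res_surjective hFK hKL hnF hnL) ?_ ?_ ?_
  · refine ⟨L, hKL, hfd, hgL, ?_⟩
    rw [hm] at hgrp
    have hc := GALBC.card_le hFL
    have hset : Nat.card {σ : L ≃ₐ[ℚ] L // σ ∈ GALB.fixG L F ∧ ∀ τ : L ≃ₐ[ℚ] L,
        ∀ ρ ∈ GALB.fixG L F, ∃ j : ℤ, ρ * (τ * σ ^ j * τ⁻¹)⁻¹ ∈ GALB.fixG L K} =
        Nat.card {σ : L ≃ₐ[ℚ] L // (∀ x : L, (x : ℂ) ∈ F → σ x = x) ∧ Good F K L σ} := rfl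
    rw [hset] at hgrp
    calc _ ≤ (Module.finrank F (IntermediateField.extendScalars hFK)).totient ^ 2 *
          (Module.finrank ℚ F * Nat.card (GALB.fixG L F)) := Nat.mul_le_mul_left _ hc
      _ = Module.finrank ℚ F *
          ((Module.finrank F (IntermediateField.extendScalars hFK)).totient ^ 2 *
            Nat.card (GALB.fixG L F)) := by ring
      _ ≤ Module.finrank ℚ F * _ := Nat.mul_le_mul_left _ hgrp
      _ = _ := by ring
  · -- normal
    constructor
    intro b hb g x hx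
    have h1 : (g * b * g⁻¹) x = g (b (g⁻¹ x)) := rfl
    rw [h1, hb _ (GALB.stabQ hFL hFQ.to_normal g⁻¹ x hx)]
    exact g.apply_symm_apply x
  · -- kernel
    intro b hb x hx
    have h1 := congrArg (fun s => ((s ⟨x.1, hx⟩ : IntermediateField.extendScalars hFK) : ℂ)) hb
    exact Subtype.ext h1
  · -- conjugation
    intro a ha c hc x hx
    have h1 : (a * c * a⁻¹) x = a (c (a⁻¹ x)) := rfl
    rw [h1, hc _ (GALB.stab (hkF.trans hFK) hKL hnk a⁻¹ (inv_mem ha) x hx)]
    exact a.apply_symm_apply x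
  · exact fun x y hx hy => GALB.quad hkL hk x y hx hy

end Pool.Agent.RI
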