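import Pool.Agent.RI.Stmts3

/-!
# Relative Iwasawa theorem: module GEN2C (number of simultaneous generators)
-/

namespace Pool.Agent.RI

namespace GEN2C

lemma exists_coprime (m n j : ℕ) [NeZero m] (h : n ∣ m) (hj : j.Coprime n) :
    ∃ a : ℕ, a.Coprime m ∧ a ≡ j [MOD n] := by
  obtain ⟨u, hu⟩ := ZMod.unitsMap_surjective h (ZMod.unitOfCoprime j hj)
  refine ⟨(u : ZMod m).val, ZMod.val_coe_unit_coprime u, ?_⟩
  rw [← ZMod.natCast_eq_natCast_iff]
  have h1 := congrArg Units.val hu
  rw [ZMod.unitsMap_def, Units.coe_map, ZMod.coe_unitOfCoprime] at h1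
  rw [← h1, ZMod.natCast_val]
  rfl

section cyc

variable {C : Type} [Group C] [Finite C]

lemma top_iff (z : C) : Subgroup.zpowers z = ⊤ ↔ orderOf z = Nat.card C := by
  constructor
  · exact orderOf_eq_card_of_zpowers_eq_top
  · intro h
    apply Subgroup.eq_top_of_card_eq
    rw [Nat.card_zpowers, h]

lemma card_top [IsCyclic C] :
    Nat.card {z : C // Subgroup.zpowers z = ⊤} = (Nat.card C).totient := by
  classical
  have := Fintype.ofFinite C
  have h4 : Nat.card {q : C // Subgroup.zpowers q = ⊤} =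
      Nat.card {q : C // orderOf q = Nat.card C} :=
    Nat.card_congr (Equiv.subtypeEquivRight top_iff)
  rw [h4, Nat.card_eq_fintype_card, Fintype.card_subtype, Nat.card_eq_fintype_card]
  exact IsCyclic.card_orderOf_eq_totient dvd_rfl

/-- The generators in a coset which generates the quotient. -/
lemma cosetA [IsCyclic C] (D : Subgroup C) (x0 : C)
    (h : ∀ c : C, ∃ i : ℤ, (x0 ^ i)⁻¹ * c ∈ D) :
    (Nat.card C).totient * Nat.card D ≤
      Nat.card C * Nat.card {d : C // d ∈ D ∧ Subgroup.zpowers (x0 * d) = ⊤} := by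
  classical
  have := Fintype.ofFinite C
  have hcomm : ∀ a b : C, a * b = b * a := by
    obtain ⟨g, hg⟩ := IsCyclic.exists_generator (α := C)
    intro a b
    obtain ⟨i, rfl⟩ := hg a
    obtain ⟨j, rfl⟩ := hg b
    change g ^ i * g ^ j = g ^ j * g ^ i
    rw [← zpow_add, ← zpow_add, add_comm]
  have hN : D.Normal := ⟨fun n hn g => by rw [hcomm g n, mul_inv_cancel_right]; exact hn⟩
  have hNZ : NeZero (Nat.card C) := ⟨Nat.card_pos.ne'⟩
  -- powers which map a generator to the coset of `x0`
  have key : ∀ z : C, Subgroup.zpowers z = ⊤ → ∃ a : ℕ, a.Coprime (Nat.card C) ∧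
      (QuotientGroup.mk (z ^ a) : C ⧸ D) = QuotientGroup.mk x0 := by
    intro z hz
    have hzb : Subgroup.zpowers (QuotientGroup.mk z : C ⧸ D) = ⊤ := by
      rw [eq_top_iff]
      intro c _
      obtain ⟨c, rfl⟩ := QuotientGroup.mk_surjective c
      have h1 : c ∈ Subgroup.zpowers z := by rw [hz]; trivial
      obtain ⟨i, rfl⟩ := h1
      exact ⟨i, rfl⟩
    have hord : orderOf (QuotientGroup.mk z : C ⧸ D) = D.index :=
      orderOf_eq_card_of_zpowers_eq_top hzb
    have hx : x0 ∈ Subgroup.zpowers z := by rw [hz]; trivial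
    obtain ⟨j, hj⟩ := (mem_powers_iff_mem_zpowers.mpr hx)
    have hj' : z ^ j = x0 := hj
    obtain ⟨i, hi⟩ := h z
    have h2 : (QuotientGroup.mk z : C ⧸ D) ^ ((j : ℤ) * i - 1) = 1 := by
      have h3 : (QuotientGroup.mk (x0 ^ i) : C ⧸ D) = QuotientGroup.mk z :=
        QuotientGroup.eq.mpr hi
      rw [zpow_sub, zpow_mul, zpow_natCast, zpow_one, ← QuotientGroup.mk_pow, hj',
        ← QuotientGroup.mk_zpow, h3, mul_inv_cancel]
    rw [← orderOf_dvd_iff_zpow_eq_one, hord] at h2
    have hcop : j.Coprime D.index := by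
      rw [← Nat.isCoprime_iff_coprime]
      obtain ⟨t, ht⟩ := h2
      exact ⟨i, -t, by linear_combination ht⟩
    obtain ⟨a, ha1, ha2⟩ := exists_coprime (Nat.card C) D.index j (Subgroup.index_dvd_card D) hcop
    refine ⟨a, ha1, ?_⟩
    rw [← hj', QuotientGroup.mk_pow, QuotientGroup.mk_pow, pow_eq_pow_iff_modEq, hord]
    exact ha2
  set Bn := Nat.card {d : C // d ∈ D ∧ Subgroup.zpowers (x0 * d) = ⊤} with hBn
  have hBn' : Bn = (Finset.univ.filter
      (fun d : C => d ∈ D ∧ Subgroup.zpowers (x0 * d) = ⊤)).card := by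
    rw [hBn, Nat.card_eq_fintype_card, Fintype.card_subtype]
  have h1 : (Finset.univ.filter (fun z : C => Subgroup.zpowers z = ⊤)).card ≤
      Bn * ((Finset.univ.filter (fun z : C => Subgroup.zpowers z = ⊤)).image
        (fun z => (QuotientGroup.mk z : C ⧸ D))).card := by
    apply Finset.card_le_mul_card_image
    intro c hc
    obtain ⟨z, hz, rfl⟩ := Finset.mem_image.mp hc
    have hz' := (Finset.mem_filter.mp hz).2
    obtain ⟨a, ha1, ha2⟩ := key z hz'
    rw [hBn']
    refine Finset.card_le_card_of_injOn (fun t => x0⁻¹ * t ^ a) ?_ ?_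
    · intro t ht
      obtain ⟨ht1, ht2⟩ := Finset.mem_filter.mp ht
      have ht3 := (Finset.mem_filter.mp ht1).2
      refine Finset.mem_coe.mpr (Finset.mem_filter.mpr ⟨Finset.mem_univ _, ?_, ?_⟩)
      · rw [← QuotientGroup.eq, ← ha2, QuotientGroup.mk_pow, QuotientGroup.mk_pow, ht2]
      · rw [mul_inv_cancel_left, top_iff]
        rw [top_iff] at ht3
        rw [Nat.Coprime.orderOf_pow, ht3]
        rw [ht3]
        exact ha1.symm
    · intro t _ s _ hts
      have h2 : t ^ a = s ^ a := mul_left_cancel hts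
      exact (Nat.Coprime.pow_left_bijective (G := C) ha1.symm).1 h2
  have h2 : ((Finset.univ.filter (fun z : C => Subgroup.zpowers z = ⊤)).image
        (fun z => (QuotientGroup.mk z : C ⧸ D))).card ≤ D.index := by
    refine (Finset.card_le_univ _).trans ?_
    rw [← Nat.card_eq_fintype_card]
    rfl
  have h3 : (Finset.univ.filter (fun z : C => Subgroup.zpowers z = ⊤)).card =
      (Nat.card C).totient := by
    rw [← card_top, Nat.card_eq_fintype_card, Fintype.card_subtype]
  rw [h3] at h1
  calc (Nat.card C).totient * Nat.card D ≤ Bn * D.index * Nat.card D :=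
        Nat.mul_le_mul_right _ (h1.trans (Nat.mul_le_mul_left _ h2))
    _ = Nat.card D * D.index * Bn := by ring
    _ = Nat.card C * Bn := by rw [Subgroup.card_mul_index]

end cyc

end GEN2C

open GEN2C in
theorem GEN2C_thm : GEN2C := by
  classical
  intro N C _ _ _ _ f₁ f₂ hf₁ hf₂
  have := Fintype.ofFinite N
  have hC : Finite C := Finite.of_surjective f₁ hf₁
  have := Fintype.ofFinite C
  set K := f₂.ker with hK
  set g : K →* C := f₁.comp K.subtype with hg
  have := Fintype.ofFinite K
  -- the count in a fibre of `f₂`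
  have hfib : ∀ y : C, Subgroup.zpowers y = ⊤ → (Nat.card C).totient * Nat.card K ≤
      Nat.card C * (Finset.univ.filter (fun x : N => f₂ x = y ∧
        Subgroup.zpowers (f₁ x) = ⊤)).card := by
    intro y hy
    obtain ⟨x, rfl⟩ := hf₂ y
    have h0 : ∀ c : C, ∃ i : ℤ, ((f₁ x) ^ i)⁻¹ * c ∈ g.range := by
      intro c
      obtain ⟨n, rfl⟩ := hf₁ c
      have h1 : f₂ n ∈ Subgroup.zpowers (f₂ x) := by rw [hy]; trivial
      obtain ⟨i, hi⟩ := h1
      have hi' : (f₂ x) ^ i = f₂ n := hi
      refine ⟨i, ⟨⟨(x ^ i)⁻¹ * n, ?_⟩, ?_⟩⟩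
      · rw [hK, MonoidHom.mem_ker, map_mul, map_inv, map_zpow, hi', inv_mul_cancel]
      · change f₁ ((x ^ i)⁻¹ * n) = _
        rw [map_mul, map_inv, map_zpow]
    have h1 := cosetA g.range (f₁ x) h0
    -- fibres of `g`
    set e := (Finset.univ.filter (fun k : K => g k = 1)).card with he
    have h2 : ∀ d ∈ g.range, (Finset.univ.filter (fun k : K => g k = d)).card = e := by
      intro d hd
      exact MonoidHom.card_fiber_eq_of_mem_range g hd ⟨1, map_one g⟩
    have h3 : Nat.card K = Nat.card g.range * e := by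
      rw [Nat.card_eq_fintype_card, ← Finset.card_univ,
        Finset.card_eq_sum_card_fiberwise (t := Finset.univ.filter (fun d : C => d ∈ g.range))
          (f := g) (fun k _ => Finset.mem_coe.mpr (Finset.mem_filter.mpr
            ⟨Finset.mem_univ _, ⟨k, rfl⟩⟩)),
        Finset.sum_congr rfl (g := fun _ => e) (fun d hd => h2 d (Finset.mem_filter.mp hd).2),
        Finset.sum_const, smul_eq_mul]
      congr 1
      rw [Nat.card_eq_fintype_card, Fintype.card_subtype]
    set A := Finset.univ.filter (fun d : C => d ∈ g.range ∧ Subgroup.zpowers (f₁ x * d) = ⊤)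
      with hA
    have h4 : Nat.card {d : C // d ∈ g.range ∧ Subgroup.zpowers (f₁ x * d) = ⊤} = A.card := by
      rw [hA, Nat.card_eq_fintype_card, Fintype.card_subtype]
    have h5 : (Finset.univ.filter (fun k : K => Subgroup.zpowers (f₁ x * g k) = ⊤)).card =
        A.card * e := by
      rw [Finset.card_eq_sum_card_fiberwise (t := A) (f := g) (fun k hk =>
        Finset.mem_coe.mpr (Finset.mem_filter.mpr ⟨Finset.mem_univ _, ⟨k, rfl⟩,
          (Finset.mem_filter.mp (Finset.mem_coe.mp hk)).2⟩)), ← smul_eq_mul, ← Finset.sum_const]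
      refine Finset.sum_congr rfl fun d hd => ?_
      obtain ⟨_, hd1, hd2⟩ := Finset.mem_filter.mp hd
      rw [← h2 d hd1]
      congr 1
      ext k
      simp only [Finset.mem_filter, Finset.mem_univ, true_and]
      constructor
      · exact fun h => h.2
      · rintro rfl
        exact ⟨hd2, rfl⟩
    have h6 : (Finset.univ.filter (fun k : K => Subgroup.zpowers (f₁ x * g k) = ⊤)).card ≤
        (Finset.univ.filter (fun n : N => f₂ n = f₂ x ∧
          Subgroup.zpowers (f₁ n) = ⊤)).card := by
      refine Finset.card_le_card_of_injOn (fun k => x * (k : N)) ?_ ?_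
      · intro k hk
        have hk1 := (Finset.mem_filter.mp (Finset.mem_coe.mp hk)).2
        have hk2 : f₂ (k : N) = 1 := k.2
        refine Finset.mem_coe.mpr (Finset.mem_filter.mpr ⟨Finset.mem_univ _, ?_, ?_⟩)
        · rw [map_mul, hk2, mul_one]
        · rw [map_mul]
          exact hk1
      · intro k _ k' _ h
        exact Subtype.ext (mul_left_cancel h)
    calc (Nat.card C).totient * Nat.card K
        = (Nat.card C).totient * Nat.card g.range * e := by rw [h3]; ring
      _ ≤ Nat.card C * A.card * e := by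
          rw [h4] at h1
          exact Nat.mul_le_mul_right _ h1
      _ = Nat.card C * (A.card * e) := by ring
      _ ≤ _ := by
          rw [← h5]
          exact Nat.mul_le_mul_left _ h6
  have hKC : Nat.card N = Nat.card C * Nat.card K := by
    have h1 := Subgroup.card_mul_index K
    have h2 : K.index = Nat.card C := by
      rw [hK, Subgroup.index_ker, MonoidHom.range_eq_top.mpr hf₂, Subgroup.card_top]
    rw [← h1, h2, mul_comm]
  have hsum : Nat.card {x : N // Subgroup.zpowers (f₁ x) = ⊤ ∧ Subgroup.zpowers (f₂ x) = ⊤} =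
      ∑ y ∈ Finset.univ.filter (fun y : C => Subgroup.zpowers y = ⊤),
        (Finset.univ.filter (fun x : N => f₂ x = y ∧ Subgroup.zpowers (f₁ x) = ⊤)).card := by
    rw [Nat.card_eq_fintype_card, Fintype.card_subtype,
      Finset.card_eq_sum_card_fiberwise
        (t := Finset.univ.filter (fun y : C => Subgroup.zpowers y = ⊤)) (f := f₂)
        (fun x hx => Finset.mem_coe.mpr (Finset.mem_filter.mpr ⟨Finset.mem_univ _,
          (Finset.mem_filter.mp (Finset.mem_coe.mp hx)).2.2⟩))]
    refine Finset.sum_congr rfl fun y hy => ?_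
    have hy' := (Finset.mem_filter.mp hy).2
    congr 1
    ext x
    simp only [Finset.mem_filter, Finset.mem_univ, true_and]
    constructor
    · rintro ⟨⟨h1, _⟩, h3⟩
      exact ⟨h3, h1⟩
    · rintro ⟨h1, h2⟩
      exact ⟨⟨h2, by rw [h1]; exact hy'⟩, h1⟩
  have hY : (Finset.univ.filter (fun y : C => Subgroup.zpowers y = ⊤)).card =
      (Nat.card C).totient := by
    rw [← card_top, Nat.card_eq_fintype_card, Fintype.card_subtype]
  rw [hsum, hKC]
  calc (Nat.card C).totient ^ 2 * (Nat.card C * Nat.card K)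
      = Nat.card C * ∑ y ∈ Finset.univ.filter (fun y : C => Subgroup.zpowers y = ⊤),
          (Nat.card C).totient * Nat.card K := by
        rw [Finset.sum_const, hY, smul_eq_mul]
        ring
    _ ≤ Nat.card C * ∑ y ∈ Finset.univ.filter (fun y : C => Subgroup.zpowers y = ⊤),
          Nat.card C * (Finset.univ.filter (fun x : N => f₂ x = y ∧
            Subgroup.zpowers (f₁ x) = ⊤)).card :=
        Nat.mul_le_mul_left _ (Finset.sum_le_sum fun y hy =>
          hfib y (Finset.mem_filter.mp hy).2)
    _ = _ := by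
        rw [← Finset.mul_sum]
        ring

end Pool.Agent.RI
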