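import Pool.Agent.RI.FinalB
import Pool.Agent.RI.GEN2C
import Pool.Agent.RI.GALBC

/-!
# Explicit density for `K / F` cyclic
-/

namespace Pool.Agent.RI

theorem finalB2' : MAINB2 := finalB2 (GALBC_thm GEN2C_thm)

end Pool.Agent.RI
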