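import Pool.Agent.RI.Stmts

/-!
# Relative Iwasawa theorem: module GEN2

Simultaneous generators of two cyclic quotients of a finite abelian group.
-/

namespace Pool.Agent.RI

namespace GEN2

/-- Given `u` and `v` and a finite set of primes (the divisors of `m`), there are `s` and `t` with
`s + u t` and `v s + t` prime to `m`. -/
lemma exists_pair (m u v : ℕ) : ∃ s t : ℕ, ∀ q ∈ m.primeFactors,
    ¬ q ∣ s + u * t ∧ ¬ q ∣ v * s + t := by
  classical
  refine ⟨∏ q ∈ m.primeFactors with q ∣ v ∧ ¬ q ∣ u, q, ∏ q ∈ m.primeFactors with ¬ q ∣ v, q, ?_⟩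
  intro q hq
  have hqp : q.Prime := Nat.prime_of_mem_primeFactors hq
  have key : ∀ P : ℕ → Prop, ∀ [DecidablePred P],
      (q ∣ ∏ r ∈ m.primeFactors with P r, r) ↔ P q := by
    intro P _
    rw [Prime.dvd_finsetProd_iff hqp.prime]
    constructor
    · rintro ⟨r, hr, hqr⟩
      rw [Finset.mem_filter] at hr
      have hrp : r.Prime := Nat.prime_of_mem_primeFactors hr.1
      have : q = r := (Nat.prime_dvd_prime_iff_eq hqp hrp).mp hqr
      rw [this]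
      exact hr.2
    · intro h
      exact ⟨q, Finset.mem_filter.mpr ⟨hq, h⟩, dvd_rfl⟩
  have hs := key (fun q => q ∣ v ∧ ¬ q ∣ u)
  have ht := key (fun q => ¬ q ∣ v)
  generalize (∏ q ∈ m.primeFactors with q ∣ v ∧ ¬ q ∣ u, q) = s at hs ⊢
  generalize (∏ q ∈ m.primeFactors with ¬ q ∣ v, q) = t at ht ⊢
  by_cases hv : q ∣ v
  · have htn : ¬ q ∣ t := by
      rw [ht]
      exact fun h => h hv
    have hvs : q ∣ v * s := Dvd.dvd.mul_right hv s
    refine ⟨?_, fun h => htn ((Nat.dvd_add_right hvs).mp h)⟩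
    by_cases hu : q ∣ u
    · have hsn : ¬ q ∣ s := by
        rw [hs]
        exact fun h => h.2 hu
      have hut : q ∣ u * t := Dvd.dvd.mul_right hu t
      exact fun h => hsn ((Nat.dvd_add_left hut).mp h)
    · have hsd : q ∣ s := hs.mpr ⟨hv, hu⟩
      intro h
      have h2 : q ∣ u * t := (Nat.dvd_add_right hsd).mp h
      rcases hqp.dvd_mul.mp h2 with h3 | h3
      · exact hu h3
      · exact htn h3
  · have htd : q ∣ t := ht.mpr hv
    have hsn : ¬ q ∣ s := by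
      rw [hs]
      exact fun h => hv h.1
    refine ⟨?_, ?_⟩
    · have hut : q ∣ u * t := Dvd.dvd.mul_left htd u
      exact fun h => hsn ((Nat.dvd_add_left hut).mp h)
    · intro h
      have h2 : q ∣ v * s := (Nat.dvd_add_left htd).mp h
      rcases hqp.dvd_mul.mp h2 with h3 | h3
      · exact hv h3
      · exact hsn h3

lemma zpowers_pow_eq_top {C : Type} [Group C] [Finite C] (c : C)
    (hc : ∀ y : C, y ∈ Submonoid.powers c) (k : ℕ) (hk : k.Coprime (orderOf c)) :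
    Subgroup.zpowers (c ^ k) = ⊤ := by
  obtain ⟨m, hm⟩ := exists_pow_eq_self_of_coprime hk
  rw [eq_top_iff]
  intro y _
  obtain ⟨j, rfl⟩ := hc y
  simp only
  have h1 : c ∈ Subgroup.zpowers (c ^ k) := by
    have h2 := Subgroup.pow_mem (Subgroup.zpowers (c ^ k)) (Subgroup.mem_zpowers (c ^ k)) m
    rwa [hm] at h2
  exact Subgroup.pow_mem _ h1 j

end GEN2

open GEN2 in
/-- Simultaneous generators. -/
theorem GEN2_thm : GEN2 := by
  intro N C₁ C₂ _ _ _ _ _ _ f₁ f₂ h₁ h₂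
  have : Finite C₁ := Finite.of_surjective f₁ h₁
  have : Finite C₂ := Finite.of_surjective f₂ h₂
  obtain ⟨c₁, hc₁⟩ := IsCyclic.exists_monoid_generator (α := C₁)
  obtain ⟨c₂, hc₂⟩ := IsCyclic.exists_monoid_generator (α := C₂)
  obtain ⟨a₁, ha₁⟩ := h₁ c₁
  obtain ⟨a₂, ha₂⟩ := h₂ c₂
  obtain ⟨u, hu⟩ := hc₁ (f₁ a₂)
  obtain ⟨v, hv⟩ := hc₂ (f₂ a₁)
  simp only at hu hv
  obtain ⟨s, t, hst⟩ := exists_pair (orderOf c₁ * orderOf c₂) u v
  have ho₁ : orderOf c₁ ≠ 0 := (orderOf_pos c₁).ne'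
  have ho₂ : orderOf c₂ ≠ 0 := (orderOf_pos c₂).ne'
  have hmem₁ : ∀ q : ℕ, q.Prime → q ∣ orderOf c₁ → q ∈ (orderOf c₁ * orderOf c₂).primeFactors :=
    fun q hq hd => Nat.mem_primeFactors.mpr ⟨hq, Dvd.dvd.mul_right hd _, mul_ne_zero ho₁ ho₂⟩
  have hmem₂ : ∀ q : ℕ, q.Prime → q ∣ orderOf c₂ → q ∈ (orderOf c₁ * orderOf c₂).primeFactors :=
    fun q hq hd => Nat.mem_primeFactors.mpr ⟨hq, Dvd.dvd.mul_left hd _, mul_ne_zero ho₁ ho₂⟩
  refine ⟨a₁ ^ s * a₂ ^ t, ?_, ?_⟩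
  · have he : f₁ (a₁ ^ s * a₂ ^ t) = c₁ ^ (s + u * t) := by
      rw [map_mul, map_pow, map_pow, ha₁, ← hu, ← pow_mul, ← pow_add]
    rw [he]
    apply zpowers_pow_eq_top c₁ hc₁
    by_contra hn
    obtain ⟨q, hq, hq1, hq2⟩ := Nat.Prime.not_coprime_iff_dvd.mp hn
    exact (hst q (hmem₁ q hq hq2)).1 hq1
  · have he : f₂ (a₁ ^ s * a₂ ^ t) = c₂ ^ (v * s + t) := by
      rw [map_mul, map_pow, map_pow, ha₂, ← hv, ← pow_mul, ← pow_add]
    rw [he]
    apply zpowers_pow_eq_top c₂ hc₂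
    by_contra hn
    obtain ⟨q, hq, hq1, hq2⟩ := Nat.Prime.not_coprime_iff_dvd.mp hn
    exact (hst q (hmem₂ q hq hq2)).2 hq1

end Pool.Agent.RI
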