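import Pool.Agent.RI.Stmts2

/-!
# Relative Iwasawa theorem: statements of the third part (explicit constant for `K / F` cyclic)
-/

open NumberField Finset IsDedekindDomain
open scoped nonZeroDivisors Pointwise

namespace Pool.Agent.RI

/-- GEN2C: the number of simultaneous generators. -/
def GEN2C : Prop := ∀ (N C : Type) [Group N] [Finite N] [Group C] [IsCyclic C]
    (f₁ f₂ : N →* C), Function.Surjective f₁ → Function.Surjective f₂ →
    (Nat.card C).totient ^ 2 * Nat.card N ≤
      Nat.card C ^ 2 * Nat.card {x : N // Subgroup.zpowers (f₁ x) = ⊤ ∧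
        Subgroup.zpowers (f₂ x) = ⊤}

/-- GALBC: counting version of GALB, for `k` any quadratic field and `F / ℚ` Galois. -/
def GALBC : Prop := ∀ (k F K : IntermediateField ℚ ℂ) [FiniteDimensional ℚ K] (hkF : k ≤ F)
    (hFK : F ≤ K), Module.finrank ℚ k = 2 →
    IsGalois k (IntermediateField.extendScalars (hkF.trans hFK)) →
    (∀ a b : (IntermediateField.extendScalars (hkF.trans hFK)) ≃ₐ[k]
      (IntermediateField.extendScalars (hkF.trans hFK)), a * b = b * a) →
    IsGalois ℚ F →
    IsCyclic ((IntermediateField.extendScalars hFK) ≃ₐ[F]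
      (IntermediateField.extendScalars hFK)) →
    ∃ L : IntermediateField ℚ ℂ, K ≤ L ∧ FiniteDimensional ℚ L ∧ IsGalois ℚ L ∧
      (Module.finrank F (IntermediateField.extendScalars hFK)).totient ^ 2 *
          Nat.card (L ≃ₐ[ℚ] L) ≤
        Module.finrank F (IntermediateField.extendScalars hFK) ^ 2 * Module.finrank ℚ F *
          Nat.card {σ : L ≃ₐ[ℚ] L // (∀ x : L, (x : ℂ) ∈ F → σ x = x) ∧ Good F K L σ}

/-- MAINB2: explicit density for `K / k` abelian, `k` quadratic, `K / F` cyclic, `F / ℚ` Galois;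
the primes of the set split completely in `F` (up to ramification). -/
def MAINB2 : Prop := ∀ (k F K : IntermediateField ℚ ℂ) [FiniteDimensional ℚ K] (hkF : k ≤ F)
    (hFK : F ≤ K) (m : ℕ), Module.finrank ℚ k = 2 →
    IsGalois k (IntermediateField.extendScalars (hkF.trans hFK)) →
    (∀ a b : (IntermediateField.extendScalars (hkF.trans hFK)) ≃ₐ[k]
      (IntermediateField.extendScalars (hkF.trans hFK)), a * b = b * a) →
    IsGalois ℚ F →
    IsCyclic ((IntermediateField.extendScalars hFK) ≃ₐ[F]
      (IntermediateField.extendScalars hFK)) →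
    Module.finrank F (IntermediateField.extendScalars hFK) = m →
    DensityGE {p : ℕ | (∀ P : Ideal (𝓞 F), P.IsPrime → (p : 𝓞 F) ∈ P → Nat.card (𝓞 F ⧸ P) = p) ∧
      ∀ (n : ℕ) (B : IntermediateField ℚ ℂ), IsLayer p n B →
        padicValNat p (classNo (K ⊔ B)) = padicValNat p (classNo (F ⊔ B))}
      (((m.totient : ℝ) / m) ^ 2 / Module.finrank ℚ F)

end Pool.Agent.RI
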